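import Pool.Agent.MJT.ExtDefs

/-!
The operators `Mo al k` and `H al r`, and the commutation rule of `Mo al k` with `Bx`.
-/

namespace Pool.Agent.MJT

open MvPolynomial Pool.Agent.MJR Pool.Agent.MJR.GradeM

noncomputable section

variable {K : Type} [Field K]

theorem Zf_apply (al : K) (G : LW K) : Zf al G = Z al G + Polynomial.C (Tr G) := rfl

theorem Zf_C (al : K) (f : Lam K) : Zf al (Polynomial.C f) = U al f := by
  rw [Zf_apply, Z_C, Tr_C, map_zero, add_zero]

theorem i0_apply (G : LW K) : i0 K G = G.coeff 0 := rfl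

theorem Mo_apply (al : K) (k : ℕ) (f : Lam K) :
    Mo al k f = i0 K ((Zf al ^ k) (Polynomial.C f)) := rfl

theorem Bx_apply (G : LW K) : Bx K G = Tr (Polynomial.X * G) := rfl

theorem Bs_apply (al : K) (f : Lam K) : Bs al f = Polynomial.divX (U al f) := rfl

theorem i0_Zf (al : K) (G : LW K) : i0 K (Zf al G) = Tr G := by
  rw [Zf_apply, map_add]
  have h : i0 K (Z al G) = 0 := by
    rw [i0_apply]
    induction G using Polynomial.induction_on' with
    | add p q hp hq => rw [map_add, Polynomial.coeff_add, hp, hq, add_zero]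
    | monomial j f =>
      rw [FormM.coeff_Z_monomial]
      rcases Nat.eq_zero_or_pos j with rfl | hj
      · simp
      · rw [if_neg (by omega), if_neg (by omega), if_neg (by omega)]
  rw [h, zero_add, i0_apply, Polynomial.coeff_C_zero]

theorem Tr_Zf_pow_C (al : K) (m : ℕ) (f : Lam K) :
    Tr ((Zf al ^ m) (Polynomial.C f)) = Mo al (m + 1) f := by
  rw [Mo_apply, pow_succ', Module.End.mul_apply, i0_Zf]

theorem Zf_pow_U (al : K) (r : ℕ) (f : Lam K) :
    (Zf al ^ r) (U al f) = (Z al ^ r) (U al f) +
      ∑ s ∈ Finset.range r, (Zf al ^ (r - 1 - s)) (Polynomial.C (H al s f)) := by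
  induction r with
  | zero => simp
  | succ r ih =>
    rw [pow_succ', Module.End.mul_apply, ih, map_add, map_sum, Finset.sum_range_succ, Zf_apply,
      pow_succ', Module.End.mul_apply, ← H_succ_apply]
    have e1 : ∀ s ∈ Finset.range r,
        Zf al ((Zf al ^ (r - 1 - s)) (Polynomial.C (H al s f))) =
          (Zf al ^ (r + 1 - 1 - s)) (Polynomial.C (H al s f)) := by
      intro s hs
      rw [Finset.mem_range] at hs
      have e2 : r + 1 - 1 - s = (r - 1 - s) + 1 := by omega
      rw [e2, pow_succ', Module.End.mul_apply]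
    rw [Finset.sum_congr rfl e1]
    have e3 : r + 1 - 1 - r = 0 := by omega
    rw [e3, pow_zero, Module.End.one_apply]
    abel

theorem Mo_zero (al : K) (f : Lam K) : Mo al 0 f = f := by
  rw [Mo_apply, pow_zero, Module.End.one_apply, i0_apply, Polynomial.coeff_C_zero]

theorem Mo_one (al : K) (f : Lam K) : Mo al 1 f = 0 := by
  rw [← Tr_Zf_pow_C al 0, pow_zero, Module.End.one_apply, Tr_C]

theorem Mo_succ (al : K) (r : ℕ) (f : Lam K) :
    Mo al (r + 2) f = H al r f + ∑ s ∈ Finset.range r, Mo al (r - s) (H al s f) := by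
  rw [← Tr_Zf_pow_C, pow_succ, Module.End.mul_apply, Zf_C, Zf_pow_U, map_add, map_sum,
    ← H_succ_apply]
  congr 1
  refine Finset.sum_congr rfl fun s hs => ?_
  rw [Finset.mem_range] at hs
  have e1 : r - 1 - s + 1 = r - s := by omega
  rw [Tr_Zf_pow_C, e1]

theorem Zf_T (al : K) {n : ℕ} {G : LW K} (hG : G ∈ T K n) : Zf al G ∈ T K n := by
  rw [Zf_apply]
  exact Submodule.add_mem _ (Z_T al hG) (C_S (Tr_T hG))

theorem Zf_pow_T (al : K) {n : ℕ} (k : ℕ) {G : LW K} (hG : G ∈ T K n) :
    (Zf al ^ k) G ∈ T K n := by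
  induction k with
  | zero => exact hG
  | succ k ih => rw [pow_succ', Module.End.mul_apply]; exact Zf_T al ih

theorem H_S (al : K) (r : ℕ) {n : ℕ} {f : Lam K} (hf : f ∈ S K n) : H al r f ∈ S K n := by
  rw [H_apply]
  exact Tr_T (Zpow_T al (r + 1) (C_S hf))

theorem i0_T {n : ℕ} {G : LW K} (hG : G ∈ T K n) : i0 K G ∈ S K n := by
  induction hG using Submodule.span_induction with
  | mem G hG =>
    obtain ⟨j, s, h0, hs, rfl⟩ := hG
    rw [i0_apply, Polynomial.coeff_monomial]
    split_ifs with hj
    · subst hj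
      exact mem_S h0 (by omega)
    · exact Submodule.zero_mem _
  | zero => rw [map_zero]; exact Submodule.zero_mem _
  | add a b _ _ ha hb => rw [map_add]; exact Submodule.add_mem _ ha hb
  | smul c a _ ha => rw [map_smul]; exact Submodule.smul_mem _ _ ha

theorem Mo_S (al : K) (k : ℕ) {n : ℕ} {f : Lam K} (hf : f ∈ S K n) : Mo al k f ∈ S K n :=
  i0_T (Zf_pow_T al k (C_S hf))

/-- An operator which commutes with all `Mo` commutes with all `H`. -/
theorem comm_H_of_Mo (al : K) {n : ℕ} (O : Lam K →ₗ[K] Lam K)
    (hO : ∀ k, ∀ f ∈ S K n, O (Mo al k f) = Mo al k (O f)) (r : ℕ) :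
    ∀ f ∈ S K n, O (H al r f) = H al r (O f) := by
  induction r using Nat.strong_induction_on with
  | _ r ih =>
    intro f hf
    have h1 := Mo_succ al r f
    have h2 := Mo_succ al r (O f)
    have h3 := hO (r + 2) f hf
    rw [h1, h2, map_add, map_sum] at h3
    have h4 : ∀ s ∈ Finset.range r, O (Mo al (r - s) (H al s f)) =
        Mo al (r - s) (H al s (O f)) := by
      intro s hs
      rw [Finset.mem_range] at hs
      rw [hO _ _ (H_S al s hf), ih s hs f hf]
    rw [Finset.sum_congr rfl h4] at h3
    exact add_right_cancel h3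

/-- An operator which commutes with all `H` commutes with all `Mo`. -/
theorem comm_Mo_of_H (al : K) {n : ℕ} (O : Lam K →ₗ[K] Lam K)
    (hO : ∀ r, ∀ f ∈ S K n, O (H al r f) = H al r (O f)) (k : ℕ) :
    ∀ f ∈ S K n, O (Mo al k f) = Mo al k (O f) := by
  induction k using Nat.strong_induction_on with
  | _ k ih =>
    intro f hf
    rcases k with _ | _ | r
    · rw [Mo_zero, Mo_zero]
    · rw [zero_add, Mo_one, Mo_one, map_zero]
    · rw [Mo_succ, Mo_succ, map_add, map_sum, hO r f hf]
      congr 1
      refine Finset.sum_congr rfl fun s hs => ?_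
      rw [ih (r - s) (by omega) _ (H_S al s hf), hO s f hf]

theorem Mo_comm (al : K) {n : ℕ}
    (hH : ∀ r s, ∀ f ∈ S K n, H al r (H al s f) = H al s (H al r f)) (k l : ℕ) :
    ∀ f ∈ S K n, Mo al k (Mo al l f) = Mo al l (Mo al k f) := by
  have h1 : ∀ (r l : ℕ), ∀ f ∈ S K n, H al r (Mo al l f) = Mo al l (H al r f) := by
    intro r l
    exact comm_Mo_of_H al (H al r) (fun s f hf => hH r s f hf) l
  exact comm_Mo_of_H al (Mo al k) (fun r f hf => (h1 r k f hf).symm) l

/-! ### The star formula -/

theorem Zf_X1_mul (al : K) (G : LW K) :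
    Zf al (Polynomial.C (X 1) * G) =
      Polynomial.C (X 1) * Zf al G + al • (Polynomial.X * G) := by
  have e1 : Polynomial.C (C (al * ((1 : ℕ) : K))) * Polynomial.X ^ 1 * G =
      al • (Polynomial.X * G) := by
    rw [Nat.cast_one, mul_one, pow_one, mul_assoc, ← Polynomial.smul_eq_C_mul, ← algebraMap_eq,
      algebraMap_smul]
  rw [Zf_apply, Zf_apply, Z_X_mul, Tr_C_mul, e1, Polynomial.C_mul]
  ring

theorem i0_C_mul (f : Lam K) (G : LW K) : i0 K (Polynomial.C f * G) = f * i0 K G := by
  rw [i0_apply, i0_apply, Polynomial.coeff_C_mul]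

theorem i0_X_mul (G : LW K) : i0 K (Polynomial.X * G) = 0 := by
  rw [i0_apply, Polynomial.coeff_X_mul_zero]

theorem exists_E (al : K) (k : ℕ) : ∃ p : ℕ → Polynomial K, ∀ G : LW K,
    i0 K ((Zf al ^ k) (Polynomial.X * G)) =
      ∑ a ∈ Finset.range k, Mo al a (Bx K ((Polynomial.aeval (Zf al) (p a)) G)) := by
  induction k with
  | zero =>
    refine ⟨0, fun G => ?_⟩
    rw [pow_zero, Module.End.one_apply, i0_X_mul, Finset.sum_range_zero]
  | succ k ih =>
    obtain ⟨p, hp⟩ := ih
    refine ⟨fun a => if a = k then 1 else p a * (Polynomial.X + Polynomial.C (al - 1)),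
      fun G => ?_⟩
    have e1 : Zf al (Polynomial.X * G) = Polynomial.X * (Zf al G + (al - 1) • G) +
        Polynomial.C (Bx K G) := by
      rw [AbsM.Zf_X_mul, mul_add, mul_smul_comm, Bx_apply]
    rw [pow_succ, Module.End.mul_apply, e1, map_add, map_add, hp, Finset.sum_range_succ]
    beta_reduce
    rw [if_pos rfl, map_one, Module.End.one_apply, ← Mo_apply]
    congr 1
    refine Finset.sum_congr rfl fun a ha => ?_
    rw [Finset.mem_range] at ha
    rw [if_neg (by omega), map_mul, Module.End.mul_apply]
    simp only [map_add, Polynomial.aeval_X, Polynomial.aeval_C, LinearMap.add_apply,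
      Module.algebraMap_end_apply]

theorem exists_F (al : K) (k : ℕ) : ∃ p : ℕ → Polynomial K, ∀ G : LW K,
    i0 K ((Zf al ^ k) (Polynomial.C (X 1) * G)) = X 1 * i0 K ((Zf al ^ k) G) +
      ∑ a ∈ Finset.range k, Mo al a (Bx K ((Polynomial.aeval (Zf al) (p a)) G)) := by
  induction k with
  | zero =>
    refine ⟨0, fun G => ?_⟩
    rw [pow_zero, Module.End.one_apply, i0_C_mul, Finset.sum_range_zero, add_zero]
    rfl
  | succ k ih =>
    obtain ⟨p, hp⟩ := ih
    obtain ⟨q, hq⟩ := exists_E al k
    refine ⟨fun a => if a = k then 0 else p a * Polynomial.X + al • q a, fun G => ?_⟩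
    rw [pow_succ, Module.End.mul_apply, Zf_X1_mul, map_add, map_smul, map_add, map_smul, hp, hq,
      Finset.sum_range_succ]
    beta_reduce
    rw [if_pos rfl, map_zero, LinearMap.zero_apply, map_zero, map_zero,
      add_zero, Module.End.mul_apply, add_assoc, Finset.smul_sum,
      ← Finset.sum_add_distrib]
    congr 1
    refine Finset.sum_congr rfl fun a ha => ?_
    rw [Finset.mem_range] at ha
    rw [if_neg (by omega), map_add, map_mul, Polynomial.aeval_X, map_smul, LinearMap.add_apply,
      Module.End.mul_apply, LinearMap.smul_apply, map_add, map_add, map_smul, map_smul]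

/-- `Th (w^a f) = Zf^a f` -/
def Th (al : K) : LW K →ₗ[K] LW K := Polynomial.lsum fun a => (Zf al ^ a) ∘ₗ cW

/-- the coefficientwise action of `Q` -/
def mu (Q : Lam K →ₗ[K] Lam K) : LW K →ₗ[K] LW K :=
  Polynomial.lsum fun a => ((Polynomial.monomial a).restrictScalars K) ∘ₗ Q

theorem Th_monomial (al : K) (a : ℕ) (f : Lam K) :
    Th al (Polynomial.monomial a f) = (Zf al ^ a) (Polynomial.C f) := by
  unfold Th
  rw [Polynomial.lsum_apply, Polynomial.sum_monomial_index]
  · rfl
  · exact map_zero _

theorem Th_C (al : K) (f : Lam K) : Th al (Polynomial.C f) = Polynomial.C f := by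
  rw [← Polynomial.monomial_zero_left, Th_monomial, pow_zero, Module.End.one_apply,
    Polynomial.monomial_zero_left]

theorem mu_monomial (Q : Lam K →ₗ[K] Lam K) (a : ℕ) (f : Lam K) :
    mu Q (Polynomial.monomial a f) = Polynomial.monomial a (Q f) := by
  unfold mu
  rw [Polynomial.lsum_apply, Polynomial.sum_monomial_index]
  · rfl
  · exact map_zero _

theorem Th_X_mul (al : K) (x : LW K) : Th al (Polynomial.X * x) = Zf al (Th al x) := by
  induction x using Polynomial.induction_on' with
  | add p q hp hq => rw [mul_add, map_add, hp, hq, map_add, map_add]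
  | monomial a f =>
    rw [Polynomial.X_mul_monomial, Th_monomial, Th_monomial, pow_succ', Module.End.mul_apply]

theorem mu_X_mul (Q : Lam K →ₗ[K] Lam K) (x : LW K) :
    mu Q (Polynomial.X * x) = Polynomial.X * mu Q x := by
  induction x using Polynomial.induction_on' with
  | add p q hp hq => rw [mul_add, map_add, hp, hq, map_add, mul_add]
  | monomial a f =>
    rw [Polynomial.X_mul_monomial, mu_monomial, mu_monomial, Polynomial.X_mul_monomial]

/-- the embedding of the polynomials over `K` -/
def io (K : Type) [Field K] : Polynomial K →+* LW K := Polynomial.mapRingHom C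

theorem Th_io (al : K) (p : Polynomial K) (x : LW K) :
    Th al (io K p * x) = (Polynomial.aeval (Zf al) p) (Th al x) := by
  induction p using Polynomial.induction_on' with
  | add p q hp hq => rw [map_add, add_mul, map_add, hp, hq, map_add, LinearMap.add_apply]
  | monomial m c =>
    have e1 : io K (Polynomial.monomial m c) * x = c • (Polynomial.X ^ m * x) := by
      unfold io
      rw [Polynomial.coe_mapRingHom, Polynomial.map_monomial, ← Polynomial.C_mul_X_pow_eq_monomial,
        mul_assoc, ← Polynomial.smul_eq_C_mul, ← algebraMap_eq, algebraMap_smul]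
    have e2 : ∀ m : ℕ, Th al (Polynomial.X ^ m * x) = (Zf al ^ m) (Th al x) := by
      intro m
      induction m with
      | zero => simp
      | succ m ih => rw [pow_succ', mul_assoc, Th_X_mul, ih, pow_succ', Module.End.mul_apply]
    rw [e1, map_smul, e2, Polynomial.aeval_monomial, Module.End.mul_apply,
      Module.algebraMap_end_apply]

theorem mu_io (Q : Lam K →ₗ[K] Lam K) (p : Polynomial K) (x : LW K) :
    mu Q (io K p * x) = io K p * mu Q x := by
  induction p using Polynomial.induction_on' with
  | add p q hp hq => rw [map_add, add_mul, map_add, hp, hq, add_mul]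
  | monomial m c =>
    have e1 : ∀ x, io K (Polynomial.monomial m c) * x = c • (Polynomial.X ^ m * x) := by
      intro x
      unfold io
      rw [Polynomial.coe_mapRingHom, Polynomial.map_monomial, ← Polynomial.C_mul_X_pow_eq_monomial,
        mul_assoc, ← Polynomial.smul_eq_C_mul, ← algebraMap_eq, algebraMap_smul]
    have e2 : ∀ m : ℕ, mu Q (Polynomial.X ^ m * x) = Polynomial.X ^ m * mu Q x := by
      intro m
      induction m with
      | zero => simp
      | succ m ih => rw [pow_succ', mul_assoc, mu_X_mul, ih, mul_assoc]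
    rw [e1, e1, map_smul, e2]

theorem Zf_aeval (al : K) (p : Polynomial K) (G : LW K) :
    Zf al ((Polynomial.aeval (Zf al) p) G) = (Polynomial.aeval (Zf al) p) (Zf al G) := by
  have h : (Zf al : Module.End K (LW K)) * Polynomial.aeval (Zf al) p =
      Polynomial.aeval (Zf al) p * Zf al := by
    have h1 : Polynomial.aeval (Zf al : Module.End K (LW K)) (Polynomial.X * p) =
        Polynomial.aeval (Zf al : Module.End K (LW K)) (p * Polynomial.X) := by
      rw [mul_comm]
    rw [map_mul, map_mul, Polynomial.aeval_X] at h1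
    exact h1
  exact LinearMap.congr_fun h G

theorem Dh_pow (al : K) {Dh : LW K →ₗ[K] LW K} (hD : DhatSt K al Dh) (k : ℕ) (G : LW K) :
    Dh ((Zf al ^ k) G) = (Zf al ^ k) (Dh G) := by
  induction k with
  | zero => rfl
  | succ k ih => rw [pow_succ', Module.End.mul_apply, Module.End.mul_apply, hD.z, ih]

theorem Dh_aeval (al : K) {Dh : LW K →ₗ[K] LW K} (hD : DhatSt K al Dh) (p : Polynomial K)
    (G : LW K) : Dh ((Polynomial.aeval (Zf al) p) G) = (Polynomial.aeval (Zf al) p) (Dh G) := by
  induction p using Polynomial.induction_on' with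
  | add p q hp hq => rw [map_add, LinearMap.add_apply, map_add, hp, hq, LinearMap.add_apply]
  | monomial m c =>
    rw [Polynomial.aeval_monomial, Module.End.mul_apply, Module.End.mul_apply,
      Module.algebraMap_end_apply, Module.algebraMap_end_apply, map_smul, Dh_pow al hD]

end

end Pool.Agent.MJT
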