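import Pool.Agent.MJT.ExtDefs

/-!
The form: the full Lax operator is symmetric, `Bs` is adjoint to `Bx`, and the form is
non degenerate on the elements of weight `n`.
-/

namespace Pool.Agent.MJT

open MvPolynomial Pool.Agent.MJR Pool.Agent.MJR.GradeM

noncomputable section

namespace FormExtM

open FormM

variable {K : Type} [Field K]

lemma coeff_Zf_monomial (al : K) (j l : ℕ) (f : Lam K) :
    (Zf al (Polynomial.monomial j f)).coeff l =
      if l = j then C ((al - 1) * j) * f else if j < l then C (al * ((l - j : ℕ) : K)) *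
        pderiv (l - j) f else X (j - l) * f := by
  have h0 : (Zf al (Polynomial.monomial j f)).coeff l =
      (Z al (Polynomial.monomial j f)).coeff l +
        (Polynomial.C (Tr (Polynomial.monomial j f))).coeff l := by
    rw [← Polynomial.coeff_add]
    rfl
  rw [h0, coeff_Z_monomial]
  rcases Nat.eq_zero_or_pos l with rfl | hl
  · rw [Polynomial.coeff_C_zero]
    rcases Nat.eq_zero_or_pos j with rfl | hj
    · have h : Tr (Polynomial.monomial 0 f) = 0 := by rw [Polynomial.monomial_zero_left, Tr_C]
      rw [h, if_pos rfl, if_pos rfl, add_zero]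
    · rw [if_neg hj.ne, if_neg (by omega), if_neg (by omega), if_neg hj.ne, if_neg (by omega),
        Tr_monomial j hj.ne', Nat.sub_zero, zero_add]
  · rw [Polynomial.coeff_C_ne_zero hl.ne', add_zero, if_pos (by omega : 1 ≤ l)]

lemma BW_Zf_monomial (al : K) (j l : ℕ) (f g : Lam K) :
    BW al (Zf al (Polynomial.monomial j f)) (Polynomial.monomial l g) =
      BW al (Polynomial.monomial j f) (Zf al (Polynomial.monomial l g)) := by
  rw [BW_symm, BW_monomial, BW_monomial, coeff_Zf_monomial, coeff_Zf_monomial]
  rcases lt_trichotomy l j with h | h | h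
  · rw [if_neg h.ne, if_neg (by omega), if_neg h.ne', if_pos h, B_symm, B_X_mul]
  · subst h
    rw [if_pos rfl, if_pos rfl, ← smul_eq_C_mul, ← smul_eq_C_mul, map_smul, map_smul, B_symm]
  · rw [if_neg h.ne', if_pos h, if_neg h.ne, if_neg (by omega), ← B_X_mul, B_symm]

lemma BW_Zf (al : K) (F G : LW K) : BW al (Zf al F) G = BW al F (Zf al G) := by
  induction F using Polynomial.induction_on' with
  | add p q hp hq =>
    rw [map_add, map_add, LinearMap.add_apply, hp, hq, map_add, LinearMap.add_apply]
  | monomial j f =>
    induction G using Polynomial.induction_on' with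
    | add p q hp hq => rw [map_add, hp, hq, map_add, map_add]
    | monomial l g => exact BW_Zf_monomial al j l f g

lemma BW_X_mul (al : K) (G F : LW K) :
    BW al (Polynomial.X * G) F = BW al G (Polynomial.divX F) := by
  induction G using Polynomial.induction_on' with
  | add p q hp hq =>
    rw [mul_add, map_add, LinearMap.add_apply, hp, hq, map_add, LinearMap.add_apply]
  | monomial j f =>
    rw [Polynomial.X_mul_monomial, BW_monomial, BW_monomial, Polynomial.coeff_divX]

/-- the multiset of a monomial -/
lemma mon_eq (s : Multiset ℕ) : mon K s = monomial (Multiset.toFinsupp s) 1 := by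
  induction s using Multiset.induction_on with
  | empty => rw [mon_zero]; simp
  | cons a s ih =>
    rw [mon_cons, ih, ← Multiset.singleton_add, map_add, Multiset.toFinsupp_singleton]
    rw [X, monomial_mul, one_mul]

lemma W_ne_zero [CharZero K] (al : K) (hal : al ≠ 0) {m : ℕ →₀ ℕ} (hm : m 0 = 0) : W al m ≠ 0 := by
  unfold W
  rw [Finsupp.prod, Finset.prod_ne_zero_iff]
  intro i hi
  have hi0 : i ≠ 0 := by
    rintro rfl
    exact (Finsupp.mem_support_iff.1 hi) hm
  refine mul_ne_zero (pow_ne_zero _ (mul_ne_zero hal (by exact_mod_cast hi0))) ?_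
  exact_mod_cast Nat.factorial_ne_zero _

/-- the support of the elements of weight `n` -/
lemma T_supp {n : ℕ} {G : LW K} (hG : G ∈ T K n) (j : ℕ) (m : ℕ →₀ ℕ)
    (h : ¬ (0 ∉ Finsupp.toMultiset m ∧ j + (Finsupp.toMultiset m).sum = n)) :
    coeff m (G.coeff j) = 0 := by
  classical
  induction hG using Submodule.span_induction with
  | mem G hG =>
    obtain ⟨i, s, h0, hs, rfl⟩ := hG
    rw [Polynomial.coeff_monomial]
    by_cases hij : i = j
    · rw [if_pos hij, mon_eq, coeff_monomial]
      by_cases hm : Multiset.toFinsupp s = m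
      · exfalso
        apply h
        rw [← hm, Multiset.toFinsupp_toMultiset]
        exact ⟨h0, by omega⟩
      · rw [if_neg hm]
    · rw [if_neg hij, coeff_zero]
  | zero => rw [Polynomial.coeff_zero, coeff_zero]
  | add a b _ _ ha hb => rw [Polynomial.coeff_add, coeff_add, ha, hb, add_zero]
  | smul c a _ ha => rw [Polynomial.coeff_smul, coeff_smul, ha, smul_zero]

end FormExtM

open FormExtM FormM in
theorem formExt (K : Type) [Field K] [CharZero K] (al : K) (hal : al ≠ 0) : FormExtSt K al := by
  refine ⟨BW_Zf al, ?_, ?_, ?_⟩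
  · intro G h
    have h1 : Bx K G = Tr (Polynomial.X * G) := rfl
    have h2 : Bs al h = Polynomial.divX (U al h) := rfl
    rw [h1, h2, B_Tr, BW_X_mul]
  · intro f G
    rw [← Polynomial.monomial_zero_left, BW_monomial]
    rfl
  · intro n G hG h
    apply Polynomial.ext
    intro j
    apply MvPolynomial.ext
    intro m
    rw [Polynomial.coeff_zero, coeff_zero]
    by_cases hm : 0 ∉ Finsupp.toMultiset m ∧ j + (Finsupp.toMultiset m).sum = n
    · have h1 := h _ (mem_T hm.1 hm.2)
      rw [BW_monomial, mon_eq, Finsupp.toMultiset_toFinsupp, B_monomial] at h1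
      rcases mul_eq_zero.1 h1 with h2 | h2
      · exfalso
        refine W_ne_zero al hal ?_ h2
        by_contra h3
        exact hm.1 ((Finsupp.mem_toMultiset _ _).2 (Finsupp.mem_support_iff.2 h3))
      · exact h2
    · exact T_supp hG j m hm

end

end Pool.Agent.MJT
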