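import Pool.Agent.MJT.ExtDefs

/-!
The constants of weight `n` generate everything of weight `n` under the full Lax operator.
-/

namespace Pool.Agent.MJT

open MvPolynomial Pool.Agent.MJR Pool.Agent.MJR.GradeM

noncomputable section

namespace GenM

variable {K : Type} [Field K]

/-- the full Lax operator on monomials -/
lemma Zf_mono (al : K) (j : ℕ) (f : Lam K) :
    Zf al (Polynomial.monomial j f) = Polynomial.monomial j (C ((al - 1) * j) * f) +
        Polynomial.X ^ j * U al f +
        ∑ a ∈ Finset.range j, Polynomial.monomial a (X (j - a) * f) := by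
  change Z al (Polynomial.monomial j f) + Polynomial.C (Tr (Polynomial.monomial j f)) = _
  rw [Z_monomial]
  rcases Nat.eq_zero_or_pos j with rfl | hj
  · have h : Tr (Polynomial.monomial 0 f) = 0 := by rw [Polynomial.monomial_zero_left, Tr_C]
    rw [h]
    simp
  · rw [Tr_monomial j hj.ne', Finset.range_eq_Ico, Finset.sum_eq_sum_Ico_succ_bot hj,
      Polynomial.monomial_zero_left, Nat.sub_zero]
    ring

/-- the error terms -/
def Er (K : Type) [Field K] (s : Multiset ℕ) : Submodule K (LW K) :=
  Submodule.span K {G | ∃ (k : ℕ) (t : Multiset ℕ), 2 ≤ k ∧ k ::ₘ t = s ∧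
    G = Polynomial.monomial k (mon K (1 ::ₘ t))}

lemma Er_mul {s : Multiset ℕ} (a : ℕ) {G : LW K} (hG : G ∈ Er K s) :
    Polynomial.C (X a) * G ∈ Er K (a ::ₘ s) := by
  induction hG using Submodule.span_induction with
  | mem G hG =>
    obtain ⟨k, t, hk, hs, rfl⟩ := hG
    refine Submodule.subset_span ⟨k, a ::ₘ t, hk, ?_, ?_⟩
    · rw [Multiset.cons_swap, hs]
    · rw [Polynomial.C_mul_monomial, ← mon_cons, Multiset.cons_swap]
  | zero => rw [mul_zero]; exact Submodule.zero_mem _
  | add x y _ _ hx hy => rw [mul_add]; exact Submodule.add_mem _ hx hy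
  | smul c x _ hx => rw [mul_smul_comm]; exact Submodule.smul_mem _ _ hx

lemma C_smul (c : K) (k : ℕ) (f : Lam K) :
    Polynomial.monomial k (C c * f) = c • (Polynomial.monomial k f : LW K) := by
  rw [← smul_eq_C_mul, Polynomial.smul_monomial]

lemma U_mon1 (al : K) (s : Multiset ℕ) (h0 : 0 ∉ s) :
    ∃ E ∈ Er K s, Polynomial.C (X 1) * U al (mon K s) =
      (al * (s.count 1 : K)) • (Polynomial.monomial 1 (mon K s) : LW K) + E := by
  induction s using Multiset.induction_on with
  | empty =>
    refine ⟨0, Submodule.zero_mem _, ?_⟩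
    rw [mon_zero, U_one]
    simp
  | cons a s ih =>
    rw [Multiset.mem_cons, not_or] at h0
    obtain ⟨E, hE, he⟩ := ih h0.2
    have h1 : Polynomial.C (X 1) * U al (mon K (a ::ₘ s)) =
        Polynomial.C (X a) * (Polynomial.C (X 1) * U al (mon K s)) +
          (al * (a : K)) • (Polynomial.monomial a (mon K (1 ::ₘ s)) : LW K) := by
      rw [mon_cons, U_mul, U_X, mon_cons, ← C_smul, mul_add,
        Polynomial.C_mul_monomial, Polynomial.C_mul_monomial]
      have e : (X 1 * (mon K s * C (al * (a : K))) : Lam K) = C (al * (a : K)) * (X 1 * mon K s) := by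
        ring
      rw [e]
      ring
    have h2 : Polynomial.C (X a) * (Polynomial.C (X 1) * U al (mon K s)) =
        (al * (s.count 1 : K)) • (Polynomial.monomial 1 (mon K (a ::ₘ s)) : LW K) +
          Polynomial.C (X a) * E := by
      rw [he, mul_add, mul_smul_comm, Polynomial.C_mul_monomial, mon_cons]
    by_cases ha : a = 1
    · subst ha
      refine ⟨Polynomial.C (X 1) * E, Er_mul 1 hE, ?_⟩
      rw [h1, h2, Multiset.count_cons_self]
      push_cast
      rw [mul_add, add_smul]
      abel_nf
    · refine ⟨Polynomial.C (X a) * E +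
          (al * (a : K)) • (Polynomial.monomial a (mon K (1 ::ₘ s)) : LW K),
        Submodule.add_mem _ (Er_mul a hE) (Submodule.smul_mem _ _ (Submodule.subset_span
          ⟨a, s, ?_, rfl, rfl⟩)), ?_⟩
      · have h3 : a ≠ 0 := fun h => h0.1 h.symm
        omega
      · rw [h1, h2, Multiset.count_cons_of_ne (fun h => ha h.symm), add_assoc]

/-- the key formula -/
lemma key (al : K) (i : ℕ) (s : Multiset ℕ) (h0 : 0 ∉ s) :
    ∃ E ∈ Er K s, (al * (1 + (s.count 1 : K))) • (Polynomial.monomial (i + 1) (mon K s) : LW K) =
      Zf al (Polynomial.monomial i (mon K (1 ::ₘ s))) -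
        ((al - 1) * i) • (Polynomial.monomial i (mon K (1 ::ₘ s)) : LW K) -
        Polynomial.X ^ i * E -
        ∑ a ∈ Finset.range i, Polynomial.monomial a (mon K ((i - a) ::ₘ 1 ::ₘ s)) := by
  obtain ⟨E, hE, he⟩ := U_mon1 al s h0
  refine ⟨E, hE, ?_⟩
  rw [Zf_mono, C_smul]
  have h1 : U al (mon K (1 ::ₘ s)) = (al * (1 + (s.count 1 : K))) •
      (Polynomial.monomial 1 (mon K s) : LW K) + E := by
    rw [mon_cons, U_mul, U_X, he, mul_add, mul_one, add_smul, Polynomial.C_mul_monomial]
    have e : (mon K s * C (al * ((1 : ℕ) : K)) : Lam K) = C al * mon K s := by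
      rw [Nat.cast_one, mul_one, mul_comm]
    rw [e, C_smul]
    abel
  have h2 : Polynomial.X ^ i * U al (mon K (1 ::ₘ s)) = (al * (1 + (s.count 1 : K))) •
      (Polynomial.monomial (i + 1) (mon K s) : LW K) + Polynomial.X ^ i * E := by
    rw [h1, mul_add, mul_smul_comm, Polynomial.X_pow_mul_monomial, add_comm 1 i]
  have h3 : ∀ a ∈ Finset.range i, (Polynomial.monomial a (mon K ((i - a) ::ₘ 1 ::ₘ s)) : LW K) =
      Polynomial.monomial a (X (i - a) * mon K (1 ::ₘ s)) := fun a _ => by
    rw [mon_cons (i - a)]
  rw [h2, Finset.sum_congr rfl h3]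
  abel

/-- the number of parts larger than one -/
def big (s : Multiset ℕ) : ℕ := (s.filter (fun k => k ≠ 1)).card

lemma big_one (s : Multiset ℕ) : big (1 ::ₘ s) = big s := by
  unfold big
  rw [Multiset.filter_cons_of_neg _ (by simp)]

lemma big_cons {k : ℕ} (hk : 2 ≤ k) (s : Multiset ℕ) : big (k ::ₘ s) = big s + 1 := by
  unfold big
  rw [Multiset.filter_cons_of_pos _ (by omega), Multiset.card_cons]

lemma card_le {s : Multiset ℕ} (h0 : 0 ∉ s) : s.card ≤ s.sum := by
  induction s using Multiset.induction_on with
  | empty => simp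
  | cons a s ih =>
    rw [Multiset.mem_cons, not_or] at h0
    rw [Multiset.card_cons, Multiset.sum_cons]
    have h1 := ih h0.2
    have h2 : a ≠ 0 := fun h => h0.1 h.symm
    omega

end GenM

open GenM in
theorem gen (K : Type) [Field K] [CharZero K] (al : K) (hal : al ≠ 0) : GenSt K al := by
  intro n V hV hZ
  have main : ∀ r : ℕ, ∀ q : ℕ, ∀ (j : ℕ) (s : Multiset ℕ), 0 ∉ s → j + s.sum = n →
      n ≤ s.card + r → big s ≤ q → (Polynomial.monomial j (mon K s) : LW K) ∈ V := by
    intro r
    induction r with
    | zero =>
      intro q j s h0 hs hr hq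
      have h1 := card_le h0
      have hj : j = 0 := by omega
      subst hj
      rw [Polynomial.monomial_zero_left]
      exact hV _ (mem_S h0 (by omega))
    | succ r ihr =>
      have step : ∀ (i : ℕ) (s : Multiset ℕ), 0 ∉ s → i + 1 + s.sum = n → n ≤ s.card + (r + 1) →
          (∀ (k : ℕ) (t : Multiset ℕ), 2 ≤ k → k ::ₘ t = s →
            (Polynomial.monomial (k + i) (mon K (1 ::ₘ t)) : LW K) ∈ V) →
          (Polynomial.monomial (i + 1) (mon K s) : LW K) ∈ V := by
        intro i s h0 hs hr hk
        obtain ⟨E, hE, he⟩ := key al i s h0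
        have h01 : 0 ∉ 1 ::ₘ s := by
          rw [Multiset.mem_cons]
          rintro (h | h)
          · exact absurd h (by decide)
          · exact h0 h
        have hm : (Polynomial.monomial i (mon K (1 ::ₘ s)) : LW K) ∈ V := by
          refine ihr _ i (1 ::ₘ s) h01 ?_ ?_ le_rfl
          · rw [Multiset.sum_cons]
            omega
          · rw [Multiset.card_cons]
            omega
        have hX : Polynomial.X ^ i * E ∈ V := by
          clear he
          induction hE using Submodule.span_induction with
          | mem G hG =>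
            obtain ⟨k, t, hk2, hs2, rfl⟩ := hG
            rw [Polynomial.X_pow_mul_monomial]
            exact hk k t hk2 hs2
          | zero => rw [mul_zero]; exact Submodule.zero_mem _
          | add x y _ _ hx hy => rw [mul_add]; exact Submodule.add_mem _ hx hy
          | smul c x _ hx => rw [mul_smul_comm]; exact Submodule.smul_mem _ _ hx
        have hall : (al * (1 + (s.count 1 : K))) • (Polynomial.monomial (i + 1) (mon K s) : LW K) ∈
            V := by
          rw [he]
          refine Submodule.sub_mem _ (Submodule.sub_mem _ (Submodule.sub_mem _ (hZ _ hm)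
            (Submodule.smul_mem _ _ hm)) hX) (Submodule.sum_mem _ fun a ha => ?_)
          rw [Finset.mem_range] at ha
          refine ihr _ a _ ?_ ?_ ?_ le_rfl
          · rw [Multiset.mem_cons]
            rintro (h | h)
            · omega
            · exact h01 h
          · rw [Multiset.sum_cons, Multiset.sum_cons]
            omega
          · rw [Multiset.card_cons, Multiset.card_cons]
            omega
        have hc : al * (1 + (s.count 1 : K)) ≠ 0 := by
          refine mul_ne_zero hal ?_
          have : ((1 + s.count 1 : ℕ) : K) ≠ 0 := by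
            exact_mod_cast (by omega : 1 + s.count 1 ≠ 0)
          push_cast at this
          exact this
        exact (Submodule.smul_mem_iff _ hc).1 hall
      intro q
      induction q with
      | zero =>
        intro j s h0 hs hr hq
        rcases Nat.eq_zero_or_pos j with rfl | hj
        · rw [Polynomial.monomial_zero_left]
          exact hV _ (mem_S h0 (by omega))
        · obtain ⟨i, rfl⟩ := Nat.exists_eq_succ_of_ne_zero hj.ne'
          refine step i s h0 hs hr fun k t hk hkt => ?_
          exfalso
          rw [← hkt, big_cons hk] at hq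
          omega
      | succ q ihq =>
        intro j s h0 hs hr hq
        rcases Nat.eq_zero_or_pos j with rfl | hj
        · rw [Polynomial.monomial_zero_left]
          exact hV _ (mem_S h0 (by omega))
        · obtain ⟨i, rfl⟩ := Nat.exists_eq_succ_of_ne_zero hj.ne'
          refine step i s h0 hs hr fun k t hk hkt => ?_
          subst hkt
          rw [big_cons hk] at hq
          rw [Multiset.sum_cons] at hs
          rw [Multiset.card_cons] at hr
          rw [Multiset.mem_cons, not_or] at h0
          refine ihq (k + i) (1 ::ₘ t) ?_ ?_ ?_ ?_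
          · rw [Multiset.mem_cons]
            rintro (h | h)
            · exact absurd h (by decide)
            · exact h0.2 h
          · rw [Multiset.sum_cons]
            omega
          · rw [Multiset.card_cons]
            exact hr
          · rw [big_one]
            omega
  intro G hG
  induction hG using Submodule.span_induction with
  | mem G hG =>
    obtain ⟨j, s, h0, hs, rfl⟩ := hG
    exact main n _ j s h0 hs (by omega) le_rfl
  | zero => exact Submodule.zero_mem _
  | add a b _ _ ha hb => exact Submodule.add_mem _ ha hb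
  | smul c a _ ha => exact Submodule.smul_mem _ _ ha

end

end Pool.Agent.MJT
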