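import Pool.Agent.MJT.ExtDefs

/-!
The Laplace operator with a root.
-/

namespace Pool.Agent.MJT

open MvPolynomial Pool.Agent.MJR

noncomputable section

variable {K : Type} [Field K]

/-- `f ↦ w^j f` -/
def mono (K : Type) [Field K] (j : ℕ) : Lam K →ₗ[K] LW K :=
  (Polynomial.monomial j).restrictScalars K

/-- The Laplace operator with a root. -/
def Dhat (al : K) : LW K →ₗ[K] LW K :=
  Polynomial.lsum fun j => mono K j ∘ₗ Dop al +
    ∑ s ∈ Finset.range j, LinearMap.mulLeft K (Polynomial.X ^ (s + 1) : LW K) ∘ₗ Zf al ∘ₗ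
      mono K (j - 1 - s)

namespace DhatM

lemma Dhat_monomial (al : K) (j : ℕ) (f : Lam K) :
    Dhat al (Polynomial.monomial j f) = Polynomial.monomial j (Dop al f) +
      ∑ s ∈ Finset.range j, Polynomial.X ^ (s + 1) *
        Zf al (Polynomial.monomial (j - 1 - s) f) := by
  unfold Dhat
  rw [Polynomial.lsum_apply, Polynomial.sum_monomial_index]
  · rw [LinearMap.add_apply, LinearMap.sum_apply]
    rfl
  · exact map_zero _

lemma Dhat_w (al : K) (G : LW K) :
    Dhat al (Polynomial.X * G) = Polynomial.X * Dhat al G + Polynomial.X * Zf al G := by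
  induction G using Polynomial.induction_on' with
  | add p q hp hq =>
    simp only [mul_add, map_add, hp, hq]
    abel
  | monomial j f =>
    rw [Polynomial.X_mul_monomial, Dhat_monomial, Dhat_monomial, Finset.sum_range_succ',
      ← Polynomial.X_mul_monomial, mul_add, Finset.mul_sum, zero_add, pow_one]
    have e1 : j + 1 - 1 - 0 = j := by omega
    have e2 : ∀ s ∈ Finset.range j, (Polynomial.X ^ (s + 1 + 1) *
        Zf al (Polynomial.monomial (j + 1 - 1 - (s + 1)) f) : LW K) =
        Polynomial.X * (Polynomial.X ^ (s + 1) * Zf al (Polynomial.monomial (j - 1 - s) f)) := by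
      intro s _
      have e3 : j + 1 - 1 - (s + 1) = j - 1 - s := by omega
      rw [e3]
      ring
    rw [e1, Finset.sum_congr rfl e2]
    ring

lemma Dhat_C (al : K) (f : Lam K) :
    Dhat al (Polynomial.C f) = Polynomial.C (Dop al f) := by
  rw [← Polynomial.monomial_zero_left, Dhat_monomial, Finset.range_zero, Finset.sum_empty,
    add_zero, Polynomial.monomial_zero_left]

lemma Dhat_i (al : K) (G : LW K) : i0 K (Dhat al G) = Dop al (i0 K G) := by
  have h0 : ∀ G : LW K, i0 K G = G.coeff 0 := fun _ => rfl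
  induction G using Polynomial.induction_on' with
  | add p q hp hq => simp only [map_add, hp, hq]
  | monomial j f =>
    rcases Nat.eq_zero_or_pos j with rfl | hj
    · rw [Polynomial.monomial_zero_left, Dhat_C, h0, h0, Polynomial.coeff_C_zero,
        Polynomial.coeff_C_zero]
    · rw [h0, h0, Polynomial.coeff_monomial, if_neg (by omega), map_zero, Dhat_monomial,
        Polynomial.coeff_add, Polynomial.coeff_monomial, if_neg (by omega), zero_add,
        Polynomial.finsetSum_coeff]
      refine Finset.sum_eq_zero fun s _ => ?_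
      rw [pow_succ', mul_assoc, Polynomial.coeff_X_mul_zero]

/-! ### The commutator of `Dop` with `p_k` -/

/-- `∑ p_a p_(k-a)` -/
def Qk (K : Type) [Field K] (k : ℕ) : Lam K := ∑ a ∈ Finset.Ico 1 k, X a * X (k - a)

lemma Tr_Xpow_mul_monomial (k j : ℕ) (h : k + j ≠ 0) (f : Lam K) :
    Tr (Polynomial.X ^ k * Polynomial.monomial j f) = X (k + j) * f := by
  rw [Polynomial.X_pow_mul_monomial, Tr_monomial _ (by omega), add_comm]

lemma Tr_smul (c : K) (G : LW K) : Tr (c • G) = c • Tr G := map_smul _ _ _

lemma CC_smul (c : K) (G : LW K) : Polynomial.C (C c) * G = c • G := by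
  rw [← Polynomial.smul_eq_C_mul, ← algebraMap_eq, algebraMap_smul]

lemma H_one_X_mul (al : K) {k : ℕ} (hk : k ≠ 0) (f : Lam K) :
    H al 1 (X k * f) = X k * H al 1 f + (2 * al * (k : K)) • Tr (Polynomial.X ^ k * U al f) +
      (al * (al - 1) * (k : K) ^ 2) • (X k * f) + (al * (k : K)) • (Qk K k * f) := by
  have hH : ∀ f : Lam K, H al 1 f = Tr (Z al (U al f)) := by
    intro f
    rw [H_succ_apply, pow_one]
  rw [hH, hH, U_mul, U_X, map_add, Z_X_mul]
  have e1 : Polynomial.C f * Polynomial.monomial k (C (al * (k : K))) =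
      (al * (k : K)) • Polynomial.monomial k f := by
    rw [← CC_smul, Polynomial.C_mul_monomial, Polynomial.C_mul_monomial, mul_comm]
  rw [e1, map_smul, Z_monomial, map_add, map_add, Tr_C_mul, map_smul, map_add, map_add,
    Tr_monomial k hk, map_sum, mul_assoc, CC_smul, Tr_smul]
  have e2 : ∑ a ∈ Finset.Ico 1 k, Tr (Polynomial.monomial a (X (k - a) * f)) = Qk K k * f := by
    unfold Qk
    rw [Finset.sum_mul]
    refine Finset.sum_congr rfl fun a ha => ?_
    rw [Finset.mem_Ico] at ha
    rw [Tr_monomial a (by omega)]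
    ring
  rw [e2]
  simp only [smul_eq_C_mul, smul_add, map_mul, map_pow, map_natCast, map_ofNat]
  ring

lemma Dop_X_mul (al : K) [CharZero K] (hal : al ≠ 0) {k : ℕ} (hk : k ≠ 0) (f : Lam K) :
    Dop al (X k * f) = X k * Dop al f + (k : K) • Tr (Polynomial.X ^ k * U al f) +
      ((al - 1) * ((k : K) * ((k : K) - 1) / 2)) • (X k * f) +
      ((k : K) / 2) • (Qk K k * f) := by
  have hD : ∀ f : Lam K, Dop al f = (2 * al)⁻¹ • H al 1 f - ((al - 1) / 2) • E K f :=
    fun _ => rfl
  rw [hD, hD, H_one_X_mul al hk, E_X_mul]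
  have h2 : (2 : K) ≠ 0 := two_ne_zero
  have e1 : (2 * al)⁻¹ * (2 * al * (k : K)) = (k : K) := by field_simp
  have e2 : (2 * al)⁻¹ * (al * (al - 1) * (k : K) ^ 2) = (al - 1) * (k : K) ^ 2 / 2 := by
    field_simp
  have e3 : (2 * al)⁻¹ * (al * (k : K)) = (k : K) / 2 := by field_simp
  rw [smul_add, smul_add, smul_add, smul_smul, smul_smul, smul_smul, e1, e2, e3]
  have e4 : C (k : K) * (X k * f) = (k : K) • (X k * f) := (smul_eq_C_mul _ _).symm
  rw [e4, mul_sub, mul_smul_comm, mul_smul_comm]
  module

lemma Ico_reflect {V : Type} [AddCommMonoid V] (k : ℕ) (g : ℕ → ℕ → V) :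
    ∑ a ∈ Finset.Ico 1 k, g a (k - a) = ∑ a ∈ Finset.Ico 1 k, g (k - a) a := by
  refine Finset.sum_nbij' (fun a => k - a) (fun a => k - a) ?_ ?_ ?_ ?_ ?_
  · intro a ha
    rw [Finset.mem_Ico] at ha ⊢
    omega
  · intro a ha
    rw [Finset.mem_Ico] at ha ⊢
    omega
  · intro a ha
    rw [Finset.mem_Ico] at ha
    omega
  · intro a ha
    rw [Finset.mem_Ico] at ha
    omega
  · intro a ha
    rw [Finset.mem_Ico] at ha
    have e : k - (k - a) = a := by omega
    simp only [e]

lemma Qk_symm [CharZero K] (k : ℕ) :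
    ∑ a ∈ Finset.Ico 1 k, (a : K) • (X a * X (k - a) : Lam K) = ((k : K) / 2) • Qk K k := by
  have h2 : (2 : K) ≠ 0 := two_ne_zero
  have e1 := Ico_reflect k (fun a b => (a : K) • (X a * X b : Lam K))
  have e2 : ∑ a ∈ Finset.Ico 1 k, (a : K) • (X a * X (k - a) : Lam K) +
      ∑ a ∈ Finset.Ico 1 k, (a : K) • (X a * X (k - a) : Lam K) = (k : K) • Qk K k := by
    conv_lhs => rw [e1]
    conv_lhs => rw [← e1]
    have e3 : ∑ a ∈ Finset.Ico 1 k, (a : K) • (X a * X (k - a) : Lam K) +
      ∑ a ∈ Finset.Ico 1 k, (a : K) • (X a * X (k - a) : Lam K) =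
      ∑ a ∈ Finset.Ico 1 k, (a : K) • (X a * X (k - a) : Lam K) +
      ∑ a ∈ Finset.Ico 1 k, ((k - a : ℕ) : K) • (X (k - a) * X a : Lam K) := by
      rw [← e1]
    rw [e3, ← Finset.sum_add_distrib]
    unfold Qk
    rw [Finset.smul_sum]
    refine Finset.sum_congr rfl fun a ha => ?_
    rw [Finset.mem_Ico] at ha
    rw [Nat.cast_sub ha.2.le, mul_comm (X (k - a))]
    module
  have e4 : (2 : K) • ∑ a ∈ Finset.Ico 1 k, (a : K) • (X a * X (k - a) : Lam K) =
      (k : K) • Qk K k := by
    rw [two_smul]
    exact e2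
  have e5 := congrArg (fun x => (2 : K)⁻¹ • x) e4
  simp only [smul_smul] at e5
  rw [inv_mul_cancel₀ h2, one_smul] at e5
  rw [e5]
  congr 1
  ring

lemma U_Qk (al : K) (k : ℕ) : U al (Qk K k) =
    (2 * al) • ∑ a ∈ Finset.Ico 1 k, (a : K) • Polynomial.monomial a (X (k - a) : Lam K) := by
  unfold Qk
  rw [map_sum]
  have hm : ∀ (g : Lam K) (b : ℕ), Polynomial.C g * Polynomial.monomial b (C (al * (b : K))) =
      (al * (b : K)) • Polynomial.monomial b g := by
    intro g b
    rw [← CC_smul, Polynomial.C_mul_monomial, Polynomial.C_mul_monomial, mul_comm]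
  have e1 : ∀ a ∈ Finset.Ico 1 k, U al (X a * X (k - a) : Lam K) =
      (al * ((k - a : ℕ) : K)) • Polynomial.monomial (k - a) (X a : Lam K) +
      (al * (a : K)) • Polynomial.monomial a (X (k - a) : Lam K) := by
    intro a _
    rw [U_mul, U_X, U_X, hm, hm]
  have e2 : ∑ a ∈ Finset.Ico 1 k,
      (al * ((k - a : ℕ) : K)) • Polynomial.monomial (k - a) (X a : Lam K) =
      ∑ a ∈ Finset.Ico 1 k, (al * (a : K)) • Polynomial.monomial a (X (k - a) : Lam K) :=
    Ico_reflect k (fun a b : ℕ => (al * (b : K)) • Polynomial.monomial b (X a : Lam K))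
  rw [Finset.sum_congr rfl e1, Finset.sum_add_distrib, e2, Finset.smul_sum,
    ← Finset.sum_add_distrib]
  refine Finset.sum_congr rfl fun a _ => ?_
  module

lemma Zf_monomial (al : K) (j : ℕ) (f : Lam K) :
    Zf al (Polynomial.monomial j f) = ((al - 1) * (j : K)) • Polynomial.monomial j f +
      Polynomial.X ^ j * U al f +
        ∑ a ∈ Finset.range j, Polynomial.monomial a (X (j - a) * f) := by
  have hZ : ∀ G : LW K, Zf al G = Z al G + Polynomial.C (Tr G) := fun _ => rfl
  rw [hZ, Z_monomial, ← Polynomial.C_mul_monomial, CC_smul]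
  rcases Nat.eq_zero_or_pos j with rfl | hj
  · rw [Polynomial.monomial_zero_left, Tr_C]
    simp
  · rw [Tr_monomial j (by omega), Finset.range_eq_Ico, Finset.sum_eq_sum_Ico_succ_bot hj,
      Nat.sub_zero, Polynomial.monomial_zero_left]
    abel

lemma Zf_CX_mul (al : K) (k : ℕ) (G : LW K) : Zf al (Polynomial.C (X k) * G) =
    Polynomial.C (X k) * Zf al G + (al * (k : K)) • (Polynomial.X ^ k * G) := by
  have hZ : ∀ G : LW K, Zf al G = Z al G + Polynomial.C (Tr G) := fun _ => rfl
  rw [hZ, hZ, Z_X_mul, Tr_C_mul, mul_assoc, CC_smul, map_mul]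
  ring

/-- The closed formula. -/
lemma Dhat_mono [CharZero K] (al : K) (j : ℕ) (f : Lam K) :
    Dhat al (Polynomial.monomial j f) = Polynomial.monomial j (Dop al f) +
      ∑ a ∈ Finset.Ico 1 j, (a : K) • Polynomial.monomial a (X (j - a) * f) +
      ((al - 1) * ((j : K) * ((j : K) - 1) / 2)) • Polynomial.monomial j f +
      (j : K) • (Polynomial.X ^ j * U al f) := by
  have h2 : (2 : K) ≠ 0 := two_ne_zero
  induction j with
  | zero =>
    rw [Polynomial.monomial_zero_left, Dhat_C]
    simp
  | succ j ih =>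
    rw [← Polynomial.X_mul_monomial, Dhat_w, ih, Zf_monomial]
    have e1 : ∑ a ∈ Finset.Ico 1 (j + 1), (a : K) • Polynomial.monomial a
          ((X (j + 1 - a) : Lam K) * f) =
        Polynomial.X * ∑ a ∈ Finset.Ico 1 j, (a : K) • Polynomial.monomial a
          ((X (j - a) : Lam K) * f) +
        Polynomial.X * ∑ a ∈ Finset.range j, Polynomial.monomial a
          ((X (j - a) : Lam K) * f) := by
      have e2 : (Finset.Ico 1 (j + 1)).sum (fun a => (a : K) • Polynomial.monomial a
          ((X (j + 1 - a) : Lam K) * f)) =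
          (Finset.Ico 0 j).sum (fun a => ((a + 1 : ℕ) : K) • Polynomial.monomial (a + 1)
          ((X (j + 1 - (a + 1)) : Lam K) * f)) :=
        (Finset.sum_Ico_add' (fun a : ℕ => (a : K) • Polynomial.monomial a
          ((X (j + 1 - a) : Lam K) * f)) 0 j 1).symm
      have e3 : (Finset.Ico 1 j).sum (fun a => (a : K) • Polynomial.monomial a
          ((X (j - a) : Lam K) * f)) = (Finset.range j).sum (fun a => (a : K) •
          Polynomial.monomial a ((X (j - a) : Lam K) * f)) := by
        rcases Nat.eq_zero_or_pos j with rfl | hj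
        · simp
        · rw [Finset.range_eq_Ico, Finset.sum_eq_sum_Ico_succ_bot hj, Nat.cast_zero, zero_smul,
            zero_add]
      rw [e2, e3, ← Finset.range_eq_Ico, Finset.mul_sum, Finset.mul_sum,
        ← Finset.sum_add_distrib]
      refine Finset.sum_congr rfl fun a ha => ?_
      have e4 : j + 1 - (a + 1) = j - a := by omega
      rw [e4, ← Polynomial.X_mul_monomial, mul_smul_comm]
      push_cast
      module
    rw [e1, ← Polynomial.X_mul_monomial]
    simp only [mul_add, mul_smul_comm]
    have e5 : Polynomial.X * (Polynomial.X ^ j * U al f) = Polynomial.X ^ (j + 1) * U al f := by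
      ring
    rw [e5]
    push_cast
    module

lemma Dhat_t [CharZero K] (al : K) (hal : al ≠ 0) (G : LW K) :
    Tr (Dhat al G) = Dop al (Tr G) := by
  induction G using Polynomial.induction_on' with
  | add p q hp hq => simp only [map_add, hp, hq]
  | monomial j f =>
    rcases Nat.eq_zero_or_pos j with rfl | hj
    · rw [Polynomial.monomial_zero_left, Dhat_C, Tr_C, Tr_C, map_zero]
    · rw [Tr_monomial j (by omega), Dop_X_mul al hal (by omega), Dhat_mono, map_add, map_add,
        map_add, Tr_monomial j (by omega), map_smul, map_smul, Tr_monomial j (by omega), map_sum]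
      have e1 : ∑ a ∈ Finset.Ico 1 j, Tr ((a : K) • Polynomial.monomial a (X (j - a) * f)) =
          ((j : K) / 2) • (Qk K j * f) := by
        have e2 : ∑ a ∈ Finset.Ico 1 j, Tr ((a : K) • Polynomial.monomial a (X (j - a) * f)) =
            (∑ a ∈ Finset.Ico 1 j, (a : K) • (X a * X (j - a) : Lam K)) * f := by
          rw [Finset.sum_mul]
          refine Finset.sum_congr rfl fun a ha => ?_
          rw [Finset.mem_Ico] at ha
          rw [map_smul, Tr_monomial a (by omega), smul_mul_assoc, mul_assoc]
        rw [e2, Qk_symm, smul_mul_assoc]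
      rw [e1]
      module

/-! ### The base of the commutation with `Zf` -/

/-- `w^j h ↦ w^j Tr (w^k U h)` -/
def TU (al : K) (k : ℕ) : LW K →ₗ[K] LW K :=
  Polynomial.lsum fun j => mono K j ∘ₗ Tr ∘ₗ LinearMap.mulLeft K (Polynomial.X ^ k : LW K) ∘ₗ
    (U al).toLinearMap

/-- `w^j h ↦ p_(k+j) U h` -/
def PU (al : K) (k : ℕ) : LW K →ₗ[K] LW K :=
  Polynomial.lsum fun j => LinearMap.mulLeft K (Polynomial.C (X (k + j)) : LW K) ∘ₗ
    (U al).toLinearMap

/-- `w^j h ↦ j w^j h` -/
def Th (K : Type) [Field K] : LW K →ₗ[K] LW K :=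
  Polynomial.lsum fun j => (j : K) • mono K j

lemma TU_monomial (al : K) (k j : ℕ) (h : Lam K) : TU al k (Polynomial.monomial j h) =
    Polynomial.monomial j (Tr (Polynomial.X ^ k * U al h)) := by
  unfold TU
  rw [Polynomial.lsum_apply, Polynomial.sum_monomial_index]
  · rfl
  · exact map_zero _

lemma PU_monomial (al : K) (k j : ℕ) (h : Lam K) : PU al k (Polynomial.monomial j h) =
    Polynomial.C (X (k + j)) * U al h := by
  unfold PU
  rw [Polynomial.lsum_apply, Polynomial.sum_monomial_index]
  · rfl
  · exact map_zero _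

lemma Th_monomial (j : ℕ) (h : Lam K) : Th K (Polynomial.monomial j h) =
    (j : K) • Polynomial.monomial j h := by
  unfold Th
  rw [Polynomial.lsum_apply, Polynomial.sum_monomial_index]
  · rfl
  · exact map_zero _

lemma U_X_mul (al : K) (m : ℕ) (f : Lam K) : U al (X m * f) =
    Polynomial.C (X m) * U al f + (al * (m : K)) • Polynomial.monomial m f := by
  rw [U_mul, U_X, ← CC_smul, Polynomial.C_mul_monomial, Polynomial.C_mul_monomial, mul_comm f]

lemma TU_CX (al : K) {k : ℕ} (hk : k ≠ 0) (m : ℕ) (G : LW K) :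
    TU al k (Polynomial.C (X m) * G) = Polynomial.C (X m) * TU al k G +
      (al * (m : K)) • (Polynomial.C (X (k + m)) * G) := by
  induction G using Polynomial.induction_on' with
  | add p q hp hq =>
    simp only [mul_add, map_add, hp, hq, smul_add]
    abel
  | monomial j h =>
    rw [Polynomial.C_mul_monomial, TU_monomial, TU_monomial, U_X_mul, mul_add, map_add,
      mul_smul_comm, map_smul, Tr_Xpow_mul_monomial k m (by omega), map_add,
      Polynomial.C_mul_monomial, Polynomial.C_mul_monomial, Polynomial.smul_monomial]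
    have e1 : Polynomial.X ^ k * (Polynomial.C (X m) * U al h) =
        Polynomial.C (X m) * (Polynomial.X ^ k * U al h) := by ring
    rw [e1, Tr_C_mul]

lemma PU_CX (al : K) {k : ℕ} (hk : k ≠ 0) (m : ℕ) (G : LW K) :
    PU al k (Polynomial.C (X m) * G) = Polynomial.C (X m) * PU al k G +
      (al * (m : K)) • Polynomial.monomial m (Tr (Polynomial.X ^ k * G)) := by
  induction G using Polynomial.induction_on' with
  | add p q hp hq =>
    simp only [mul_add, map_add, hp, hq, smul_add]
    abel
  | monomial j h =>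
    rw [Polynomial.C_mul_monomial, PU_monomial, PU_monomial, U_X_mul, mul_add,
      Tr_Xpow_mul_monomial k j (by omega), mul_smul_comm, Polynomial.C_mul_monomial]
    ring

lemma TU_U (al : K) {k : ℕ} (hk : k ≠ 0) (f : Lam K) : TU al k (U al f) = PU al k (U al f) := by
  induction f using MvPolynomial.induction_on with
  | C c => rw [U_C, map_zero, map_zero]
  | add p q hp hq => simp only [map_add, hp, hq]
  | mul_X p m hp =>
    rw [mul_comm, U_X_mul, map_add, map_add, TU_CX al hk, PU_CX al hk, map_smul, map_smul,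
      TU_monomial, PU_monomial, hp]
    abel

lemma U_Tr (al : K) {k : ℕ} (hk : k ≠ 0) (G : LW K) : U al (Tr (Polynomial.X ^ k * G)) =
    PU al k G + al • (Polynomial.X ^ k * ((k : K) • G + Th K G)) := by
  induction G using Polynomial.induction_on' with
  | add p q hp hq =>
    simp only [mul_add, map_add, hp, hq, smul_add]
    abel
  | monomial j h =>
    rw [Tr_Xpow_mul_monomial k j (by omega), U_X_mul, PU_monomial, Th_monomial, ← add_smul,
      mul_smul_comm, Polynomial.X_pow_mul_monomial, add_comm j k, smul_smul]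
    push_cast
    rfl

/-- The commutator of `Dhat` with `p_k`. -/
lemma Dhat_CX [CharZero K] (al : K) (hal : al ≠ 0) {k : ℕ} (hk : k ≠ 0) (G : LW K) :
    Dhat al (Polynomial.C (X k) * G) = Polynomial.C (X k) * Dhat al G + (k : K) • TU al k G +
      ((al - 1) * ((k : K) * ((k : K) - 1) / 2)) • (Polynomial.C (X k) * G) +
      ((k : K) / 2) • (Polynomial.C (Qk K k) * G) +
      (al * (k : K)) • (Polynomial.X ^ k * Th K G) := by
  induction G using Polynomial.induction_on' with
  | add p q hp hq =>
    simp only [mul_add, map_add, hp, hq, smul_add]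
    abel
  | monomial j h =>
    induction j with
    | zero =>
      have e0 : Polynomial.C (X k : Lam K) * Polynomial.monomial 0 h = Polynomial.C (X k * h) := by
        rw [Polynomial.monomial_zero_left, map_mul]
      rw [e0, Dhat_C, Dop_X_mul al hal hk, Th_monomial, TU_monomial, Polynomial.monomial_zero_left,
        Dhat_C]
      simp only [map_add, map_mul, Nat.cast_zero, zero_smul, mul_zero, smul_zero, add_zero,
        ← Polynomial.smul_C, Polynomial.monomial_zero_left]
    | succ j ih =>
      have e0 : Polynomial.C (X k : Lam K) * (Polynomial.X * Polynomial.monomial j h) =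
          Polynomial.X * (Polynomial.C (X k) * Polynomial.monomial j h) := by ring
      have e1 : TU al k (Polynomial.X * Polynomial.monomial j h) =
          Polynomial.X * TU al k (Polynomial.monomial j h) := by
        rw [Polynomial.X_mul_monomial, TU_monomial, TU_monomial, Polynomial.X_mul_monomial]
      have e2 : Th K (Polynomial.X * Polynomial.monomial j h) =
          Polynomial.X * Th K (Polynomial.monomial j h) +
            Polynomial.X * Polynomial.monomial j h := by
        rw [Polynomial.X_mul_monomial, Th_monomial, Th_monomial, mul_smul_comm,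
          Polynomial.X_mul_monomial]
        push_cast
        module
      rw [← Polynomial.X_mul_monomial, e0, Dhat_w, Dhat_w, ih, Zf_CX_mul, e1, e2]
      simp only [mul_add, mul_smul_comm, smul_add]
      have e3 : ∀ A : LW K, Polynomial.X ^ k * (Polynomial.X * A) =
          Polynomial.X * (Polynomial.X ^ k * A) := by
        intro A
        ring
      have e4 : ∀ A : LW K, Polynomial.C (X k : Lam K) * (Polynomial.X * A) =
          Polynomial.X * (Polynomial.C (X k) * A) := by
        intro A
        ring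
      have e5 : ∀ A : LW K, Polynomial.C (Qk K k) * (Polynomial.X * A) =
          Polynomial.X * (Polynomial.C (Qk K k) * A) := by
        intro A
        ring
      simp only [e3, e4, e5]
      abel

lemma Dop_C (al c : K) : Dop al (C c) = 0 := by
  have e1 : (C c : Lam K) = c • 1 := by rw [smul_eq_C_mul, mul_one]
  have hD : ∀ f : Lam K, Dop al f = (2 * al)⁻¹ • H al 1 f - ((al - 1) / 2) • E K f :=
    fun _ => rfl
  rw [e1, map_smul, hD, H_one, E_one]
  simp

lemma Dop_X_zero (al : K) (f : Lam K) : Dop al (X 0 * f) = X 0 * Dop al f := by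
  have hD : ∀ f : Lam K, Dop al f = (2 * al)⁻¹ • H al 1 f - ((al - 1) / 2) • E K f :=
    fun _ => rfl
  have hH : ∀ f : Lam K, H al 1 f = Tr (Z al (U al f)) := by
    intro f
    rw [H_succ_apply, pow_one]
  rw [hD, hD, hH, hH, U_X_mul, Nat.cast_zero, mul_zero, zero_smul, add_zero, Z_X_mul, E_X_mul,
    Nat.cast_zero, mul_zero, C_0, map_zero, zero_mul, zero_mul, add_zero, zero_mul, add_zero,
    Tr_C_mul, mul_sub, mul_smul_comm, mul_smul_comm]

lemma Dhat_X_zero (al : K) (G : LW K) :
    Dhat al (Polynomial.C (X 0) * G) = Polynomial.C (X 0) * Dhat al G := by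
  induction G using Polynomial.induction_on' with
  | add p q hp hq => simp only [mul_add, map_add, hp, hq]
  | monomial j h =>
    induction j with
    | zero =>
      rw [Polynomial.monomial_zero_left, ← map_mul, Dhat_C, Dhat_C, Dop_X_zero, map_mul]
    | succ j ih =>
      have e0 : Polynomial.C (X 0 : Lam K) * (Polynomial.X * Polynomial.monomial j h) =
          Polynomial.X * (Polynomial.C (X 0) * Polynomial.monomial j h) := by ring
      rw [← Polynomial.X_mul_monomial, e0, Dhat_w, Dhat_w, ih, Zf_CX_mul]
      simp only [Nat.cast_zero, mul_zero, zero_smul, add_zero]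
      ring

lemma Dhat_U [CharZero K] (al : K) (hal : al ≠ 0) (f : Lam K) :
    Dhat al (U al f) = U al (Dop al f) := by
  induction f using MvPolynomial.induction_on with
  | C c => rw [U_C, map_zero, Dop_C, map_zero]
  | add p q hp hq => simp only [map_add, hp, hq]
  | mul_X p k hp =>
    rw [mul_comm]
    rcases Nat.eq_zero_or_pos k with rfl | hk
    · rw [U_X_mul, Nat.cast_zero, mul_zero, zero_smul, add_zero, Dhat_X_zero, hp, Dop_X_zero,
        U_X_mul, Nat.cast_zero, mul_zero, zero_smul, add_zero]
    · have hk' : k ≠ 0 := by omega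
      rw [U_X_mul, map_add, Dhat_CX al hal hk', hp, map_smul, Dhat_mono, Dop_X_mul al hal hk',
        map_add, map_add, map_add, U_X_mul, TU_U al hk']
      have e1 : ∀ (c : K) (g : Lam K), U al (c • g) = c • U al g := fun c g => (U al).map_smul c g
      rw [e1, e1, e1, U_Tr al hk', U_X_mul, U_mul, U_Qk]
      have e2 : Polynomial.C p * ((2 * al) • ∑ a ∈ Finset.Ico 1 k,
          (a : K) • Polynomial.monomial a (X (k - a) : Lam K)) =
          (2 * al) • ∑ a ∈ Finset.Ico 1 k, (a : K) • Polynomial.monomial a (X (k - a) * p) := by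
        rw [mul_smul_comm, Finset.mul_sum]
        congr 1
        refine Finset.sum_congr rfl fun a _ => ?_
        rw [mul_smul_comm, Polynomial.C_mul_monomial, mul_comm p]
      rw [e2]
      simp only [mul_add, mul_smul_comm, smul_add]
      module

lemma Dhat_z [CharZero K] (al : K) (hal : al ≠ 0) (G : LW K) :
    Dhat al (Zf al G) = Zf al (Dhat al G) := by
  induction G using Polynomial.induction_on' with
  | add p q hp hq => simp only [map_add, hp, hq]
  | monomial j f =>
    induction j with
    | zero =>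
      have hZ : ∀ f : Lam K, Zf al (Polynomial.C f) = U al f := by
        intro f
        have h : Zf al (Polynomial.C f) = Z al (Polynomial.C f) +
          Polynomial.C (Tr (Polynomial.C f)) := rfl
        rw [h, Z_C, Tr_C, map_zero, add_zero]
      rw [Polynomial.monomial_zero_left, hZ, Dhat_C, hZ, Dhat_U al hal]
    | succ j ih =>
      have e1 := Dhat_t al hal (Polynomial.X * Polynomial.monomial j f)
      rw [Dhat_w, map_add] at e1
      have e2 : Zf al (Polynomial.X * Dhat al (Polynomial.monomial j f) +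
          Polynomial.X * Zf al (Polynomial.monomial j f)) =
          Zf al (Polynomial.X * Dhat al (Polynomial.monomial j f)) +
          Zf al (Polynomial.X * Zf al (Polynomial.monomial j f)) := map_add _ _ _
      rw [← Polynomial.X_mul_monomial, AbsM.Zf_X_mul, map_add, map_add, map_smul, Dhat_w, Dhat_w,
        Dhat_C, ← e1, ih, e2, AbsM.Zf_X_mul, AbsM.Zf_X_mul, map_add]
      simp only [smul_add]
      abel

end DhatM

/-- The Laplace operator with a root. -/
theorem dhat (K : Type) [Field K] [CharZero K] (al : K) (hal : al ≠ 0) :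
    DhatSt K al (Dhat al) where
  w := DhatM.Dhat_w al
  c := DhatM.Dhat_C al
  z := DhatM.Dhat_z al hal
  t := DhatM.Dhat_t al hal
  i := DhatM.Dhat_i al

end

end Pool.Agent.MJT
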