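import Pool.Agent.MJR.GradeM

/-!
The power `p_1^n` generates the elements of degree `n` under the operators `H al r`.
-/

namespace Pool.Agent.MJT

open MvPolynomial Pool.Agent.MJR Pool.Agent.MJR.GradeM
open scoped Nat

noncomputable section

namespace CycM

variable {K : Type} [Field K]

/-- The span of the `w^j p_s` of weight `n`, `j ≥ 1`, with `N` or more parts in `s`, or
`N - 1` or more parts in `s` and `j > j0`. -/
def Bd (K : Type) [Field K] (n N j0 : ℕ) : Submodule K (LW K) :=
  Submodule.span K {G | ∃ (j : ℕ) (s : Multiset ℕ), 0 ∉ s ∧ 1 ≤ j ∧ j + s.sum = n ∧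
    (N ≤ s.card ∨ (N ≤ s.card + 1 ∧ j0 < j)) ∧ G = Polynomial.monomial j (mon K s)}

lemma mem_Bd {n N j0 j : ℕ} {s : Multiset ℕ} (h0 : 0 ∉ s) (hj : 1 ≤ j) (hs : j + s.sum = n)
    (h : N ≤ s.card ∨ (N ≤ s.card + 1 ∧ j0 < j)) :
    (Polynomial.monomial j (mon K s) : LW K) ∈ Bd K n N j0 :=
  Submodule.subset_span ⟨j, s, h0, hj, hs, h, rfl⟩

lemma CC_smul (c : K) (G : LW K) : Polynomial.C (C c) * G = c • G := by
  rw [← Polynomial.smul_eq_C_mul, ← algebraMap_eq, algebraMap_smul]

/-- `U p_s` is a combination of the `w^x p_(s - x)`. -/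
lemma U_mem_span (al : K) (s : Multiset ℕ) :
    U al (mon K s) ∈ Submodule.span K
      {G : LW K | ∃ x ∈ s, G = Polynomial.monomial x (mon K (s.erase x))} := by
  classical
  induction s using Multiset.induction_on with
  | empty => rw [mon_zero, U_one]; exact Submodule.zero_mem _
  | cons k s ih =>
    rw [mon_cons, U_mul, U_X]
    refine Submodule.add_mem _ ?_ ?_
    · generalize U al (mon K s) = G at ih
      induction ih using Submodule.span_induction with
      | mem G hG =>
        obtain ⟨x, hx, rfl⟩ := hG
        rw [Polynomial.C_mul_monomial, ← mon_cons]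
        refine Submodule.subset_span ⟨x, Multiset.mem_cons_of_mem hx, ?_⟩
        rcases eq_or_ne x k with rfl | hxk
        · rw [Multiset.erase_cons_head, Multiset.cons_erase hx]
        · rw [Multiset.erase_cons_tail _ hxk.symm]
      | zero => rw [mul_zero]; exact Submodule.zero_mem _
      | add a b _ _ ha hb => rw [mul_add]; exact Submodule.add_mem _ ha hb
      | smul c a _ ha => rw [mul_smul_comm]; exact Submodule.smul_mem _ _ ha
    · have h1 : Polynomial.C (mon K s) * Polynomial.monomial k (C (al * (k : K))) =
          (al * (k : K)) • Polynomial.monomial k (mon K s) := by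
        rw [← CC_smul, Polynomial.C_mul_monomial, Polynomial.C_mul_monomial, mul_comm]
      rw [h1]
      refine Submodule.smul_mem _ _ (Submodule.subset_span ⟨k, Multiset.mem_cons_self _ _, ?_⟩)
      rw [Multiset.erase_cons_head]

lemma XU_mem_Bd (al : K) {n N j0 j : ℕ} {s : Multiset ℕ} (h0 : 0 ∉ s) (hs : j + s.sum = n)
    (hc : ∀ x ∈ s, N ≤ s.card - 1 ∨ (N ≤ s.card ∧ j0 < x + j)) :
    Polynomial.X ^ j * U al (mon K s) ∈ Bd K n N j0 := by
  classical
  have h := U_mem_span al s
  generalize U al (mon K s) = G at h
  induction h using Submodule.span_induction with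
  | mem G hG =>
    obtain ⟨x, hx, rfl⟩ := hG
    rw [Polynomial.X_pow_mul_monomial]
    have hx0 : x ≠ 0 := fun h => h0 (h ▸ hx)
    have h1 : (s.erase x).card + 1 = s.card := Multiset.card_erase_add_one hx
    have h2 : x + (s.erase x).sum = s.sum := by
      rw [← Multiset.sum_cons, Multiset.cons_erase hx]
    refine mem_Bd (fun h => h0 (Multiset.mem_of_mem_erase h)) (by omega) (by omega) ?_
    rcases hc x hx with h | h
    · left
      omega
    · right
      omega
  | zero => rw [mul_zero]; exact Submodule.zero_mem _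
  | add a b _ _ ha hb => rw [mul_add]; exact Submodule.add_mem _ ha hb
  | smul c a _ ha => rw [mul_smul_comm]; exact Submodule.smul_mem _ _ ha

lemma cut_mem_Bd {n N j0 j : ℕ} {s : Multiset ℕ} (h0 : 0 ∉ s) (hs : j + s.sum = n)
    (hN : N ≤ s.card + 1) :
    (∑ a ∈ Finset.Ico 1 j, Polynomial.monomial a (X (j - a) * mon K s) : LW K) ∈
      Bd K n N j0 := by
  refine Submodule.sum_mem _ fun a ha => ?_
  rw [Finset.mem_Ico] at ha
  rw [← mon_cons]
  refine mem_Bd ?_ ha.1 ?_ ?_
  · rw [Multiset.mem_cons]
    rintro (h | h)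
    · omega
    · exact h0 h
  · rw [Multiset.sum_cons]
    omega
  · left
    rw [Multiset.card_cons]
    exact hN

lemma Z_Bd (al : K) {n N j0 : ℕ} {G : LW K} (hG : G ∈ Bd K n (N + 1) j0) :
    Z al G ∈ Bd K n N (j0 + 1) := by
  induction hG using Submodule.span_induction with
  | mem G hG =>
    obtain ⟨j, s, h0, hj, hs, hN, rfl⟩ := hG
    rw [Z_monomial]
    refine Submodule.add_mem _ (Submodule.add_mem _ ?_ ?_) ?_
    · rw [← Polynomial.C_mul_monomial, CC_smul]
      refine Submodule.smul_mem _ _ (mem_Bd h0 hj hs ?_)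
      left
      omega
    · refine XU_mem_Bd al h0 hs fun x hx => ?_
      have hx0 : x ≠ 0 := fun h => h0 (h ▸ hx)
      omega
    · refine cut_mem_Bd h0 hs ?_
      omega
  | zero => rw [map_zero]; exact Submodule.zero_mem _
  | add a b _ _ ha hb => rw [map_add]; exact Submodule.add_mem _ ha hb
  | smul c a _ ha => rw [map_smul]; exact Submodule.smul_mem _ _ ha

lemma U_X_one_pow (al : K) (c : ℕ) : U al ((X 1 : Lam K) ^ (c + 1)) =
    (al * ((c : K) + 1)) • Polynomial.monomial 1 ((X 1 : Lam K) ^ c) := by
  induction c with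
  | zero =>
    rw [zero_add, pow_one, U_X, pow_zero, ← CC_smul, Polynomial.C_mul_monomial]
    simp
  | succ c ih =>
    rw [pow_succ' _ (c + 1), U_mul, ih, U_X, ← CC_smul, ← CC_smul, Polynomial.C_mul_monomial,
      Polynomial.C_mul_monomial, Polynomial.C_mul_monomial, Polynomial.C_mul_monomial,
      ← map_add]
    congr 1
    push_cast
    simp only [map_mul, map_add, map_one, mul_one]
    ring

lemma mon_ones_add (c : ℕ) (t : Multiset ℕ) :
    mon K (Multiset.replicate c 1 + t) = X 1 ^ c * mon K t := by
  unfold mon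
  rw [Multiset.map_add, Multiset.prod_add, Multiset.map_replicate, Multiset.prod_replicate]

/-- The main step. -/
lemma Z_main (al : K) {n N k c : ℕ} {t : Multiset ℕ} (ht : ∀ x ∈ t, 2 ≤ x)
    (hs : k + (c + 1 + t.sum) = n) (hN : N ≤ c + 1 + t.card) :
    Z al (Polynomial.monomial k (mon K (Multiset.replicate (c + 1) 1 + t))) -
      (al * ((c : K) + 1)) • Polynomial.monomial (k + 1) (mon K (Multiset.replicate c 1 + t))
      ∈ Bd K n N (k + 1) := by
  have h0 : 0 ∉ Multiset.replicate (c + 1) 1 + t := by
    rw [Multiset.mem_add]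
    rintro (h | h)
    · have := Multiset.eq_of_mem_replicate h
      omega
    · have := ht 0 h
      omega
  have h0t : 0 ∉ t := fun h => by
    have := ht 0 h
    omega
  have hsum : (Multiset.replicate (c + 1) 1 + t).sum = c + 1 + t.sum := by
    rw [Multiset.sum_add, Multiset.sum_replicate, smul_eq_mul, mul_one]
  have hcard : (Multiset.replicate (c + 1) 1 + t).card = c + 1 + t.card := by
    rw [Multiset.card_add, Multiset.card_replicate]
  rw [Z_monomial]
  have hU : Polynomial.X ^ k * U al (mon K (Multiset.replicate (c + 1) 1 + t)) =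
      (al * ((c : K) + 1)) • Polynomial.monomial (k + 1) (mon K (Multiset.replicate c 1 + t)) +
      Polynomial.C (X 1 ^ (c + 1)) * (Polynomial.X ^ k * U al (mon K t)) := by
    rw [mon_ones_add, U_mul, U_X_one_pow, mul_add, mon_ones_add, add_comm]
    have e1 : Polynomial.X ^ k * (Polynomial.C (mon K t) * ((al * ((c : K) + 1)) •
        Polynomial.monomial 1 ((X 1 : Lam K) ^ c))) =
        (al * ((c : K) + 1)) • Polynomial.monomial (k + 1) (X 1 ^ c * mon K t) := by
      rw [mul_smul_comm, mul_smul_comm, Polynomial.C_mul_monomial,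
        Polynomial.X_pow_mul_monomial, add_comm 1 k, mul_comm (mon K t)]
    rw [e1]
    ring
  have hB : Polynomial.C (X 1 ^ (c + 1) : Lam K) * (Polynomial.X ^ k * U al (mon K t)) ∈
      Bd K n N (k + 1) := by
    classical
    have h := U_mem_span al t
    generalize U al (mon K t) = G at h
    induction h using Submodule.span_induction with
    | mem G hG =>
      obtain ⟨x, hx, rfl⟩ := hG
      have hx2 := ht x hx
      have h1 : (t.erase x).card + 1 = t.card := Multiset.card_erase_add_one hx
      have h2 : x + (t.erase x).sum = t.sum := by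
        rw [← Multiset.sum_cons, Multiset.cons_erase hx]
      rw [Polynomial.X_pow_mul_monomial, Polynomial.C_mul_monomial, ← mon_ones_add]
      refine mem_Bd ?_ (by omega) ?_ ?_
      · rw [Multiset.mem_add]
        rintro (h | h)
        · have := Multiset.eq_of_mem_replicate h
          omega
        · exact h0t (Multiset.mem_of_mem_erase h)
      · rw [Multiset.sum_add, Multiset.sum_replicate, smul_eq_mul, mul_one]
        omega
      · right
        rw [Multiset.card_add, Multiset.card_replicate]
        omega
    | zero => rw [mul_zero, mul_zero]; exact Submodule.zero_mem _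
    | add a b _ _ ha hb => rw [mul_add, mul_add]; exact Submodule.add_mem _ ha hb
    | smul c a _ ha =>
      rw [mul_smul_comm, mul_smul_comm]
      exact Submodule.smul_mem _ _ ha
  have hb : Polynomial.monomial k (C ((al - 1) * (k : K)) *
      mon K (Multiset.replicate (c + 1) 1 + t)) ∈ Bd K n N (k + 1) := by
    rcases Nat.eq_zero_or_pos k with rfl | hk
    · simp only [Nat.cast_zero, mul_zero, map_zero, zero_mul]
      exact Submodule.zero_mem _
    · rw [← Polynomial.C_mul_monomial, CC_smul]
      refine Submodule.smul_mem _ _ (mem_Bd h0 hk (by omega) ?_)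
      left
      omega
  have hcut : (∑ a ∈ Finset.Ico 1 k, Polynomial.monomial a
      (X (k - a) * mon K (Multiset.replicate (c + 1) 1 + t)) : LW K) ∈ Bd K n N (k + 1) :=
    cut_mem_Bd h0 (by omega) (by omega)
  rw [hU]
  have e : ∀ (A B C D : LW K), A + (B + C) + D - B = A + C + D := by
    intro A B C D
    ring
  rw [e]
  exact Submodule.add_mem _ (Submodule.add_mem _ hb hB) hcut

/-- `Z^k` applied to `p_1^(c + k) p_t`. -/
lemma Zpow_main (al : K) [CharZero K] (hal : al ≠ 0) {n N m : ℕ} {t : Multiset ℕ}
    (ht : ∀ x ∈ t, 2 ≤ x) (hs : m + t.sum = n) (hN : N = m + t.card) (k : ℕ) (hk : k ≤ m) :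
    ∃ c : K, c ≠ 0 ∧ (Z al ^ k) (Polynomial.C (mon K (Multiset.replicate m 1 + t))) -
      c • Polynomial.monomial k (mon K (Multiset.replicate (m - k) 1 + t))
      ∈ Bd K n (N + 1 - k) k := by
  induction k with
  | zero =>
    refine ⟨1, one_ne_zero, ?_⟩
    rw [pow_zero, Module.End.one_apply, Nat.sub_zero, Nat.sub_zero, Polynomial.monomial_zero_left,
      one_smul, sub_self]
    exact Submodule.zero_mem _
  | succ k ih =>
    obtain ⟨c, hc, h⟩ := ih (by omega)
    obtain ⟨d, hd⟩ : ∃ d, m - k = d + 1 := ⟨m - k - 1, by omega⟩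
    have hd' : m - (k + 1) = d := by omega
    rw [hd'] at *
    rw [hd] at h
    refine ⟨c * (al * ((d : K) + 1)), ?_, ?_⟩
    · refine mul_ne_zero hc (mul_ne_zero hal ?_)
      exact_mod_cast Nat.succ_ne_zero d
    · have e : N + 1 - k = (N + 1 - (k + 1)) + 1 := by
        have : k ≤ N := by omega
        omega
      rw [e] at h
      have h1 := Z_Bd al h
      have h2 := Z_main (K := K) al (n := n) (N := N + 1 - (k + 1)) (k := k) (c := d) ht
        (by omega) (by omega)
      rw [map_sub, map_smul] at h1
      have h3 := Submodule.add_mem _ h1 (Submodule.smul_mem _ c h2)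
      rw [pow_succ', Module.End.mul_apply]
      have e2 : ∀ (A B D : LW K) (x y : K), A - x • B + x • (B - y • D) = A - (x * y) • D := by
        intro A B D x y
        rw [smul_sub, smul_smul]
        abel
      rw [e2] at h3
      exact h3

lemma Tr_Bd {n N j0 : ℕ} {V : Submodule K (Lam K)}
    (h1 : ∀ s : Multiset ℕ, 0 ∉ s → s.sum = n →
      (N + 1 ≤ s.card ∨ (N ≤ s.card ∧ ∃ x ∈ s, j0 < x)) → mon K s ∈ V) {G : LW K}
    (hG : G ∈ Bd K n N j0) : Tr G ∈ V := by
  induction hG using Submodule.span_induction with
  | mem G hG =>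
    obtain ⟨j, s, h0, hj, hs, hN, rfl⟩ := hG
    rw [Tr_monomial j (by omega), ← mon_cons]
    refine h1 _ ?_ ?_ ?_
    · rw [Multiset.mem_cons]
      rintro (h | h)
      · omega
      · exact h0 h
    · rw [Multiset.sum_cons]
      exact hs
    · rw [Multiset.card_cons]
      rcases hN with h | h
      · left
        omega
      · right
        exact ⟨h.1, j, Multiset.mem_cons_self _ _, h.2⟩
  | zero => rw [map_zero]; exact Submodule.zero_mem _
  | add a b _ _ ha hb => rw [map_add]; exact Submodule.add_mem _ ha hb
  | smul c a _ ha => rw [map_smul]; exact Submodule.smul_mem _ _ ha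

lemma card_le_sum (s : Multiset ℕ) (h0 : 0 ∉ s) : s.card ≤ s.sum := by
  induction s using Multiset.induction_on with
  | empty => simp
  | cons a s ih =>
    rw [Multiset.mem_cons, not_or] at h0
    rw [Multiset.card_cons, Multiset.sum_cons]
    have := ih h0.2
    have : a ≠ 0 := fun h => h0.1 h.symm
    omega

lemma le_sum (s : Multiset ℕ) {x : ℕ} (hx : x ∈ s) : x ≤ s.sum := by
  exact Multiset.single_le_sum (fun _ _ => Nat.zero_le _) x hx

lemma all_mem (al : K) [CharZero K] (hal : al ≠ 0) {n : ℕ} {V : Submodule K (Lam K)}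
    (h1 : X 1 ^ n ∈ V) (hV : ∀ r f, f ∈ V → H al r f ∈ V) :
    ∀ (d : ℕ) (a : ℕ) (s : Multiset ℕ), 0 ∉ s → s.sum = n → (∀ x ∈ s, x ≤ a) →
      (a ∈ s ∨ s = 0) →
      (n - s.card) * (n + 1) + (n - a) ≤ d → mon K s ∈ V := by
  classical
  intro d
  induction d using Nat.strong_induction_on with
  | _ d ih =>
    intro a s h0 hs hmax ha hd
    by_cases hone : ∀ x ∈ s, x = 1
    · have h2 : s = Multiset.replicate s.card 1 := Multiset.eq_replicate_card.mpr hone
      have h3 : s.card = n := by
        rw [h2, Multiset.sum_replicate, smul_eq_mul, mul_one] at hs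
        exact hs
      rw [h3] at h2
      rw [h2]
      have h4 := mon_ones_add (K := K) n 0
      rw [add_zero, mon_zero, mul_one] at h4
      rw [h4]
      exact h1
    · have ha' : a ∈ s := by
        rcases ha with h | h
        · exact h
        · exfalso
          apply hone
          intro x hx
          rw [h] at hx
          exact absurd hx (Multiset.notMem_zero x)
      have ha2 : 2 ≤ a := by
        by_contra h
        apply hone
        intro x hx
        have h5 := hmax x hx
        have h6 : x ≠ 0 := fun h => h0 (h ▸ hx)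
        omega
      -- the decomposition
      obtain ⟨s', rfl⟩ := Multiset.exists_cons_of_mem ha'
      set t := s'.filter (fun x => x ≠ 1) with ht
      set c := s'.count 1 with hc
      have hs' : s' = Multiset.replicate c 1 + t := by
        have h7 := Multiset.filter_add_not (fun x => x = 1) s'
        rw [Multiset.filter_eq' s' 1] at h7
        exact h7.symm
      have ht2 : ∀ x ∈ t, 2 ≤ x := by
        intro x hx
        rw [ht, Multiset.mem_filter] at hx
        have h8 : x ≠ 0 := fun h => h0 (Multiset.mem_cons_of_mem (h ▸ hx.1))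
        omega
      have hcard : s'.card = c + t.card := by
        conv_lhs => rw [hs']
        rw [Multiset.card_add, Multiset.card_replicate]
      have hsum : s'.sum = c + t.sum := by
        conv_lhs => rw [hs']
        rw [Multiset.sum_add, Multiset.sum_replicate, smul_eq_mul, mul_one]
      rw [Multiset.sum_cons] at hs
      rw [Multiset.card_cons] at hd
      have hcs := card_le_sum s' (fun h => h0 (Multiset.mem_cons_of_mem h))
      have han : a ≤ n := by omega
      have hcn : s'.card + 1 ≤ n := by omega
      have hgen : ∀ s₁ : Multiset ℕ, 0 ∉ s₁ → s₁.sum = n →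
          (s'.card + 1 + 1 ≤ s₁.card ∨ (s'.card + 1 ≤ s₁.card ∧ ∃ x ∈ s₁, a < x)) →
          mon K s₁ ∈ V := by
        intro s₁ h01 hs1 h9
        have hc1 := card_le_sum s₁ h01
        -- a maximal element
        have hex : ∃ a₁, (∀ x ∈ s₁, x ≤ a₁) ∧ a₁ ∈ s₁ := by
          have hne : s₁.toFinset.Nonempty := by
            have h10 : 0 < s₁.card := by omega
            obtain ⟨x, hx⟩ := Multiset.card_pos_iff_exists_mem.mp h10
            exact ⟨x, Multiset.mem_toFinset.mpr hx⟩
          refine ⟨s₁.toFinset.max' hne, fun x hx => ?_, ?_⟩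
          · exact Finset.le_max' _ _ (Multiset.mem_toFinset.mpr hx)
          · exact Multiset.mem_toFinset.mp (Finset.max'_mem _ hne)
        obtain ⟨a₁, hmax1, ha1⟩ := hex
        have ha1n : a₁ ≤ n := by
          have := le_sum s₁ ha1
          omega
        refine ih ((n - s₁.card) * (n + 1) + (n - a₁)) ?_ a₁ s₁ h01 hs1 hmax1 (Or.inl ha1) le_rfl
        refine lt_of_lt_of_le ?_ hd
        rcases h9 with h | ⟨h, x, hx, hax⟩
        · have e : n - (s'.card + 1) = (n - s₁.card) + (s₁.card - (s'.card + 1)) := by omega
          obtain ⟨q, hq⟩ : ∃ q, s₁.card - (s'.card + 1) = q + 1 :=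
            ⟨s₁.card - (s'.card + 1) - 1, by omega⟩
          rw [e, hq]
          have e2 : (n - s₁.card + (q + 1)) * (n + 1) =
              (n - s₁.card) * (n + 1) + q * (n + 1) + (n + 1) := by ring
          rw [e2]
          omega
        · have h11 := hmax1 x hx
          have e : n - (s'.card + 1) = (n - s₁.card) + (s₁.card - (s'.card + 1)) := by omega
          rw [e, Nat.add_mul]
          omega
      -- the larger element
      have hpi : mon K (Multiset.replicate (c + a) 1 + t) ∈ V := by
        refine hgen _ ?_ ?_ (Or.inl ?_)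
        · rw [Multiset.mem_add]
          rintro (h | h)
          · have := Multiset.eq_of_mem_replicate h
            omega
          · have := ht2 0 h
            omega
        · rw [Multiset.sum_add, Multiset.sum_replicate, smul_eq_mul, mul_one]
          omega
        · rw [Multiset.card_add, Multiset.card_replicate]
          omega
      have hH := hV (a - 1) _ hpi
      rw [H_apply] at hH
      have ha1 : a - 1 + 1 = a := by omega
      rw [ha1] at hH
      obtain ⟨κ, hκ, h12⟩ := Zpow_main al hal (n := n) (N := c + a + t.card) (m := c + a)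
        ht2 (by omega) rfl a (by omega)
      have h13 := Tr_Bd (V := V) (N := c + a + t.card + 1 - a) (j0 := a) (n := n) (by
        intro s₁ h01 hs1 h9
        refine hgen s₁ h01 hs1 ?_
        have e : c + a + t.card + 1 - a = s'.card + 1 := by omega
        rw [e] at h9
        exact h9) h12
      rw [map_sub, map_smul, Tr_monomial a (by omega), ← mon_cons] at h13
      have h14 := Submodule.sub_mem _ hH h13
      rw [sub_sub_cancel] at h14
      have h15 := Submodule.smul_mem V κ⁻¹ h14
      rw [smul_smul, inv_mul_cancel₀ hκ, one_smul] at h15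
      have e3 : c + a - a = c := by omega
      rw [e3, ← hs'] at h15
      exact h15

end CycM

open CycM in
/-- The power `p_1^n` generates the elements of degree `n`. -/
theorem cyc {K : Type} [Field K] [CharZero K] (al : K) (hal : al ≠ 0) {n : ℕ}
    (V : Submodule K (Lam K)) (h1 : X 1 ^ n ∈ V) (hV : ∀ r f, f ∈ V → H al r f ∈ V)
    (p : n.Partition) : pp K p ∈ V := by
  classical
  have h0 : 0 ∉ p.parts := fun h => absurd (p.parts_pos h) (lt_irrefl 0)
  rcases eq_or_ne p.parts 0 with h | h
  · have h2 := all_mem al hal h1 hV _ 0 p.parts h0 p.parts_sum (by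
      intro x hx
      rw [h] at hx
      exact absurd hx (Multiset.notMem_zero x)) (Or.inr h) le_rfl
    exact h2
  · have hne : p.parts.toFinset.Nonempty := by
      obtain ⟨x, hx⟩ := Multiset.exists_mem_of_ne_zero h
      exact ⟨x, Multiset.mem_toFinset.mpr hx⟩
    exact all_mem al hal h1 hV _ (p.parts.toFinset.max' hne) p.parts h0 p.parts_sum
      (fun x hx => Finset.le_max' _ _ (Multiset.mem_toFinset.mpr hx))
      (Or.inl (Multiset.mem_toFinset.mp (Finset.max'_mem _ hne))) le_rfl

end

end Pool.Agent.MJT
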