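import Pool.Agent.MJT.Ext
import Pool.Agent.MJT.Gen
import Pool.Agent.MJT.FormExt
import Pool.Agent.MJT.Cyc

/-!
The extraction theorem.
-/

namespace Pool.Agent.MJT

open MvPolynomial Pool.Agent.MJR Pool.Agent.MJR.GradeM

noncomputable section

variable {K : Type} [Field K]

theorem Bs_T (al : K) {n : ℕ} {h : Lam K} (hh : h ∈ S K (n + 1)) : Bs al h ∈ T K n := by
  induction hh using Submodule.span_induction with
  | mem f hf =>
    obtain ⟨s, h0, hs, rfl⟩ := hf
    have h1 := CycM.U_mem_span al s
    rw [Bs_apply]
    generalize U al (mon K s) = G at h1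
    induction h1 using Submodule.span_induction with
    | mem G hG =>
      obtain ⟨x, hx, rfl⟩ := hG
      have hx0 : x ≠ 0 := fun h => h0 (h ▸ hx)
      obtain ⟨y, rfl⟩ := Nat.exists_eq_succ_of_ne_zero hx0
      have e1 : Polynomial.divX (Polynomial.monomial (y + 1) (mon K (s.erase (y + 1)))) =
          Polynomial.monomial y (mon K (s.erase (y + 1))) := by
        apply Polynomial.ext
        intro j
        rw [Polynomial.coeff_divX, Polynomial.coeff_monomial, Polynomial.coeff_monomial]
        simp
      rw [Nat.succ_eq_add_one, e1]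
      have h2 : (y + 1) + (s.erase (y + 1)).sum = s.sum := by
        rw [← Multiset.sum_cons, Multiset.cons_erase hx]
      exact mem_T (fun h => h0 (Multiset.mem_of_mem_erase h)) (by omega)
    | zero => rw [Polynomial.divX_zero]; exact Submodule.zero_mem _
    | add a b _ _ ha hb => rw [Polynomial.divX_add]; exact Submodule.add_mem _ ha hb
    | smul c a _ ha =>
      have e1 : Polynomial.divX (c • a) = c • Polynomial.divX a := by
        apply Polynomial.ext
        intro j
        simp only [Polynomial.coeff_divX, Polynomial.coeff_smul]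
      rw [e1]
      exact Submodule.smul_mem _ _ ha
  | zero => rw [map_zero]; exact Submodule.zero_mem _
  | add a b _ _ ha hb => rw [map_add]; exact Submodule.add_mem _ ha hb
  | smul c a _ ha => rw [map_smul]; exact Submodule.smul_mem _ _ ha

theorem Bx_monomial (j : ℕ) (f : Lam K) : Bx K (Polynomial.monomial j f) = X (j + 1) * f := by
  rw [Bx_apply, Polynomial.X_mul_monomial, Tr_monomial _ (Nat.succ_ne_zero j)]

theorem Bx_S {n : ℕ} {G : LW K} (hG : G ∈ T K n) : Bx K G ∈ S K (n + 1) := by
  rw [Bx_apply]
  refine Tr_T ?_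
  have h := mulw_T (K := K) (j := 1) (m := n) (n := n + 1) rfl hG
  rwa [pow_one] at h

theorem Bx_surj {n : ℕ} {f : Lam K} (hf : f ∈ S K (n + 1)) : ∃ G ∈ T K n, Bx K G = f := by
  classical
  induction hf using Submodule.span_induction with
  | mem f hf =>
    obtain ⟨s, h0, hs, rfl⟩ := hf
    have h1 : s ≠ 0 := by
      rintro rfl
      simp at hs
    obtain ⟨x, hx⟩ := Multiset.exists_mem_of_ne_zero h1
    have hx0 : x ≠ 0 := fun h => h0 (h ▸ hx)
    obtain ⟨y, rfl⟩ := Nat.exists_eq_succ_of_ne_zero hx0
    have h2 : (y + 1) + (s.erase (y + 1)).sum = s.sum := by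
      rw [← Multiset.sum_cons, Multiset.cons_erase hx]
    refine ⟨Polynomial.monomial y (mon K (s.erase (y + 1))),
      mem_T (fun h => h0 (Multiset.mem_of_mem_erase h)) (by omega), ?_⟩
    rw [Bx_monomial, ← mon_cons, Multiset.cons_erase hx]
  | zero => exact ⟨0, Submodule.zero_mem _, map_zero _⟩
  | add a b _ _ ha hb =>
    obtain ⟨u, hu, rfl⟩ := ha
    obtain ⟨v, hv, rfl⟩ := hb
    exact ⟨u + v, Submodule.add_mem _ hu hv, map_add _ _ _⟩
  | smul c a _ ha =>
    obtain ⟨u, hu, rfl⟩ := ha
    exact ⟨c • u, Submodule.smul_mem _ _ hu, map_smul _ _ _⟩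

theorem Mo_one_apply (al : K) (k : ℕ) : Mo al (k + 1) (1 : Lam K) = 0 := by
  rw [Mo_apply, pow_succ, Module.End.mul_apply, Zf_C, U_one, map_zero, map_zero]

theorem aeval_comm (al : K) (p q : Polynomial K) (G : LW K) :
    (Polynomial.aeval (Zf al) p) ((Polynomial.aeval (Zf al) q) G) =
      (Polynomial.aeval (Zf al) q) ((Polynomial.aeval (Zf al) p) G) := by
  rw [← Module.End.mul_apply, ← map_mul, mul_comm, map_mul, Module.End.mul_apply]

/-- The operators `Mo` commute. -/
theorem Mo_comm_all (al : K) {Dh : LW K →ₗ[K] LW K} (hD : DhatSt K al Dh) (hG : GenSt K al)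
    (n : ℕ) : ∀ k l, ∀ f ∈ S K n, Mo al k (Mo al l f) = Mo al l (Mo al k f) := by
  induction n with
  | zero =>
    intro k l f hf
    have h1 : ∀ f ∈ S K 0, ∃ c : K, f = c • (1 : Lam K) := by
      intro f hf
      induction hf using Submodule.span_induction with
      | mem f hf =>
        obtain ⟨s, h0, hs, rfl⟩ := hf
        have h2 : s = 0 := by
          by_contra h3
          obtain ⟨x, hx⟩ := Multiset.exists_mem_of_ne_zero h3
          have h4 := CycM.le_sum s hx
          have h5 : x ≠ 0 := fun h => h0 (h ▸ hx)
          omega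
        exact ⟨1, by rw [h2, mon_zero, one_smul]⟩
      | zero => exact ⟨0, by rw [zero_smul]⟩
      | add a b _ _ ha hb =>
        obtain ⟨u, rfl⟩ := ha
        obtain ⟨v, rfl⟩ := hb
        exact ⟨u + v, by rw [add_smul]⟩
      | smul c a _ ha =>
        obtain ⟨u, rfl⟩ := ha
        exact ⟨c * u, by rw [mul_smul]⟩
    obtain ⟨c, rfl⟩ := h1 f hf
    rcases k with _ | k
    · rw [Mo_zero, Mo_zero]
    · rcases l with _ | l
      · rw [Mo_zero, Mo_zero]
      · rw [map_smul, map_smul, map_smul, map_smul, Mo_one_apply, Mo_one_apply, map_zero,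
          map_zero]
  | succ n ihn =>
    intro k
    induction k using Nat.strong_induction_on with
    | _ k ihk =>
      intro l
      induction l using Nat.strong_induction_on with
      | _ l ihl =>
        intro f hf
        obtain ⟨G, hGT, rfl⟩ := Bx_surj hf
        obtain ⟨x, hx, rfl⟩ := exists_Th al hG hGT
        obtain ⟨p, hp⟩ := star al hD k
        obtain ⟨q, hq⟩ := star al hD l
        have hmu : mu (Mo al l) (mu (Mo al k) x) = mu (Mo al k) (mu (Mo al l) x) := by
          clear hf hGT
          induction hx using Submodule.span_induction with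
          | mem x hx =>
            obtain ⟨a, f, hf, rfl⟩ := hx
            rw [mu_monomial, mu_monomial, mu_monomial, mu_monomial, ihn l k f hf]
          | zero => simp only [map_zero]
          | add a b _ _ ha hb => simp only [map_add, ha, hb]
          | smul c a _ ha => simp only [map_smul, ha]
        have hT : ∀ (r : Polynomial K) (G : LW K), G ∈ T K n →
            (Polynomial.aeval (Zf al) r) G ∈ T K n := by
          intro r G hG
          induction r using Polynomial.induction_on' with
          | add p q hp hq =>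
            rw [map_add, LinearMap.add_apply]
            exact Submodule.add_mem _ hp hq
          | monomial m c =>
            rw [Polynomial.aeval_monomial, Module.End.mul_apply, Module.algebraMap_end_apply]
            exact Submodule.smul_mem _ _ (Zf_pow_T al m hG)
        have hThx := Th_TT al hx
        -- the value of `Mo l` on a polynomial in `Zf`
        have hq2 : ∀ r : Polynomial K,
            Mo al l (Bx K ((Polynomial.aeval (Zf al) r) (Th al x))) =
              Bx K ((Polynomial.aeval (Zf al) r) (Th al (mu (Mo al l) x))) +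
              ∑ a ∈ Finset.range l, Mo al a (Bx K ((Polynomial.aeval (Zf al) (q a))
                ((Polynomial.aeval (Zf al) r) (Th al x)))) := by
          intro r
          rw [← Th_io, hq, mu_io, Th_io, Th_io]
        have hp2 : ∀ r : Polynomial K,
            Mo al k (Bx K ((Polynomial.aeval (Zf al) r) (Th al x))) =
              Bx K ((Polynomial.aeval (Zf al) r) (Th al (mu (Mo al k) x))) +
              ∑ a ∈ Finset.range k, Mo al a (Bx K ((Polynomial.aeval (Zf al) (p a))
                ((Polynomial.aeval (Zf al) r) (Th al x)))) := by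
          intro r
          rw [← Th_io, hp, mu_io, Th_io, Th_io]
        have e1 : Mo al l (Mo al k (Bx K (Th al x))) =
            Bx K (Th al (mu (Mo al l) (mu (Mo al k) x))) +
            ∑ a ∈ Finset.range l, Mo al a (Bx K ((Polynomial.aeval (Zf al) (q a))
              (Th al (mu (Mo al k) x)))) +
            ∑ a ∈ Finset.range k, (Mo al a (Bx K ((Polynomial.aeval (Zf al) (p a))
              (Th al (mu (Mo al l) x)))) +
              ∑ c ∈ Finset.range l, Mo al a (Mo al c (Bx K ((Polynomial.aeval (Zf al) (q c))
                ((Polynomial.aeval (Zf al) (p a)) (Th al x)))))) := by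
          rw [hp, map_add, hq, map_sum]
          congr 1
          refine Finset.sum_congr rfl fun a ha => ?_
          rw [Finset.mem_range] at ha
          rw [← ihk a ha l _ (Bx_S (hT _ _ hThx)), hq2, map_add, map_sum]
        have e2 : Mo al k (Mo al l (Bx K (Th al x))) =
            Bx K (Th al (mu (Mo al k) (mu (Mo al l) x))) +
            ∑ a ∈ Finset.range k, Mo al a (Bx K ((Polynomial.aeval (Zf al) (p a))
              (Th al (mu (Mo al l) x)))) +
            ∑ c ∈ Finset.range l, (Mo al c (Bx K ((Polynomial.aeval (Zf al) (q c))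
              (Th al (mu (Mo al k) x)))) +
              ∑ a ∈ Finset.range k, Mo al c (Mo al a (Bx K ((Polynomial.aeval (Zf al) (p a))
                ((Polynomial.aeval (Zf al) (q c)) (Th al x)))))) := by
          rw [hq, map_add, hp, map_sum]
          congr 1
          refine Finset.sum_congr rfl fun c hc => ?_
          rw [Finset.mem_range] at hc
          rw [ihl c hc _ (Bx_S (hT _ _ hThx)), hp2, map_add, map_sum]
        have e3 : ∑ a ∈ Finset.range k, ∑ c ∈ Finset.range l,
            Mo al a (Mo al c (Bx K ((Polynomial.aeval (Zf al) (q c))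
              ((Polynomial.aeval (Zf al) (p a)) (Th al x))))) =
            ∑ c ∈ Finset.range l, ∑ a ∈ Finset.range k,
            Mo al c (Mo al a (Bx K ((Polynomial.aeval (Zf al) (p a))
              ((Polynomial.aeval (Zf al) (q c)) (Th al x))))) := by
          rw [Finset.sum_comm]
          refine Finset.sum_congr rfl fun c _ => Finset.sum_congr rfl fun a ha => ?_
          rw [Finset.mem_range] at ha
          rw [ihk a ha c _ (Bx_S (hT _ _ (hT _ _ hThx))), aeval_comm al (q c) (p a)]
        rw [e1, e2, hmu, Finset.sum_add_distrib, Finset.sum_add_distrib, e3]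
        abel

/-- The extraction theorem. -/
theorem ext [CharZero K] (al : K) (hal : al ≠ 0) {Dh : LW K →ₗ[K] LW K} (hD : DhatSt K al Dh)
    {n : ℕ} (P : LW K →ₗ[K] LW K) (Q : Lam K →ₗ[K] Lam K)
    (hPZ : ∀ G ∈ T K n, P (Zf al G) = Zf al (P G))
    (hPC : ∀ f ∈ S K n, P (Polynomial.C f) = Polynomial.C (Q f))
    (hQ : ∀ k, ∀ f ∈ S K n, Q (Mo al k f) = Mo al k (Q f)) (q : Polynomial K) (r : ℕ) :
    ∀ h ∈ S K (n + 1), Bx K ((Polynomial.aeval (Zf al) q) (P (Bs al (H al r h)))) =
      H al r (Bx K ((Polynomial.aeval (Zf al) q) (P (Bs al h)))) := by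
  have hG := gen K al hal
  have hF := formExt K al hal
  have h1 := comm_H_of_Mo al (n := n + 1) (Bx K ∘ₗ (Polynomial.aeval (Zf al) q) ∘ₗ P ∘ₗ Bs al)
    (fun k f hf => (ext_Mo al hD hG hF (Mo_comm_all al hD hG n) (fun h hh => Bs_T al hh) P Q hPZ
      hPC hQ k q f hf).symm) r
  exact h1

end

end Pool.Agent.MJT
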