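import Pool.Agent.MJT.Cyc
import Pool.Agent.MJR.Fin

/-!
An operator which commutes with all `H al r` and preserves the degree is a combination of the
class operators of the Goulden-Jackson coefficients, with coefficients read off from its
`p_1^n` row.
-/

namespace Pool.Agent.MJT

open MvPolynomial Pool.Agent.MJR Pool.Agent.MJR.IdentM
open scoped Nat

noncomputable section

/-- The Jack functions are eigenvectors of all `H al r`. -/
theorem J_eig {n : ℕ} {J : n.Partition → n.Partition → QA} (hJ : IsJack RatFunc.X n J) (r : ℕ) :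
    Eig J (H RatFunc.X r) := by
  classical
  have hI := intM QA RatFunc.X (nopMul QA)
  have hY := yDom QA RatFunc.X
  have hG := gradeM QA RatFunc.X
  obtain ⟨o1, o2, o3⟩ := domOrd n
  have h := linAlg QA n.Partition (wtp RatFunc.X) (mc QA) Dom J o1 o2 o3 (anisoM n) (injM QA n)
    hJ.orth hJ.tri (J_ne_zero hJ)
  intro l
  have h2 := h.2 (fun p q => coeff (expo q) (H RatFunc.X r (pp QA p)))
    (fun p q => formM QA RatFunc.X r n p q) ?_ l
  · obtain ⟨k, hk⟩ := h2
    refine ⟨k, ?_⟩
    obtain ⟨v', hv'⟩ := hG r n (J l)
    have h3 : v' = k • J l := by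
      funext m
      have h4 := hk m
      have h5 := apply_toL (H RatFunc.X r) (J l) m
      rw [hv', coeff_toL] at h5
      rw [h5, Pi.smul_apply, smul_eq_mul]
      exact h4
    rw [hv', h3, toL_smul, smul_eq_C_mul]
  · intro l v hv
    have h3 := (sortM QA n l v).mp hv
    have h4 : ev QA n (H RatFunc.X r (toL v)) ∈ DomSub QA l := by
      have h := HTriM.gd_pow hI hY h3 r
      have h2 := HTriM.sum_evi n ((Z RatFunc.X ^ (r + 1)) (Polynomial.C (toL v)))
      rw [h.1, map_zero, smul_zero, add_zero] at h2
      rw [H_apply, ← h2]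
      exact Submodule.sum_mem _ fun i _ => h.2 i
    obtain ⟨v', hv'⟩ := hG r n v
    rw [hv'] at h4
    have h5 := (sortM QA n l v').mpr h4
    intro m hm
    have h6 := h5 m hm
    have h7 : ∀ q, v' q = ∑ s, v s * coeff (expo q) (H RatFunc.X r (pp QA s)) := by
      intro q
      have h8 := apply_toL (H RatFunc.X r) v q
      rw [hv', coeff_toL] at h8
      exact h8
    simp only [h7] at h6
    exact h6

namespace JackM

/-- A matrix which commutes with all `H` and whose `p_1^n` column vanishes is zero. -/
theorem eq_zero {n : ℕ} (O : n.Partition → n.Partition → QA)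
    (hO : ∀ (r : ℕ) (p q : n.Partition),
      ∑ s, O p s * coeff (expo q) (H RatFunc.X r (pp QA s)) =
        ∑ s, coeff (expo s) (H RatFunc.X r (pp QA p)) * O s q)
    (h1 : ∀ p, O p (ones n) = 0) (p q : n.Partition) : O p q = 0 := by
  classical
  -- the elements orthogonal to the image of `O`
  let V : Submodule QA (Lam QA) :=
    { carrier := {f | ∀ p, FormM.B RatFunc.X (toL (O p)) f = 0}
      add_mem' := by
        intro a b ha hb p
        rw [map_add, ha p, hb p, add_zero]
      zero_mem' := by
        intro p
        rw [map_zero]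
      smul_mem' := by
        intro c a ha p
        rw [map_smul, ha p, smul_zero] }
  have hB : ∀ (v : n.Partition → QA) (q : n.Partition),
      FormM.B RatFunc.X (toL v) (pp QA q) = wtp RatFunc.X q * v q := by
    intro v q
    rw [FormM.B_symm, pp_eq_monomial, FormM.B_monomial, FormM.W_expo, coeff_toL]
  have hV1 : (X 1 : Lam QA) ^ n ∈ V := by
    intro p
    rw [← pp_ones, hB, h1, mul_zero]
  have hVH : ∀ r f, f ∈ V → H RatFunc.X r f ∈ V := by
    intro r f hf p
    rw [← FormM.B_H]
    obtain ⟨v', hv'⟩ := gradeM QA RatFunc.X r n (O p)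
    have h2 : v' = ∑ s, coeff (expo s) (H RatFunc.X r (pp QA p)) • O s := by
      funext q
      have h3 := apply_toL (H RatFunc.X r) (O p) q
      rw [hv', coeff_toL, hO r p q] at h3
      rw [h3, Finset.sum_apply]
      rfl
    have h4 : toL v' = ∑ s, coeff (expo s) (H RatFunc.X r (pp QA p)) • toL (O s) := by
      rw [h2]
      have h5 : ∀ (F : Finset n.Partition) (c : n.Partition → QA),
          toL (∑ s ∈ F, c s • O s) = ∑ s ∈ F, c s • toL (O s) := by
        intro F c
        induction F using Finset.induction_on with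
        | empty =>
          rw [Finset.sum_empty, Finset.sum_empty]
          unfold toL
          simp
        | insert a F ha ih =>
          rw [Finset.sum_insert ha, Finset.sum_insert ha, toL_add, toL_smul, ih]
      exact h5 _ _
    rw [hv', h4, map_sum, LinearMap.sum_apply]
    refine Finset.sum_eq_zero fun s _ => ?_
    rw [map_smul, LinearMap.smul_apply, hf s, smul_zero]
  have h6 := cyc (K := QA) RatFunc.X RatFunc.X_ne_zero V hV1 hVH q p
  rw [hB] at h6
  exact (mul_eq_zero.mp h6).resolve_left (wtp_ne_zero RatFunc.X_ne_zero q)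

end JackM

open JackM in
/-- The reduction, matrix form. -/
theorem jackMat {n : ℕ} {J : n.Partition → n.Partition → QA} (hJ : IsJack RatFunc.X n J)
    (c : n.Partition → n.Partition → n.Partition → QA)
    (hc : ∀ l m v, ∑ p, J l p * c p m v = J l m * J l v)
    (O : n.Partition → n.Partition → QA)
    (hO : ∀ (r : ℕ) (p q : n.Partition),
      ∑ s, O p s * coeff (expo q) (H RatFunc.X r (pp QA s)) =
        ∑ s, coeff (expo s) (H RatFunc.X r (pp QA p)) * O s q)
    (p m : n.Partition) : O p m = ∑ v, O v (ones n) * c p m v := by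
  classical
  have hJI := fin_ident.2
  -- the class operators commute with `H`
  have hcH : ∀ (v : n.Partition) (r : ℕ) (p q : n.Partition),
      ∑ s, c p s v * coeff (expo q) (H RatFunc.X r (pp QA s)) =
        ∑ s, coeff (expo s) (H RatFunc.X r (pp QA p)) * c s q v := by
    intro v r p q
    have h1 : (fun p => ∑ s, c p s v * coeff (expo q) (H RatFunc.X r (pp QA s))) =
        fun p => ∑ s, coeff (expo s) (H RatFunc.X r (pp QA p)) * c s q v := by
      apply CFin.c_eq hJI hJ
      intro l
      obtain ⟨k, hk⟩ := J_eig hJ r l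
      have e1 : ∀ q, ∑ s, J l s * coeff (expo q) (H RatFunc.X r (pp QA s)) = k * J l q := by
        intro q
        rw [← apply_toL, hk, coeff_C_mul, coeff_toL]
      have e2 : ∑ p, J l p * ∑ s, c p s v * coeff (expo q) (H RatFunc.X r (pp QA s)) =
          ∑ s, (∑ p, J l p * c p s v) * coeff (expo q) (H RatFunc.X r (pp QA s)) := by
        simp only [Finset.mul_sum, Finset.sum_mul]
        rw [Finset.sum_comm]
        refine Finset.sum_congr rfl fun s _ => Finset.sum_congr rfl fun p _ => ?_
        ring
      have e3 : ∑ p, J l p * ∑ s, coeff (expo s) (H RatFunc.X r (pp QA p)) * c s q v =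
          ∑ s, (∑ p, J l p * coeff (expo s) (H RatFunc.X r (pp QA p))) * c s q v := by
        simp only [Finset.mul_sum, Finset.sum_mul]
        rw [Finset.sum_comm]
        refine Finset.sum_congr rfl fun s _ => Finset.sum_congr rfl fun p _ => ?_
        ring
      rw [e2, e3]
      have e4 : ∑ s, (∑ p, J l p * c p s v) * coeff (expo q) (H RatFunc.X r (pp QA s)) =
          J l v * ∑ s, J l s * coeff (expo q) (H RatFunc.X r (pp QA s)) := by
        rw [Finset.mul_sum]
        refine Finset.sum_congr rfl fun s _ => ?_
        rw [hc l s v]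
        ring
      have e5 : ∑ s, (∑ p, J l p * coeff (expo s) (H RatFunc.X r (pp QA p))) * c s q v =
          k * ∑ s, J l s * c s q v := by
        rw [Finset.mul_sum]
        refine Finset.sum_congr rfl fun s _ => ?_
        rw [e1 s]
        ring
      rw [e4, e5, e1, hc l q v]
      ring
    exact congrFun h1 p
  -- the `p_1^n` column of the class operators
  have hc1 : ∀ p v : n.Partition, c p (ones n) v = if p = v then 1 else 0 := by
    intro p v
    have h1 : (fun p => c p (ones n) v) = fun p => if p = v then 1 else 0 := by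
      apply CFin.c_eq hJI hJ
      intro l
      rw [hc l (ones n) v, J_ones hJ, one_mul]
      simp
    exact congrFun h1 p
  have h := eq_zero (fun p m => O p m - ∑ v, O v (ones n) * c p m v) ?_ ?_ p m
  · exact sub_eq_zero.mp h
  · intro r p q
    have e1 : ∑ s, (O p s - ∑ v, O v (ones n) * c p s v) *
        coeff (expo q) (H RatFunc.X r (pp QA s)) =
        ∑ s, O p s * coeff (expo q) (H RatFunc.X r (pp QA s)) -
          ∑ v, O v (ones n) * ∑ s, c p s v * coeff (expo q) (H RatFunc.X r (pp QA s)) := by
      simp only [sub_mul, Finset.sum_sub_distrib, Finset.sum_mul, Finset.mul_sum]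
      congr 1
      rw [Finset.sum_comm]
      refine Finset.sum_congr rfl fun s _ => Finset.sum_congr rfl fun p _ => ?_
      ring
    have e2 : ∑ s, coeff (expo s) (H RatFunc.X r (pp QA p)) *
        (O s q - ∑ v, O v (ones n) * c s q v) =
        ∑ s, coeff (expo s) (H RatFunc.X r (pp QA p)) * O s q -
          ∑ v, O v (ones n) * ∑ s, coeff (expo s) (H RatFunc.X r (pp QA p)) * c s q v := by
      simp only [mul_sub, Finset.sum_sub_distrib, Finset.mul_sum]
      congr 1
      rw [Finset.sum_comm]
      refine Finset.sum_congr rfl fun s _ => Finset.sum_congr rfl fun p _ => ?_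
      ring
    rw [e1, e2, hO r p q]
    congr 1
    refine Finset.sum_congr rfl fun v _ => ?_
    rw [hcH v r p q]
  · intro p
    simp only [hc1]
    simp

/-- The reduction, operator form. -/
theorem jackOp {n : ℕ} {J : n.Partition → n.Partition → QA} (hJ : IsJack RatFunc.X n J)
    (c : n.Partition → n.Partition → n.Partition → QA)
    (hc : ∀ l m v, ∑ p, J l p * c p m v = J l m * J l v)
    (T : Lam QA →ₗ[QA] Lam QA)
    (hT : ∀ (r : ℕ) (p : n.Partition), T (H RatFunc.X r (pp QA p)) = H RatFunc.X r (T (pp QA p)))
    (hS : ∀ p : n.Partition, T (pp QA p) ∈ GradeM.S QA n)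
    (p m : n.Partition) :
    coeff (expo m) (T (pp QA p)) =
      ∑ v, coeff (expo (ones n)) (T (pp QA v)) * c p m v := by
  classical
  refine jackMat hJ c hc (fun p m => coeff (expo m) (T (pp QA p))) ?_ p m
  intro r p q
  obtain ⟨v, hv⟩ := GradeM.exists_toL (hS p)
  obtain ⟨v0, hv0⟩ := pp_eq_toL (K := QA) p
  obtain ⟨v', hv'⟩ := gradeM QA RatFunc.X r n v0
  have h1 := hT r p
  have h2 : coeff (expo q) (T (H RatFunc.X r (pp QA p))) =
      ∑ s : n.Partition,
        coeff (expo s) (H RatFunc.X r (pp QA p)) * coeff (expo q) (T (pp QA s)) := by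
    rw [hv0, hv', apply_toL]
    refine Finset.sum_congr rfl fun s _ => ?_
    rw [coeff_toL]
  have h3 : coeff (expo q) (H RatFunc.X r (T (pp QA p))) =
      ∑ s : n.Partition,
        coeff (expo s) (T (pp QA p)) * coeff (expo q) (H RatFunc.X r (pp QA s)) := by
    rw [hv, apply_toL]
    refine Finset.sum_congr rfl fun s _ => ?_
    rw [coeff_toL]
  rw [← h2, h1, h3]

end

end Pool.Agent.MJT
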