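import Pool.Agent.MJT.Abs

/-!
The abstract part of the insertion process, part two: the lifts of the operators `B_j`, and
the commutation with the operators `H`.
-/

namespace Pool.Agent.MJT

open MvPolynomial Pool.Agent.MJR

noncomputable section

/-- The full Lax operator. -/
def Zf {K : Type} [Field K] (al : K) : LW K →ₗ[K] LW K := Z al + cW ∘ₗ Tr

namespace AbsM

variable {K : Type} [Field K] {al : K} {M N : Type} [AddCommGroup M] [Module K M]
  [AddCommGroup N] [Module K N] {A R D0 bh : M →ₗ[K] M} {D bc : N →ₗ[K] N}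
  {i : N →ₗ[K] M} {cl : M →ₗ[K] N} {e : N}

/-- The lifts of the `B_j`. -/
def Bh (al : K) (D0 bh : M →ₗ[K] M) : ℕ → Module.End K M
  | 0 => 0
  | 1 => bh
  | (j + 2) => (al * ((j + 1 : ℕ) : K))⁻¹ •
      (Ch D0 bh ∘ₗ Bh al D0 bh (j + 1) - Bh al D0 bh (j + 1) ∘ₗ Ch D0 bh)

lemma Bh_succ [CharZero K] (hal : al ≠ 0) {j : ℕ} (hj : j ≠ 0) (x : M) :
    (al * (j : K)) • Bh al D0 bh (j + 1) x =
      Ch D0 bh (Bh al D0 bh j x) - Bh al D0 bh j (Ch D0 bh x) := by
  obtain ⟨k, rfl⟩ := Nat.exists_eq_succ_of_ne_zero hj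
  have h6 : al * ((k + 1 : ℕ) : K) ≠ 0 :=
    mul_ne_zero hal (by exact_mod_cast Nat.succ_ne_zero k)
  change (al * ((k + 1 : ℕ) : K)) • ((al * ((k + 1 : ℕ) : K))⁻¹ •
      (Ch D0 bh ∘ₗ Bh al D0 bh (k + 1) - Bh al D0 bh (k + 1) ∘ₗ Ch D0 bh)) x = _
  rw [LinearMap.smul_apply, smul_smul, mul_inv_cancel₀ h6, one_smul]
  rfl

lemma smul_cancel [CharZero K] (hal : al ≠ 0) {V : Type} [AddCommGroup V] [Module K V] {j : ℕ}
    (hj : j ≠ 0) {x y : V} (h : (al * (j : K)) • x = (al * (j : K)) • y) : x = y := by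
  have h6 : al * (j : K) ≠ 0 := mul_ne_zero hal (by exact_mod_cast hj)
  exact smul_right_injective V h6 h

lemma Bh_A (h : Rel al A R D0 bh D bc i cl e) [CharZero K] (hal : al ≠ 0) (j : ℕ) (x : M) :
    Bh al D0 bh j (A x) = A (Bh al D0 bh j x) := by
  induction j generalizing x with
  | zero => simp [Bh]
  | succ j ih =>
    rcases eq_or_ne j 0 with rfl | hj
    · exact h.w3 x
    · apply smul_cancel hal hj
      have e1 := congrArg A (Bh_succ (D0 := D0) (bh := bh) hal hj x)
      rw [map_smul] at e1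
      rw [Bh_succ hal hj, e1, ih, Ch_A h, Ch_A h]
      simp only [map_add, map_sub, map_smul, ih]
      abel

lemma R_Ch (h : Rel al A R D0 bh D bc i cl e) (x : M) :
    R (Ch D0 bh x) = Ch D0 bh (R x) + al • A (R x) := by
  rw [Ch_apply, Ch_apply, map_sub, ← h.w2, h.w4, h.w4, map_add, h.w2, map_smul, h.w1]
  simp only [smul_add]
  abel

lemma R_Bh (h : Rel al A R D0 bh D bc i cl e) [CharZero K] (hal : al ≠ 0) (j : ℕ) (x : M) :
    R (Bh al D0 bh j x) = Bh al D0 bh j (R x) + (al * j) • (A ^ j) x := by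
  induction j generalizing x with
  | zero => simp [Bh]
  | succ j ih =>
    rcases eq_or_ne j 0 with rfl | hj
    · change R (bh x) = bh (R x) + _
      rw [h.w4]
      simp
    · apply smul_cancel hal hj
      have e1 : (A ^ (j + 1)) x = A ((A ^ j) x) := by rw [pow_succ', Module.End.mul_apply]
      have hBA : ∀ y, Bh al D0 bh j (A y) = A (Bh al D0 bh j y) := fun y => Bh_A h hal j y
      rw [← map_smul R, Bh_succ hal hj, map_sub, R_Ch h, ih, ih, R_Ch h, smul_add,
        Bh_succ hal hj]
      simp only [map_add, map_smul]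
      rw [Ch_A_pow h, hBA, e1]
      push_cast
      module

lemma Bh_i (h : Rel al A R D0 bh D bc i cl e) [CharZero K] (hal : al ≠ 0) (j : ℕ) (x : N) :
    Bh al D0 bh j (i x) = i (Bj A i cl j x) := by
  induction j generalizing x with
  | zero => simp [Bh, Bj_zero]
  | succ j ih =>
    rcases eq_or_ne j 0 with rfl | hj
    · change bh (i x) = _
      rw [zero_add, Bj_one h, h.bi]
    · apply smul_cancel hal hj
      rw [Bh_succ hal hj, ih, Ch_i h, Ch_i h, ih, Cc_Bj h hj, map_add, map_smul]
      abel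

lemma cl_Bh (h : Rel al A R D0 bh D bc i cl e) [CharZero K] (hal : al ≠ 0) (j : ℕ) (x : M) :
    cl (Bh al D0 bh j x) = Bj A i cl j (cl x) := by
  induction j generalizing x with
  | zero => simp [Bh, Bj_zero]
  | succ j ih =>
    rcases eq_or_ne j 0 with rfl | hj
    · change cl (bh x) = _
      rw [zero_add, Bj_one h, h.clb]
    · apply smul_cancel hal hj
      rw [← map_smul cl, Bh_succ hal hj, map_sub, cl_Ch h, ih, ih, cl_Ch h, Cc_Bj h hj]
      abel

/-- The defect. -/
def De (al : K) (A R : M →ₗ[K] M) (i : N →ₗ[K] M) (cl : M →ₗ[K] N) (x : M) : M :=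
  R (A x) - A (R x) - (al - 1) • A x - i (cl (A x))

lemma De_Bh (h : Rel al A R D0 bh D bc i cl e) [CharZero K] (hal : al ≠ 0) (j : ℕ) (x : M) :
    De al A R i cl (Bh al D0 bh j x) = Bh al D0 bh j (De al A R i cl x) := by
  have hBA : ∀ y, Bh al D0 bh j (A y) = A (Bh al D0 bh j y) := fun y => Bh_A h hal j y
  have e1 : (A ^ j) (A x) = A ((A ^ j) x) := by
    rw [← Module.End.mul_apply, ← Module.End.mul_apply, ← pow_succ, ← pow_succ']
  unfold De
  rw [← hBA, R_Bh h hal, R_Bh h hal, cl_Bh h hal, ← Bh_i h hal]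
  simp only [map_sub, map_add, map_smul, hBA, e1]
  abel

lemma Ch_v (h : Rel al A R D0 bh D bc i cl e) (m : ℕ) :
    Ch D0 bh ((A ^ m) (i e)) = (al * m) • (A ^ (m + 1)) (i e) := by
  rw [Ch_A_pow h, Ch_i h, Cc_apply, h.De, h.Dbe]
  simp

lemma Cc_e (h : Rel al A R D0 bh D bc i cl e) : Cc D bc e = 0 := by
  rw [Cc_apply, h.De, h.Dbe]
  simp

/-- The formula for `R A^m i e`. -/
lemma R_v (h : Rel al A R D0 bh D bc i cl e) [CharZero K] (hal : al ≠ 0) (m : ℕ) :
    R ((A ^ m) (i e)) = ((al - 1) * m) • (A ^ m) (i e) +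
      ∑ a ∈ Finset.range m, (A ^ a) (i (Bj A i cl (m - a) e)) := by
  induction m with
  | zero => simp [h.Re]
  | succ m ih =>
    rcases eq_or_ne m 0 with rfl | hm
    · simp only [zero_add, pow_one, Finset.range_one, Finset.sum_singleton, pow_zero,
        Module.End.one_apply, Nat.sub_zero, Nat.cast_one, mul_one]
      rw [h.base, Bj_one h, add_comm]
    · apply smul_cancel hal hm
      have e2 : ∀ (a : ℕ) (y : M), A ((A ^ a) y) = (A ^ (a + 1)) y := by
        intro a y
        rw [pow_succ', Module.End.mul_apply]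
      have h1 : (al * (m : K)) • R ((A ^ (m + 1)) (i e)) =
          Ch D0 bh (R ((A ^ m) (i e))) + al • A (R ((A ^ m) (i e))) := by
        rw [← map_smul R, ← Ch_v h, R_Ch h]
      have h2 : ∀ a ∈ Finset.range m, Ch D0 bh ((A ^ a) (i (Bj A i cl (m - a) e))) =
          (al * ((m : K) - a)) • (A ^ a) (i (Bj A i cl (m + 1 - a) e)) +
          (al * a) • (A ^ (a + 1)) (i (Bj A i cl (m - a) e)) := by
        intro a ha
        rw [Finset.mem_range] at ha
        have hma : m - a ≠ 0 := by omega
        have e3 : m - a + 1 = m + 1 - a := by omega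
        rw [Ch_A_pow h, Ch_i h, Cc_Bj h hma, Cc_e h, map_zero, zero_add, map_smul, map_smul, e3,
          Nat.cast_sub ha.le]
      rw [h1, ih]
      simp only [map_add, map_smul, map_sum]
      rw [Ch_v h, Finset.sum_congr rfl h2]
      simp only [e2]
      rw [Finset.sum_add_distrib]
      -- compare
      have h3 : ∑ a ∈ Finset.range m, (al * ((m : K) - a)) •
            (A ^ a) (i (Bj A i cl (m + 1 - a) e)) =
          ∑ a ∈ Finset.range (m + 1), (al * ((m : K) - a)) •
            (A ^ a) (i (Bj A i cl (m + 1 - a) e)) := by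
        rw [Finset.sum_range_succ, sub_self, mul_zero, zero_smul, add_zero]
      have h4 : ∑ a ∈ Finset.range m, (al * (a : K)) •
            (A ^ (a + 1)) (i (Bj A i cl (m - a) e)) +
            al • ∑ a ∈ Finset.range m, (A ^ (a + 1)) (i (Bj A i cl (m - a) e)) =
          ∑ a ∈ Finset.range (m + 1), (al * (a : K)) •
            (A ^ a) (i (Bj A i cl (m + 1 - a) e)) := by
        rw [Finset.sum_range_succ', Nat.cast_zero, mul_zero, zero_smul, add_zero,
          Finset.smul_sum, ← Finset.sum_add_distrib]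
        refine Finset.sum_congr rfl fun a _ => ?_
        have e3 : m + 1 - (a + 1) = m - a := by omega
        rw [e3]
        push_cast
        module
      have h5 : ∑ a ∈ Finset.range (m + 1), (al * ((m : K) - a)) •
            (A ^ a) (i (Bj A i cl (m + 1 - a) e)) +
          ∑ a ∈ Finset.range (m + 1), (al * (a : K)) •
            (A ^ a) (i (Bj A i cl (m + 1 - a) e)) =
          (al * (m : K)) • ∑ a ∈ Finset.range (m + 1), (A ^ a) (i (Bj A i cl (m + 1 - a) e)) := by
        rw [← Finset.sum_add_distrib, Finset.smul_sum]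
        refine Finset.sum_congr rfl fun a _ => ?_
        module
      simp only [smul_add]
      rw [← h5, ← h4, h3]
      push_cast
      module

/-- The image of the state space of one root. -/
def Kh (A : M →ₗ[K] M) (i : N →ₗ[K] M) (Kc : Lam K →ₗ[K] N) : LW K →ₗ[K] M :=
  Polynomial.lsum fun m => (A ^ m) ∘ₗ i ∘ₗ Kc

lemma Kh_monomial (Kc : Lam K →ₗ[K] N) (m : ℕ) (f : Lam K) :
    Kh A i Kc (Polynomial.monomial m f) = (A ^ m) (i (Kc f)) := by
  unfold Kh
  rw [Polynomial.lsum_apply, Polynomial.sum_monomial_index]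
  · rfl
  · exact map_zero _

lemma Kh_C (Kc : Lam K →ₗ[K] N) (f : Lam K) : Kh A i Kc (Polynomial.C f) = i (Kc f) := by
  rw [← Polynomial.monomial_zero_left, Kh_monomial, pow_zero, Module.End.one_apply]

lemma Kh_X_mul (Kc : Lam K →ₗ[K] N) (G : LW K) :
    Kh A i Kc (Polynomial.X * G) = A (Kh A i Kc G) := by
  induction G using Polynomial.induction_on' with
  | add p q hp hq => rw [mul_add, map_add, hp, hq, map_add, map_add]
  | monomial m f =>
    rw [Polynomial.X_mul_monomial, Kh_monomial, Kh_monomial, pow_succ', Module.End.mul_apply]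

lemma Bh_A_pow (h : Rel al A R D0 bh D bc i cl e) [CharZero K] (hal : al ≠ 0) (j m : ℕ) (x : M) :
    Bh al D0 bh j ((A ^ m) x) = (A ^ m) (Bh al D0 bh j x) := by
  induction m with
  | zero => simp
  | succ m ih =>
    rw [pow_succ', Module.End.mul_apply, Module.End.mul_apply, Bh_A h hal, ih]

lemma Kh_CX (h : Rel al A R D0 bh D bc i cl e) [CharZero K] (hal : al ≠ 0)
    (Kc : Lam K →ₗ[K] N) (hK : ∀ k f, Kc (X k * f) = Bj A i cl k (Kc f)) (k : ℕ) (G : LW K) :
    Kh A i Kc (Polynomial.C (X k) * G) = Bh al D0 bh k (Kh A i Kc G) := by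
  induction G using Polynomial.induction_on' with
  | add p q hp hq => rw [mul_add, map_add, hp, hq, map_add, map_add]
  | monomial m f =>
    rw [Polynomial.C_mul_monomial, Kh_monomial, Kh_monomial, hK, Bh_A_pow h hal, Bh_i h hal]

lemma R_Kh_C (h : Rel al A R D0 bh D bc i cl e) [CharZero K] (hal : al ≠ 0)
    (Kc : Lam K →ₗ[K] N) (h1 : Kc 1 = e) (hK : ∀ k f, Kc (X k * f) = Bj A i cl k (Kc f))
    (f : Lam K) : R (i (Kc f)) = Kh A i Kc (U al f) := by
  induction f using MvPolynomial.induction_on with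
  | C c =>
    have e1 : (C c : Lam K) = c • 1 := by rw [smul_eq_C_mul, mul_one]
    rw [U_C, map_zero, e1, map_smul, map_smul, map_smul, h1, h.Re, smul_zero]
  | add p q hp hq => simp only [map_add, hp, hq]
  | mul_X p k hp =>
    rw [mul_comm, hK, ← Bh_i h hal, R_Bh h hal, hp, U_mul, map_add, Kh_CX h hal Kc hK, U_X]
    congr 1
    have e2 : Polynomial.C p * Polynomial.monomial k (C (al * (k : K))) =
        (al * (k : K)) • Polynomial.monomial k p := by
      rw [Polynomial.C_mul_monomial, Polynomial.smul_monomial, smul_eq_C_mul, mul_comm]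
    rw [e2, map_smul, Kh_monomial]

lemma De_Kh (h : Rel al A R D0 bh D bc i cl e) [CharZero K] (hal : al ≠ 0)
    (Kc : Lam K →ₗ[K] N) (h1 : Kc 1 = e) (hK : ∀ k f, Kc (X k * f) = Bj A i cl k (Kc f))
    (m : ℕ) (f : Lam K) : De al A R i cl ((A ^ m) (i (Kc f))) = 0 := by
  induction f using MvPolynomial.induction_on with
  | C c =>
    have e1 : (C c : Lam K) = c • 1 := by rw [smul_eq_C_mul, mul_one]
    have e3 : De al A R i cl ((A ^ m) (i e)) = 0 := by
      have e2 : ∀ (a : ℕ) (y : M), A ((A ^ a) y) = (A ^ (a + 1)) y := by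
        intro a y
        rw [pow_succ', Module.End.mul_apply]
      unfold De
      rw [e2, R_v h hal, R_v h hal, map_add, map_smul, map_sum, e2]
      simp only [e2]
      rw [Finset.sum_range_succ', pow_zero, Module.End.one_apply, Nat.sub_zero,
        Bj_apply (Nat.succ_ne_zero m)]
      have e4 : ∀ a, m + 1 - (a + 1) = m - a := by
        intro a
        omega
      simp only [e4]
      push_cast
      module
    have e5 : De al A R i cl ((A ^ m) (i (Kc (C c)))) =
        c • De al A R i cl ((A ^ m) (i e)) := by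
      unfold De
      rw [e1, map_smul, h1]
      simp only [map_smul]
      module
    rw [e5, e3, smul_zero]
  | add p q hp hq =>
    have e5 : De al A R i cl ((A ^ m) (i (Kc (p + q)))) =
        De al A R i cl ((A ^ m) (i (Kc p))) + De al A R i cl ((A ^ m) (i (Kc q))) := by
      unfold De
      simp only [map_add]
      module
    rw [e5, hp, hq, add_zero]
  | mul_X p k hp =>
    rw [mul_comm, hK, ← Bh_i h hal, ← Bh_A_pow h hal, De_Bh h hal, hp, map_zero]

lemma Zf_X_mul (G : LW K) : Zf al (Polynomial.X * G) =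
    Polynomial.X * Zf al G + (al - 1) • (Polynomial.X * G) +
      Polynomial.C (Tr (Polynomial.X * G)) := by
  induction G using Polynomial.induction_on' with
  | add p q hp hq =>
    rw [mul_add, map_add, hp, hq, map_add, map_add, map_add, mul_add, smul_add]
    abel
  | monomial m f =>
    have hZ : ∀ G : LW K, Zf al G = Z al G + Polynomial.C (Tr G) := fun _ => rfl
    rw [hZ, hZ, Polynomial.X_mul_monomial, Z_monomial, Z_monomial]
    have e1 : Polynomial.monomial (m + 1) (C ((al - 1) * ((m + 1 : ℕ) : K)) * f) =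
        Polynomial.X * Polynomial.monomial m (C ((al - 1) * (m : K)) * f) +
          (al - 1) • Polynomial.monomial (m + 1) f := by
      rw [Polynomial.X_mul_monomial, Polynomial.smul_monomial, smul_eq_C_mul, ← map_add]
      congr 1
      push_cast
      simp only [map_mul, map_add, map_one]
      ring
    have e2 : ∑ a ∈ Finset.Ico 1 (m + 1), Polynomial.monomial a (X (m + 1 - a) * f) =
        Polynomial.X * (∑ a ∈ Finset.Ico 1 m, Polynomial.monomial a (X (m - a) * f)) +
          Polynomial.X * Polynomial.C (Tr (Polynomial.monomial m f)) := by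
      rcases Nat.eq_zero_or_pos m with rfl | hm
      · rw [Polynomial.monomial_zero_left, Tr_C]
        simp
      · have e3 : (Finset.Ico 1 (m + 1)).sum (fun a => Polynomial.monomial a
            ((X (m + 1 - a) : Lam K) * f)) = Polynomial.monomial 1 (X m * f) +
            (Finset.Ico 2 (m + 1)).sum (fun a => Polynomial.monomial a
            ((X (m + 1 - a) : Lam K) * f)) := by
          rw [Finset.sum_eq_sum_Ico_succ_bot (by omega)]
          rfl
        have e4 : (Finset.Ico 1 m).sum (fun a => Polynomial.monomial (a + 1)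
            ((X (m + 1 - (a + 1)) : Lam K) * f)) =
            (Finset.Ico 2 (m + 1)).sum (fun a => Polynomial.monomial a
            ((X (m + 1 - a) : Lam K) * f)) :=
          Finset.sum_Ico_add' (fun a => Polynomial.monomial a ((X (m + 1 - a) : Lam K) * f)) 1 m 1
        rw [e3, ← e4, Tr_monomial m (by omega), Finset.mul_sum, Polynomial.X_mul_C,
          Polynomial.C_mul_X_eq_monomial, add_comm]
        congr 1
        refine Finset.sum_congr rfl fun a _ => ?_
        rw [Polynomial.X_mul_monomial]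
        have e5 : m + 1 - (a + 1) = m - a := by omega
        rw [e5]
    rw [e1, e2, pow_succ']
    ring

/-- `R` acts as the Lax operator. -/
lemma R_Kh (h : Rel al A R D0 bh D bc i cl e) [CharZero K] (hal : al ≠ 0)
    (Kc : Lam K →ₗ[K] N) (h1 : Kc 1 = e) (hK : ∀ k f, Kc (X k * f) = Bj A i cl k (Kc f))
    (G : LW K) : R (Kh A i Kc G) = Kh A i Kc (Zf al G) := by
  induction G using Polynomial.induction_on' with
  | add p q hp hq => simp only [map_add, hp, hq]
  | monomial m f =>
    induction m with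
    | zero =>
      have hZ : ∀ G : LW K, Zf al G = Z al G + Polynomial.C (Tr G) := fun _ => rfl
      rw [Polynomial.monomial_zero_left, Kh_C, R_Kh_C h hal Kc h1 hK, hZ, Z_C, Tr_C, map_zero,
        add_zero]
    | succ m ih =>
      have e1 : (Polynomial.monomial (m + 1) f : LW K) =
          Polynomial.X * Polynomial.monomial m f := by rw [Polynomial.X_mul_monomial]
      have e2 := De_Kh h hal Kc h1 hK m f
      unfold De at e2
      rw [← Kh_monomial (A := A) (i := i) Kc m f] at e2
      have e3 : Kh A i Kc (Polynomial.C (Tr (Polynomial.X * Polynomial.monomial m f))) =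
          i (cl (A (Kh A i Kc (Polynomial.monomial m f)))) := by
        rw [Kh_C, ← e1, Tr_monomial _ (Nat.succ_ne_zero m), hK, Bj_apply (Nat.succ_ne_zero m),
          Kh_monomial, pow_succ', Module.End.mul_apply]
      rw [e1, Zf_X_mul, map_add, map_add, Kh_X_mul, Kh_X_mul, map_smul, Kh_X_mul, ← ih, e3]
      have e4 : ∀ a b c d : M, a - b - c - d = 0 → a = b + c + d := by
        intro a b c d h
        have := congrArg (fun z => z + d + c + b) h
        simp only [zero_add, sub_add_cancel] at this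
        rw [this]
        abel
      exact e4 _ _ _ _ e2

end AbsM

open AbsM in
/-- The abstract theorem: if the states are mapped to polynomials in the power sums such that
`R` becomes the Lax operator, the resulting operator commutes with all `H al r`. -/
theorem absMain {K : Type} [Field K] [CharZero K] {al : K} (hal : al ≠ 0) {M N : Type}
    [AddCommGroup M] [Module K M] [AddCommGroup N] [Module K N]
    {A R D0 bh : M →ₗ[K] M} {D bc : N →ₗ[K] N} {i : N →ₗ[K] M} {cl : M →ₗ[K] N} {e : N}
    (h : Rel al A R D0 bh D bc i cl e) (F : M →ₗ[K] LW K) (Fc : N →ₗ[K] Lam K)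
    (hR : ∀ x, F (R x) = Zf al (F x)) (hcl : ∀ x, Fc (cl x) = Tr (F x))
    (hi : ∀ x, F (i x) = Polynomial.C (Fc x)) :
    ∃ Kc : Lam K →ₗ[K] N, Kc 1 = e ∧
      (∀ k f, k ≠ 0 → Kc (X k * f) = cl ((A ^ k) (i (Kc f)))) ∧
      ∀ r f, Fc (Kc (H al r f)) = H al r (Fc (Kc f)) := by
  obtain ⟨Kc, h1, hK⟩ := exists_Kc (Bj A i cl) (fun j k x => Bj_comm h hal j k x) e
  refine ⟨Kc, h1, fun k f hk => by rw [hK, Bj_apply hk], fun r f => ?_⟩
  have hTr : ∀ G : LW K, Tr (F (Kh A i Kc G)) = Fc (Kc (Tr G)) := by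
    intro G
    induction G using Polynomial.induction_on' with
    | add p q hp hq => simp only [map_add, hp, hq]
    | monomial m f =>
      rcases eq_or_ne m 0 with rfl | hm
      · rw [Polynomial.monomial_zero_left, Kh_C, hi, Tr_C, Tr_C, map_zero, map_zero]
      · rw [← hcl, Kh_monomial, Tr_monomial m hm, hK, Bj_apply hm]
  have hZf : ∀ G : LW K, Zf al G = Z al G + Polynomial.C (Tr G) := fun _ => rfl
  have hZ : ∀ G : LW K, Z al (F (Kh A i Kc G)) = F (Kh A i Kc (Z al G)) := by
    intro G
    have e1 := hR (Kh A i Kc G)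
    rw [R_Kh h hal Kc h1 hK, hZf, hZf, map_add, map_add, Kh_C, hi, hTr] at e1
    exact (add_right_cancel e1).symm
  have hZp : ∀ (s : ℕ) (G : LW K), (Z al ^ s) (F (Kh A i Kc G)) =
      F (Kh A i Kc ((Z al ^ s) G)) := by
    intro s G
    induction s with
    | zero => rfl
    | succ s ih => rw [pow_succ', Module.End.mul_apply, Module.End.mul_apply, ih, hZ]
  have hC : (Polynomial.C (Fc (Kc f)) : LW K) = F (Kh A i Kc (Polynomial.C f)) := by
    rw [Kh_C, hi]
  rw [H_apply, H_apply, hC, hZp, hTr]

end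

end Pool.Agent.MJT
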