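import Pool.Agent.MJT.QMore

/-!
The class `(4, 2, 2, 2)` completed by ones, and the list of all classes.
-/

namespace Pool.Agent.MJT

open Polynomial

noncomputable section

namespace QMore

open QDiv QFive

variable {K : Type} [Field K]

/-- The multiplicities of a partition of rank six. -/
lemma counts6 {n : ℕ} (nu : n.Partition) (h : nu.parts.card + 6 = n) :
    nu.parts.count 1 + nu.parts.count 2 + nu.parts.count 3 + nu.parts.count 4 +
      nu.parts.count 5 + nu.parts.count 6 + nu.parts.count 7 + 6 = n ∧
    nu.parts.count 2 + 2 * nu.parts.count 3 + 3 * nu.parts.count 4 + 4 * nu.parts.count 5 +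
      5 * nu.parts.count 6 + 6 * nu.parts.count 7 = 6 := by
  have hsub : nu.parts.toFinset ⊆ Finset.range 8 := by
    intro x hx
    rw [Multiset.mem_toFinset] at hx
    have := part_le nu hx
    rw [Finset.mem_range]
    omega
  have h0 : nu.parts.count 0 = 0 := by
    rw [Multiset.count_eq_zero]
    intro h
    exact absurd (nu.parts_pos h) (lt_irrefl 0)
  have h1 : nu.parts.card = ∑ x ∈ Finset.range 8, nu.parts.count x :=
    (Multiset.sum_count_eq_card fun x hx => hsub (Multiset.mem_toFinset.mpr hx)).symm
  have h2 : nu.parts.sum = ∑ x ∈ Finset.range 8, nu.parts.count x * x := by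
    have h3 := Finset.sum_multiset_count_of_subset nu.parts (Finset.range 8) hsub
    rw [h3]
    simp only [smul_eq_mul]
  rw [nu.parts_sum] at h2
  simp only [Finset.sum_range_succ, Finset.sum_range_zero, h0] at h1 h2
  omega

/-- The quadratic function for `k = 8`. -/
lemma anti8 {n : ℕ} (nu : n.Partition) : ∑ x ∈ Finset.HasAntidiagonal.antidiagonal 8,
    (nu.parts.count x.1 : K) * (nu.parts.count x.2 : K) =
    2 * ((nu.parts.count 1 : K) * nu.parts.count 7 + (nu.parts.count 2 : K) * nu.parts.count 6 +
      (nu.parts.count 3 : K) * nu.parts.count 5) +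
      (nu.parts.count 4 : K) * nu.parts.count 4 := by
  have h0 : nu.parts.count 0 = 0 := by
    rw [Multiset.count_eq_zero]
    intro h
    exact absurd (nu.parts_pos h) (lt_irrefl 0)
  have h1 : Finset.HasAntidiagonal.antidiagonal 8 =
    {((0 : ℕ), 8), (1, 7), (2, 6), (3, 5), (4, 4), (5, 3), (6, 2), (7, 1), (8, 0)} := by decide
  rw [h1]
  rw [Finset.sum_insert (by decide), Finset.sum_insert (by decide), Finset.sum_insert (by decide),
    Finset.sum_insert (by decide), Finset.sum_insert (by decide), Finset.sum_insert (by decide),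
    Finset.sum_insert (by decide), Finset.sum_insert (by decide), Finset.sum_singleton]
  rw [h0]
  push_cast
  ring

/-- The pointwise identity. -/
lemma ident6 {N a b c d e f g : K} (h : a = N - 6 - b - c - d - e - f - g) {b' c' d' e' f' g' : ℕ}
    (hb : b = b') (hc : c = c') (hd : d = d') (he : e = e') (hf : f = f') (hg : g = g')
    (h6 : b' + 2 * c' + 3 * d' + 4 * e' + 5 * f' + 6 * g' = 6) :
    2 * (if d' = 1 ∧ b' = 3 then (1 : K) else 0) = 4 * d + 4 * e -
      2 * (2 * (a * g + b * f + c * e) + d * d) - 2 * (a * f + b * e + c * d) +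
      4 * (N - 7) * g + 2 * (N - 6) * f := by
  have hb' : b' = 6 - 2 * c' - 3 * d' - 4 * e' - 5 * f' - 6 * g' := by omega
  subst hb hc hd he hf hg h hb'
  have g1 : g' ≤ 1 := by omega
  have g2 : f' ≤ 1 := by omega
  have g3 : e' ≤ 1 := by omega
  have g4 : d' ≤ 2 := by omega
  have g5 : c' ≤ 3 := by omega
  interval_cases g' <;> interval_cases f' <;> interval_cases e' <;> interval_cases d' <;>
    interval_cases c' <;>
  first
    | (exfalso; revert h6; decide)
    | (norm_num; done)
    | (norm_num; ring)

variable [CharZero K]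

/-- The class `(4, 2, 2, 2)` completed by ones. -/
theorem fourTwos {al : K} (h0 : al ≠ 0) (h1 : al + 1 ≠ 0) {n : ℕ} (E : n.Partition → K)
    (h : ∀ u v s : K, v = 0 ∨ v = 1 ∨ v = -al →
      ∑ nu, E nu * (nu.parts.map fun i => u + v * s ^ i).prod = 0)
    (nu : n.Partition) (hc : nu.parts.card + 6 = n) (h4 : nu.parts.count 4 = 1)
    (h2 : nu.parts.count 2 = 3) : E nu = 0 := by
  classical
  have five := rankFive h0 h1 E h
  obtain ⟨_, hI, hII⟩ := levelCount h0 h1 E h nu.parts.card (fun mu hmu => five mu (by omega))
  obtain ⟨L, hL⟩ : ∃ L, L = nu.parts.card := ⟨_, rfl⟩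
  rw [← hL] at hI hII hc
  have key : 2 * SL L (fun mu => E mu * (if mu.parts.count 4 = 1 ∧ mu.parts.count 2 = 3 then
      (1 : K) else 0)) = 4 * SL L (fun mu => E mu * (mu.parts.count 4 : K)) +
      4 * SL L (fun mu => E mu * (mu.parts.count 5 : K)) -
      2 * SL L (fun mu => E mu * ∑ x ∈ Finset.HasAntidiagonal.antidiagonal 8,
        (mu.parts.count x.1 : K) * (mu.parts.count x.2 : K)) -
      SL L (fun mu => E mu * ∑ x ∈ Finset.HasAntidiagonal.antidiagonal 7,
        (mu.parts.count x.1 : K) * (mu.parts.count x.2 : K)) +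
      4 * ((n : K) - 7) * SL L (fun mu => E mu * (mu.parts.count 7 : K)) +
      2 * ((n : K) - 6) * SL L (fun mu => E mu * (mu.parts.count 6 : K)) := by
    unfold SL
    simp only [Finset.mul_sum]
    rw [← Finset.sum_add_distrib, ← Finset.sum_sub_distrib, ← Finset.sum_sub_distrib,
      ← Finset.sum_add_distrib, ← Finset.sum_add_distrib]
    refine Finset.sum_congr rfl fun mu hmu => ?_
    rw [Finset.mem_filter] at hmu
    have c := counts6 mu (by omega)
    simp only [← Finset.mul_sum]
    rw [anti7, anti8]
    have hcast : (mu.parts.count 1 : K) = (n : K) - 6 - mu.parts.count 2 - mu.parts.count 3 -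
        mu.parts.count 4 - mu.parts.count 5 - mu.parts.count 6 - mu.parts.count 7 := by
      have h3 := congrArg (Nat.cast : ℕ → K) c.1
      push_cast at h3
      rw [← h3]
      ring
    have id := ident6 hcast rfl rfl rfl rfl rfl rfl c.2
    linear_combination E mu * id
  rw [hI, hI, hI, hI, hII, hII] at key
  have e1 : SL L (fun mu => E mu * (if mu.parts.count 4 = 1 ∧ mu.parts.count 2 = 3 then
      (1 : K) else 0)) = 0 := by
    have e2 : (2 : K) * SL L (fun mu => E mu * (if mu.parts.count 4 = 1 ∧
        mu.parts.count 2 = 3 then (1 : K) else 0)) = 0 := by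
      rw [key]
      ring
    exact (mul_eq_zero.mp e2).resolve_left two_ne_zero
  unfold SL at e1
  rw [Finset.sum_eq_single nu] at e1
  · rw [if_pos ⟨h4, h2⟩, mul_one] at e1
    exact e1
  · intro mu hmu hne
    rw [Finset.mem_filter] at hmu
    rw [if_neg, mul_zero]
    rintro ⟨g4, g2⟩
    apply hne
    have c1 := counts6 mu (by omega)
    have c2 := counts6 nu (by omega)
    have hp : ∀ la : n.Partition, la.parts.card = L → la.parts.count 4 = 1 →
        la.parts.count 2 = 3 → la.parts = {4, 2, 2, 2} + Multiset.replicate (n - 10) 1 := by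
      intro la hla k4 k2
      have c := counts6 la (by omega)
      rw [Multiset.ext]
      intro x
      have hz : 8 ≤ x → la.parts.count x = 0 := by
        intro hx
        rw [Multiset.count_eq_zero]
        intro hm
        have := part_le la hm
        omega
      have hz0 : la.parts.count 0 = 0 := by
        rw [Multiset.count_eq_zero]
        intro h
        exact absurd (la.parts_pos h) (lt_irrefl 0)
      rw [Multiset.count_add, Multiset.count_replicate]
      rcases lt_or_ge x 8 with hx | hx
      · interval_cases x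
        · have : Multiset.count 0 ({4, 2, 2, 2} : Multiset ℕ) = 0 := by decide
          rw [hz0, this, if_neg (by decide)]
        · have : Multiset.count 1 ({4, 2, 2, 2} : Multiset ℕ) = 0 := by decide
          rw [this, if_pos rfl]
          omega
        · have : Multiset.count 2 ({4, 2, 2, 2} : Multiset ℕ) = 3 := by decide
          rw [this, if_neg (by decide), k2]
        · have : Multiset.count 3 ({4, 2, 2, 2} : Multiset ℕ) = 0 := by decide
          rw [this, if_neg (by decide)]
          omega
        · have : Multiset.count 4 ({4, 2, 2, 2} : Multiset ℕ) = 1 := by decide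
          rw [this, if_neg (by decide), k4]
        · have : Multiset.count 5 ({4, 2, 2, 2} : Multiset ℕ) = 0 := by decide
          rw [this, if_neg (by decide)]
          omega
        · have : Multiset.count 6 ({4, 2, 2, 2} : Multiset ℕ) = 0 := by decide
          rw [this, if_neg (by decide)]
          omega
        · have : Multiset.count 7 ({4, 2, 2, 2} : Multiset ℕ) = 0 := by decide
          rw [this, if_neg (by decide)]
          omega
      · have h9 : Multiset.count x ({4, 2, 2, 2} : Multiset ℕ) = 0 := by
          rw [Multiset.count_eq_zero]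
          simp only [Multiset.insert_eq_cons, Multiset.mem_cons, Multiset.mem_singleton]
          omega
        rw [hz hx, h9, if_neg (by omega)]
    apply Nat.Partition.ext
    rw [hp mu hmu.2 g4 g2, hp nu hL.symm h4 h2]
  · intro hn
    exact (hn (Finset.mem_filter.mpr ⟨Finset.mem_univ _, hL.symm⟩)).elim

end QMore

/-- The classes which are determined: at least `n - 5` parts, or a part of size at least `n - 2`,
or the parts different from one are `(7)`, `(8)`, `(6, 2)`, `(7, 2)` or `(4, 2, 2, 2)`. -/
def Good {n : ℕ} (nu : n.Partition) : Prop :=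
  n ≤ nu.parts.card + 5 ∨ (∃ x ∈ nu.parts, n ≤ x + 2) ∨
    nu.parts.filter (fun x => x ≠ 1) ∈
      ({{7}, {8}, {6, 2}, {7, 2}, {4, 2, 2, 2}} : Set (Multiset ℕ))

open QMore in
theorem good {K : Type} [Field K] [CharZero K] {al : K} (h0 : al ≠ 0) (h1 : al + 1 ≠ 0)
    {n : ℕ} (E : n.Partition → K)
    (h : ∀ u v s : K, v = 0 ∨ v = 1 ∨ v = -al →
      ∑ nu, E nu * (nu.parts.map fun i => u + v * s ^ i).prod = 0)
    (nu : n.Partition) (hnu : Good nu) : E nu = 0 := by
  -- the partition from its parts larger than one
  have hf : ∀ s : Multiset ℕ, nu.parts.filter (fun x => x ≠ 1) = s → ∃ k,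
      nu.parts = s + Multiset.replicate k 1 ∧ s.sum + k = n ∧ nu.parts.card = s.card + k := by
    intro s hs
    have e1 := Multiset.filter_add_not (fun x => x ≠ 1) nu.parts
    have e2 : nu.parts.filter (fun x => ¬ x ≠ 1) =
        Multiset.replicate (nu.parts.filter (fun x => ¬ x ≠ 1)).card 1 := by
      rw [Multiset.eq_replicate]
      refine ⟨rfl, fun b hb => ?_⟩
      have := (Multiset.mem_filter.mp hb).2
      simpa using this
    refine ⟨(nu.parts.filter (fun x => ¬ x ≠ 1)).card, ?_, ?_, ?_⟩
    · rw [← hs, ← e2, e1]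
    · have h3 := nu.parts_sum
      rw [← e1, Multiset.sum_add, hs, e2, Multiset.sum_replicate, smul_eq_mul, mul_one] at h3
      exact h3
    · have h3 := congrArg Multiset.card e1
      rw [Multiset.card_add, hs] at h3
      exact h3.symm
  rcases hnu with h5 | ⟨x, hx, hn⟩ | hs
  · exact rankFive h0 h1 E h nu h5
  · exact large h0 h1 E h nu hx hn
  · simp only [Set.mem_insert_iff, Set.mem_singleton_iff] at hs
    rcases hs with hs | hs | hs | hs | hs
    · obtain ⟨k, e1, e2, e3⟩ := hf _ hs
      have e4 : ({7} : Multiset ℕ).sum = 7 := rfl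
      have e5 : ({7} : Multiset ℕ).card = 1 := rfl
      refine sixSeven h0 h1 E h nu (by omega) (x := 7) ?_ (by omega)
      rw [e1]
      simp
    · obtain ⟨k, e1, e2, e3⟩ := hf _ hs
      have e4 : ({8} : Multiset ℕ).sum = 8 := rfl
      have e5 : ({8} : Multiset ℕ).card = 1 := rfl
      refine sixSeven h0 h1 E h nu (by omega) (x := 8) ?_ (by omega)
      rw [e1]
      simp
    · obtain ⟨k, e1, e2, e3⟩ := hf _ hs
      have e4 : ({6, 2} : Multiset ℕ).sum = 8 := rfl
      have e5 : ({6, 2} : Multiset ℕ).card = 2 := rfl
      refine sixSeven h0 h1 E h nu (by omega) (x := 6) ?_ (by omega)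
      rw [e1]
      simp
    · obtain ⟨k, e1, e2, e3⟩ := hf _ hs
      have e4 : ({7, 2} : Multiset ℕ).sum = 9 := rfl
      have e5 : ({7, 2} : Multiset ℕ).card = 2 := rfl
      refine sixSeven h0 h1 E h nu (by omega) (x := 7) ?_ (by omega)
      rw [e1]
      simp
    · obtain ⟨k, e1, e2, e3⟩ := hf _ hs
      have e4 : ({4, 2, 2, 2} : Multiset ℕ).sum = 10 := rfl
      have e5 : ({4, 2, 2, 2} : Multiset ℕ).card = 4 := rfl
      refine fourTwos h0 h1 E h nu (by omega) ?_ ?_
      · rw [e1, Multiset.count_add, Multiset.count_replicate, if_neg (by decide)]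
        decide
      · rw [e1, Multiset.count_add, Multiset.count_replicate, if_neg (by decide)]
        decide

end

end Pool.Agent.MJT
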