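import Pool.Agent.MJT.Jack
import Pool.Agent.MJR.GradeM

/-!
The projection to the elements of weight `n` commutes with the operators `H`; the reduction for
operators which need not preserve the weight.
-/

namespace Pool.Agent.MJT

open MvPolynomial Pool.Agent.MJR

noncomputable section

namespace ProjM

variable {K : Type} [Field K]

lemma coeff_mon {n : ℕ} (s : Multiset ℕ) (r : n.Partition) (h : s ≠ r.parts) :
    coeff (expo r) (GradeM.mon K s) = 0 := by
  classical
  have e : GradeM.mon K s = monomial (Multiset.toFinsupp s) 1 := by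
    unfold GradeM.mon
    clear h
    induction s using Multiset.induction_on with
    | empty => simp
    | cons a s ih =>
      rw [Multiset.map_cons, Multiset.prod_cons, ih, ← Multiset.singleton_add, map_add,
        Multiset.toFinsupp_singleton]
      rw [X, monomial_mul, one_mul]
  rw [e, coeff_monomial, if_neg]
  intro h2
  exact h (Multiset.toFinsupp.injective h2)

lemma monomial_eq_mon (e : ℕ →₀ ℕ) (c : K) :
    monomial e c = c • GradeM.mon K (Finsupp.toMultiset e) := by
  have e1 : ∀ s : Multiset ℕ, GradeM.mon K s = monomial (Multiset.toFinsupp s) 1 := by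
    intro s
    unfold GradeM.mon
    induction s using Multiset.induction_on with
    | empty => simp
    | cons a s ih =>
      rw [Multiset.map_cons, Multiset.prod_cons, ih, ← Multiset.singleton_add, map_add,
        Multiset.toFinsupp_singleton]
      rw [X, monomial_mul, one_mul]
  rw [e1, Finsupp.toMultiset_toFinsupp, smul_monomial, smul_eq_mul, mul_one]

lemma Zpow_X0 (al : K) (r : ℕ) (G : LW K) : (Z al ^ r) (Polynomial.C (X 0) * G) =
    Polynomial.C (X 0) * (Z al ^ r) G := by
  induction r with
  | zero => rfl
  | succ r ih =>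
    rw [pow_succ', Module.End.mul_apply, Module.End.mul_apply, ih, Z_X_mul, Nat.cast_zero,
      mul_zero, C_0, Polynomial.C_0, zero_mul, zero_mul, add_zero]

lemma H_X0 (al : K) (r : ℕ) (f : Lam K) : H al r (X 0 * f) = X 0 * H al r f := by
  rw [H_apply, H_apply, Polynomial.C_mul, Zpow_X0, Tr_C_mul]

lemma H_mon (al : K) (r : ℕ) (s : Multiset ℕ) (h0 : 0 ∉ s) :
    H al r (GradeM.mon K s) ∈ GradeM.S K s.sum := by
  rw [H_apply]
  exact GradeM.Tr_T (GradeM.Zpow_T al (r + 1) (GradeM.C_S (GradeM.mem_S h0 rfl)))

lemma coeff_S {m n : ℕ} (hmn : m ≠ n) {f : Lam K} (hf : f ∈ GradeM.S K m) (r : n.Partition) :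
    coeff (expo r) f = 0 := by
  induction hf using Submodule.span_induction with
  | mem f hf =>
    obtain ⟨s, h0, hs, rfl⟩ := hf
    refine coeff_mon s r fun h => hmn ?_
    rw [← hs, h, r.parts_sum]
  | zero => rw [coeff_zero]
  | add a b _ _ ha hb => rw [coeff_add, ha, hb, add_zero]
  | smul c a _ ha => rw [coeff_smul, ha, smul_zero]

end ProjM

/-- The projection to the span of the `p_r`, `r` a partition of `n`. -/
def Pj (K : Type) [Field K] (n : ℕ) : Lam K →ₗ[K] Lam K where
  toFun f := toL fun r : n.Partition => coeff (expo r) f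
  map_add' f g := by
    rw [← toL_add]
    rfl
  map_smul' c f := by
    rw [RingHom.id_apply, ← toL_smul]
    rfl

open ProjM

theorem Pj_apply {K : Type} [Field K] (n : ℕ) (f : Lam K) :
    Pj K n f = toL fun r : n.Partition => coeff (expo r) f := rfl

theorem coeff_Pj {K : Type} [Field K] {n : ℕ} (f : Lam K) (r : n.Partition) :
    coeff (expo r) (Pj K n f) = coeff (expo r) f := by
  rw [Pj_apply, coeff_toL]

theorem Pj_S {K : Type} [Field K] {n : ℕ} {f : Lam K} (hf : f ∈ GradeM.S K n) :
    Pj K n f = f := by
  obtain ⟨v, rfl⟩ := GradeM.exists_toL hf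
  rw [Pj_apply]
  congr 1
  funext r
  rw [coeff_toL]

theorem Pj_zero {K : Type} [Field K] {n : ℕ} {f : Lam K}
    (hf : ∀ r : n.Partition, coeff (expo r) f = 0) : Pj K n f = 0 := by
  rw [Pj_apply]
  have h : (fun r : n.Partition => coeff (expo r) f) = 0 := by
    funext r
    exact hf r
  rw [h]
  unfold toL
  simp

/-- The projection commutes with `H`. -/
theorem Pj_H {K : Type} [Field K] (al : K) (n r : ℕ) (f : Lam K) :
    Pj K n (H al r f) = H al r (Pj K n f) := by
  induction f using MvPolynomial.induction_on' with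
  | monomial e c =>
    rw [monomial_eq_mon]
    simp only [map_smul]
    congr 1
    generalize Finsupp.toMultiset e = s
    by_cases h0 : 0 ∈ s
    · obtain ⟨t, rfl⟩ := Multiset.exists_cons_of_mem h0
      have h1 : Pj K n (GradeM.mon K (0 ::ₘ t)) = 0 := by
        refine Pj_zero fun q => coeff_mon _ q fun h => ?_
        have h2 : 0 ∈ q.parts := h ▸ Multiset.mem_cons_self 0 t
        exact absurd (q.parts_pos h2) (lt_irrefl 0)
      rw [h1, map_zero]
      refine Pj_zero fun q => ?_
      rw [GradeM.mon_cons, H_X0, coeff_X_mul', if_neg]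
      unfold expo
      rw [Multiset.toFinsupp_support, Multiset.mem_toFinset]
      intro h2
      exact absurd (q.parts_pos h2) (lt_irrefl 0)
    · by_cases hs : s.sum = n
      · have h1 : H al r (GradeM.mon K s) ∈ GradeM.S K n := by
          rw [← hs]
          exact H_mon al r s h0
        rw [Pj_S (GradeM.mem_S h0 hs), Pj_S h1]
      · rw [Pj_zero fun q => coeff_S hs (H_mon al r s h0) q,
          Pj_zero fun q => coeff_S hs (GradeM.mem_S h0 rfl) q, map_zero]
  | add p q hp hq => rw [map_add, map_add, map_add, map_add, hp, hq]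

/-- The reduction for operators which need not preserve the weight. -/
theorem jackOpP {n : ℕ} {J : n.Partition → n.Partition → QA} (hJ : IsJack RatFunc.X n J)
    (c : n.Partition → n.Partition → n.Partition → QA)
    (hc : ∀ l m v, ∑ p, J l p * c p m v = J l m * J l v)
    (T : Lam QA →ₗ[QA] Lam QA)
    (hT : ∀ (r : ℕ) (f : Lam QA), T (H RatFunc.X r f) = H RatFunc.X r (T f))
    (p m : n.Partition) :
    coeff (expo m) (T (pp QA p)) =
      ∑ v, coeff (expo (ones n)) (T (pp QA v)) * c p m v := by
  have h := jackOp hJ c hc (Pj QA n ∘ₗ T) (fun r p => by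
    rw [LinearMap.comp_apply, LinearMap.comp_apply, hT, Pj_H]) (fun p => by
    rw [LinearMap.comp_apply, Pj_apply]
    exact GradeM.toL_mem _) p m
  simp only [LinearMap.comp_apply, coeff_Pj] at h
  exact h

end

end Pool.Agent.MJT
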