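import Pool.Agent.MJR.Basic

/-!
The abstract part of the insertion process.

`M` is the space of states with a root, `N` the space of states without root, `i : N → M` adds
the empty root, `cl : M → N` closes the root.  `A` inserts a letter at the root, `R` is the
touch of the root, `bh` inserts a letter which forms its own part, `D0`, `D` are the Laplace
operators.
-/

namespace Pool.Agent.MJT

open MvPolynomial Pool.Agent.MJR

noncomputable section

/-- The relations. -/
structure Rel {K : Type} [Field K] (al : K) {M N : Type} [AddCommGroup M] [Module K M]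
    [AddCommGroup N] [Module K N] (A R D0 bh : M →ₗ[K] M) (D bc : N →ₗ[K] N)
    (i : N →ₗ[K] M) (cl : M →ₗ[K] N) (e : N) : Prop where
  w1 : ∀ x, D0 (A x) = A (D0 x) + A (R x)
  w2 : ∀ x, D0 (R x) = R (D0 x)
  w3 : ∀ x, bh (A x) = A (bh x)
  w4 : ∀ x, R (bh x) = bh (R x) + al • A x
  clD : ∀ x, cl (D0 x) = D (cl x)
  clb : ∀ x, cl (bh x) = bc (cl x)
  bi : ∀ x, bh (i x) = i (bc x)
  Di : ∀ x, D0 (i x) = i (D x)
  Re : R (i e) = 0
  De : D e = 0
  Dbe : D (bc e) = 0
  bcA : ∀ x, bc x = cl (A (i x))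
  base : R (A (i e)) = i (bc e) + (al - 1) • A (i e)

namespace AbsM

variable {K : Type} [Field K] {al : K} {M N : Type} [AddCommGroup M] [Module K M]
  [AddCommGroup N] [Module K N] {A R D0 bh : M →ₗ[K] M} {D bc : N →ₗ[K] N}
  {i : N →ₗ[K] M} {cl : M →ₗ[K] N} {e : N}

/-- `close A^j i` -/
def Bj (A : M →ₗ[K] M) (i : N →ₗ[K] M) (cl : M →ₗ[K] N) (j : ℕ) : Module.End K N :=
  if j = 0 then 0 else cl ∘ₗ (A ^ j) ∘ₗ i

lemma Bj_apply {j : ℕ} (hj : j ≠ 0) (x : N) : Bj A i cl j x = cl ((A ^ j) (i x)) := by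
  unfold Bj
  rw [if_neg hj]
  rfl

lemma Bj_zero : Bj A i cl 0 = 0 := if_pos rfl

lemma Bj_one (h : Rel al A R D0 bh D bc i cl e) : Bj A i cl 1 = bc := by
  apply LinearMap.ext
  intro x
  rw [Bj_apply one_ne_zero, pow_one, ← h.bcA]

/-- `[D0, bh]` -/
def Ch (D0 bh : M →ₗ[K] M) : Module.End K M := D0 ∘ₗ bh - bh ∘ₗ D0

lemma Ch_apply (x : M) : Ch D0 bh x = D0 (bh x) - bh (D0 x) := rfl

/-- `[D, bc]` -/
def Cc (D bc : N →ₗ[K] N) : Module.End K N := D ∘ₗ bc - bc ∘ₗ D

lemma Cc_apply (x : N) : Cc D bc x = D (bc x) - bc (D x) := rfl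

lemma Ch_A (h : Rel al A R D0 bh D bc i cl e) (x : M) :
    Ch D0 bh (A x) = A (Ch D0 bh x) + al • A (A x) := by
  rw [Ch_apply, Ch_apply, h.w3, h.w1, h.w1, map_add, h.w3, h.w3, h.w4]
  simp only [map_add, map_sub, map_smul]
  abel

lemma Ch_A_pow (h : Rel al A R D0 bh D bc i cl e) (j : ℕ) (x : M) :
    Ch D0 bh ((A ^ j) x) = (A ^ j) (Ch D0 bh x) + (al * j) • (A ^ (j + 1)) x := by
  induction j with
  | zero => simp
  | succ j ih =>
    have e1 : (A ^ (j + 1)) x = A ((A ^ j) x) := by rw [pow_succ', Module.End.mul_apply]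
    have e2 : (A ^ (j + 1 + 1)) x = A (A ((A ^ j) x)) := by
      rw [pow_succ', Module.End.mul_apply, e1]
    have e3 : (A ^ (j + 1)) (Ch D0 bh x) = A ((A ^ j) (Ch D0 bh x)) := by
      rw [pow_succ', Module.End.mul_apply]
    rw [e1, Ch_A h, ih, map_add, map_smul, e1, e2, e3]
    push_cast
    module

lemma Ch_i (h : Rel al A R D0 bh D bc i cl e) (x : N) : Ch D0 bh (i x) = i (Cc D bc x) := by
  rw [Ch_apply, Cc_apply, h.bi, h.Di, h.Di, h.bi, map_sub]

lemma cl_Ch (h : Rel al A R D0 bh D bc i cl e) (x : M) : cl (Ch D0 bh x) = Cc D bc (cl x) := by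
  rw [Ch_apply, Cc_apply, map_sub, h.clD, h.clb, h.clb, h.clD]

lemma Cc_Bj (h : Rel al A R D0 bh D bc i cl e) {j : ℕ} (hj : j ≠ 0) (x : N) :
    Cc D bc (Bj A i cl j x) = Bj A i cl j (Cc D bc x) + (al * j) • Bj A i cl (j + 1) x := by
  rw [Bj_apply hj, Bj_apply hj, Bj_apply (Nat.succ_ne_zero j), ← cl_Ch h, Ch_A_pow h, Ch_i h,
    map_add, map_smul]

lemma bh_A_pow (h : Rel al A R D0 bh D bc i cl e) (j : ℕ) (x : M) :
    bh ((A ^ j) x) = (A ^ j) (bh x) := by
  induction j with
  | zero => simp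
  | succ j ih => rw [pow_succ', Module.End.mul_apply, Module.End.mul_apply, h.w3, ih]

lemma bc_Bj (h : Rel al A R D0 bh D bc i cl e) (j : ℕ) (x : N) :
    bc (Bj A i cl j x) = Bj A i cl j (bc x) := by
  rcases eq_or_ne j 0 with rfl | hj
  · rw [Bj_zero]
    simp
  · rw [Bj_apply hj, Bj_apply hj, ← h.clb, bh_A_pow h, h.bi]

/-- The `B_j` commute. -/
lemma Bj_comm (h : Rel al A R D0 bh D bc i cl e) [CharZero K] (hal : al ≠ 0) (j k : ℕ) (x : N) :
    Bj A i cl j (Bj A i cl k x) = Bj A i cl k (Bj A i cl j x) := by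
  -- induction on `j`, all `k`
  induction j generalizing k x with
  | zero => rw [Bj_zero]; simp
  | succ j ih =>
    rcases eq_or_ne j 0 with rfl | hj
    · rw [zero_add, Bj_one h, bc_Bj h]
    · rcases eq_or_ne k 0 with rfl | hk
      · rw [Bj_zero]; simp
      · -- bracket of `C` with `B_j B_k = B_k B_j`, and with `B_j B_(k+1) = B_(k+1) B_j`
        have h1 := congrArg (Cc D bc) (ih k x)
        rw [Cc_Bj h hj, Cc_Bj h hk, Cc_Bj h hk, Cc_Bj h hj] at h1
        simp only [map_add, map_smul] at h1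
        rw [ih k (Cc D bc x), ih (k + 1) x] at h1
        have h2 : (al * j) • Bj A i cl (j + 1) (Bj A i cl k x) =
            (al * j) • Bj A i cl k (Bj A i cl (j + 1) x) := by
          have h3 : ∀ (a b c d : N), a + b + c = a + d + b → c = d := by
            intro a b c d h
            have h4 := congrArg (fun z => z - a - b) h
            simpa [add_sub_cancel_left, add_comm, add_left_comm] using h4
          exact h3 _ _ _ _ h1
        have h6 : al * (j : K) ≠ 0 := mul_ne_zero hal (by exact_mod_cast hj)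
        exact smul_right_injective N h6 h2

lemma exists_Kc (B : ℕ → Module.End K N) (hcomm : ∀ j k x, B j (B k x) = B k (B j x)) (e : N) :
    ∃ Kc : Lam K →ₗ[K] N, Kc 1 = e ∧ ∀ k f, Kc (X k * f) = B k (Kc f) := by
  classical
  have hc : ∀ a ∈ Set.range B, ∀ b ∈ Set.range B, a * b = b * a := by
    rintro _ ⟨j, rfl⟩ _ ⟨k, rfl⟩
    apply LinearMap.ext
    intro x
    exact hcomm j k x
  have hcm : IsMulCommutative (Algebra.adjoin K (Set.range B)) :=
    Algebra.isMulCommutative_adjoin K hc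
  let _ : CommRing (Algebra.adjoin K (Set.range B)) :=
    { (inferInstance : Ring (Algebra.adjoin K (Set.range B))) with
      mul_comm := fun a b => hcm.is_comm.comm a b }
  let ev1 : MvPolynomial ℕ K →ₐ[K] Algebra.adjoin K (Set.range B) :=
    aeval fun k => ⟨B k, Algebra.subset_adjoin ⟨k, rfl⟩⟩
  refine ⟨
    { toFun := fun f => (ev1 f : Module.End K N) e
      map_add' := ?_
      map_smul' := ?_ }, ?_, ?_⟩
  · intro f g
    rw [map_add]
    rfl
  · intro c f
    rw [map_smul]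
    rfl
  · change (ev1 1 : Module.End K N) e = e
    rw [map_one]
    rfl
  · intro k f
    change (ev1 (X k * f) : Module.End K N) e = B k ((ev1 f : Module.End K N) e)
    rw [map_mul]
    have : ev1 (X k) = ⟨B k, Algebra.subset_adjoin ⟨k, rfl⟩⟩ := aeval_X _ _
    rw [this]
    rfl

end AbsM

end

end Pool.Agent.MJT
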