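import Pool.Agent.MJT.Star

/-!
Operators of the form `Bx P Bs` with `P` commuting with the full Lax operator commute with
all `H al r`.
-/

namespace Pool.Agent.MJT

open MvPolynomial Pool.Agent.MJR Pool.Agent.MJR.GradeM

noncomputable section

variable {K : Type} [Field K]

theorem Dop_Mo (al : K) {Dh : LW K →ₗ[K] LW K} (hD : DhatSt K al Dh) (k : ℕ) (f : Lam K) :
    Dop al (Mo al k f) = Mo al k (Dop al f) := by
  rw [Mo_apply, Mo_apply, ← hD.i, Dh_pow al hD, hD.c]

theorem Bx_Zf (al : K) {Dh : LW K →ₗ[K] LW K} (hD : DhatSt K al Dh) (G : LW K) :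
    Bx K (Zf al G) = Dop al (Bx K G) - Bx K (Dh G) := by
  rw [Bx_apply, Bx_apply, Bx_apply, ← hD.t, hD.w, map_add]
  ring

/-- The star formula. -/
theorem star (al : K) {Dh : LW K →ₗ[K] LW K} (hD : DhatSt K al Dh) (k : ℕ) :
    ∃ p : ℕ → Polynomial K, ∀ x : LW K,
      Mo al k (Bx K (Th al x)) = Bx K (Th al (mu (Mo al k) x)) +
        ∑ a ∈ Finset.range k, Mo al a (Bx K ((Polynomial.aeval (Zf al) (p a)) (Th al x))) := by
  obtain ⟨p, hp⟩ := exists_F al k
  refine ⟨p, fun x => ?_⟩
  induction x using Polynomial.induction_on' with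
  | add x y hx hy =>
    simp only [map_add, hx, hy, Finset.sum_add_distrib]
    abel
  | monomial s g =>
    rw [Th_monomial, mu_monomial, Th_monomial]
    induction s generalizing g with
    | zero =>
      have h := hp (Polynomial.C g)
      have e1 : ∀ f : Lam K, Bx K (Polynomial.C f) = X 1 * f := by
        intro f
        rw [Bx_apply, Polynomial.X_mul_C, Polynomial.C_mul_X_eq_monomial,
          Tr_monomial 1 one_ne_zero]
      rw [← Polynomial.C_mul, ← Mo_apply, ← Mo_apply] at h
      rw [pow_zero, Module.End.one_apply, Module.End.one_apply, e1, e1]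
      exact h
    | succ s ih =>
      have e1 : ∀ f : Lam K, Dh ((Zf al ^ s) (Polynomial.C f)) =
          (Zf al ^ s) (Polynomial.C (Dop al f)) := by
        intro f
        rw [Dh_pow al hD, hD.c]
      have e2 : ∀ f : Lam K, (Zf al ^ (s + 1)) (Polynomial.C f) =
          Zf al ((Zf al ^ s) (Polynomial.C f)) := by
        intro f
        rw [pow_succ', Module.End.mul_apply]
      have e3 : ∀ a, Mo al a (Bx K ((Polynomial.aeval (Zf al) (p a))
          ((Zf al ^ (s + 1)) (Polynomial.C g)))) =
          Dop al (Mo al a (Bx K ((Polynomial.aeval (Zf al) (p a))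
            ((Zf al ^ s) (Polynomial.C g))))) -
          Mo al a (Bx K ((Polynomial.aeval (Zf al) (p a))
            ((Zf al ^ s) (Polynomial.C (Dop al g))))) := by
        intro a
        rw [e2, ← Zf_aeval, Bx_Zf al hD, Dh_aeval al hD, e1, map_sub, Dop_Mo al hD]
      simp only [e3]
      rw [e2, e2, Bx_Zf al hD, map_sub, e1, ← Dop_Mo al hD, ih, ih, Bx_Zf al hD, e1,
        Dop_Mo al hD, map_add, map_sum, Finset.sum_sub_distrib]
      abel

/-! ### The adjoint step -/

/-- the elements with coefficients of weight `n` -/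
def TT (K : Type) [Field K] (n : ℕ) : Submodule K (LW K) :=
  Submodule.span K {x | ∃ (a : ℕ) (f : Lam K), f ∈ S K n ∧ x = Polynomial.monomial a f}

theorem mem_TT {n a : ℕ} {f : Lam K} (hf : f ∈ S K n) :
    (Polynomial.monomial a f : LW K) ∈ TT K n :=
  Submodule.subset_span ⟨a, f, hf, rfl⟩

theorem Th_TT (al : K) {n : ℕ} {x : LW K} (hx : x ∈ TT K n) : Th al x ∈ T K n := by
  induction hx using Submodule.span_induction with
  | mem x hx =>
    obtain ⟨a, f, hf, rfl⟩ := hx
    rw [Th_monomial]
    exact Zf_pow_T al a (C_S hf)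
  | zero => rw [map_zero]; exact Submodule.zero_mem _
  | add a b _ _ ha hb => rw [map_add]; exact Submodule.add_mem _ ha hb
  | smul c a _ ha => rw [map_smul]; exact Submodule.smul_mem _ _ ha

theorem mu_TT {n : ℕ} {Q : Lam K →ₗ[K] Lam K} (hQ : ∀ f ∈ S K n, Q f ∈ S K n) {x : LW K}
    (hx : x ∈ TT K n) : mu Q x ∈ TT K n := by
  induction hx using Submodule.span_induction with
  | mem x hx =>
    obtain ⟨a, f, hf, rfl⟩ := hx
    rw [mu_monomial]
    exact mem_TT (hQ f hf)
  | zero => rw [map_zero]; exact Submodule.zero_mem _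
  | add a b _ _ ha hb => rw [map_add]; exact Submodule.add_mem _ ha hb
  | smul c a _ ha => rw [map_smul]; exact Submodule.smul_mem _ _ ha

theorem exists_Th (al : K) (hG : GenSt K al) {n : ℕ} {G : LW K} (h : G ∈ T K n) :
    ∃ x ∈ TT K n, Th al x = G := by
  have h1 := hG n (Submodule.map (Th al) (TT K n)) ?_ ?_ G h
  · obtain ⟨x, hx, hx2⟩ := Submodule.mem_map.mp h1
    exact ⟨x, hx, hx2⟩
  · intro f hf
    refine Submodule.mem_map.mpr ⟨Polynomial.C f, ?_, Th_C al f⟩
    rw [← Polynomial.monomial_zero_left]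
    exact mem_TT hf
  · intro G hG
    obtain ⟨x, hx, rfl⟩ := Submodule.mem_map.mp hG
    refine Submodule.mem_map.mpr ⟨Polynomial.X * x, ?_, Th_X_mul al x⟩
    clear hG
    induction hx using Submodule.span_induction with
    | mem x hx =>
      obtain ⟨a, f, hf, rfl⟩ := hx
      rw [Polynomial.X_mul_monomial]
      exact mem_TT hf
    | zero => rw [mul_zero]; exact Submodule.zero_mem _
    | add a b _ _ ha hb => rw [mul_add]; exact Submodule.add_mem _ ha hb
    | smul c a _ ha => rw [mul_smul_comm]; exact Submodule.smul_mem _ _ ha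

theorem BW_pow (al : K) (hF : FormExtSt K al) (k : ℕ) (F G : LW K) :
    FormM.BW al ((Zf al ^ k) F) G = FormM.BW al F ((Zf al ^ k) G) := by
  induction k generalizing F G with
  | zero => rfl
  | succ k ih => rw [pow_succ, Module.End.mul_apply, ih, hF.zf, ← Module.End.mul_apply,
      ← pow_succ', pow_succ]

theorem BW_aeval (al : K) (hF : FormExtSt K al) (p : Polynomial K) (F G : LW K) :
    FormM.BW al ((Polynomial.aeval (Zf al) p) F) G =
      FormM.BW al F ((Polynomial.aeval (Zf al) p) G) := by
  induction p using Polynomial.induction_on' with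
  | add p q hp hq =>
    rw [map_add, LinearMap.add_apply, LinearMap.add_apply, map_add, map_add,
      LinearMap.add_apply, hp, hq]
  | monomial m c =>
    rw [Polynomial.aeval_monomial, Module.End.mul_apply, Module.End.mul_apply,
      Module.algebraMap_end_apply, Module.algebraMap_end_apply, map_smul, map_smul,
      LinearMap.smul_apply, BW_pow al hF]

theorem BW_Mo (al : K) (hF : FormExtSt K al) (k : ℕ) (f g : Lam K) :
    FormM.B al (Mo al k f) g = FormM.BW al ((Zf al ^ k) (Polynomial.C f)) (Polynomial.C g) := by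
  rw [FormM.BW_symm, hF.cc, FormM.B_symm, ← Mo_apply]

theorem B_Mo (al : K) (hF : FormExtSt K al) (k : ℕ) (f g : Lam K) :
    FormM.B al (Mo al k f) g = FormM.B al f (Mo al k g) := by
  rw [BW_Mo al hF, BW_pow al hF, hF.cc, ← Mo_apply]

theorem BW_mu (al : K) (hF : FormExtSt K al) {n : ℕ}
    (hM : ∀ k l, ∀ f ∈ S K n, Mo al k (Mo al l f) = Mo al l (Mo al k f)) (k : ℕ) {x y : LW K}
    (hx : x ∈ TT K n) (hy : y ∈ TT K n) :
    FormM.BW al (Th al (mu (Mo al k) y)) (Th al x) =
      FormM.BW al (Th al y) (Th al (mu (Mo al k) x)) := by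
  induction hx using Submodule.span_induction with
  | mem x hx =>
    obtain ⟨a, f, hf, rfl⟩ := hx
    induction hy using Submodule.span_induction with
    | mem y hy =>
      obtain ⟨c, g, hg, rfl⟩ := hy
      have e1 : ∀ u v : Lam K, FormM.BW al ((Zf al ^ c) (Polynomial.C u))
          ((Zf al ^ a) (Polynomial.C v)) = FormM.B al u (Mo al (c + a) v) := by
        intro u v
        rw [BW_pow al hF, hF.cc, ← Module.End.mul_apply, ← pow_add, Mo_apply]
      rw [mu_monomial, mu_monomial, Th_monomial, Th_monomial, Th_monomial, Th_monomial, e1, e1,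
        B_Mo al hF, hM k (c + a) f hf]
    | zero => simp only [map_zero, LinearMap.zero_apply]
    | add a b _ _ ha hb =>
      simp only [map_add, LinearMap.add_apply] at ha hb ⊢
      rw [ha, hb]
    | smul c a _ ha =>
      simp only [map_smul, LinearMap.smul_apply] at ha ⊢
      rw [ha]
  | zero => simp only [map_zero]
  | add a b _ _ ha hb => simp only [map_add, ha, hb]
  | smul c a _ ha => simp only [map_smul, ha]

theorem Bs_Mo (al : K) (hG : GenSt K al)
    (hF : FormExtSt K al) {n : ℕ}
    (hM : ∀ k l, ∀ f ∈ S K n, Mo al k (Mo al l f) = Mo al l (Mo al k f))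
    (hS : ∀ h ∈ S K (n + 1), Bs al h ∈ T K n) (k : ℕ) {p : ℕ → Polynomial K}
    (hp : ∀ x : LW K, Mo al k (Bx K (Th al x)) = Bx K (Th al (mu (Mo al k) x)) +
      ∑ a ∈ Finset.range k, Mo al a (Bx K ((Polynomial.aeval (Zf al) (p a)) (Th al x))))
    {h : Lam K} (hh : h ∈ S K (n + 1)) {x : LW K} (hx : x ∈ TT K n) (hxh : Th al x = Bs al h) :
    Bs al (Mo al k h) = Th al (mu (Mo al k) x) +
      ∑ a ∈ Finset.range k, (Polynomial.aeval (Zf al) (p a)) (Bs al (Mo al a h)) := by
  rw [← sub_eq_zero]
  have hT : ∀ (q : Polynomial K) (G : LW K), G ∈ T K n →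
      (Polynomial.aeval (Zf al) q) G ∈ T K n := by
    intro q G hG
    induction q using Polynomial.induction_on' with
    | add p q hp hq =>
      rw [map_add, LinearMap.add_apply]
      exact Submodule.add_mem _ hp hq
    | monomial m c =>
      rw [Polynomial.aeval_monomial, Module.End.mul_apply, Module.algebraMap_end_apply]
      exact Submodule.smul_mem _ _ (Zf_pow_T al m hG)
  apply hF.nd n
  · refine Submodule.sub_mem _ (hS _ (Mo_S al k hh)) (Submodule.add_mem _ ?_ ?_)
    · exact Th_TT al (mu_TT (fun f hf => Mo_S al k hf) hx)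
    · exact Submodule.sum_mem _ fun a _ => hT _ _ (hS _ (Mo_S al a hh))
  · intro F hFT
    obtain ⟨y, hy, rfl⟩ := exists_Th al hG hFT
    rw [map_sub, map_add, map_sum, ← hF.bs, ← B_Mo al hF, hp, map_add, LinearMap.add_apply,
      map_sum, LinearMap.sum_apply, hF.bs, ← hxh, BW_mu al hF hM k hx hy, sub_eq_zero]
    congr 1
    refine Finset.sum_congr rfl fun a _ => ?_
    rw [B_Mo al hF, hF.bs, BW_aeval al hF]

/-- The abstract extraction theorem. -/
theorem ext_Mo (al : K) {Dh : LW K →ₗ[K] LW K} (hD : DhatSt K al Dh) (hG : GenSt K al)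
    (hF : FormExtSt K al) {n : ℕ}
    (hM : ∀ k l, ∀ f ∈ S K n, Mo al k (Mo al l f) = Mo al l (Mo al k f))
    (hS : ∀ h ∈ S K (n + 1), Bs al h ∈ T K n)
    (P : LW K →ₗ[K] LW K) (Q : Lam K →ₗ[K] Lam K)
    (hPZ : ∀ G ∈ T K n, P (Zf al G) = Zf al (P G))
    (hPC : ∀ f ∈ S K n, P (Polynomial.C f) = Polynomial.C (Q f))
    (hQ : ∀ k, ∀ f ∈ S K n, Q (Mo al k f) = Mo al k (Q f)) (k : ℕ) :
    ∀ (q : Polynomial K), ∀ h ∈ S K (n + 1),
      Mo al k (Bx K ((Polynomial.aeval (Zf al) q) (P (Bs al h)))) =
        Bx K ((Polynomial.aeval (Zf al) q) (P (Bs al (Mo al k h)))) := by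
  have hPT : ∀ x ∈ TT K n, P (Th al x) = Th al (mu Q x) := by
    intro x hx
    induction hx using Submodule.span_induction with
    | mem x hx =>
      obtain ⟨a, f, hf, rfl⟩ := hx
      rw [mu_monomial, Th_monomial, Th_monomial]
      induction a with
      | zero => rw [pow_zero, Module.End.one_apply, Module.End.one_apply, hPC f hf]
      | succ a ih =>
        rw [pow_succ', Module.End.mul_apply, Module.End.mul_apply,
          hPZ _ (Zf_pow_T al a (C_S hf)), ih]
    | zero => simp only [map_zero]
    | add a b _ _ ha hb => simp only [map_add, ha, hb]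
    | smul c a _ ha => simp only [map_smul, ha]
  have hPp : ∀ (p : Polynomial K), ∀ G ∈ T K n, P ((Polynomial.aeval (Zf al) p) G) =
      (Polynomial.aeval (Zf al) p) (P G) := by
    intro p G hG
    have h1 : ∀ m, P ((Zf al ^ m) G) = (Zf al ^ m) (P G) := by
      intro m
      induction m with
      | zero => rfl
      | succ m ih =>
        rw [pow_succ', Module.End.mul_apply, Module.End.mul_apply, hPZ _ (Zf_pow_T al m hG), ih]
    induction p using Polynomial.induction_on' with
    | add p q hp hq =>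
      rw [map_add, LinearMap.add_apply, map_add, hp, hq, LinearMap.add_apply]
    | monomial m c =>
      rw [Polynomial.aeval_monomial, Module.End.mul_apply, Module.End.mul_apply,
        Module.algebraMap_end_apply, Module.algebraMap_end_apply, map_smul, h1]
  have hmu : ∀ k, ∀ x ∈ TT K n, mu Q (mu (Mo al k) x) = mu (Mo al k) (mu Q x) := by
    intro k x hx
    induction hx using Submodule.span_induction with
    | mem x hx =>
      obtain ⟨a, f, hf, rfl⟩ := hx
      rw [mu_monomial, mu_monomial, mu_monomial, mu_monomial, hQ k f hf]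
    | zero => simp only [map_zero]
    | add a b _ _ ha hb => simp only [map_add, ha, hb]
    | smul c a _ ha => simp only [map_smul, ha]
  induction k using Nat.strong_induction_on with
  | _ k ih =>
    intro q h hh
    obtain ⟨p, hp⟩ := star al hD k
    obtain ⟨x, hx, hxh⟩ := exists_Th al hG (hS h hh)
    have hMx : mu (Mo al k) x ∈ TT K n := mu_TT (fun f hf => Mo_S al k hf) hx
    have e1 : (Polynomial.aeval (Zf al) q) (P (Bs al h)) = Th al (io K q * mu Q x) := by
      rw [← hxh, hPT x hx, Th_io]
    have e2 : Th al (mu (Mo al k) (io K q * mu Q x)) =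
        (Polynomial.aeval (Zf al) q) (P (Th al (mu (Mo al k) x))) := by
      rw [mu_io, ← hmu k x hx, Th_io, hPT _ hMx]
    have e3 := Bs_Mo al hG hF hM hS k hp hh hx hxh
    have e4 : ∀ a ∈ Finset.range k,
        Mo al a (Bx K ((Polynomial.aeval (Zf al) (p a)) (Th al (io K q * mu Q x)))) =
          Bx K ((Polynomial.aeval (Zf al) q) (P ((Polynomial.aeval (Zf al) (p a))
            (Bs al (Mo al a h))))) := by
      intro a ha
      rw [Finset.mem_range] at ha
      rw [← e1, ← Module.End.mul_apply, ← map_mul, ih a ha _ h hh,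
        hPp _ _ (hS _ (Mo_S al a hh)), mul_comm, map_mul, Module.End.mul_apply]
    rw [e1, hp, e2, Finset.sum_congr rfl e4, e3, map_add, map_add, map_add, map_sum, map_sum,
      map_sum]

end

end Pool.Agent.MJT
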