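import Pool.Agent.MJT.AbsB
import Pool.Agent.MJR.FormM
import Pool.Agent.MJR.GradeM

/-!
Definitions and statements for the extraction step: operators of the form `Bx P Bs`, where
`Bx G = Tr (w G)`, `Bs f = w⁻¹ (U f)`, and `P` commutes with the full Lax operator, commute
with all `H al r`.
-/

namespace Pool.Agent.MJT

open MvPolynomial Pool.Agent.MJR Pool.Agent.MJR.GradeM

noncomputable section

variable {K : Type} [Field K]

/-- `G ↦ Tr (w G)` -/
def Bx (K : Type) [Field K] : LW K →ₗ[K] Lam K :=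
  Tr ∘ₗ LinearMap.mulLeft K (Polynomial.X : LW K)

/-- `f ↦ w⁻¹ (U f)` -/
def Bs (al : K) : Lam K →ₗ[K] LW K where
  toFun f := Polynomial.divX (U al f)
  map_add' := by
    intro f g
    rw [map_add, Polynomial.divX_add]
  map_smul' := by
    intro c f
    have h : U al (c • f) = c • U al f := (U al).map_smul c f
    rw [h]
    apply Polynomial.ext
    intro j
    simp only [Polynomial.coeff_divX, Polynomial.coeff_smul, RingHom.id_apply]

/-- the constant coefficient -/
def i0 (K : Type) [Field K] : LW K →ₗ[K] Lam K :=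
  (Polynomial.lcoeff (Lam K) 0).restrictScalars K

/-- `M_k = i* Zf^k i` -/
def Mo (al : K) (k : ℕ) : Lam K →ₗ[K] Lam K := i0 K ∘ₗ ((Zf al) ^ k) ∘ₗ cW

/-- GEN: the constants of weight `n` generate everything of weight `n` under `Zf`. -/
def GenSt (K : Type) [Field K] (al : K) : Prop :=
  ∀ (n : ℕ) (V : Submodule K (LW K)), (∀ f ∈ S K n, (Polynomial.C f : LW K) ∈ V) →
    (∀ G ∈ V, Zf al G ∈ V) → ∀ G ∈ T K n, G ∈ V

/-- FORM -/
structure FormExtSt (K : Type) [Field K] (al : K) : Prop where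
  zf : ∀ F G : LW K, FormM.BW al (Zf al F) G = FormM.BW al F (Zf al G)
  bs : ∀ (G : LW K) (h : Lam K), FormM.B al (Bx K G) h = FormM.BW al G (Bs al h)
  cc : ∀ (f : Lam K) (G : LW K), FormM.BW al (Polynomial.C f) G = FormM.B al f (i0 K G)
  nd : ∀ (n : ℕ), ∀ G ∈ T K n, (∀ F ∈ T K n, FormM.BW al F G = 0) → G = 0

/-- DHAT: the Laplace operator with a root. -/
structure DhatSt (K : Type) [Field K] (al : K) (Dh : LW K →ₗ[K] LW K) : Prop where
  w : ∀ G : LW K, Dh (Polynomial.X * G) = Polynomial.X * Dh G + Polynomial.X * Zf al G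
  c : ∀ f : Lam K, Dh (Polynomial.C f) = Polynomial.C (Dop al f)
  z : ∀ G : LW K, Dh (Zf al G) = Zf al (Dh G)
  t : ∀ G : LW K, Tr (Dh G) = Dop al (Tr G)
  i : ∀ G : LW K, i0 K (Dh G) = Dop al (i0 K G)

end

end Pool.Agent.MJT
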