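import Mathlib

/-!
The divisibility step of the low rank argument: a combination of the products
`∏ (u + v s^(ν_i))` over the partitions of `n`, which vanishes for all `u`, `s` and for
`v = 0, 1, -al`, gives linear conditions on its coefficients of lowest rank.
-/

namespace Pool.Agent.MJT

open Polynomial

noncomputable section

namespace QDiv

variable {K : Type} [Field K]

/-- `∏ (X + r)` -/
def PM (M : Multiset K) : K[X] := (M.map fun r => X + C r).prod

lemma PM_zero : PM (0 : Multiset K) = 1 := by
  unfold PM
  simp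

lemma PM_cons (a : K) (M : Multiset K) : PM (a ::ₘ M) = (X + C a) * PM M := by
  unfold PM
  rw [Multiset.map_cons, Multiset.prod_cons]

lemma coeff_succ (a : K) (M : Multiset K) (k : ℕ) :
    (PM (a ::ₘ M)).coeff (k + 1) = (PM M).coeff k + a * (PM M).coeff (k + 1) := by
  rw [PM_cons, add_mul, coeff_add, coeff_X_mul, coeff_C_mul]

lemma coeff_zero' (a : K) (M : Multiset K) : (PM (a ::ₘ M)).coeff 0 = a * (PM M).coeff 0 := by
  rw [PM_cons, add_mul, coeff_add, mul_coeff_zero, coeff_X_zero, zero_mul, zero_add, coeff_C_mul]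

lemma coeff_gt (M : Multiset K) : ∀ k, M.card < k → (PM M).coeff k = 0 := by
  induction M using Multiset.induction_on with
  | empty =>
    intro k hk
    rw [Multiset.card_zero] at hk
    rw [PM_zero, coeff_one, if_neg (by omega)]
  | cons a M ih =>
    intro k hk
    rw [Multiset.card_cons] at hk
    obtain ⟨m, rfl⟩ := Nat.exists_eq_succ_of_ne_zero (show k ≠ 0 by omega)
    rw [Nat.succ_eq_add_one, coeff_succ, ih m (by omega), ih (m + 1) (by omega)]
    ring

lemma coeff_card (M : Multiset K) : (PM M).coeff M.card = 1 := by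
  induction M using Multiset.induction_on with
  | empty => rw [PM_zero, Multiset.card_zero, coeff_one, if_pos rfl]
  | cons a M ih =>
    rw [Multiset.card_cons, coeff_succ, ih, coeff_gt M _ (Nat.lt_succ_self _)]
    ring

lemma coeff_one' (M : Multiset K) : ∀ k, M.card = k + 1 → (PM M).coeff k = M.sum := by
  induction M using Multiset.induction_on with
  | empty =>
    intro k hk
    rw [Multiset.card_zero] at hk
    omega
  | cons a M ih =>
    intro k hk
    rw [Multiset.card_cons] at hk
    have hk' : M.card = k := by omega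
    rw [Multiset.sum_cons]
    rcases Nat.eq_zero_or_pos k with rfl | hk0
    · have hM : M = 0 := Multiset.card_eq_zero.mp hk'
      rw [coeff_zero', hM, PM_zero, coeff_one, if_pos rfl, Multiset.sum_zero]
      ring
    · obtain ⟨m, rfl⟩ := Nat.exists_eq_succ_of_ne_zero (show k ≠ 0 by omega)
      have h1 := coeff_card M
      rw [hk'] at h1
      rw [Nat.succ_eq_add_one] at *
      rw [coeff_succ, ih m hk', h1]
      ring

lemma coeff_two' (M : Multiset K) : ∀ k, M.card = k + 2 →
    2 * (PM M).coeff k = M.sum ^ 2 - (M.map fun r => r ^ 2).sum := by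
  induction M using Multiset.induction_on with
  | empty =>
    intro k hk
    rw [Multiset.card_zero] at hk
    omega
  | cons a M ih =>
    intro k hk
    rw [Multiset.card_cons] at hk
    have hk' : M.card = k + 1 := by omega
    rw [Multiset.sum_cons, Multiset.map_cons, Multiset.sum_cons]
    have h1 := coeff_one' M k hk'
    rcases Nat.eq_zero_or_pos k with rfl | hk0
    · rw [coeff_zero', h1]
      obtain ⟨c, hc⟩ := Multiset.card_eq_one.mp hk'
      rw [hc, Multiset.sum_singleton, Multiset.map_singleton, Multiset.sum_singleton]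
      ring
    · obtain ⟨m, rfl⟩ := Nat.exists_eq_succ_of_ne_zero (show k ≠ 0 by omega)
      rw [Nat.succ_eq_add_one] at *
      have h2 := ih m hk'
      rw [coeff_succ, h1]
      linear_combination h2

/-- `∑ s^(ν_i)` -/
def p1 {n : ℕ} (s : K) (nu : n.Partition) : K := (nu.parts.map fun i => s ^ i).sum

lemma p1_sq {n : ℕ} (s : K) (nu : n.Partition) :
    p1 (s ^ 2) nu = ((nu.parts.map fun i => s ^ i).map fun r => r ^ 2).sum := by
  unfold p1
  rw [Multiset.map_map]
  congr 1
  refine Multiset.map_congr rfl fun i _ => ?_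
  simp only [Function.comp]
  ring

variable [CharZero K]

/-- The polynomial in `u`. -/
lemma coeff_eq_zero {n : ℕ} (E : n.Partition → K) (v s : K)
    (h : ∀ u, ∑ nu, E nu * (nu.parts.map fun i => u + v * s ^ i).prod = 0) (k : ℕ) :
    ∑ nu, E nu * (PM (nu.parts.map fun i => v * s ^ i)).coeff k = 0 := by
  have h1 : (∑ nu, C (E nu) * PM (nu.parts.map fun i => v * s ^ i)) = 0 := by
    apply Polynomial.funext
    intro u
    rw [eval_finsetSum, eval_zero, ← h u]
    refine Finset.sum_congr rfl fun nu _ => ?_
    rw [eval_mul, eval_C]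
    congr 1
    unfold PM
    rw [Multiset.map_map, eval_multiset_prod, Multiset.map_map]
    congr 1
    refine Multiset.map_congr rfl fun i _ => ?_
    simp
  have h2 := congrArg (fun p => p.coeff k) h1
  simp only [finsetSum_coeff, coeff_C_mul, coeff_zero] at h2
  exact h2

omit [CharZero K] in
lemma sum_v {n : ℕ} (v s : K) (nu : n.Partition) :
    (nu.parts.map fun i => v * s ^ i).sum = v * p1 s nu := by
  unfold p1
  rw [Multiset.sum_map_mul_left]

omit [CharZero K] in
lemma sum_v2 {n : ℕ} (v s : K) (nu : n.Partition) :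
    ((nu.parts.map fun i => v * s ^ i).map fun r => r ^ 2).sum = v ^ 2 * p1 (s ^ 2) nu := by
  rw [p1_sq, Multiset.map_map, Multiset.map_map, ← Multiset.sum_map_mul_left]
  congr 1
  refine Multiset.map_congr rfl fun i _ => ?_
  simp only [Function.comp]
  ring

/-- Sum over the partitions with `L` parts. -/
def SL {n : ℕ} (L : ℕ) (f : n.Partition → K) : K :=
  ∑ nu ∈ Finset.univ.filter (fun nu : n.Partition => nu.parts.card = L), f nu

/-- The three conditions at level `L`. -/
theorem level {al : K} (h0 : al ≠ 0) (h1 : al + 1 ≠ 0) {n : ℕ} (E : n.Partition → K)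
    (h : ∀ u v s : K, v = 0 ∨ v = 1 ∨ v = -al →
      ∑ nu, E nu * (nu.parts.map fun i => u + v * s ^ i).prod = 0)
    (L : ℕ) (hL : ∀ nu : n.Partition, L < nu.parts.card → E nu = 0) :
    SL L E = 0 ∧ (∀ s : K, SL L (fun nu => E nu * p1 s nu) = 0) ∧
      ∀ s : K, SL L (fun nu => E nu * p1 s nu ^ 2) = 0 := by
  classical
  -- splitting of the coefficient sum
  have key : ∀ (v s : K), v = 0 ∨ v = 1 ∨ v = -al → ∀ k, L ≤ k + 2 →
      2 * SL k E + 2 * v * SL (k + 1) (fun nu => E nu * p1 s nu) +
        v ^ 2 * SL (k + 2) (fun nu => E nu * (p1 s nu ^ 2 - p1 (s ^ 2) nu)) = 0 := by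
    intro v s hv k hk
    have e := coeff_eq_zero E v s (fun u => h u v s hv) k
    have e2 : ∀ nu : n.Partition,
        2 * (E nu * (PM (nu.parts.map fun i => v * s ^ i)).coeff k) =
          2 * (if nu.parts.card = k then E nu else 0) +
          2 * v * (if nu.parts.card = k + 1 then E nu * p1 s nu else 0) +
          v ^ 2 * (if nu.parts.card = k + 2 then E nu * (p1 s nu ^ 2 - p1 (s ^ 2) nu) else 0) := by
      intro nu
      have hc : (nu.parts.map fun i => v * s ^ i).card = nu.parts.card := Multiset.card_map _ _
      rcases lt_trichotomy nu.parts.card k with hlt | heq | hgt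
      · rw [coeff_gt _ k (by rw [hc]; exact hlt), if_neg (by omega), if_neg (by omega),
          if_neg (by omega)]
        ring
      · have e3 := coeff_card (nu.parts.map fun i => v * s ^ i)
        rw [hc, heq] at e3
        rw [e3, if_pos heq, if_neg (by omega), if_neg (by omega)]
        ring
      · rcases eq_or_ne nu.parts.card (k + 1) with h2 | h2
        · rw [coeff_one' _ k (by rw [hc]; exact h2), sum_v, if_neg (by omega), if_pos h2,
            if_neg (by omega)]
          ring
        · rcases eq_or_ne nu.parts.card (k + 2) with h3 | h3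
          · have e3 := coeff_two' _ k (by rw [hc]; exact h3)
            rw [sum_v, sum_v2] at e3
            rw [if_neg (by omega), if_neg h2, if_pos h3]
            linear_combination E nu * e3
          · rw [hL nu (by omega), if_neg (by omega), if_neg h2, if_neg h3]
            ring
    have e4 := congrArg (fun x => 2 * x) e
    simp only [mul_zero] at e4
    rw [Finset.mul_sum, Finset.sum_congr rfl (fun nu _ => e2 nu), Finset.sum_add_distrib,
      Finset.sum_add_distrib, ← Finset.mul_sum, ← Finset.mul_sum, ← Finset.mul_sum,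
      ← Finset.sum_filter, ← Finset.sum_filter, ← Finset.sum_filter] at e4
    exact e4
  have hbig : ∀ (m : ℕ) (f : n.Partition → K), L < m → SL m (fun nu => E nu * f nu) = 0 := by
    intro m f hm
    refine Finset.sum_eq_zero fun nu hnu => ?_
    rw [Finset.mem_filter] at hnu
    rw [hL nu (by omega), zero_mul]
  have hA : SL L E = 0 := by
    have e := key 0 1 (Or.inl rfl) L (by omega)
    have h2 : (2 : K) ≠ 0 := two_ne_zero
    have e1 : 2 * SL L E = 0 := by linear_combination e
    exact (mul_eq_zero.mp e1).resolve_left h2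
  have hB : ∀ s : K, SL L (fun nu => E nu * p1 s nu) = 0 := by
    intro s
    rcases Nat.eq_zero_or_pos L with rfl | hL0
    · refine Finset.sum_eq_zero fun nu hnu => ?_
      rw [Finset.mem_filter, Multiset.card_eq_zero] at hnu
      unfold p1
      rw [hnu.2]
      simp
    · obtain ⟨k, rfl⟩ := Nat.exists_eq_succ_of_ne_zero (show L ≠ 0 by omega)
      rw [Nat.succ_eq_add_one] at *
      have e0 := key 0 s (Or.inl rfl) k (by omega)
      have e1 := key 1 s (Or.inr (Or.inl rfl)) k (by omega)
      rw [hbig (k + 2) _ (by omega)] at e0 e1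
      have h2 : (2 : K) ≠ 0 := two_ne_zero
      have e3 : 2 * SL (k + 1) (fun nu => E nu * p1 s nu) = 0 := by
        linear_combination e1 - e0
      exact (mul_eq_zero.mp e3).resolve_left h2
  refine ⟨hA, hB, fun s => ?_⟩
  -- the quadratic condition
  rcases lt_or_ge L 2 with hL2 | hL2
  · rcases Nat.eq_zero_or_pos L with rfl | hL0
    · refine Finset.sum_eq_zero fun nu hnu => ?_
      rw [Finset.mem_filter, Multiset.card_eq_zero] at hnu
      unfold p1
      rw [hnu.2]
      simp
    · have hL1 : L = 1 := by omega
      rw [← hB (s ^ 2)]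
      refine Finset.sum_congr rfl fun nu hnu => ?_
      rw [Finset.mem_filter, hL1, Multiset.card_eq_one] at hnu
      obtain ⟨a, ha⟩ := hnu.2
      have e9 : ∀ x : K, p1 x nu = x ^ a := by
        intro x
        unfold p1
        rw [ha, Multiset.map_singleton, Multiset.sum_singleton]
      simp only [e9]
      ring
  · obtain ⟨k, rfl⟩ : ∃ k, L = k + 2 := ⟨L - 2, by omega⟩
    have e0 := key 0 s (Or.inl rfl) k (by omega)
    have e1 := key 1 s (Or.inr (Or.inl rfl)) k (by omega)
    have e2 := key (-al) s (Or.inr (Or.inr rfl)) k (by omega)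
    have e3 : (al * (al + 1)) *
        SL (k + 2) (fun nu => E nu * (p1 s nu ^ 2 - p1 (s ^ 2) nu)) = 0 := by
      linear_combination e2 + al * e1 - (1 + al) * e0
    have e4 := (mul_eq_zero.mp e3).resolve_left (mul_ne_zero h0 h1)
    have e5 : SL (k + 2) (fun nu => E nu * (p1 s nu ^ 2 - p1 (s ^ 2) nu)) =
        SL (k + 2) (fun nu => E nu * p1 s nu ^ 2) - SL (k + 2) (fun nu => E nu * p1 (s ^ 2) nu) := by
      unfold SL
      rw [← Finset.sum_sub_distrib]
      refine Finset.sum_congr rfl fun nu _ => ?_
      ring
    rw [e5, hB (s ^ 2), sub_zero] at e4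
    exact e4

/-- Coefficient extraction in `s`. -/
theorem levelCount {al : K} (h0 : al ≠ 0) (h1 : al + 1 ≠ 0) {n : ℕ} (E : n.Partition → K)
    (h : ∀ u v s : K, v = 0 ∨ v = 1 ∨ v = -al →
      ∑ nu, E nu * (nu.parts.map fun i => u + v * s ^ i).prod = 0)
    (L : ℕ) (hL : ∀ nu : n.Partition, L < nu.parts.card → E nu = 0) :
    SL L E = 0 ∧ (∀ k : ℕ, SL L (fun nu => E nu * (nu.parts.count k : K)) = 0) ∧
      ∀ k : ℕ, SL L (fun nu => E nu * ∑ x ∈ Finset.HasAntidiagonal.antidiagonal k,
        (nu.parts.count x.1 : K) * (nu.parts.count x.2 : K)) = 0 := by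
  classical
  obtain ⟨hA, hB, hC⟩ := level h0 h1 E h L hL
  -- the polynomial `∑ X^(ν_i)`
  let q : n.Partition → K[X] := fun nu => (nu.parts.map fun i => (X : K[X]) ^ i).sum
  have hq : ∀ (nu : n.Partition) (s : K), (q nu).eval s = p1 s nu := by
    intro nu s
    unfold p1
    change eval s ((nu.parts.map fun i => (X : K[X]) ^ i).sum) = _
    rw [← coe_evalRingHom, map_multiset_sum, Multiset.map_map]
    congr 1
    refine Multiset.map_congr rfl fun i _ => ?_
    simp
  have hcq : ∀ (nu : n.Partition) (k : ℕ), (q nu).coeff k = (nu.parts.count k : K) := by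
    intro nu k
    change coeff ((nu.parts.map fun i => (X : K[X]) ^ i).sum) k = _
    generalize nu.parts = M
    induction M using Multiset.induction_on with
    | empty => simp
    | cons a M ih =>
      rw [Multiset.map_cons, Multiset.sum_cons, coeff_add, ih, coeff_X_pow, Multiset.count_cons]
      push_cast
      ring
  refine ⟨hA, fun k => ?_, fun k => ?_⟩
  · have e1 : (∑ nu ∈ Finset.univ.filter (fun nu : n.Partition => nu.parts.card = L),
        C (E nu) * q nu) = 0 := by
      apply Polynomial.funext
      intro s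
      rw [eval_finsetSum, eval_zero, ← hB s]
      refine Finset.sum_congr rfl fun nu _ => ?_
      rw [eval_mul, eval_C, hq]
    have e2 := congrArg (fun p => p.coeff k) e1
    simp only [finsetSum_coeff, coeff_C_mul, coeff_zero, hcq] at e2
    exact e2
  · have e1 : (∑ nu ∈ Finset.univ.filter (fun nu : n.Partition => nu.parts.card = L),
        C (E nu) * (q nu * q nu)) = 0 := by
      apply Polynomial.funext
      intro s
      rw [eval_finsetSum, eval_zero, ← hC s]
      refine Finset.sum_congr rfl fun nu _ => ?_
      rw [eval_mul, eval_C, eval_mul, hq]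
      ring
    have e2 := congrArg (fun p => p.coeff k) e1
    simp only [finsetSum_coeff, coeff_C_mul, coeff_zero] at e2
    simp only [coeff_mul, hcq] at e2
    exact e2

end QDiv

end

end Pool.Agent.MJT
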