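import Pool.Agent.MJT.QDiv

/-!
The coefficients of rank at most five vanish.
-/

namespace Pool.Agent.MJT

open Polynomial

noncomputable section

namespace QFive

open QDiv

variable {K : Type} [Field K]

lemma card_le_sum (s : Multiset ℕ) (h0 : ∀ x ∈ s, 0 < x) : s.card ≤ s.sum := by
  induction s using Multiset.induction_on with
  | empty => simp
  | cons a s ih =>
    rw [Multiset.card_cons, Multiset.sum_cons]
    have := ih fun x hx => h0 x (Multiset.mem_cons_of_mem hx)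
    have := h0 a (Multiset.mem_cons_self a s)
    omega

/-- A part exceeds the rank by at most one. -/
lemma part_le {n : ℕ} (nu : n.Partition) {x : ℕ} (hx : x ∈ nu.parts) :
    x + nu.parts.card ≤ n + 1 := by
  obtain ⟨s, hs⟩ := Multiset.exists_cons_of_mem hx
  have h1 := nu.parts_sum
  rw [hs, Multiset.sum_cons] at h1
  have h2 := card_le_sum s fun y hy => nu.parts_pos (hs ▸ Multiset.mem_cons_of_mem hy)
  rw [hs, Multiset.card_cons]
  omega

/-- The multiplicities of a partition of rank at most five. -/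
lemma counts {n r : ℕ} (hr : r ≤ 5) (nu : n.Partition) (h : nu.parts.card + r = n) :
    nu.parts.count 1 + nu.parts.count 2 + nu.parts.count 3 + nu.parts.count 4 +
      nu.parts.count 5 + nu.parts.count 6 + r = n ∧
    nu.parts.count 2 + 2 * nu.parts.count 3 + 3 * nu.parts.count 4 + 4 * nu.parts.count 5 +
      5 * nu.parts.count 6 = r := by
  have hsub : nu.parts.toFinset ⊆ Finset.range 7 := by
    intro x hx
    rw [Multiset.mem_toFinset] at hx
    have := part_le nu hx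
    rw [Finset.mem_range]
    omega
  have h0 : nu.parts.count 0 = 0 := by
    rw [Multiset.count_eq_zero]
    intro h
    exact absurd (nu.parts_pos h) (lt_irrefl 0)
  have h1 : nu.parts.card = ∑ x ∈ Finset.range 7, nu.parts.count x :=
    (Multiset.sum_count_eq_card fun x hx => hsub (Multiset.mem_toFinset.mpr hx)).symm
  have h2 : nu.parts.sum = ∑ x ∈ Finset.range 7, nu.parts.count x * x := by
    have h3 := Finset.sum_multiset_count_of_subset nu.parts (Finset.range 7) hsub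
    rw [h3]
    simp only [smul_eq_mul]
  rw [nu.parts_sum] at h2
  simp only [Finset.sum_range_succ, Finset.sum_range_zero, h0] at h1 h2
  omega

/-- The multiplicities determine the partition. -/
lemma eq_of_counts {n r : ℕ} (hr : r ≤ 5) (nu mu : n.Partition) (h : nu.parts.card + r = n)
    (h' : mu.parts.card + r = n) (h2 : nu.parts.count 2 = mu.parts.count 2)
    (h3 : nu.parts.count 3 = mu.parts.count 3) (h4 : nu.parts.count 4 = mu.parts.count 4)
    (h5 : nu.parts.count 5 = mu.parts.count 5) (h6 : nu.parts.count 6 = mu.parts.count 6) :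
    nu = mu := by
  have c1 := counts hr nu h
  have c2 := counts hr mu h'
  apply Nat.Partition.ext
  rw [Multiset.ext]
  intro x
  have hz : ∀ (la : n.Partition), la.parts.card + r = n → 7 ≤ x → la.parts.count x = 0 := by
    intro la hla hx
    rw [Multiset.count_eq_zero]
    intro hm
    have := part_le la hm
    omega
  have h0 : ∀ (la : n.Partition), la.parts.count 0 = 0 := by
    intro la
    rw [Multiset.count_eq_zero]
    intro h
    exact absurd (la.parts_pos h) (lt_irrefl 0)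
  rcases lt_or_ge x 7 with hx | hx
  · interval_cases x
    · rw [h0, h0]
    · omega
    · exact h2
    · exact h3
    · exact h4
    · exact h5
    · exact h6
  · rw [hz nu h hx, hz mu h' hx]

lemma nat1 {a b c d e f n : ℕ} (_h1 : a + b + c + d + e + f + 1 = n)
    (h2 : b + 2 * c + 3 * d + 4 * e + 5 * f = 1) : b = 1 ∧ c = 0 ∧ d = 0 ∧ e = 0 ∧ f = 0 := by
  omega

lemma nat2 {a b c d e f n : ℕ} (h1 : a + b + c + d + e + f + 2 = n)
    (h2 : b + 2 * c + 3 * d + 4 * e + 5 * f = 2) :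
    (b = 0 ∧ c = 1 ∧ d = 0 ∧ e = 0 ∧ f = 0) ∨ (b = 2 ∧ c = 0 ∧ d = 0 ∧ e = 0 ∧ f = 0) := by
  have hf : f = 0 := by omega
  have he : e = 0 := by omega
  have hd : d = 0 := by omega
  have hc : c ≤ 1 := by omega
  interval_cases c <;> omega

lemma nat3 {a b c d e f n : ℕ} (h1 : a + b + c + d + e + f + 3 = n)
    (h2 : b + 2 * c + 3 * d + 4 * e + 5 * f = 3) :
    (b = 0 ∧ c = 0 ∧ d = 1 ∧ e = 0 ∧ f = 0) ∨ (b = 1 ∧ c = 1 ∧ d = 0 ∧ e = 0 ∧ f = 0) ∨
      (b = 3 ∧ c = 0 ∧ d = 0 ∧ e = 0 ∧ f = 0) := by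
  have hf : f = 0 := by omega
  have he : e = 0 := by omega
  have hd : d ≤ 1 := by omega
  have hc : c ≤ 1 := by omega
  subst hf he
  interval_cases d <;> interval_cases c <;>
  first
    | exact (by omega : False).elim
    | exact Or.inl ⟨by omega, rfl, rfl, rfl, rfl⟩
    | exact Or.inr (Or.inl ⟨by omega, rfl, rfl, rfl, rfl⟩)
    | exact Or.inr (Or.inr (⟨by omega, rfl, rfl, rfl, rfl⟩))

lemma nat4 {a b c d e f n : ℕ} (h1 : a + b + c + d + e + f + 4 = n)
    (h2 : b + 2 * c + 3 * d + 4 * e + 5 * f = 4) :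
    (b = 0 ∧ c = 0 ∧ d = 0 ∧ e = 1 ∧ f = 0 ∧ a + 5 = n) ∨
      (b = 1 ∧ c = 0 ∧ d = 1 ∧ e = 0 ∧ f = 0 ∧ a + 6 = n) ∨
      (b = 0 ∧ c = 2 ∧ d = 0 ∧ e = 0 ∧ f = 0 ∧ a + 6 = n) ∨
      (b = 2 ∧ c = 1 ∧ d = 0 ∧ e = 0 ∧ f = 0 ∧ a + 7 = n) ∨
      (b = 4 ∧ c = 0 ∧ d = 0 ∧ e = 0 ∧ f = 0 ∧ a + 8 = n) := by
  have hf : f = 0 := by omega
  have he : e ≤ 1 := by omega
  have hd : d ≤ 1 := by omega
  have hc : c ≤ 2 := by omega
  subst hf
  interval_cases e <;> interval_cases d <;> interval_cases c <;>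
  first
    | exact (by omega : False).elim
    | exact Or.inl ⟨by omega, rfl, rfl, rfl, rfl, by omega⟩
    | exact Or.inr (Or.inl ⟨by omega, rfl, rfl, rfl, rfl, by omega⟩)
    | exact Or.inr (Or.inr (Or.inl ⟨by omega, rfl, rfl, rfl, rfl, by omega⟩))
    | exact Or.inr (Or.inr (Or.inr (Or.inl ⟨by omega, rfl, rfl, rfl, rfl, by omega⟩)))
    | exact Or.inr (Or.inr (Or.inr (Or.inr (⟨by omega, rfl, rfl, rfl, rfl, by omega⟩))))

lemma nat5 {a b c d e f n : ℕ} (h1 : a + b + c + d + e + f + 5 = n)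
    (h2 : b + 2 * c + 3 * d + 4 * e + 5 * f = 5) :
    (b = 0 ∧ c = 0 ∧ d = 0 ∧ e = 0 ∧ f = 1 ∧ a + 6 = n) ∨
      (b = 1 ∧ c = 0 ∧ d = 0 ∧ e = 1 ∧ f = 0 ∧ a + 7 = n) ∨
      (b = 0 ∧ c = 1 ∧ d = 1 ∧ e = 0 ∧ f = 0 ∧ a + 7 = n) ∨
      (b = 2 ∧ c = 0 ∧ d = 1 ∧ e = 0 ∧ f = 0 ∧ a + 8 = n) ∨
      (b = 1 ∧ c = 2 ∧ d = 0 ∧ e = 0 ∧ f = 0 ∧ a + 8 = n) ∨
      (b = 3 ∧ c = 1 ∧ d = 0 ∧ e = 0 ∧ f = 0 ∧ a + 9 = n) ∨
      (b = 5 ∧ c = 0 ∧ d = 0 ∧ e = 0 ∧ f = 0 ∧ a + 10 = n) := by
  have hf : f ≤ 1 := by omega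
  have he : e ≤ 1 := by omega
  have hd : d ≤ 1 := by omega
  have hc : c ≤ 2 := by omega
  interval_cases f <;> interval_cases e <;> interval_cases d <;> interval_cases c <;>
  first
    | exact (by omega : False).elim
    | exact Or.inl ⟨by omega, rfl, rfl, rfl, rfl, by omega⟩
    | exact Or.inr (Or.inl ⟨by omega, rfl, rfl, rfl, rfl, by omega⟩)
    | exact Or.inr (Or.inr (Or.inl ⟨by omega, rfl, rfl, rfl, rfl, by omega⟩))
    | exact Or.inr (Or.inr (Or.inr (Or.inl ⟨by omega, rfl, rfl, rfl, rfl, by omega⟩)))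
    | exact Or.inr (Or.inr (Or.inr (Or.inr (Or.inl ⟨by omega, rfl, rfl, rfl, rfl, by omega⟩))))
    | exact Or.inr (Or.inr (Or.inr (Or.inr (Or.inr (Or.inl ⟨by omega, rfl, rfl, rfl, rfl, by omega⟩)))))
    | exact Or.inr (Or.inr (Or.inr (Or.inr (Or.inr (Or.inr (⟨by omega, rfl, rfl, rfl, rfl, by omega⟩))))))

/-- The indicator of the partitions with given multiplicities. -/
def ty {n : ℕ} (K : Type) [Field K] (a b c d e : ℕ) (nu : n.Partition) : K :=
  if nu.parts.count 2 = a ∧ nu.parts.count 3 = b ∧ nu.parts.count 4 = c ∧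
    nu.parts.count 5 = d ∧ nu.parts.count 6 = e then 1 else 0

lemma eval_ty {n r L : ℕ} (hr : r ≤ 5) (hL : L + r = n) {E : n.Partition → K} (a b c d e : ℕ)
    (h : SL L (fun nu => E nu * ty K a b c d e nu) = 0) (nu : n.Partition)
    (hnu : nu.parts.card = L) (h2 : nu.parts.count 2 = a) (h3 : nu.parts.count 3 = b)
    (h4 : nu.parts.count 4 = c) (h5 : nu.parts.count 5 = d) (h6 : nu.parts.count 6 = e) :
    E nu = 0 := by
  unfold SL at h
  rw [Finset.sum_eq_single nu] at h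
  · unfold ty at h
    rw [if_pos ⟨h2, h3, h4, h5, h6⟩, mul_one] at h
    exact h
  · intro mu hmu hne
    rw [Finset.mem_filter] at hmu
    unfold ty
    rw [if_neg, mul_zero]
    rintro ⟨g2, g3, g4, g5, g6⟩
    exact hne (eq_of_counts hr mu nu (by omega) (by omega) (by omega) (by omega) (by omega)
      (by omega) (by omega))
  · intro hn
    exact (hn (Finset.mem_filter.mpr ⟨Finset.mem_univ _, hnu⟩)).elim

lemma SL_congr {n L : ℕ} {f g : n.Partition → K} (h : ∀ nu, nu.parts.card = L → f nu = g nu) :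
    SL L f = SL L g := by
  refine Finset.sum_congr rfl fun nu hnu => ?_
  rw [Finset.mem_filter] at hnu
  exact h nu hnu.2

lemma SL_add {n L : ℕ} (f g : n.Partition → K) :
    SL L (fun nu => f nu + g nu) = SL L f + SL L g := Finset.sum_add_distrib

lemma SL_mul {n L : ℕ} (c : K) (f : n.Partition → K) :
    SL L (fun nu => c * f nu) = c * SL L f := (Finset.mul_sum _ _ _).symm

/-- Linear combinations of vanishing sums vanish. -/
lemma comb2 {n L : ℕ} {E f g h : n.Partition → K} (a b : K)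
    (hf : SL L (fun nu => E nu * f nu) = 0) (hg : SL L (fun nu => E nu * g nu) = 0)
    (he : ∀ nu, nu.parts.card = L → h nu = a * f nu + b * g nu) :
    SL L (fun nu => E nu * h nu) = 0 := by
  have e1 : SL L (fun nu => E nu * h nu) =
      SL L (fun nu => a * (E nu * f nu) + b * (E nu * g nu)) := by
    apply SL_congr
    intro nu hnu
    rw [he nu hnu]
    ring
  rw [e1, SL_add, SL_mul, SL_mul, hf, hg]
  ring

lemma comb4 {n L : ℕ} {E f g f' g' h : n.Partition → K} (a b c d : K)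
    (hf : SL L (fun nu => E nu * f nu) = 0) (hg : SL L (fun nu => E nu * g nu) = 0)
    (hf' : SL L (fun nu => E nu * f' nu) = 0) (hg' : SL L (fun nu => E nu * g' nu) = 0)
    (he : ∀ nu, nu.parts.card = L → h nu = a * f nu + b * g nu + c * f' nu + d * g' nu) :
    SL L (fun nu => E nu * h nu) = 0 := by
  have h1 := comb2 (h := fun nu => a * f nu + b * g nu) a b hf hg (fun _ _ => rfl)
  have h2 := comb2 (h := fun nu => c * f' nu + d * g' nu) c d hf' hg' (fun _ _ => rfl)
  refine comb2 1 1 h1 h2 fun nu hnu => ?_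
  rw [he nu hnu]
  ring

section

variable [CharZero K] {n L : ℕ} {E : n.Partition → K}

omit [CharZero K] in
/-- The quadratic function for `k = 6`. -/
lemma anti6 (nu : n.Partition) : ∑ x ∈ Finset.HasAntidiagonal.antidiagonal 6,
    (nu.parts.count x.1 : K) * (nu.parts.count x.2 : K) =
    2 * ((nu.parts.count 1 : K) * nu.parts.count 5 + (nu.parts.count 2 : K) * nu.parts.count 4) +
      (nu.parts.count 3 : K) * nu.parts.count 3 := by
  have h0 : nu.parts.count 0 = 0 := by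
    rw [Multiset.count_eq_zero]
    intro h
    exact absurd (nu.parts_pos h) (lt_irrefl 0)
  have h1 : Finset.HasAntidiagonal.antidiagonal 6 =
    {((0 : ℕ), 6), (1, 5), (2, 4), (3, 3), (4, 2), (5, 1), (6, 0)} := by decide
  rw [h1]
  rw [Finset.sum_insert (by decide), Finset.sum_insert (by decide), Finset.sum_insert (by decide),
    Finset.sum_insert (by decide), Finset.sum_insert (by decide), Finset.sum_insert (by decide),
    Finset.sum_singleton]
  rw [h0]
  push_cast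
  ring

omit [CharZero K] in
/-- The quadratic function for `k = 7`. -/
lemma anti7 (nu : n.Partition) : ∑ x ∈ Finset.HasAntidiagonal.antidiagonal 7,
    (nu.parts.count x.1 : K) * (nu.parts.count x.2 : K) =
    2 * ((nu.parts.count 1 : K) * nu.parts.count 6 + (nu.parts.count 2 : K) * nu.parts.count 5 +
      (nu.parts.count 3 : K) * nu.parts.count 4) := by
  have h0 : nu.parts.count 0 = 0 := by
    rw [Multiset.count_eq_zero]
    intro h
    exact absurd (nu.parts_pos h) (lt_irrefl 0)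
  have h1 : Finset.HasAntidiagonal.antidiagonal 7 =
    {((0 : ℕ), 7), (1, 6), (2, 5), (3, 4), (4, 3), (5, 2), (6, 1), (7, 0)} := by decide
  rw [h1]
  rw [Finset.sum_insert (by decide), Finset.sum_insert (by decide), Finset.sum_insert (by decide),
    Finset.sum_insert (by decide), Finset.sum_insert (by decide), Finset.sum_insert (by decide),
    Finset.sum_insert (by decide), Finset.sum_singleton]
  rw [h0]
  push_cast
  ring

variable (hI : ∀ k : ℕ, SL L (fun nu => E nu * (nu.parts.count k : K)) = 0)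
  (hII : ∀ k : ℕ, SL L (fun nu => E nu * ∑ x ∈ Finset.HasAntidiagonal.antidiagonal k,
    (nu.parts.count x.1 : K) * (nu.parts.count x.2 : K)) = 0)

include hI

omit [CharZero K] in
lemma rank1 (hL : L + 1 = n) (nu : n.Partition) (hnu : nu.parts.card = L) : E nu = 0 := by
  have ht : ∀ nu : n.Partition, nu.parts.card = L → (nu.parts.count 2 = 1 ∧
      nu.parts.count 3 = 0 ∧ nu.parts.count 4 = 0 ∧ nu.parts.count 5 = 0 ∧
      nu.parts.count 6 = 0) := by
    intro nu hnu
    have c := counts (r := 1) (by norm_num) nu (by omega)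
    exact nat1 c.1 c.2
  have g1 : SL L (fun nu => E nu * ty K 1 0 0 0 0 nu) = 0 := by
    refine comb2 1 0 (hI 2) (hI 2) fun nu hnu => ?_
    have c := ht nu hnu
    unfold ty
    rw [if_pos c, c.1]
    norm_num
  have c := ht nu hnu
  exact eval_ty (r := 1) (by norm_num) hL _ _ _ _ _ g1 nu hnu c.1 c.2.1 c.2.2.1 c.2.2.2.1 c.2.2.2.2

lemma rank2 (hL : L + 2 = n) (nu : n.Partition) (hnu : nu.parts.card = L) : E nu = 0 := by
  have ht : ∀ nu : n.Partition, nu.parts.card = L →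
      (nu.parts.count 2 = 0 ∧ nu.parts.count 3 = 1 ∧ nu.parts.count 4 = 0 ∧
        nu.parts.count 5 = 0 ∧ nu.parts.count 6 = 0) ∨
      (nu.parts.count 2 = 2 ∧ nu.parts.count 3 = 0 ∧ nu.parts.count 4 = 0 ∧
        nu.parts.count 5 = 0 ∧ nu.parts.count 6 = 0) := by
    intro nu hnu
    have c := counts (r := 2) (by norm_num) nu (by omega)
    exact nat2 c.1 c.2
  have g1 : SL L (fun nu => E nu * ty K 0 1 0 0 0 nu) = 0 := by
    refine comb2 1 0 (hI 3) (hI 3) fun nu hnu => ?_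
    rcases ht nu hnu with c | c <;> simp [ty, c]
  have g2 : SL L (fun nu => E nu * ty K 2 0 0 0 0 nu) = 0 := by
    refine comb2 (2 : K)⁻¹ 0 (hI 2) (hI 2) fun nu hnu => ?_
    rcases ht nu hnu with c | c <;> simp [ty, c]
  rcases ht nu hnu with c | c
  · exact eval_ty (r := 2) (by norm_num) hL _ _ _ _ _ g1 nu hnu c.1 c.2.1 c.2.2.1 c.2.2.2.1
      c.2.2.2.2
  · exact eval_ty (r := 2) (by norm_num) hL _ _ _ _ _ g2 nu hnu c.1 c.2.1 c.2.2.1 c.2.2.2.1
      c.2.2.2.2

lemma rank3 (hL : L + 3 = n) (nu : n.Partition) (hnu : nu.parts.card = L) : E nu = 0 := by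
  have ht : ∀ nu : n.Partition, nu.parts.card = L →
      (nu.parts.count 2 = 0 ∧ nu.parts.count 3 = 0 ∧ nu.parts.count 4 = 1 ∧
        nu.parts.count 5 = 0 ∧ nu.parts.count 6 = 0) ∨
      (nu.parts.count 2 = 1 ∧ nu.parts.count 3 = 1 ∧ nu.parts.count 4 = 0 ∧
        nu.parts.count 5 = 0 ∧ nu.parts.count 6 = 0) ∨
      (nu.parts.count 2 = 3 ∧ nu.parts.count 3 = 0 ∧ nu.parts.count 4 = 0 ∧
        nu.parts.count 5 = 0 ∧ nu.parts.count 6 = 0) := by
    intro nu hnu
    have c := counts (r := 3) (by norm_num) nu (by omega)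
    exact nat3 c.1 c.2
  have g1 : SL L (fun nu => E nu * ty K 0 0 1 0 0 nu) = 0 := by
    refine comb2 1 0 (hI 4) (hI 4) fun nu hnu => ?_
    rcases ht nu hnu with c | c | c <;> simp [ty, c]
  have g2 : SL L (fun nu => E nu * ty K 1 1 0 0 0 nu) = 0 := by
    refine comb2 1 0 (hI 3) (hI 3) fun nu hnu => ?_
    rcases ht nu hnu with c | c | c <;> simp [ty, c]
  have g3 : SL L (fun nu => E nu * ty K 3 0 0 0 0 nu) = 0 := by
    refine comb2 (3 : K)⁻¹ (-(3 : K)⁻¹) (hI 2) g2 fun nu hnu => ?_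
    rcases ht nu hnu with c | c | c <;> simp [ty, c]
  rcases ht nu hnu with c | c | c
  · exact eval_ty (r := 3) (by norm_num) hL _ _ _ _ _ g1 nu hnu c.1 c.2.1 c.2.2.1 c.2.2.2.1
      c.2.2.2.2
  · exact eval_ty (r := 3) (by norm_num) hL _ _ _ _ _ g2 nu hnu c.1 c.2.1 c.2.2.1 c.2.2.2.1
      c.2.2.2.2
  · exact eval_ty (r := 3) (by norm_num) hL _ _ _ _ _ g3 nu hnu c.1 c.2.1 c.2.2.1 c.2.2.2.1
      c.2.2.2.2

include hII

lemma rank4 (hL : L + 4 = n) (nu : n.Partition) (hnu : nu.parts.card = L) : E nu = 0 := by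
  have ht : ∀ nu : n.Partition, nu.parts.card = L →
      (nu.parts.count 2 = 0 ∧ nu.parts.count 3 = 0 ∧ nu.parts.count 4 = 0 ∧
        nu.parts.count 5 = 1 ∧ nu.parts.count 6 = 0 ∧ nu.parts.count 1 + 5 = n) ∨
      (nu.parts.count 2 = 1 ∧ nu.parts.count 3 = 0 ∧ nu.parts.count 4 = 1 ∧
        nu.parts.count 5 = 0 ∧ nu.parts.count 6 = 0 ∧ nu.parts.count 1 + 6 = n) ∨
      (nu.parts.count 2 = 0 ∧ nu.parts.count 3 = 2 ∧ nu.parts.count 4 = 0 ∧
        nu.parts.count 5 = 0 ∧ nu.parts.count 6 = 0 ∧ nu.parts.count 1 + 6 = n) ∨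
      (nu.parts.count 2 = 2 ∧ nu.parts.count 3 = 1 ∧ nu.parts.count 4 = 0 ∧
        nu.parts.count 5 = 0 ∧ nu.parts.count 6 = 0 ∧ nu.parts.count 1 + 7 = n) ∨
      (nu.parts.count 2 = 4 ∧ nu.parts.count 3 = 0 ∧ nu.parts.count 4 = 0 ∧
        nu.parts.count 5 = 0 ∧ nu.parts.count 6 = 0 ∧ nu.parts.count 1 + 8 = n) := by
    intro nu hnu
    have c := counts (r := 4) (by norm_num) nu (by omega)
    exact nat4 c.1 c.2
  have h6 := hII 6
  simp only [anti6] at h6
  have g1 : SL L (fun nu => E nu * ty K 0 0 0 1 0 nu) = 0 := by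
    refine comb2 1 0 (hI 5) (hI 5) fun nu hnu => ?_
    rcases ht nu hnu with c | c | c | c | c <;> simp [ty, c]
  have g2 : SL L (fun nu => E nu * ty K 1 0 1 0 0 nu) = 0 := by
    refine comb2 1 0 (hI 4) (hI 4) fun nu hnu => ?_
    rcases ht nu hnu with c | c | c | c | c <;> simp [ty, c]
  have g3 : SL L (fun nu => E nu * ty K 0 2 0 0 0 nu) = 0 := by
    refine comb4 (2 : K)⁻¹ (-(2 : K)⁻¹) (-((n : K) - 5)) (-1) h6 (hI 3) g1 g2 fun nu hnu => ?_
    rcases ht nu hnu with c | c | c | c | c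
    · have hc : (nu.parts.count 1 : K) = (n : K) - 5 := by
        have h9 : ((nu.parts.count 1 + 5 : ℕ) : K) = (n : K) := congrArg _ c.2.2.2.2.2
        push_cast at h9
        linear_combination h9
      simp [ty, c, hc]
    · simp [ty, c]
    · simp [ty, c]
      norm_num
    · simp [ty, c]
    · simp [ty, c]
  have g4 : SL L (fun nu => E nu * ty K 2 1 0 0 0 nu) = 0 := by
    refine comb2 1 (-2) (hI 3) g3 fun nu hnu => ?_
    rcases ht nu hnu with c | c | c | c | c <;> simp [ty, c]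
  have g5 : SL L (fun nu => E nu * ty K 4 0 0 0 0 nu) = 0 := by
    refine comb4 (4 : K)⁻¹ (-(4 : K)⁻¹) (-(2 : K)⁻¹) 0 (hI 2) g2 g4 g4 fun nu hnu => ?_
    rcases ht nu hnu with c | c | c | c | c <;> simp [ty, c]
    norm_num
  rcases ht nu hnu with c | c | c | c | c
  · exact eval_ty (r := 4) (by norm_num) hL _ _ _ _ _ g1 nu hnu c.1 c.2.1 c.2.2.1 c.2.2.2.1
      c.2.2.2.2.1
  · exact eval_ty (r := 4) (by norm_num) hL _ _ _ _ _ g2 nu hnu c.1 c.2.1 c.2.2.1 c.2.2.2.1
      c.2.2.2.2.1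
  · exact eval_ty (r := 4) (by norm_num) hL _ _ _ _ _ g3 nu hnu c.1 c.2.1 c.2.2.1 c.2.2.2.1
      c.2.2.2.2.1
  · exact eval_ty (r := 4) (by norm_num) hL _ _ _ _ _ g4 nu hnu c.1 c.2.1 c.2.2.1 c.2.2.2.1
      c.2.2.2.2.1
  · exact eval_ty (r := 4) (by norm_num) hL _ _ _ _ _ g5 nu hnu c.1 c.2.1 c.2.2.1 c.2.2.2.1
      c.2.2.2.2.1

lemma rank5 (hL : L + 5 = n) (nu : n.Partition) (hnu : nu.parts.card = L) : E nu = 0 := by
  have ht : ∀ nu : n.Partition, nu.parts.card = L →
      (nu.parts.count 2 = 0 ∧ nu.parts.count 3 = 0 ∧ nu.parts.count 4 = 0 ∧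
        nu.parts.count 5 = 0 ∧ nu.parts.count 6 = 1 ∧ nu.parts.count 1 + 6 = n) ∨
      (nu.parts.count 2 = 1 ∧ nu.parts.count 3 = 0 ∧ nu.parts.count 4 = 0 ∧
        nu.parts.count 5 = 1 ∧ nu.parts.count 6 = 0 ∧ nu.parts.count 1 + 7 = n) ∨
      (nu.parts.count 2 = 0 ∧ nu.parts.count 3 = 1 ∧ nu.parts.count 4 = 1 ∧
        nu.parts.count 5 = 0 ∧ nu.parts.count 6 = 0 ∧ nu.parts.count 1 + 7 = n) ∨
      (nu.parts.count 2 = 2 ∧ nu.parts.count 3 = 0 ∧ nu.parts.count 4 = 1 ∧
        nu.parts.count 5 = 0 ∧ nu.parts.count 6 = 0 ∧ nu.parts.count 1 + 8 = n) ∨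
      (nu.parts.count 2 = 1 ∧ nu.parts.count 3 = 2 ∧ nu.parts.count 4 = 0 ∧
        nu.parts.count 5 = 0 ∧ nu.parts.count 6 = 0 ∧ nu.parts.count 1 + 8 = n) ∨
      (nu.parts.count 2 = 3 ∧ nu.parts.count 3 = 1 ∧ nu.parts.count 4 = 0 ∧
        nu.parts.count 5 = 0 ∧ nu.parts.count 6 = 0 ∧ nu.parts.count 1 + 9 = n) ∨
      (nu.parts.count 2 = 5 ∧ nu.parts.count 3 = 0 ∧ nu.parts.count 4 = 0 ∧
        nu.parts.count 5 = 0 ∧ nu.parts.count 6 = 0 ∧ nu.parts.count 1 + 10 = n) := by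
    intro nu hnu
    have c := counts (r := 5) (by norm_num) nu (by omega)
    exact nat5 c.1 c.2
  have h6 := hII 6
  simp only [anti6] at h6
  have h7 := hII 7
  simp only [anti7] at h7
  have g1 : SL L (fun nu => E nu * ty K 0 0 0 0 1 nu) = 0 := by
    refine comb2 1 0 (hI 6) (hI 6) fun nu hnu => ?_
    rcases ht nu hnu with c | c | c | c | c | c | c <;> simp [ty, c]
  have g2 : SL L (fun nu => E nu * ty K 1 0 0 1 0 nu) = 0 := by
    refine comb2 1 0 (hI 5) (hI 5) fun nu hnu => ?_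
    rcases ht nu hnu with c | c | c | c | c | c | c <;> simp [ty, c]
  have g3 : SL L (fun nu => E nu * ty K 0 1 1 0 0 nu) = 0 := by
    refine comb4 (2 : K)⁻¹ (-1) (-((n : K) - 6)) 0 h7 g2 g1 g1 fun nu hnu => ?_
    rcases ht nu hnu with c | c | c | c | c | c | c
    · have hc : (nu.parts.count 1 : K) = (n : K) - 6 := by
        have h9 : ((nu.parts.count 1 + 6 : ℕ) : K) = (n : K) := congrArg _ c.2.2.2.2.2
        push_cast at h9
        linear_combination h9
      simp [ty, c, hc]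
    all_goals simp [ty, c]
  have g4 : SL L (fun nu => E nu * ty K 2 0 1 0 0 nu) = 0 := by
    refine comb2 1 (-1) (hI 4) g3 fun nu hnu => ?_
    rcases ht nu hnu with c | c | c | c | c | c | c <;> simp [ty, c]
  have g5 : SL L (fun nu => E nu * ty K 1 2 0 0 0 nu) = 0 := by
    refine comb4 (2 : K)⁻¹ (-(2 : K)⁻¹) (-2) (-((n : K) - 7)) h6 (hI 3) g4 g2 fun nu hnu => ?_
    rcases ht nu hnu with c | c | c | c | c | c | c
    · simp [ty, c]
    · have hc : (nu.parts.count 1 : K) = (n : K) - 7 := by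
        have h9 : ((nu.parts.count 1 + 7 : ℕ) : K) = (n : K) := congrArg _ c.2.2.2.2.2
        push_cast at h9
        linear_combination h9
      simp [ty, c, hc]
    · simp [ty, c]
    · simp [ty, c]
    · simp [ty, c]
      norm_num
    · simp [ty, c]
    · simp [ty, c]
  have g6 : SL L (fun nu => E nu * ty K 3 1 0 0 0 nu) = 0 := by
    refine comb4 1 (-1) (-2) 0 (hI 3) g3 g5 g5 fun nu hnu => ?_
    rcases ht nu hnu with c | c | c | c | c | c | c <;> simp [ty, c]
  have g7' : SL L (fun nu => E nu * (ty K 1 0 0 1 0 nu + ty K 1 2 0 0 0 nu)) = 0 :=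
    comb2 1 1 g2 g5 fun nu _ => by ring
  have g7 : SL L (fun nu => E nu * ty K 5 0 0 0 0 nu) = 0 := by
    refine comb4 (5 : K)⁻¹ (-(5 : K)⁻¹) (-(2 * (5 : K)⁻¹)) (-(3 * (5 : K)⁻¹))
      (hI 2) g7' g4 g6 fun nu hnu => ?_
    rcases ht nu hnu with c | c | c | c | c | c | c
    · simp [ty, c]
    · simp [ty, c]
    · simp [ty, c]
    · simp [ty, c]
      ring
    · simp [ty, c]
    · simp [ty, c]
      ring
    · simp [ty, c]
  rcases ht nu hnu with c | c | c | c | c | c | c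
  · exact eval_ty (r := 5) (by norm_num) hL _ _ _ _ _ g1 nu hnu c.1 c.2.1 c.2.2.1 c.2.2.2.1
      c.2.2.2.2.1
  · exact eval_ty (r := 5) (by norm_num) hL _ _ _ _ _ g2 nu hnu c.1 c.2.1 c.2.2.1 c.2.2.2.1
      c.2.2.2.2.1
  · exact eval_ty (r := 5) (by norm_num) hL _ _ _ _ _ g3 nu hnu c.1 c.2.1 c.2.2.1 c.2.2.2.1
      c.2.2.2.2.1
  · exact eval_ty (r := 5) (by norm_num) hL _ _ _ _ _ g4 nu hnu c.1 c.2.1 c.2.2.1 c.2.2.2.1
      c.2.2.2.2.1
  · exact eval_ty (r := 5) (by norm_num) hL _ _ _ _ _ g5 nu hnu c.1 c.2.1 c.2.2.1 c.2.2.2.1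
      c.2.2.2.2.1
  · exact eval_ty (r := 5) (by norm_num) hL _ _ _ _ _ g6 nu hnu c.1 c.2.1 c.2.2.1 c.2.2.2.1
      c.2.2.2.2.1
  · exact eval_ty (r := 5) (by norm_num) hL _ _ _ _ _ g7 nu hnu c.1 c.2.1 c.2.2.1 c.2.2.2.1
      c.2.2.2.2.1

end

lemma card_le_n {n : ℕ} (nu : n.Partition) : nu.parts.card ≤ n := by
  have h := card_le_sum nu.parts fun x hx => nu.parts_pos hx
  rwa [nu.parts_sum] at h

end QFive

open QDiv QFive in
/-- The coefficients of rank at most five vanish. -/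
theorem rankFive {K : Type} [Field K] [CharZero K] {al : K} (h0 : al ≠ 0) (h1 : al + 1 ≠ 0)
    {n : ℕ} (E : n.Partition → K)
    (h : ∀ u v s : K, v = 0 ∨ v = 1 ∨ v = -al →
      ∑ nu, E nu * (nu.parts.map fun i => u + v * s ^ i).prod = 0)
    (nu : n.Partition) (hnu : n ≤ nu.parts.card + 5) : E nu = 0 := by
  -- the level, by induction on the rank
  have main : ∀ r, r ≤ 5 → ∀ nu : n.Partition, nu.parts.card + r = n → E nu = 0 := by
    intro r
    induction r using Nat.strong_induction_on with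
    | _ r ih =>
      intro hr nu hnu
      have hL : ∀ mu : n.Partition, nu.parts.card < mu.parts.card → E mu = 0 := by
        intro mu hmu
        have h2 := card_le_n mu
        exact ih (n - mu.parts.card) (by omega) (by omega) mu (by omega)
      obtain ⟨hA, hI, hII⟩ := levelCount h0 h1 E h nu.parts.card hL
      interval_cases r
      · -- rank zero
        have h3 : SL nu.parts.card (fun mu => E mu * ty K 0 0 0 0 0 mu) = 0 := by
          rw [← hA]
          apply SL_congr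
          intro mu hmu
          have c := counts (r := 0) (by norm_num) mu (by omega)
          unfold ty
          rw [if_pos (by omega), mul_one]
        have c := counts (r := 0) (by norm_num) nu (by omega)
        exact eval_ty (r := 0) (by norm_num) (by omega) _ _ _ _ _ h3 nu rfl (by omega) (by omega)
          (by omega) (by omega) (by omega)
      · exact rank1 hI hnu nu rfl
      · exact rank2 hI hnu nu rfl
      · exact rank3 hI hnu nu rfl
      · exact rank4 hI hII hnu nu rfl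
      · exact rank5 hI hII hnu nu rfl
  have h2 := card_le_n nu
  exact main (n - nu.parts.card) (by omega) nu (by omega)

end

end Pool.Agent.MJT
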