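import Pool.Agent.MJT.QFive

/-!
More classes whose coefficients vanish: the classes with a part of size at least `n - 2`, and
the classes `(7), (8), (6, 2), (7, 2), (4, 2, 2, 2)` completed by ones.
-/

namespace Pool.Agent.MJT

open Polynomial

noncomputable section

namespace QMore

open QDiv QFive

variable {K : Type} [Field K]

/-! ### Uniqueness -/

lemma ones_of_sum (s : Multiset ℕ) (h0 : ∀ x ∈ s, 0 < x) (h : s.sum = s.card) :
    s = Multiset.replicate s.card 1 := by
  rw [Multiset.eq_replicate]
  refine ⟨rfl, fun b hb => ?_⟩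
  obtain ⟨t, ht⟩ := Multiset.exists_cons_of_mem hb
  have h1 := card_le_sum t fun y hy => h0 y (ht ▸ Multiset.mem_cons_of_mem hy)
  have h2 := h0 b hb
  rw [ht, Multiset.sum_cons, Multiset.card_cons] at h
  omega

lemma rest_unique (s t : Multiset ℕ) (hs : ∀ x ∈ s, 0 < x) (ht : ∀ x ∈ t, 0 < x)
    (hc : s.card = t.card) (hsum : s.sum = t.sum) (h : s.sum ≤ s.card + 1) : s = t := by
  have h1 := card_le_sum s hs
  rcases Nat.lt_or_ge s.card s.sum with hlt | hge
  · -- one two
    have key : ∀ u : Multiset ℕ, (∀ x ∈ u, 0 < x) → u.sum = u.card + 1 →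
        u = 2 ::ₘ Multiset.replicate (u.card - 1) 1 := by
      intro u hu hsu
      have h2 : ∃ a ∈ u, a ≠ 1 := by
        by_contra hcon
        push Not at hcon
        have h3 : u = Multiset.replicate u.card 1 := Multiset.eq_replicate.mpr ⟨rfl, hcon⟩
        have h4 : u.sum = u.card := by
          rw [h3]
          simp
        omega
      obtain ⟨a, ha, ha1⟩ := h2
      obtain ⟨w, hw⟩ := Multiset.exists_cons_of_mem ha
      have hw0 : ∀ y ∈ w, 0 < y := fun y hy => hu y (hw ▸ Multiset.mem_cons_of_mem hy)
      have h3 := card_le_sum w hw0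
      have h4 := hu a ha
      rw [hw, Multiset.sum_cons, Multiset.card_cons] at hsu
      have h5 : a = 2 := by omega
      have h6 : w = Multiset.replicate w.card 1 := ones_of_sum w hw0 (by omega)
      rw [hw, Multiset.card_cons, Nat.add_sub_cancel, ← h6, h5]
    rw [key s hs (by omega), key t ht (by omega), hc]
  · rw [ones_of_sum s hs (by omega), ones_of_sum t ht (by omega), hc]

/-- A partition with a large part is determined by this part and the number of parts. -/
lemma uniq {n x : ℕ} (mu nu : n.Partition) (hm : x ∈ mu.parts) (hn : x ∈ nu.parts)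
    (hc : mu.parts.card = nu.parts.card) (h : n ≤ x + nu.parts.card) : mu = nu := by
  obtain ⟨s, hs⟩ := Multiset.exists_cons_of_mem hm
  obtain ⟨t, ht⟩ := Multiset.exists_cons_of_mem hn
  have h1 := mu.parts_sum
  have h2 := nu.parts_sum
  have hs0 : ∀ y ∈ s, 0 < y := fun y hy => mu.parts_pos (hs ▸ Multiset.mem_cons_of_mem hy)
  have ht0 : ∀ y ∈ t, 0 < y := fun y hy => nu.parts_pos (ht ▸ Multiset.mem_cons_of_mem hy)
  rw [hs, Multiset.sum_cons] at h1
  rw [ht, Multiset.sum_cons] at h2
  rw [hs, ht, Multiset.card_cons, Multiset.card_cons] at hc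
  rw [ht, Multiset.card_cons] at h
  have h3 : s = t := rest_unique s t hs0 ht0 (by omega) (by omega) (by omega)
  apply Nat.Partition.ext
  rw [hs, ht, h3]

variable [CharZero K]

/-- If a sum over a level weighted by the multiplicity of a large part vanishes, so does the
coefficient. -/
lemma eq_zero_of_count {n x L : ℕ} {E : n.Partition → K}
    (h : SL L (fun mu => E mu * (mu.parts.count x : K)) = 0) (nu : n.Partition)
    (hx : x ∈ nu.parts) (hL : nu.parts.card = L) (hr : n ≤ x + L) : E nu = 0 := by
  unfold SL at h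
  rw [Finset.sum_eq_single nu] at h
  · refine (mul_eq_zero.mp h).resolve_right ?_
    exact Nat.cast_ne_zero.mpr (Multiset.count_ne_zero.mpr hx)
  · intro mu hmu hne
    rw [Finset.mem_filter] at hmu
    have h1 : mu.parts.count x = 0 := by
      rw [Multiset.count_eq_zero]
      intro h2
      exact hne (uniq mu nu h2 hx (by omega) (by omega))
    rw [h1, Nat.cast_zero, mul_zero]
  · intro hn
    exact (hn (Finset.mem_filter.mpr ⟨Finset.mem_univ _, hL⟩)).elim

/-! ### A large part -/

omit [CharZero K] in
/-- The linear coefficient. -/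
lemma coeff_one_PM (v s : K) (M : Multiset ℕ) : (PM (M.map fun i => v * s ^ i)).coeff 0 =
      v ^ M.card * s ^ M.sum ∧
    (PM (M.map fun i => v * s ^ i)).coeff 1 =
      (M.map fun x => v ^ (M.card - 1) * s ^ (M.sum - x)).sum := by
  induction M using Multiset.induction_on with
  | empty =>
    rw [Multiset.map_zero, PM_zero]
    simp [coeff_one]
  | cons a M ih =>
    rw [Multiset.map_cons, coeff_zero', coeff_succ, ih.1, ih.2]
    refine ⟨?_, ?_⟩
    · rw [Multiset.card_cons, Multiset.sum_cons]
      ring
    · rw [Multiset.map_cons, Multiset.sum_cons, Multiset.card_cons, Multiset.sum_cons,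
        Nat.add_sub_cancel, Nat.add_sub_cancel_left]
      congr 1
      rw [← Multiset.sum_map_mul_left]
      congr 1
      refine Multiset.map_congr rfl fun x hx => ?_
      have h1 : 0 < M.card := Multiset.card_pos_iff_exists_mem.mpr ⟨x, hx⟩
      have h2 : x ≤ M.sum := Multiset.single_le_sum (fun _ _ => Nat.zero_le _) x hx
      obtain ⟨c, hc⟩ := Nat.exists_eq_succ_of_ne_zero h1.ne'
      have h3 : a + M.sum - x = a + (M.sum - x) := by omega
      rw [h3, hc, Nat.succ_eq_add_one, Nat.add_sub_cancel]
      ring

/-- The condition for a part `x`. -/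
lemma cond_part {n : ℕ} (E : n.Partition → K) (v : K)
    (h : ∀ u s, ∑ nu, E nu * (nu.parts.map fun i => u + v * s ^ i).prod = 0) {x : ℕ}
    (hx : x ≤ n) :
    ∑ nu : n.Partition, E nu * (v ^ (nu.parts.card - 1) * (nu.parts.count x : K)) = 0 := by
  have h1 : (∑ nu : n.Partition, C (E nu) *
      (nu.parts.map fun y => C (v ^ (nu.parts.card - 1)) * (X : K[X]) ^ (n - y)).sum) = 0 := by
    apply Polynomial.funext
    intro s
    rw [eval_finsetSum, eval_zero, ← coeff_eq_zero E v s (fun u => h u s) 1]
    refine Finset.sum_congr rfl fun nu _ => ?_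
    rw [(coeff_one_PM v s nu.parts).2, nu.parts_sum, eval_mul, eval_C]
    congr 1
    rw [← coe_evalRingHom, map_multiset_sum, Multiset.map_map]
    congr 1
    refine Multiset.map_congr rfl fun y _ => ?_
    simp
  have h2 := congrArg (fun p => p.coeff (n - x)) h1
  simp only [finsetSum_coeff, coeff_C_mul, coeff_zero] at h2
  rw [← h2]
  refine Finset.sum_congr rfl fun nu _ => ?_
  congr 1
  have h3 : ∀ M : Multiset ℕ, (∀ y ∈ M, y ≤ n) →
      ((M.map fun y => C (v ^ (nu.parts.card - 1)) * (X : K[X]) ^ (n - y)).sum).coeff (n - x) =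
      v ^ (nu.parts.card - 1) * (M.count x : K) := by
    intro M hM
    induction M using Multiset.induction_on with
    | empty => simp
    | cons a M ih =>
      have ha := hM a (Multiset.mem_cons_self a M)
      rw [Multiset.map_cons, Multiset.sum_cons, coeff_add,
        ih (fun y hy => hM y (Multiset.mem_cons_of_mem hy)), coeff_C_mul, coeff_X_pow,
        Multiset.count_cons]
      have h4 : n - x = n - a ↔ x = a := by omega
      simp only [h4]
      push_cast
      ring
  exact (h3 nu.parts fun y hy => by
    have h5 := part_le nu hy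
    have h6 : 0 < nu.parts.card := Multiset.card_pos_iff_exists_mem.mpr ⟨y, hy⟩
    omega).symm

/-- The classes with a part of size at least `n - 2`. -/
theorem large {al : K} (h0 : al ≠ 0) (h1 : al + 1 ≠ 0) {n : ℕ} (E : n.Partition → K)
    (h : ∀ u v s : K, v = 0 ∨ v = 1 ∨ v = -al →
      ∑ nu, E nu * (nu.parts.map fun i => u + v * s ^ i).prod = 0)
    (nu : n.Partition) {x : ℕ} (hx : x ∈ nu.parts) (hn : n ≤ x + 2) : E nu = 0 := by
  classical
  have hxn : ∀ mu : n.Partition, x ∈ mu.parts → x + mu.parts.card ≤ n + 1 := fun mu h =>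
    part_le mu h
  have hpos : ∀ mu : n.Partition, x ∈ mu.parts → 0 < mu.parts.card := fun mu h =>
    Multiset.card_pos_iff_exists_mem.mpr ⟨x, h⟩
  have hxle : x ≤ n := by
    have := hxn nu hx
    have := hpos nu hx
    omega
  obtain ⟨f, hf⟩ : ∃ f : ℕ → K, ∀ k, f k = SL k (fun mu => E mu * (mu.parts.count x : K)) :=
    ⟨_, fun _ => rfl⟩
  have hzero : ∀ k, (∀ mu : n.Partition, mu.parts.card = k → x ∉ mu.parts) → f k = 0 := by
    intro k hk
    rw [hf]
    refine Finset.sum_eq_zero fun mu hmu => ?_
    rw [Finset.mem_filter] at hmu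
    rw [Multiset.count_eq_zero.mpr (hk mu hmu.2), Nat.cast_zero, mul_zero]
  have hsum : ∀ v : K, v = 0 ∨ v = 1 ∨ v = -al → f 1 + v * f 2 + v ^ 2 * f 3 = 0 := by
    intro v hv
    rw [← cond_part E v (fun u s => h u v s hv) hxle, hf, hf, hf]
    unfold SL
    rw [Finset.sum_filter, Finset.sum_filter, Finset.sum_filter, Finset.mul_sum, Finset.mul_sum,
      ← Finset.sum_add_distrib, ← Finset.sum_add_distrib]
    refine Finset.sum_congr rfl fun mu _ => ?_
    by_cases hm : x ∈ mu.parts
    · have e1 := hxn mu hm
      have e2 := hpos mu hm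
      obtain hc | hc | hc : mu.parts.card = 1 ∨ mu.parts.card = 2 ∨ mu.parts.card = 3 := by omega
      · rw [hc]
        simp
      · rw [hc]
        simp
        ring
      · rw [hc]
        simp
        ring
    · rw [Multiset.count_eq_zero.mpr hm]
      simp
  have e1 := hsum 1 (Or.inr (Or.inl rfl))
  have e2 := hsum (-al) (Or.inr (Or.inr rfl))
  have hall : ∀ k, 1 ≤ k → k ≤ 3 → f k = 0 := by
    rcases Nat.lt_or_ge x n with hlt | hge
    · have f1 : f 1 = 0 := by
        refine hzero 1 fun mu hmu hm => ?_
        obtain ⟨a, ha⟩ := Multiset.card_eq_one.mp hmu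
        have h3 := mu.parts_sum
        rw [ha, Multiset.mem_singleton] at hm
        rw [ha, Multiset.sum_singleton] at h3
        omega
      have h4 : (al * (al + 1)) * f 3 = 0 := by
        linear_combination e2 + al * e1 - (1 + al) * f1
      have f3 := (mul_eq_zero.mp h4).resolve_left (mul_ne_zero h0 h1)
      have f2 : f 2 = 0 := by linear_combination e1 - f1 - f3
      intro k hk1 hk3
      interval_cases k
      · exact f1
      · exact f2
      · exact f3
    · have f2 : f 2 = 0 := hzero 2 fun mu hmu hm => by
        have := hxn mu hm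
        omega
      have f3 : f 3 = 0 := hzero 3 fun mu hmu hm => by
        have := hxn mu hm
        omega
      have f1 : f 1 = 0 := by linear_combination e1 - f2 - f3
      intro k hk1 hk3
      interval_cases k
      · exact f1
      · exact f2
      · exact f3
  have e3 := hxn nu hx
  have e4 := hpos nu hx
  have e5 := hall nu.parts.card (by omega) (by omega)
  rw [hf] at e5
  refine eq_zero_of_count e5 nu hx rfl ?_
  rcases Nat.lt_or_ge nu.parts.card 2 with hlt | hge
  · obtain ⟨a, ha⟩ := Multiset.card_eq_one.mp (show nu.parts.card = 1 by omega)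
    have h3 := nu.parts_sum
    rw [ha, Multiset.mem_singleton] at hx
    rw [ha, Multiset.sum_singleton] at h3
    rw [ha, Multiset.card_singleton]
    omega
  · omega

/-! ### Ranks six and seven -/

/-- The condition one level lower. -/
theorem levelBelow {al : K} (h0 : al ≠ 0) (h1 : al + 1 ≠ 0) {n : ℕ} (E : n.Partition → K)
    (h : ∀ u v s : K, v = 0 ∨ v = 1 ∨ v = -al →
      ∑ nu, E nu * (nu.parts.map fun i => u + v * s ^ i).prod = 0)
    (k : ℕ) (hL : ∀ nu : n.Partition, k + 2 < nu.parts.card → E nu = 0) (x : ℕ) :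
    SL (k + 1) (fun nu => E nu * (nu.parts.count x : K)) = 0 := by
  classical
  have key : ∀ (v s : K), v = 0 ∨ v = 1 ∨ v = -al →
      2 * SL k E + 2 * v * SL (k + 1) (fun nu => E nu * p1 s nu) +
        v ^ 2 * SL (k + 2) (fun nu => E nu * (p1 s nu ^ 2 - p1 (s ^ 2) nu)) = 0 := by
    intro v s hv
    have e := coeff_eq_zero E v s (fun u => h u v s hv) k
    have e2 : ∀ nu : n.Partition,
        2 * (E nu * (PM (nu.parts.map fun i => v * s ^ i)).coeff k) =
          2 * (if nu.parts.card = k then E nu else 0) +
          2 * v * (if nu.parts.card = k + 1 then E nu * p1 s nu else 0) +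
          v ^ 2 * (if nu.parts.card = k + 2 then E nu * (p1 s nu ^ 2 - p1 (s ^ 2) nu) else 0) := by
      intro nu
      have hc : (nu.parts.map fun i => v * s ^ i).card = nu.parts.card := Multiset.card_map _ _
      rcases lt_trichotomy nu.parts.card k with hlt | heq | hgt
      · rw [coeff_gt _ k (by rw [hc]; exact hlt), if_neg (by omega), if_neg (by omega),
          if_neg (by omega)]
        ring
      · have e3 := coeff_card (nu.parts.map fun i => v * s ^ i)
        rw [hc, heq] at e3
        rw [e3, if_pos heq, if_neg (by omega), if_neg (by omega)]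
        ring
      · rcases eq_or_ne nu.parts.card (k + 1) with h2 | h2
        · rw [coeff_one' _ k (by rw [hc]; exact h2), sum_v, if_neg (by omega), if_pos h2,
            if_neg (by omega)]
          ring
        · rcases eq_or_ne nu.parts.card (k + 2) with h3 | h3
          · have e3 := coeff_two' _ k (by rw [hc]; exact h3)
            rw [sum_v, sum_v2] at e3
            rw [if_neg (by omega), if_neg h2, if_pos h3]
            linear_combination E nu * e3
          · rw [hL nu (by omega), if_neg (by omega), if_neg h2, if_neg h3]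
            ring
    have e4 := congrArg (fun x => 2 * x) e
    simp only [mul_zero] at e4
    rw [Finset.mul_sum, Finset.sum_congr rfl (fun nu _ => e2 nu), Finset.sum_add_distrib,
      Finset.sum_add_distrib, ← Finset.mul_sum, ← Finset.mul_sum, ← Finset.mul_sum,
      ← Finset.sum_filter, ← Finset.sum_filter, ← Finset.sum_filter] at e4
    exact e4
  have hB : ∀ s : K, SL (k + 1) (fun nu => E nu * p1 s nu) = 0 := by
    intro s
    have e0 := key 0 s (Or.inl rfl)
    have e1 := key 1 s (Or.inr (Or.inl rfl))
    have e2 := key (-al) s (Or.inr (Or.inr rfl))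
    have e3 : (2 * (al * (al + 1))) * SL (k + 1) (fun nu => E nu * p1 s nu) = 0 := by
      linear_combination al ^ 2 * e1 - e2 - (al ^ 2 - 1) * e0
    exact (mul_eq_zero.mp e3).resolve_left (mul_ne_zero two_ne_zero (mul_ne_zero h0 h1))
  let q : n.Partition → K[X] := fun nu => (nu.parts.map fun i => (X : K[X]) ^ i).sum
  have hq : ∀ (nu : n.Partition) (s : K), (q nu).eval s = p1 s nu := by
    intro nu s
    unfold p1
    change eval s ((nu.parts.map fun i => (X : K[X]) ^ i).sum) = _
    rw [← coe_evalRingHom, map_multiset_sum, Multiset.map_map]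
    congr 1
    refine Multiset.map_congr rfl fun i _ => ?_
    simp
  have hcq : ∀ (nu : n.Partition) (k : ℕ), (q nu).coeff k = (nu.parts.count k : K) := by
    intro nu k
    change coeff ((nu.parts.map fun i => (X : K[X]) ^ i).sum) k = _
    generalize nu.parts = M
    induction M using Multiset.induction_on with
    | empty => simp
    | cons a M ih =>
      rw [Multiset.map_cons, Multiset.sum_cons, coeff_add, ih, coeff_X_pow, Multiset.count_cons]
      push_cast
      ring
  have e1 : (∑ nu ∈ Finset.univ.filter (fun nu : n.Partition => nu.parts.card = k + 1),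
      C (E nu) * q nu) = 0 := by
    apply Polynomial.funext
    intro s
    rw [eval_finsetSum, eval_zero, ← hB s]
    refine Finset.sum_congr rfl fun nu _ => ?_
    rw [eval_mul, eval_C, hq]
  have e2 := congrArg (fun p => p.coeff x) e1
  simp only [finsetSum_coeff, coeff_C_mul, coeff_zero, hcq] at e2
  exact e2

/-- Ranks six and seven with a part of size at least the rank. -/
theorem sixSeven {al : K} (h0 : al ≠ 0) (h1 : al + 1 ≠ 0) {n : ℕ} (E : n.Partition → K)
    (h : ∀ u v s : K, v = 0 ∨ v = 1 ∨ v = -al →
      ∑ nu, E nu * (nu.parts.map fun i => u + v * s ^ i).prod = 0)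
    (nu : n.Partition) (hr : n ≤ nu.parts.card + 7) {x : ℕ} (hx : x ∈ nu.parts)
    (hxr : n ≤ x + nu.parts.card) : E nu = 0 := by
  have five := rankFive h0 h1 E h
  have hpos : 0 < nu.parts.card := Multiset.card_pos_iff_exists_mem.mpr ⟨x, hx⟩
  rcases Nat.lt_or_ge n (nu.parts.card + 6) with h5 | h6
  · exact five nu (by omega)
  rcases Nat.lt_or_ge n (nu.parts.card + 7) with h7 | h7
  · obtain ⟨_, hI, _⟩ := levelCount h0 h1 E h nu.parts.card
      (fun mu hmu => five mu (by omega))
    exact eq_zero_of_count (hI x) nu hx rfl hxr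
  · obtain ⟨k, hk⟩ := Nat.exists_eq_succ_of_ne_zero hpos.ne'
    have e := levelBelow h0 h1 E h k (fun mu hmu => five mu (by omega)) x
    exact eq_zero_of_count e nu hx hk (by omega)

end QMore

end

end Pool.Agent.MJT
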