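import Pool.Agent.MJT.RhoU

/-!
All sums of weight at most three.
-/

namespace Pool.Agent.MJT

open MvPolynomial Pool.Agent.MJR Pool.Agent.MJR.GradeM Pool.Agent.MJF

noncomputable section

/-- The number of the sub-multisets `r` of the multiset `s`. -/
def nsub (r s : Multiset ℕ) : ℕ := ∏ i ∈ r.toFinset, (s.count i).choose (r.count i)

theorem small_cases (r : Multiset ℕ) (h0 : 0 ∉ r) (h : r.sum ≤ 3) :
    r = 0 ∨ r = {1} ∨ r = {2} ∨ r = {1, 1} ∨ r = {1, 2} ∨ r = {1, 1, 1} ∨ r = {3} := by
  have key : ∀ (r : Multiset ℕ), 0 ∉ r → r ≠ 0 → ∃ a t, r = a ::ₘ t ∧ a ≠ 0 ∧ 0 ∉ t := by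
    intro r h0 hr
    obtain ⟨a, ha⟩ := Multiset.exists_mem_of_ne_zero hr
    obtain ⟨t, ht⟩ := Multiset.exists_cons_of_mem ha
    refine ⟨a, t, ht, fun h => h0 (h ▸ ha), fun h => h0 ?_⟩
    rw [ht]
    exact Multiset.mem_cons_of_mem h
  by_cases hr : r = 0
  · exact Or.inl hr
  obtain ⟨a, t, rfl, ha, ht0⟩ := key r h0 hr
  rw [Multiset.sum_cons] at h
  by_cases ht : t = 0
  · subst ht
    rw [Multiset.sum_zero] at h
    have h1 : a = 1 ∨ a = 2 ∨ a = 3 := by omega
    rcases h1 with rfl | rfl | rfl
    · right; left; rfl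
    · right; right; left; rfl
    · right; right; right; right; right; right; rfl
  obtain ⟨b, q, rfl, hb, hq0⟩ := key t ht0 ht
  rw [Multiset.sum_cons] at h
  by_cases hq : q = 0
  · subst hq
    rw [Multiset.sum_zero] at h
    have h1 : (a = 1 ∧ b = 1) ∨ (a = 1 ∧ b = 2) ∨ (a = 2 ∧ b = 1) := by omega
    rcases h1 with ⟨rfl, rfl⟩ | ⟨rfl, rfl⟩ | ⟨rfl, rfl⟩
    · right; right; right; left; rfl
    · right; right; right; right; left; rfl
    · right; right; right; right; left
      exact Multiset.cons_swap 2 1 0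
  obtain ⟨c, w, rfl, hc, hw0⟩ := key q hq0 hq
  rw [Multiset.sum_cons] at h
  by_cases hw : w = 0
  · subst hw
    rw [Multiset.sum_zero] at h
    have h1 : a = 1 ∧ b = 1 ∧ c = 1 := by omega
    obtain ⟨rfl, rfl, rfl⟩ := h1
    right; right; right; right; right; left; rfl
  obtain ⟨d, y, rfl, hd, hy0⟩ := key w hw0 hw
  rw [Multiset.sum_cons] at h
  omega

/-- The sums weighted with the number of the sub-multisets of weight at most three. -/
theorem rho_all (h1 : WordSt 1) (h2 : WordSt (-RatFunc.X)) {n : ℕ}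
    {J : n.Partition → n.Partition → QA} (hJ : IsJack RatFunc.X n J)
    (c : n.Partition → n.Partition → n.Partition → QA)
    (hc : ∀ l m v, ∑ p, J l p * c p m v = J l m * J l v) (p m : n.Partition) (l : ℕ)
    (r : Multiset ℕ) (hr0 : 0 ∉ r) (hr : r.sum ≤ 3) :
    ∑ v : n.Partition with v.parts.card = l + r.card, (nsub r v.parts : QA) * c p m v ∈
      Nb (RatFunc.X : QA) := by
  classical
  have hw := allSt h1 h2
  obtain ⟨s0, s1, s2, s11, s12, s111, s3⟩ := WMod.rho_sum hw hJ c hc p m l
  have hi : Infinite QA := CharZero.infinite QA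
  have hX1 : (RatFunc.X - 1 : QA) ∈ Zb (RatFunc.X : QA) := Nb_le_Zb (b_mem_Nb _)
  have hX : (-RatFunc.X : QA) ∈ Zb (RatFunc.X : QA) := Zb_neg (Nb_le_Zb (al_mem_Nb _))
  have hP : ∃ PM PN, PosSt (WordM.wm (RatFunc.X : QA)) PM PN (Zb (RatFunc.X : QA)) :=
    ⟨_, _, WordM.pos _ hX1⟩
  have i1 := WMod.rho_int hw.F hw.G hP (one_mem _) hw.g1 hJ c hc p m l
  have i2 := WMod.rho_int hw.F hw.G hP hX hw.g2 hJ c hc p m l
  have e3 : ∀ (k : ℕ) (f : n.Partition → QA),
      ∑ v : n.Partition with v.parts.card = k, (3 * f v) * c p m v =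
        3 * ∑ v : n.Partition with v.parts.card = k, f v * c p m v := by
    intro k f
    rw [Finset.mul_sum]
    exact Finset.sum_congr rfl fun v _ => mul_assoc _ _ _
  rw [e3] at s111 s3
  obtain ⟨x3, x111⟩ := rho_arith s12 s3 s111 i1 i2
  rcases small_cases r hr0 hr with rfl | rfl | rfl | rfl | rfl | rfl | rfl
  · have e : ∀ v : n.Partition, nsub 0 v.parts = 1 := fun v => rfl
    simp only [e, Nat.cast_one]
    exact s0
  · have e : ∀ v : n.Partition, nsub {1} v.parts = v.parts.count 1 := by
      intro v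
      unfold nsub
      rw [Multiset.toFinset_singleton, Finset.prod_singleton, Multiset.count_singleton_self,
        Nat.choose_one_right]
    simp only [e]
    exact s1
  · have e : ∀ v : n.Partition, nsub {2} v.parts = v.parts.count 2 := by
      intro v
      unfold nsub
      rw [Multiset.toFinset_singleton, Finset.prod_singleton, Multiset.count_singleton_self,
        Nat.choose_one_right]
    simp only [e]
    exact s2
  · have e : ∀ v : n.Partition, nsub {1, 1} v.parts = (v.parts.count 1).choose 2 := by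
      intro v
      unfold nsub
      have e1 : ({1, 1} : Multiset ℕ).toFinset = {1} := by decide
      have e2 : ({1, 1} : Multiset ℕ).count 1 = 2 := by decide
      rw [e1, Finset.prod_singleton, e2]
    simp only [e]
    exact s11
  · have e : ∀ v : n.Partition, nsub {1, 2} v.parts = v.parts.count 1 * v.parts.count 2 := by
      intro v
      unfold nsub
      have e1 : ({1, 2} : Multiset ℕ).toFinset = {1, 2} := by decide
      have e2 : ({1, 2} : Multiset ℕ).count 1 = 1 := by decide
      have e3 : ({1, 2} : Multiset ℕ).count 2 = 1 := by decide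
      rw [e1, Finset.prod_pair (by omega), e2, e3, Nat.choose_one_right, Nat.choose_one_right]
    simp only [e, Nat.cast_mul]
    exact s12
  · have e : ∀ v : n.Partition, nsub {1, 1, 1} v.parts = (v.parts.count 1).choose 3 := by
      intro v
      unfold nsub
      have e1 : ({1, 1, 1} : Multiset ℕ).toFinset = {1} := by decide
      have e2 : ({1, 1, 1} : Multiset ℕ).count 1 = 3 := by decide
      rw [e1, Finset.prod_singleton, e2]
    simp only [e]
    exact x111
  · have e : ∀ v : n.Partition, nsub {3} v.parts = v.parts.count 3 := by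
      intro v
      unfold nsub
      rw [Multiset.toFinset_singleton, Finset.prod_singleton, Multiset.count_singleton_self,
        Nat.choose_one_right]
    simp only [e]
    exact x3

end

end Pool.Agent.MJT
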