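import Pool.Agent.MJT.ExtB

/-!
The abstract form of the two coloured insertion process: definitions.
-/

namespace Pool.Agent.MJT

open MvPolynomial Pool.Agent.MJR Pool.Agent.MJR.GradeM

noncomputable section

/-- The data of a word model: `T0`, `T1` are the touches of the root with the letters of the
two colours, `x0`, `x1` put a letter in front, `cl` closes the root word, `i` is the empty root
word, `F`, `Fc` forget the colours, `e` is the empty state. -/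
structure WMod (K : Type) [Field K] (M N : Type) [AddCommGroup M] [Module K M]
    [AddCommGroup N] [Module K N] where
  T0 : M →ₗ[K] M
  T1 : M →ₗ[K] M
  x0 : M →ₗ[K] M
  x1 : M →ₗ[K] M
  cl : M →ₗ[K] N
  i : N →ₗ[K] M
  F : M →ₗ[K] LW K
  Fc : N →ₗ[K] Lam K
  e : N

variable {K : Type} [Field K] {M N : Type} [AddCommGroup M] [Module K M]
    [AddCommGroup N] [Module K N]

/-- Rules for the forgetful maps. -/
structure ForgetSt (al : K) (w : WMod K M N) : Prop where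
  x0 : ∀ x, w.F (w.x0 x) = Polynomial.X * w.F x
  x1 : ∀ x, w.F (w.x1 x) = Polynomial.X * w.F x
  t : ∀ x, w.F (w.T0 x) + w.F (w.T1 x) = Zf al (w.F x)
  cl : ∀ x, w.Fc (w.cl x) = Tr (w.F x)
  i : ∀ y, w.F (w.i y) = Polynomial.C (w.Fc y)

/-- A grading by the number of letters. -/
structure GradSt (w : WMod K M N) (SM : ℕ → Submodule K M) (SN : ℕ → Submodule K N) :
    Prop where
  t0 : ∀ n, ∀ x ∈ SM n, w.T0 x ∈ SM n
  t1 : ∀ n, ∀ x ∈ SM n, w.T1 x ∈ SM n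
  x0 : ∀ n, ∀ x ∈ SM n, w.x0 x ∈ SM (n + 1)
  x1 : ∀ n, ∀ x ∈ SM n, w.x1 x ∈ SM (n + 1)
  cl : ∀ n, ∀ x ∈ SM n, w.cl x ∈ SN n
  i : ∀ n, ∀ y ∈ SN n, w.i y ∈ SM n
  F : ∀ n, ∀ x ∈ SM n, w.F x ∈ T K n
  Fc : ∀ n, ∀ y ∈ SN n, w.Fc y ∈ S K n
  e : w.e ∈ SN 0

/-- The functionals `all cycles have length one, and the root word is empty / is the letter 0 /
is the letter 1`. -/
structure RowSt (w : WMod K M N) (SM : ℕ → Submodule K M) (SN : ℕ → Submodule K N)
    (r r0 r1 : M →ₗ[K] K) (rc : N →ₗ[K] K) : Prop where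
  rx0 : ∀ x, r (w.x0 x) = 0
  rx1 : ∀ x, r (w.x1 x) = 0
  r0x0 : ∀ x, r0 (w.x0 x) = r x
  r0x1 : ∀ x, r0 (w.x1 x) = 0
  r1x0 : ∀ x, r1 (w.x0 x) = 0
  r1x1 : ∀ x, r1 (w.x1 x) = r x
  t0 : ∀ x, r (w.T0 x) = r0 x
  t1 : ∀ x, r (w.T1 x) = r1 x
  cl : ∀ x, rc (w.cl x) = r0 x + r1 x
  ri : ∀ y, r (w.i y) = rc y
  r0i : ∀ y, r0 (w.i y) = 0
  r1i : ∀ y, r1 (w.i y) = 0
  e : rc w.e = 1
  F : ∀ n, ∀ x ∈ SM n, coeff (Finsupp.single 1 n) (i0 K (w.F x)) = r x
  Fc : ∀ n, ∀ y ∈ SN n, coeff (Finsupp.single 1 n) (w.Fc y) = rc y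

/-- Positivity: cones preserved by everything. -/
structure PosSt (w : WMod K M N) (PM : AddSubmonoid M) (PN : AddSubmonoid N)
    (PL : Subsemiring K) : Prop where
  t0 : ∀ x ∈ PM, w.T0 x ∈ PM
  t1 : ∀ x ∈ PM, w.T1 x ∈ PM
  x0 : ∀ x ∈ PM, w.x0 x ∈ PM
  x1 : ∀ x ∈ PM, w.x1 x ∈ PM
  cl : ∀ x ∈ PM, w.cl x ∈ PN
  i : ∀ y ∈ PN, w.i y ∈ PM
  sM : ∀ c ∈ PL, ∀ x ∈ PM, c • x ∈ PM
  F : ∀ x ∈ PM, ∀ j m, coeff m ((w.F x).coeff j) ∈ PL
  Fc : ∀ y ∈ PN, ∀ m, coeff m (w.Fc y) ∈ PL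
  e : w.e ∈ PN

namespace WMod

variable (w : WMod K M N)

/-- insertion of a letter 0 -/
def A0 (u : K) : Module.End K M := w.x0 ∘ₗ (u • LinearMap.id + w.T0)

theorem A0_apply (u : K) (x : M) : w.A0 u x = w.x0 (u • x + w.T0 x) := rfl

/-- The graded insertion: the grading is the number of inserted letters 1. -/
def Ag (u v : K) : Module.End K (ℕ → M) where
  toFun z := fun k => w.A0 u (z k) + (match k with
    | 0 => 0
    | 1 => v • w.x1 (z 0)
    | (j + 2) => w.x1 (v • z (j + 1) + w.T1 (z (j + 1))))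
  map_add' := by
    intro a b
    funext k
    rcases k with _ | _ | j
    · simp only [Pi.add_apply, map_add, add_zero]
    · simp only [Pi.add_apply, map_add, smul_add]
      abel
    · simp only [Pi.add_apply, map_add, smul_add]
      abel
  map_smul' := by
    intro c a
    funext k
    rcases k with _ | _ | j
    · simp only [Pi.smul_apply, map_smul, add_zero, RingHom.id_apply]
    · simp only [Pi.smul_apply, map_smul, smul_add, RingHom.id_apply]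
      rw [smul_comm v c]
    · simp only [Pi.smul_apply, map_smul, smul_add, RingHom.id_apply, map_add]
      rw [smul_comm v c]

theorem Ag_zero (u v : K) (z : ℕ → M) : w.Ag u v z 0 = w.A0 u (z 0) := add_zero _

theorem Ag_one (u v : K) (z : ℕ → M) : w.Ag u v z 1 = w.A0 u (z 1) + v • w.x1 (z 0) := rfl

theorem Ag_succ (u v : K) (z : ℕ → M) (j : ℕ) : w.Ag u v z (j + 2) =
    w.A0 u (z (j + 2)) + w.x1 (v • z (j + 1) + w.T1 (z (j + 1))) := rfl

/-- closing, graded -/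
def clg : (ℕ → M) →ₗ[K] (ℕ → N) := w.cl.compLeft ℕ

/-- empty root, graded -/
def ig : (ℕ → N) →ₗ[K] (ℕ → M) := w.i.compLeft ℕ

theorem clg_apply (z : ℕ → M) (k : ℕ) : w.clg z k = w.cl (z k) := rfl

theorem ig_apply (z : ℕ → N) (k : ℕ) : w.ig z k = w.i (z k) := rfl

/-- The process is well defined for the parameters `u`, `v`, and its image commutes with the
Lax operator, degree by degree. -/
structure Good (al u v : K) (Kc : Lam K →ₗ[K] (ℕ → N)) : Prop where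
  one : Kc 1 = Pi.single 0 w.e
  mul : ∀ k f, k ≠ 0 → Kc (X k * f) = w.clg ((w.Ag u v ^ k) (w.ig (Kc f)))
  zero : ∀ f, Kc (X 0 * f) = 0
  comm : ∀ (G : LW K) (k : ℕ), w.F (AbsM.Kh (w.Ag u v) w.ig Kc (Zf al G) k) =
    Zf al (w.F (AbsM.Kh (w.Ag u v) w.ig Kc G k))

end WMod

end

end Pool.Agent.MJT
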