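import Pool.Agent.MJT.RhoHat
import Pool.Agent.MJF.Iota4

/-!
The final statement about the sums of weight at most three, given the touches of the marks.
-/

namespace Pool.Agent.MJT

open MvPolynomial Pool.Agent.MJR Pool.Agent.MJF Pool.Agent.MJX

noncomputable section

/-- The touches of the marks. -/
def TouchSt : Prop := ∀ (kap tau u2 : QA), tau = u2 + (RatFunc.X - 1) → tau * u2 = RatFunc.X →
  u2 * kap = 1 → tau = RatFunc.X * kap → tau ^ 2 = (RatFunc.X - 1) * tau + RatFunc.X →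
  ∀ x : AM QA kap, iR tau (T1 RatFunc.X kap x) = MJF.T RatFunc.X true (iR tau x)

theorem wordSt_one (hT : TouchSt) : WordSt 1 := by
  intro u s
  have h1 : (RatFunc.X : QA) = 1 + (RatFunc.X - 1) := by ring
  have h2 : (RatFunc.X : QA) * 1 = RatFunc.X := by ring
  have h3 : (1 : QA) * 1 = 1 := by ring
  have h5 : (RatFunc.X : QA) ^ 2 = (RatFunc.X - 1) * RatFunc.X + RatFunc.X := by ring
  have hk : (RatFunc.X : QA) * 1 ^ 2 = (RatFunc.X - 1) * 1 + 1 := by ring
  exact WordM.goodS RatFunc.X_ne_zero hk h1 h2 h3 h2.symm h5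
    (hT 1 RatFunc.X 1 h1 h2 h3 h2.symm h5) u s

theorem wordSt_neg (hT : TouchSt) : WordSt (-RatFunc.X) := by
  intro u s
  have hX : (RatFunc.X : QA) ≠ 0 := RatFunc.X_ne_zero
  have h1 : (-1 : QA) = -RatFunc.X + (RatFunc.X - 1) := by ring
  have h2 : (-1 : QA) * -RatFunc.X = RatFunc.X := by ring
  have h3 : (-RatFunc.X : QA) * (-(RatFunc.X)⁻¹) = 1 := by
    rw [neg_mul_neg, mul_inv_cancel₀ hX]
  have h4 : (-1 : QA) = RatFunc.X * (-(RatFunc.X)⁻¹) := by
    rw [mul_neg, mul_inv_cancel₀ hX]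
  have h5 : (-1 : QA) ^ 2 = (RatFunc.X - 1) * -1 + RatFunc.X := by ring
  have hk : (RatFunc.X : QA) * (-(RatFunc.X)⁻¹) ^ 2 =
      (RatFunc.X - 1) * (-(RatFunc.X)⁻¹) + 1 := by
    field_simp
    ring
  exact WordM.goodS RatFunc.X_ne_zero hk h1 h2 h3 h4 h5
    (hT (-(RatFunc.X)⁻¹) (-1) (-RatFunc.X) h1 h2 h3 h4 h5) u s

/-- All sums of weight at most three. -/
theorem rho_end (hT : TouchSt) {n : ℕ}
    {J : n.Partition → n.Partition → QA} (hJ : IsJack RatFunc.X n J)
    (c : n.Partition → n.Partition → n.Partition → QA)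
    (hc : ∀ l m v, ∑ p, J l p * c p m v = J l m * J l v) (p m : n.Partition) (l : ℕ)
    (r : Multiset ℕ) (hr0 : 0 ∉ r) (hr : r.sum ≤ 3) :
    ∑ v : n.Partition with v.parts.card = l + r.card, (nsub r v.parts : QA) * c p m v ∈
      Nb (RatFunc.X : QA) :=
  rho_all (wordSt_one hT) (wordSt_neg hT) hJ c hc p m l r hr0 hr

/-- The touches of the marks. -/
theorem touch : TouchSt := by
  intro kap tau u2 h1 h2 h3 h4 h5 x
  have hk : (RatFunc.X : QA) * kap ^ 2 = (RatFunc.X - 1) * kap + 1 := by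
    have h6 : RatFunc.X * kap * kap = tau * kap := by rw [h4]
    have h7 : tau * kap = (u2 + (RatFunc.X - 1)) * kap := by rw [← h1]
    rw [pow_two, ← mul_assoc, h6, h7, add_mul, h3, add_comm]
  exact Iota4.iR_T1 h1 h2 h3 (tSt RatFunc.X hk) x

end

end Pool.Agent.MJT
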