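import Pool.Agent.MJT.RhoRow
import Pool.Agent.MJT.Jack
import Pool.Agent.MJT.Dhat

/-!
The positive sums of the coefficients, from the refined process.
-/

namespace Pool.Agent.MJT

open MvPolynomial Pool.Agent.MJR Pool.Agent.MJR.GradeM

noncomputable section

theorem expo_ones (n : ℕ) : expo (ones n) = Finsupp.single 1 n := by
  ext i
  unfold expo ones
  rw [Multiset.toFinsupp_apply, Multiset.count_replicate, Finsupp.single_apply]

theorem zero_notMem {n : ℕ} (p : n.Partition) : 0 ∉ p.parts := fun h =>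
  absurd (p.parts_pos h) (lt_irrefl 0)

/-- Comparison of the coefficients of the powers of `u`. -/
theorem sum_mem_of_PolP {n : ℕ} {J : n.Partition → n.Partition → QA} (hJ : IsJack RatFunc.X n J)
    (c : n.Partition → n.Partition → n.Partition → QA)
    (hc : ∀ l m v, ∑ p, J l p * c p m v = J l m * J l v)
    (PL : Subsemiring QA) (O : QA → Lam QA →ₗ[QA] Lam QA)
    (hT : ∀ (u : QA) (r : ℕ), ∀ h ∈ S QA n, O u (H RatFunc.X r h) = H RatFunc.X r (O u h))
    (hS : ∀ u, ∀ h ∈ S QA n, O u h ∈ S QA n)
    (hP : ∀ p : n.Partition, PolP (CL PL) fun u => O u (mon QA p.parts))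
    (N : n.Partition → QA) (q : ℕ)
    (hN : ∀ v, v.parts.card < q → N v = 0)
    (hrow : ∀ (u : QA) (v : n.Partition), coeff (Finsupp.single 1 n) (O u (mon QA v.parts)) =
      N v * u ^ (v.parts.card - q))
    (p m : n.Partition) (l : ℕ) :
    ∑ v : n.Partition with v.parts.card = l + q, N v * c p m v ∈ PL := by
  classical
  obtain ⟨d, t, ht, htu⟩ := hP p
  have hmem : ∀ p : n.Partition, mon QA p.parts ∈ S QA n := fun p =>
    mem_S (zero_notMem p) p.parts_sum
  have h1 : ∀ u : QA, ∑ l ∈ Finset.range d, u ^ l * coeff (expo m) (t l) =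
      ∑ v, N v * u ^ (v.parts.card - q) * c p m v := by
    intro u
    have h2 := jackOp hJ c hc (O u) (fun r p => hT u r _ (hmem p)) (fun p => hS u _ (hmem p)) p m
    have h3 := htu u
    beta_reduce at h3
    have h4 : coeff (expo m) (O u (pp QA p)) = ∑ l ∈ Finset.range d,
        u ^ l * coeff (expo m) (t l) := by
      have e1 : pp QA p = mon QA p.parts := rfl
      rw [e1, h3, coeff_sum]
      refine Finset.sum_congr rfl fun l _ => ?_
      rw [coeff_smul, smul_eq_mul]
    rw [← h4, h2, expo_ones]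
    refine Finset.sum_congr rfl fun v _ => ?_
    have e1 : pp QA v = mon QA v.parts := rfl
    rw [e1, hrow]
  let P1 : Polynomial QA := ∑ l ∈ Finset.range d, Polynomial.monomial l (coeff (expo m) (t l))
  let P2 : Polynomial QA := ∑ v : n.Partition,
    Polynomial.monomial (v.parts.card - q) (N v * c p m v)
  have h5 : P1 = P2 := by
    have : Infinite QA := CharZero.infinite QA
    apply Polynomial.funext
    intro u
    have e1 : P1.eval u = ∑ l ∈ Finset.range d, u ^ l * coeff (expo m) (t l) := by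
      rw [Polynomial.eval_finsetSum]
      refine Finset.sum_congr rfl fun l _ => ?_
      rw [Polynomial.eval_monomial, mul_comm]
    have e2 : P2.eval u = ∑ v, N v * u ^ (v.parts.card - q) * c p m v := by
      rw [Polynomial.eval_finsetSum]
      refine Finset.sum_congr rfl fun v _ => ?_
      rw [Polynomial.eval_monomial]
      ring
    rw [e1, e2, h1]
  have h6 := congrArg (fun P => Polynomial.coeff P l) h5
  beta_reduce at h6
  have e1 : P1.coeff l ∈ PL := by
    rw [Polynomial.finsetSum_coeff]
    refine sum_mem fun k _ => ?_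
    rw [Polynomial.coeff_monomial]
    split_ifs
    · exact ht k _
    · exact zero_mem _
  have e2 : P2.coeff l = ∑ v : n.Partition with v.parts.card = l + q, N v * c p m v := by
    rw [Polynomial.finsetSum_coeff, Finset.sum_filter]
    refine Finset.sum_congr rfl fun v _ => ?_
    rw [Polynomial.coeff_monomial]
    by_cases hv : v.parts.card < q
    · rw [hN v hv, zero_mul]
      split_ifs <;> rfl
    · by_cases hl : v.parts.card = l + q
      · rw [if_pos hl, if_pos (by omega)]
      · rw [if_neg hl, if_neg (by omega)]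
  rw [← e2, ← h6]
  exact e1

/-- The numbers of the sub-multisets `(1,1,1)`. -/
theorem choose_three (k : ℕ) : k * (k - 1).choose 2 = 3 * k.choose 3 := by
  rcases k with _ | k
  · rfl
  · have h := Nat.add_one_mul_choose_eq k 2
    rw [Nat.add_sub_cancel]
    rw [h]
    ring

namespace WMod

variable {M N : Type} [AddCommGroup M] [Module QA M] [AddCommGroup N] [Module QA N]

/-- The hypotheses on the word model. -/
structure AllSt (w : WMod QA M N) (PL : Subsemiring QA) : Prop where
  F : ForgetSt RatFunc.X w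
  G : ∃ SM SN, GradSt w SM SN ∧ ∃ r r0 r1 rc, RowSt w SM SN r r0 r1 rc
  P : ∃ PM PN, PosSt w PM PN PL
  g1 : ∀ u, ∃ Kc, w.Good RatFunc.X u 1 Kc
  g2 : ∀ u, ∃ Kc, w.Good RatFunc.X u (-RatFunc.X) Kc

variable {w : WMod QA M N} {PL : Subsemiring QA}

theorem hXX : (RatFunc.X : QA) ^ 2 + RatFunc.X ≠ 0 := by
  intro h
  have h1 : (RatFunc.X : QA) * (RatFunc.X + 1) = 0 := by
    rw [← h]
    ring
  rcases mul_eq_zero.mp h1 with h2 | h2
  · exact RatFunc.X_ne_zero h2
  · have h3 : algebraMap (Polynomial ℚ) QA (Polynomial.X + Polynomial.C 1) =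
        algebraMap (Polynomial ℚ) QA 0 := by
      rw [map_add, RatFunc.algebraMap_X, map_one, map_one, map_zero]
      exact h2
    exact Polynomial.X_add_C_ne_zero (1 : ℚ) (RatFunc.algebraMap_injective ℚ h3)

/-- The sums over the partitions with given length, weighted with the number of the
sub-multisets `r` of the parts. -/
theorem rho_sum (hw : w.AllSt PL) {n : ℕ} {J : n.Partition → n.Partition → QA}
    (hJ : IsJack RatFunc.X n J)
    (c : n.Partition → n.Partition → n.Partition → QA)
    (hc : ∀ l m v, ∑ p, J l p * c p m v = J l m * J l v) (p m : n.Partition) (l : ℕ) :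
    (∑ v : n.Partition with v.parts.card = l + 0, (1 : QA) * c p m v ∈ PL) ∧
    (∑ v : n.Partition with v.parts.card = l + 1, (v.parts.count 1 : QA) * c p m v ∈ PL) ∧
    (∑ v : n.Partition with v.parts.card = l + 1, (v.parts.count 2 : QA) * c p m v ∈ PL) ∧
    (∑ v : n.Partition with v.parts.card = l + 2,
      ((v.parts.count 1).choose 2 : QA) * c p m v ∈ PL) ∧
    (∑ v : n.Partition with v.parts.card = l + 2,
      ((v.parts.count 1 : QA) * (v.parts.count 2 : QA)) * c p m v ∈ PL) ∧
    (∑ v : n.Partition with v.parts.card = l + 3,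
      (3 * ((v.parts.count 1).choose 3 : QA)) * c p m v ∈ PL) ∧
    (∑ v : n.Partition with v.parts.card = l + 1,
      (3 * (v.parts.count 3 : QA)) * c p m v ∈ PL) := by
  obtain ⟨SM, SN, hG, r, r0, r1, rc, hR⟩ := hw.G
  obtain ⟨PM, PN, hP⟩ := hw.P
  choose K1 hK1 using hw.g1
  choose K2 hK2 using hw.g2
  have h := fun u => w.exists_K4St RatFunc.X u hXX (hK1 u) (hK2 u)
  choose Kc hKc _ _ using h
  have hal : (RatFunc.X : QA) ≠ 0 := RatFunc.X_ne_zero
  have hD := dhat QA RatFunc.X hal
  have hcard : ∀ (v : n.Partition) (k : ℕ), v.parts.count k ≤ v.parts.card := fun v k =>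
    Multiset.count_le_card k v.parts
  have hS0 : ∀ (j : Fin 4) (u : QA), ∀ h ∈ S QA n, w.Tj RatFunc.X u (Kc u) j h ∈ S QA n := by
    intro j u h hh
    rcases n with _ | n
    · change Bx QA (w.Pj u (Kc u) j (Bs RatFunc.X h)) ∈ _
      rw [Bs_S_zero RatFunc.X hh, map_zero, map_zero]
      exact Submodule.zero_mem _
    · exact Bx_S (w.Pj_T hG (hKc u) j (Bs_T RatFunc.X hh))
  have hS1 : ∀ (u : QA), ∀ h ∈ S QA n, w.TXi RatFunc.X u (Kc u) h ∈ S QA n := by
    intro u h hh
    rcases n with _ | n
    · change Bx QA (w.Xi u (Kc u) (Bs RatFunc.X h)) ∈ _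
      rw [Bs_S_zero RatFunc.X hh, map_zero, map_zero]
      exact Submodule.zero_mem _
    · exact Bx_S (w.Xi_T hG (hKc u) (Bs_T RatFunc.X hh))
  have main := sum_mem_of_PolP hJ c hc PL
  have hQ : ∀ (j : Fin 4) (u : QA) (v : n.Partition),
      coeff (Finsupp.single 1 n) (w.Qj (Kc u) j (mon QA v.parts)) = Rw u j v.parts := by
    intro j u v
    have h1 := w.row_Qj hR hG (hKc u) j v.parts (zero_notMem v)
    rw [v.parts_sum] at h1
    exact h1
  have hTj : ∀ (j : Fin 4) (u : QA) (v : n.Partition),
      coeff (Finsupp.single 1 n) ((RatFunc.X : QA)⁻¹ • w.Tj RatFunc.X u (Kc u) j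
        (mon QA v.parts)) = (v.parts.count 1 : QA) * Rw u j (v.parts.erase 1) := by
    intro j u v
    have h1 := w.row_Tj hR hG (hKc u) j v.parts (zero_notMem v)
    rw [v.parts_sum] at h1
    rw [coeff_smul, h1, smul_eq_mul, ← mul_assoc, inv_mul_cancel₀ hal, one_mul]
  have hXi : ∀ (u : QA) (v : n.Partition),
      coeff (Finsupp.single 1 n) ((RatFunc.X : QA)⁻¹ • w.TXi RatFunc.X u (Kc u)
        (mon QA v.parts)) = (v.parts.count 3 : QA) * (3 * u ^ (v.parts.erase 3).card) := by
    intro u v
    have h1 := w.row_TXi hR hG (hKc u) v.parts (zero_notMem v)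
    rw [v.parts_sum] at h1
    rw [coeff_smul, h1, smul_eq_mul, ← mul_assoc, inv_mul_cancel₀ hal, one_mul]
  have hQm := fun (j : Fin 4) (N : n.Partition → QA) (q : ℕ)
      (hN : ∀ v, v.parts.card < q → N v = 0)
      (hrow : ∀ (u : QA) (v : n.Partition), Rw u j v.parts = N v * u ^ (v.parts.card - q)) =>
    main (fun u => w.Qj (Kc u) j) (fun u r h hh => w.Qj_H hw.F (hKc u) j r h hh)
      (fun u h hh => w.Qj_S hG (hKc u) j hh)
      (fun p => w.Qj_pol hP hKc j p.parts (zero_notMem p)) N q hN
      (fun u v => by rw [hQ, hrow]) p m l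
  have hTm := fun (j : Fin 4) (N : n.Partition → QA) (q : ℕ)
      (hN : ∀ v, v.parts.card < q → N v = 0)
      (hrow : ∀ (u : QA) (v : n.Partition), (v.parts.count 1 : QA) * Rw u j (v.parts.erase 1) =
        N v * u ^ (v.parts.card - q)) =>
    main (fun u => (RatFunc.X : QA)⁻¹ • w.Tj RatFunc.X u (Kc u) j)
      (fun u r h hh => by
        rw [LinearMap.smul_apply, LinearMap.smul_apply, w.Tj_H hal hD hw.F (hKc u) j r h hh,
          map_smul])
      (fun u h hh => by
        rw [LinearMap.smul_apply]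
        exact Submodule.smul_mem _ _ (hS0 j u h hh))
      (fun p => w.Tj_pol hP hal hKc j p.parts (zero_notMem p)) N q hN
      (fun u v => by rw [LinearMap.smul_apply, hTj, hrow]) p m l
  have hXm := fun (N : n.Partition → QA) (q : ℕ)
      (hN : ∀ v, v.parts.card < q → N v = 0)
      (hrow : ∀ (u : QA) (v : n.Partition), (v.parts.count 3 : QA) *
        (3 * u ^ (v.parts.erase 3).card) = N v * u ^ (v.parts.card - q)) =>
    main (fun u => (RatFunc.X : QA)⁻¹ • w.TXi RatFunc.X u (Kc u))
      (fun u r h hh => by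
        rw [LinearMap.smul_apply, LinearMap.smul_apply, w.TXi_H hal hD hw.F (hKc u) hG r h hh,
          map_smul])
      (fun u h hh => by
        rw [LinearMap.smul_apply]
        exact Submodule.smul_mem _ _ (hS1 u h hh))
      (fun p => w.TXi_pol hP hal hKc p.parts (zero_notMem p)) N q hN
      (fun u v => by rw [LinearMap.smul_apply, hXi, hrow]) p m l
  refine ⟨hQm 0 (fun _ => 1) 0 (fun v hv => absurd hv (Nat.not_lt_zero _)) ?_,
    hQm 1 (fun v => (v.parts.count 1 : QA)) 1 ?_ ?_,
    hQm 2 (fun v => (v.parts.count 2 : QA)) 1 ?_ ?_,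
    hQm 3 (fun v => ((v.parts.count 1).choose 2 : QA)) 2 ?_ ?_,
    hTm 2 (fun v => (v.parts.count 1 : QA) * (v.parts.count 2 : QA)) 2 ?_ ?_,
    hTm 3 (fun v => 3 * ((v.parts.count 1).choose 3 : QA)) 3 ?_ ?_,
    hXm (fun v => 3 * (v.parts.count 3 : QA)) 1 ?_ ?_⟩
  · intro u v
    change u ^ _ = 1 * u ^ _
    rw [one_mul, Nat.sub_zero]
  · intro v hv
    have := hcard v 1
    have h1 : v.parts.count 1 = 0 := by omega
    rw [h1, Nat.cast_zero]
  · intro u v
    rfl
  · intro v hv
    have := hcard v 2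
    have h1 : v.parts.count 2 = 0 := by omega
    rw [h1, Nat.cast_zero]
  · intro u v
    rfl
  · intro v hv
    have := hcard v 1
    rw [Nat.choose_eq_zero_of_lt (by omega), Nat.cast_zero]
  · intro u v
    rfl
  · intro v hv
    have h1 := hcard v 1
    have h2 := hcard v 2
    have h3 : v.parts.count 1 = 0 ∨ v.parts.count 2 = 0 := by
      by_contra h3
      rw [not_or] at h3
      obtain ⟨t, ht⟩ := Multiset.exists_cons_of_mem
        (Multiset.count_pos.mp (Nat.pos_of_ne_zero h3.1))
      have h4 : 2 ∈ v.parts := Multiset.count_pos.mp (Nat.pos_of_ne_zero h3.2)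
      rw [ht, Multiset.mem_cons] at h4
      have h5 : 2 ∈ t := h4.resolve_left (by omega)
      have h6 : 0 < t.card := Multiset.card_pos_iff_exists_mem.mpr ⟨2, h5⟩
      rw [ht, Multiset.card_cons] at hv
      omega
    rcases h3 with h3 | h3
    · rw [h3, Nat.cast_zero, zero_mul]
    · rw [h3, Nat.cast_zero, mul_zero]
  · intro u v
    change (v.parts.count 1 : QA) * (((v.parts.erase 1).count 2 : ℕ) * u ^ ((v.parts.erase 1).card
      - 1)) = _
    rw [Multiset.count_erase_of_ne (by omega)]
    rcases Nat.eq_zero_or_pos (v.parts.count 1) with h1 | h1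
    · rw [h1, Nat.cast_zero, zero_mul, zero_mul, zero_mul]
    · rw [Multiset.card_erase_of_mem (Multiset.count_pos.mp h1)]
      have e1 : v.parts.card.pred - 1 = v.parts.card - 2 := by
        rw [Nat.pred_eq_sub_one]
        omega
      rw [e1, mul_assoc]
  · intro v hv
    have := hcard v 1
    rw [Nat.choose_eq_zero_of_lt (by omega), Nat.cast_zero, mul_zero]
  · intro u v
    change (v.parts.count 1 : QA) * ((((v.parts.erase 1).count 1).choose 2 : ℕ) *
      u ^ ((v.parts.erase 1).card - 2)) = _
    rw [Multiset.count_erase_self]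
    rcases Nat.eq_zero_or_pos (v.parts.count 1) with h1 | h1
    · rw [h1, Nat.cast_zero, zero_mul, Nat.choose_zero_succ, Nat.cast_zero, mul_zero, zero_mul]
    · rw [Multiset.card_erase_of_mem (Multiset.count_pos.mp h1)]
      have e1 : v.parts.card.pred - 2 = v.parts.card - 3 := by
        rw [Nat.pred_eq_sub_one]
        omega
      have e2 := congrArg (fun k : ℕ => (k : QA)) (choose_three (v.parts.count 1))
      beta_reduce at e2
      rw [Nat.cast_mul, Nat.cast_mul, Nat.cast_ofNat] at e2
      rw [e1, ← mul_assoc, e2]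
  · intro v hv
    have := hcard v 3
    have h1 : v.parts.count 3 = 0 := by omega
    rw [h1, Nat.cast_zero, mul_zero]
  · intro u v
    rcases Nat.eq_zero_or_pos (v.parts.count 3) with h1 | h1
    · rw [h1, Nat.cast_zero, zero_mul, mul_zero, zero_mul]
    · rw [Multiset.card_erase_of_mem (Multiset.count_pos.mp h1), Nat.pred_eq_sub_one]
      ring

end WMod

end

end Pool.Agent.MJT
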