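import Pool.Agent.MJT.RhoAll
import Pool.Agent.MJF.Iota3
import Pool.Agent.MJF.AI
import Pool.Agent.MJX.XMod

/-!
The arc model and the words: forgetting the marks of a state with a root.
-/

namespace Pool.Agent.MJT

open MvPolynomial Pool.Agent.MJR Pool.Agent.MJR.GradeM Pool.Agent.MJF Pool.Agent.MJX

noncomputable section

variable {K : Type} [Field K] {kap : K}

namespace WordM

theorem BR_rvw (tau : K) (i : ℕ ⊕ ℕ) (x : RW K) : rvw K (BR tau i x) = BR tau i (rvw K x) := by
  rcases i with k | a
  · exact map_smul (rvw K) (cy K (zs k)) x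
  · rw [BR_inr, BR_inr, IR_apply, IR_apply, map_add, map_smul, ← rvw_dR]
    congr 1
    exact LinearMap.map_smul_of_tower (rvw K) tau _

theorem iR_rv (tau : K) (x : AM K kap) : iR tau (rv x) = rvw K (iR tau x) := by
  refine sg_induction (P := fun x => iR tau (rv x) = rvw K (iR tau x)) x ?_ ?_ ?_
  · rw [map_zero, map_zero, map_zero]
  · intro x y hx hy
    rw [map_add, map_add, map_add, map_add, hx, hy]
  · intro i f
    have h : ∀ y : RW K, rvw K (evR tau f y) = evR tau f (rvw K y) := by
      intro y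
      exact ev_comm (evR tau) (evR tau) ((rvw K).restrictScalars K)
        (fun i x => by rw [evR_X]; exact BR_rvw tau i x) f y
    rcases i with j | ⟨j, a⟩
    · rw [rv_inl, iR_sg, h]
      change _ = evR tau f (rvw K (rw1 K (zs j)))
      rw [rvw_rw1, zs_rev]
      rfl
    · rw [rv_inr, iR_sg, iR_sg, h]
      change _ = evR tau f (rvw K (rw1 K (zs j ++ true :: zs a)))
      rw [rvw_rw1, List.reverse_append, List.reverse_cons, zs_rev, zs_rev]
      congr 1
      change rw1 K (zs a ++ true :: zs j) = _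
      congr 1
      simp

theorem fgR_rvw (x : RW K) : fgR K (rvw K x) = fgR K x := by
  induction x using Finsupp.induction_linear with
  | zero => simp
  | add p q hp hq => rw [map_add, map_add, hp, hq, map_add]
  | single L f =>
    rw [single_eq, map_smul, rvw_rw1, fgR_smul, fgR_smul, fgR_rw1, fgR_rw1, List.length_reverse]

/-- All root words of the image of a state with nonempty root word are nonempty. -/
theorem cl0_iR {al tau u2 : K} (h1 : tau = u2 + (al - 1)) (h2 : tau * u2 = al)
    (h3 : u2 * kap = 1) (x : AM K kap) : cl0 K (iR tau x) = ic tau (cA x) := by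
  have hu : u2 ≠ 0 := by
    rintro rfl
    rw [zero_mul] at h3
    exact zero_ne_one h3
  have hw : ∀ y : AM K kap, cl0 K (iR tau (wA * y)) = ic tau (cA (wA * y)) := by
    intro y
    rw [← clw_iR_w]
    have h := iR_pow_mul (kap := kap) tau 1 y
    rw [pow_one] at h
    rw [h]
    exact cl0_pre false [] _
  have hm : ∀ y : AM K kap, cl0 K (iR tau (mA * y)) = ic tau (cA (mA * y)) := by
    intro y
    rw [← clw_iR_m]
    have h := iR_m (aI K) (aP K) h1 h2 h3 y
    have h4 : iR tau (mA * y) = u2⁻¹ • A2 al u2 (iR tau y) := by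
      rw [← h, smul_smul, inv_mul_cancel₀ hu, one_smul]
    rw [h4]
    have e1 : cl0 K (u2⁻¹ • A2 al u2 (iR tau y)) = u2⁻¹ • cl0 K (A2 al u2 (iR tau y)) :=
      LinearMap.map_smul_of_tower (cl0 K) _ _
    have e2 : clw K (u2⁻¹ • A2 al u2 (iR tau y)) = u2⁻¹ • clw K (A2 al u2 (iR tau y)) :=
      LinearMap.map_smul_of_tower (clw K) _ _
    rw [e1, e2, A2_apply, cl0_pre]
  refine sg_induction (P := fun x => cl0 K (iR tau x) = ic tau (cA x)) x ?_ ?_ ?_
  · simp
  · intro x y hx hy
    rw [map_add, map_add, map_add, map_add, hx, hy]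
  · intro i f
    rcases i with j | ⟨j, a⟩
    · rcases j with _ | j
      · rw [cA_inl, if_pos rfl, mul_zero, map_zero, sg_eq, ← MJX.one_def]
        have e1 : (f • (1 : AM K kap)) = iA kap f := rfl
        rw [e1, iR_iA, iw_apply, cl0_single, if_pos rfl, mul_zero]
      · have e1 : (sg (Sum.inl (j + 1)) f : AM K kap) = wA * sg (Sum.inl j) f := by
          have h := pow_mul_sg (kap := kap) 1 (Sum.inl j) f
          rw [pow_one] at h
          rw [h, add_comm]
        rw [e1, hw]
    · rcases j with _ | j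
      · have e1 : (sg (Sum.inr (0, a)) f : AM K kap) = mA * sg (Sum.inl a) f :=
          (m_mul_sg (Sum.inl a) f).symm
        rw [e1, hm]
      · have e1 : (sg (Sum.inr (j + 1, a)) f : AM K kap) = wA * sg (Sum.inr (j, a)) f := by
          have h := pow_mul_sg (kap := kap) 1 (Sum.inr (j, a)) f
          rw [pow_one] at h
          rw [h, add_comm]
        rw [e1, hw]

/-- Forgetting the marks through the words. -/
theorem hat [CharZero K] {al tau u2 : K} (hk : al * kap ^ 2 = (al - 1) * kap + 1)
    (h1 : tau = u2 + (al - 1)) (h2 : tau * u2 = al) (h3 : u2 * kap = 1) (ht : tau = al * kap)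
    (hq : tau ^ 2 = (al - 1) * tau + al)
    (hT1 : ∀ x : AM K kap, iR tau (T1 al kap x) = MJF.T al true (iR tau x)) :
    HatSt K al kap ((fgt K).toLinearMap ∘ₗ ic tau) (fgR K ∘ₗ iR tau) where
  r := by
    intro x
    change fgR K (iR tau (Rop al kap x)) = Zf al (fgR K (iR tau x))
    have hf := (forget al).t (iR tau x)
    change fgR K (MJF.T al false (iR tau x)) + fgR K (MJF.T al true (iR tau x)) =
      Zf al (fgR K (iR tau x)) at hf
    have e1 : iR tau (Rop al kap x) = MJF.T al false (iR tau x) + MJF.T al true (iR tau x) +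
        (al - 1) • (rvw K (iR tau x) - iR tau x) := by
      rw [(tSt al hk).sum, map_add (iR tau) (T0 al kap x + T1 al kap x),
        map_add (iR tau) (T0 al kap x), iR_T0 al tau ht hq, hT1, iR_ksmul, map_sub, iR_rv]
    rw [e1, map_add (fgR K) (MJF.T al false (iR tau x) + MJF.T al true (iR tau x)),
      map_add (fgR K) (MJF.T al false (iR tau x)), hf, map_smul, map_sub, fgR_rvw, sub_self,
      smul_zero, add_zero]
  i := by
    intro f
    change fgR K (iR tau (iA kap f)) = Polynomial.C (fgt K (ic tau f))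
    rw [iR_iA]
    exact (forget al).i (ic tau f)
  c := by
    intro x
    change fgt K (ic tau (cA x)) = Tr (fgR K (iR tau x))
    rw [← cl0_iR h1 h2 h3]
    exact (forget al).cl (iR tau x)

/-- The insertions. -/
theorem As_eq (al u v s : K) (x : RW K) : (wm al).As u v s x = Aw al u v s x := rfl

/-- The process on the words. -/
theorem goodS [CharZero K] {al tau u2 : K} (hal : al ≠ 0)
    (hk : al * kap ^ 2 = (al - 1) * kap + 1)
    (h1 : tau = u2 + (al - 1)) (h2 : tau * u2 = al) (h3 : u2 * kap = 1) (ht : tau = al * kap)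
    (hq : tau ^ 2 = (al - 1) * tau + al)
    (hT1 : ∀ x : AM K kap, iR tau (T1 al kap x) = MJF.T al true (iR tau x)) (u s : K) :
    ∃ Ks : Lam K →ₗ[K] CW K, (wm al).GoodS al u u2 s Ks := by
  obtain ⟨Kc, hone, hmul, hzero, _, hcomm⟩ :=
    arcMain hal hk (hat hk h1 h2 h3 ht hq hT1) u (s * u2)
  have hA : ∀ x : AM K kap, iR tau (Aop al kap u (s * u2) x) = (wm al).As u u2 s (iR tau x) :=
    fun x => iR_A (aI K) (aP K) h1 h2 h3 ht hq u s x
  have hAp : ∀ (n : ℕ) (x : AM K kap), iR tau ((Aop al kap u (s * u2) ^ n) x) =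
      ((wm al).As u u2 s ^ n) (iR tau x) := by
    intro n x
    induction n with
    | zero => rfl
    | succ n ih =>
      rw [pow_succ', pow_succ', Module.End.mul_apply, Module.End.mul_apply, hA, ih]
  have hKh : ∀ G : LW K, AbsM.Kh ((wm al).As u u2 s) (wm al).i (ic tau ∘ₗ Kc) G =
      iR tau (AbsM.Kh (Aop al kap u (s * u2)) (iA kap) Kc G) := by
    intro G
    induction G using Polynomial.induction_on' with
    | add p q hp hq => rw [map_add, map_add, hp, hq, map_add]
    | monomial m f =>
      rw [AbsM.Kh_monomial, AbsM.Kh_monomial, hAp, iR_iA]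
      rfl
  refine ⟨ic tau ∘ₗ Kc, ?_, ?_, ?_, ?_⟩
  · change ic tau (Kc 1) = 1
    rw [hone, ic_one]
  · intro k f hk0
    change ic tau (Kc (X k * f)) = cl0 K (((wm al).As u u2 s ^ k) (iw K (ic tau (Kc f))))
    rw [hmul k f hk0, ← iR_iA (kap := kap), ← hAp]
    obtain ⟨n, rfl⟩ := Nat.exists_eq_succ_of_ne_zero hk0
    rw [cl0_iR h1 h2 h3]
  · intro f
    change ic tau (Kc (X 0 * f)) = 0
    rw [hzero, map_zero]
  · intro G
    rw [hKh, hKh]
    exact hcomm G

end WordM

end

end Pool.Agent.MJT
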