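import Pool.Agent.MJT.RhoFin

/-!
Integrality of the sums, from the process with three letters 1.
-/

namespace Pool.Agent.MJT

open MvPolynomial Pool.Agent.MJR Pool.Agent.MJR.GradeM

noncomputable section

/-- `ℤ[b]`, `b = al - 1` -/
def Zb {K : Type} [Field K] (al : K) : Subsemiring K :=
  (Polynomial.eval₂RingHom (Int.castRingHom K) (al - 1)).rangeS

/-- Comparison of the coefficients of the powers of `u`, several terms. -/
theorem sum_mem_of_PolP' {n : ℕ} {J : n.Partition → n.Partition → QA} (hJ : IsJack RatFunc.X n J)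
    (c : n.Partition → n.Partition → n.Partition → QA)
    (hc : ∀ l m v, ∑ p, J l p * c p m v = J l m * J l v)
    (PL : Subsemiring QA) (O : QA → Lam QA →ₗ[QA] Lam QA)
    (hT : ∀ (u : QA) (r : ℕ), ∀ h ∈ S QA n, O u (H RatFunc.X r h) = H RatFunc.X r (O u h))
    (hS : ∀ u, ∀ h ∈ S QA n, O u h ∈ S QA n)
    (hP : ∀ p : n.Partition, PolP (CL PL) fun u => O u (mon QA p.parts))
    (N : ℕ → n.Partition → QA) (d' : ℕ)
    (hN : ∀ q v, v.parts.card < q → N q v = 0)
    (hrow : ∀ (u : QA) (v : n.Partition), coeff (Finsupp.single 1 n) (O u (mon QA v.parts)) =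
      ∑ q ∈ Finset.range d', N q v * u ^ (v.parts.card - q))
    (p m : n.Partition) (l : ℕ) :
    ∑ q ∈ Finset.range d', ∑ v : n.Partition with v.parts.card = l + q, N q v * c p m v ∈ PL := by
  classical
  obtain ⟨d, t, ht, htu⟩ := hP p
  have hmem : ∀ p : n.Partition, mon QA p.parts ∈ S QA n := fun p =>
    mem_S (zero_notMem p) p.parts_sum
  have h1 : ∀ u : QA, ∑ l ∈ Finset.range d, u ^ l * coeff (expo m) (t l) =
      ∑ q ∈ Finset.range d', ∑ v, N q v * u ^ (v.parts.card - q) * c p m v := by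
    intro u
    have h2 := jackOp hJ c hc (O u) (fun r p => hT u r _ (hmem p)) (fun p => hS u _ (hmem p)) p m
    have h3 := htu u
    beta_reduce at h3
    have h4 : coeff (expo m) (O u (pp QA p)) = ∑ l ∈ Finset.range d,
        u ^ l * coeff (expo m) (t l) := by
      have e1 : pp QA p = mon QA p.parts := rfl
      rw [e1, h3, coeff_sum]
      refine Finset.sum_congr rfl fun l _ => ?_
      rw [coeff_smul, smul_eq_mul]
    rw [← h4, h2, expo_ones, Finset.sum_comm]
    refine Finset.sum_congr rfl fun v _ => ?_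
    have e1 : pp QA v = mon QA v.parts := rfl
    rw [e1, hrow, Finset.sum_mul]
  let P1 : Polynomial QA := ∑ l ∈ Finset.range d, Polynomial.monomial l (coeff (expo m) (t l))
  let P2 : Polynomial QA := ∑ q ∈ Finset.range d', ∑ v : n.Partition,
    Polynomial.monomial (v.parts.card - q) (N q v * c p m v)
  have h5 : P1 = P2 := by
    have : Infinite QA := CharZero.infinite QA
    apply Polynomial.funext
    intro u
    have e1 : P1.eval u = ∑ l ∈ Finset.range d, u ^ l * coeff (expo m) (t l) := by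
      rw [Polynomial.eval_finsetSum]
      refine Finset.sum_congr rfl fun l _ => ?_
      rw [Polynomial.eval_monomial, mul_comm]
    have e2 : P2.eval u = ∑ q ∈ Finset.range d', ∑ v,
        N q v * u ^ (v.parts.card - q) * c p m v := by
      rw [Polynomial.eval_finsetSum]
      refine Finset.sum_congr rfl fun q _ => ?_
      rw [Polynomial.eval_finsetSum]
      refine Finset.sum_congr rfl fun v _ => ?_
      rw [Polynomial.eval_monomial]
      ring
    rw [e1, e2, h1]
  have h6 := congrArg (fun P => Polynomial.coeff P l) h5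
  beta_reduce at h6
  have e1 : P1.coeff l ∈ PL := by
    rw [Polynomial.finsetSum_coeff]
    refine sum_mem fun k _ => ?_
    rw [Polynomial.coeff_monomial]
    split_ifs
    · exact ht k _
    · exact zero_mem _
  have e2 : P2.coeff l = ∑ q ∈ Finset.range d',
      ∑ v : n.Partition with v.parts.card = l + q, N q v * c p m v := by
    rw [Polynomial.finsetSum_coeff]
    refine Finset.sum_congr rfl fun q _ => ?_
    rw [Polynomial.finsetSum_coeff, Finset.sum_filter]
    refine Finset.sum_congr rfl fun v _ => ?_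
    rw [Polynomial.coeff_monomial]
    by_cases hv : v.parts.card < q
    · rw [hN q v hv, zero_mul]
      split_ifs <;> rfl
    · by_cases hl : v.parts.card = l + q
      · rw [if_pos hl, if_pos (by omega)]
      · rw [if_neg hl, if_neg (by omega)]
  rw [← e2, ← h6]
  exact e1

namespace WMod

section

variable {K : Type} [Field K] {M N : Type} [AddCommGroup M] [Module K M]
    [AddCommGroup N] [Module K N]
variable (w : WMod K M N) {al u v : K} {Kc : Lam K →ₗ[K] (ℕ → N)}

/-- the component `j` of the process with a root -/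
def Zg (u v : K) (Kc : Lam K →ₗ[K] (ℕ → N)) : LW K →ₗ[K] (ℕ → M) :=
  AbsM.Kh (w.Ag u v) w.ig Kc

/-- the component `j` of the process, colours forgotten -/
def Cj (Kc : Lam K →ₗ[K] (ℕ → N)) (j : ℕ) : Lam K →ₗ[K] Lam K :=
  w.Fc ∘ₗ LinearMap.proj j ∘ₗ Kc

theorem Zg_monomial (m : ℕ) (f : Lam K) :
    w.Zg u v Kc (Polynomial.monomial m f) = (w.Ag u v ^ m) (w.ig (Kc f)) :=
  AbsM.Kh_monomial Kc m f

theorem Zg_C (f : Lam K) : w.Zg u v Kc (Polynomial.C f) = w.ig (Kc f) := AbsM.Kh_C Kc f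

theorem Zg_X_mul (G : LW K) : w.Zg u v Kc (Polynomial.X * G) = w.Ag u v (w.Zg u v Kc G) :=
  AbsM.Kh_X_mul Kc G

theorem i0_F_Ag (hF : ForgetSt al w) (j : ℕ) (z : ℕ → M) :
    i0 K (w.F (w.Ag u v z j)) = 0 := by
  have h0 : ∀ x, i0 K (w.F (w.x0 x)) = 0 := fun x => by rw [hF.x0, i0_X_mul]
  have h1 : ∀ x, i0 K (w.F (w.x1 x)) = 0 := fun x => by rw [hF.x1, i0_X_mul]
  have hA : ∀ x, i0 K (w.F (w.A0 u x)) = 0 := fun x => h0 _
  rcases j with _ | _ | j
  · rw [Ag_zero, hA]
  · rw [Ag_one, map_add, map_smul, map_add, map_smul, hA, h1, smul_zero, add_zero]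
  · rw [Ag_succ, map_add, map_add, hA, h1, add_zero]

theorem F_Zg_C (hF : ForgetSt al w) (j : ℕ) (f : Lam K) :
    w.F (w.Zg u v Kc (Polynomial.C f) j) = Polynomial.C (w.Cj Kc j f) := by
  rw [Zg_C, ig_apply, hF.i]
  rfl

theorem i0_Zg (hF : ForgetSt al w) (j : ℕ) (G : LW K) :
    i0 K (w.F (w.Zg u v Kc G j)) = w.Cj Kc j (i0 K G) := by
  induction G using Polynomial.induction_on' with
  | add p q hp hq => rw [map_add, Pi.add_apply, map_add, map_add, map_add, map_add, hp, hq]
  | monomial m f =>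
    rcases m with _ | m
    · rw [Polynomial.monomial_zero_left, w.F_Zg_C hF, i0_apply, i0_apply,
        Polynomial.coeff_C_zero, Polynomial.coeff_C_zero]
    · rw [← Polynomial.X_mul_monomial, i0_X_mul, map_zero, Zg_X_mul, w.i0_F_Ag hF]

theorem F_Zg_Zf_pow (hK : w.Good al u v Kc) (j : ℕ) (k : ℕ) (G : LW K) :
    w.F (w.Zg u v Kc ((Zf al ^ k) G) j) = (Zf al ^ k) (w.F (w.Zg u v Kc G j)) := by
  induction k with
  | zero => rfl
  | succ k ih =>
    rw [pow_succ', Module.End.mul_apply, Module.End.mul_apply, ← ih]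
    exact hK.comm _ j

theorem Cj_Mo (hF : ForgetSt al w) (hK : w.Good al u v Kc) (j : ℕ) (k : ℕ) (f : Lam K) :
    w.Cj Kc j (Mo al k f) = Mo al k (w.Cj Kc j f) := by
  rw [Mo_apply, Mo_apply, ← w.i0_Zg (u := u) (v := v) hF, w.F_Zg_Zf_pow hK, w.F_Zg_C hF]

theorem Cj_H (hF : ForgetSt al w) (hK : w.Good al u v Kc) (j : ℕ) {n : ℕ} (r : ℕ) :
    ∀ f ∈ S K n, w.Cj Kc j (H al r f) = H al r (w.Cj Kc j f) :=
  comm_H_of_Mo al (w.Cj Kc j) (fun k f _ => w.Cj_Mo hF hK j k f) r

theorem Ag_grad {SM : ℕ → Submodule K M} {SN : ℕ → Submodule K N} (hG : GradSt w SM SN) {n : ℕ}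
    {z : ℕ → M} (hz : ∀ j, z j ∈ SM n) (j : ℕ) : w.Ag u v z j ∈ SM (n + 1) := by
  have hA : ∀ x ∈ SM n, w.A0 u x ∈ SM (n + 1) := by
    intro x hx
    rw [A0_apply]
    exact hG.x0 n _ (Submodule.add_mem _ (Submodule.smul_mem _ _ hx) (hG.t0 n _ hx))
  rcases j with _ | _ | j
  · rw [Ag_zero]
    exact hA _ (hz 0)
  · rw [Ag_one]
    exact Submodule.add_mem _ (hA _ (hz _)) (Submodule.smul_mem _ _ (hG.x1 n _ (hz 0)))
  · rw [Ag_succ]
    exact Submodule.add_mem _ (hA _ (hz _)) (hG.x1 n _ (Submodule.add_mem _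
      (Submodule.smul_mem _ _ (hz _)) (hG.t1 n _ (hz _))))

theorem Ag_pow_grad {SM : ℕ → Submodule K M} {SN : ℕ → Submodule K N} (hG : GradSt w SM SN)
    {n : ℕ} (k : ℕ) {z : ℕ → M} (hz : ∀ j, z j ∈ SM n) (j : ℕ) :
    (w.Ag u v ^ k) z j ∈ SM (k + n) := by
  induction k generalizing j with
  | zero => rw [pow_zero, zero_add]; exact hz j
  | succ k ih =>
    have e1 : k + 1 + n = (k + n) + 1 := by omega
    rw [pow_succ', Module.End.mul_apply, e1]
    exact w.Ag_grad hG ih j

theorem Kg_grad {SM : ℕ → Submodule K M} {SN : ℕ → Submodule K N} (hG : GradSt w SM SN)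
    (hK : w.Good al u v Kc) {n : ℕ} {f : Lam K} (hf : f ∈ S K n) (j : ℕ) : Kc f j ∈ SN n := by
  have h : ∀ s : Multiset ℕ, 0 ∉ s → ∀ j, Kc (mon K s) j ∈ SN s.sum := by
    intro s
    induction s using Multiset.induction_on with
    | empty =>
      intro _ j
      rw [mon_zero, hK.one, Multiset.sum_zero]
      rcases j with _ | j
      · rw [Pi.single_eq_same]
        exact hG.e
      · rw [Pi.single_eq_of_ne (Nat.succ_ne_zero j)]
        exact Submodule.zero_mem _
    | cons k s ih =>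
      intro h0 j
      rw [Multiset.mem_cons, not_or] at h0
      rw [mon_cons, hK.mul k _ (fun h => h0.1 h.symm), clg_apply, Multiset.sum_cons]
      exact hG.cl _ _ (w.Ag_pow_grad hG k (fun j => hG.i _ _ (ih h0.2 j)) j)
  induction hf using Submodule.span_induction with
  | mem f hf =>
    obtain ⟨s, h0, hs, rfl⟩ := hf
    rw [← hs]
    exact h s h0 j
  | zero => rw [map_zero]; exact Submodule.zero_mem _
  | add a b _ _ ha hb => rw [map_add]; exact Submodule.add_mem _ ha hb
  | smul c a _ ha => rw [map_smul]; exact Submodule.smul_mem _ _ ha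

theorem Cj_S {SM : ℕ → Submodule K M} {SN : ℕ → Submodule K N} (hG : GradSt w SM SN)
    (hK : w.Good al u v Kc) (j : ℕ) {n : ℕ} {f : Lam K} (hf : f ∈ S K n) :
    w.Cj Kc j f ∈ S K n := hG.Fc _ _ (w.Kg_grad hG hK hf j)

/-! ### Rows -/

variable {SM : ℕ → Submodule K M} {SN : ℕ → Submodule K N}
  {r r0 r1 : M →ₗ[K] K} {rc : N →ₗ[K] K}

theorem r_Ag (hR : RowSt w SM SN r r0 r1 rc) (j : ℕ) (z : ℕ → M) :
    r (w.Ag u v z j) = 0 := by
  have hA : ∀ x, r (w.A0 u x) = 0 := fun x => hR.rx0 _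
  rcases j with _ | _ | j
  · rw [Ag_zero, hA]
  · rw [Ag_one, map_add, map_smul, hA, hR.rx1, smul_zero, add_zero]
  · rw [Ag_succ, map_add, hA, hR.rx1, add_zero]

theorem r0_Ag (hR : RowSt w SM SN r r0 r1 rc) (j : ℕ) (z : ℕ → M) :
    r0 (w.Ag u v z j) = u * r (z j) + r0 (z j) := by
  have hA : ∀ x, r0 (w.A0 u x) = u * r x + r0 x := by
    intro x
    rw [A0_apply, hR.r0x0, map_add, map_smul, hR.t0, smul_eq_mul]
  rcases j with _ | _ | j
  · rw [Ag_zero, hA]
  · rw [Ag_one, map_add, map_smul, hR.r0x1, smul_zero, add_zero, hA]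
  · rw [Ag_succ, map_add, hR.r0x1, add_zero, hA]

theorem r1_Ag_zero (hR : RowSt w SM SN r r0 r1 rc) (z : ℕ → M) :
    r1 (w.Ag u v z 0) = 0 := by
  rw [Ag_zero, A0_apply, hR.r1x0]

theorem r1_Ag_one (hR : RowSt w SM SN r r0 r1 rc) (z : ℕ → M) :
    r1 (w.Ag u v z 1) = v * r (z 0) := by
  rw [Ag_one, map_add, A0_apply, hR.r1x0, zero_add, map_smul, hR.r1x1, smul_eq_mul]

theorem r1_Ag_succ (hR : RowSt w SM SN r r0 r1 rc) (j : ℕ) (z : ℕ → M) :
    r1 (w.Ag u v z (j + 2)) = v * r (z (j + 1)) + r1 (z (j + 1)) := by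
  rw [Ag_succ, map_add, A0_apply, hR.r1x0, zero_add, hR.r1x1, map_add, map_smul, smul_eq_mul,
    hR.t1]

theorem rg_pow (hR : RowSt w SM SN r r0 r1 rc) (j m : ℕ) (y : ℕ → N) :
    r ((w.Ag u v ^ m) (w.ig y) j) = if m = 0 then rc (y j) else 0 := by
  rcases m with _ | m
  · rw [if_pos rfl, pow_zero, Module.End.one_apply, ig_apply, hR.ri]
  · rw [if_neg (Nat.succ_ne_zero m), pow_succ', Module.End.mul_apply, w.r_Ag hR]

theorem rg0_pow (hR : RowSt w SM SN r r0 r1 rc) (j m : ℕ) (y : ℕ → N) :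
    r0 ((w.Ag u v ^ m) (w.ig y) j) = if m = 0 then 0 else u * rc (y j) := by
  induction m with
  | zero => rw [if_pos rfl, pow_zero, Module.End.one_apply, ig_apply, hR.r0i]
  | succ m ih =>
    rw [if_neg (Nat.succ_ne_zero m), pow_succ', Module.End.mul_apply, w.r0_Ag hR, ih,
      w.rg_pow hR]
    rcases m with _ | m
    · rw [if_pos rfl, if_pos rfl, add_zero]
    · rw [if_neg (Nat.succ_ne_zero m), if_neg (Nat.succ_ne_zero m), mul_zero, zero_add]

theorem rg1_pow (hR : RowSt w SM SN r r0 r1 rc) (j m : ℕ) (y : ℕ → N) :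
    r1 ((w.Ag u v ^ (m + 1)) (w.ig y) j) =
      if m + 1 ≤ j then v * rc (y (j - (m + 1))) else 0 := by
  induction m generalizing j with
  | zero =>
    rw [zero_add, pow_one]
    rcases j with _ | _ | j
    · rw [w.r1_Ag_zero hR, if_neg (by omega)]
    · rw [w.r1_Ag_one hR, if_pos (by omega), ig_apply, hR.ri]
    · rw [w.r1_Ag_succ hR, if_pos (by omega), ig_apply, hR.ri, hR.r1i, add_zero]
      rfl
  | succ m ih =>
    rw [pow_succ', Module.End.mul_apply]
    rcases j with _ | _ | j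
    · rw [w.r1_Ag_zero hR, if_neg (by omega)]
    · rw [w.r1_Ag_one hR, w.rg_pow hR, if_neg (by omega), if_neg (by omega), mul_zero]
    · rw [w.r1_Ag_succ hR, w.rg_pow hR, if_neg (by omega), mul_zero, zero_add, ih]
      by_cases hj : m + 1 ≤ j + 1
      · rw [if_pos hj, if_pos (by omega)]
        have e1 : j + 1 + 1 - (m + 1 + 1) = j + 1 - (m + 1) := by omega
        rw [e1]
      · rw [if_neg hj, if_neg (by omega)]

theorem rcg_cons (hR : RowSt w SM SN r r0 r1 rc) (hK : w.Good al u v Kc) (k : ℕ) (hk : k ≠ 0)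
    (s : Multiset ℕ) (j : ℕ) :
    rc (Kc (mon K (k ::ₘ s)) j) = u * rc (Kc (mon K s) j) +
      if k ≤ j then v * rc (Kc (mon K s) (j - k)) else 0 := by
  obtain ⟨m, rfl⟩ := Nat.exists_eq_succ_of_ne_zero hk
  rw [mon_cons, hK.mul _ _ hk, clg_apply, hR.cl, w.rg0_pow hR, if_neg hk]
  rw [Nat.succ_eq_add_one, w.rg1_pow hR]

/-- The rows of the components of degree at most three. -/
theorem rcg (hR : RowSt w SM SN r r0 r1 rc) (hK : w.Good al u v Kc) (s : Multiset ℕ)
    (h0 : 0 ∉ s) : rc (Kc (mon K s) 0) = u ^ s.card ∧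
    rc (Kc (mon K s) 1) = v * ((s.count 1 : K) * u ^ (s.card - 1)) ∧
    rc (Kc (mon K s) 2) = v * ((s.count 2 : K) * u ^ (s.card - 1)) +
      v ^ 2 * (((s.count 1).choose 2 : K) * u ^ (s.card - 2)) ∧
    rc (Kc (mon K s) 3) = v * ((s.count 3 : K) * u ^ (s.card - 1)) +
      v ^ 2 * (((s.count 1 * s.count 2 : ℕ) : K) * u ^ (s.card - 2)) +
      v ^ 3 * (((s.count 1).choose 3 : K) * u ^ (s.card - 3)) := by
  induction s using Multiset.induction_on with
  | empty =>
    rw [mon_zero, hK.one]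
    refine ⟨?_, ?_, ?_, ?_⟩
    · rw [Pi.single_eq_same, hR.e, Multiset.card_zero, pow_zero]
    · rw [Pi.single_eq_of_ne (by omega), map_zero]
      simp
    · rw [Pi.single_eq_of_ne (by omega), map_zero]
      simp
    · rw [Pi.single_eq_of_ne (by omega), map_zero]
      simp
  | cons k s ih =>
    rw [Multiset.mem_cons, not_or] at h0
    have hk : k ≠ 0 := fun h => h0.1 h.symm
    obtain ⟨i0, i1, i2, i3⟩ := ih h0.2
    have hc1 : s.card < 1 → s.count 1 = 0 := by
      intro h
      have := Multiset.count_le_card 1 s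
      omega
    have hc2 : s.card < 1 → s.count 2 = 0 := by
      intro h
      have := Multiset.count_le_card 2 s
      omega
    have hc3 : s.card < 1 → s.count 3 = 0 := by
      intro h
      have := Multiset.count_le_card 3 s
      omega
    have hc11 : s.card < 2 → (s.count 1).choose 2 = 0 := by
      intro h
      have := Multiset.count_le_card 1 s
      exact Nat.choose_eq_zero_of_lt (by omega)
    have hc111 : s.card < 3 → (s.count 1).choose 3 = 0 := by
      intro h
      have := Multiset.count_le_card 1 s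
      exact Nat.choose_eq_zero_of_lt (by omega)
    have hc12 : s.card < 2 → s.count 1 * s.count 2 = 0 := by
      intro h
      by_contra h3
      rw [mul_eq_zero, not_or] at h3
      obtain ⟨t, ht⟩ := Multiset.exists_cons_of_mem
        (Multiset.count_pos.mp (Nat.pos_of_ne_zero h3.1))
      have h4 : 2 ∈ s := Multiset.count_pos.mp (Nat.pos_of_ne_zero h3.2)
      rw [ht, Multiset.mem_cons] at h4
      have h5 : 2 ∈ t := h4.resolve_left (by omega)
      have h6 : 0 < t.card := Multiset.card_pos_iff_exists_mem.mpr ⟨2, h5⟩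
      rw [ht, Multiset.card_cons] at h
      omega
    have p1 := cnt_pow u (s.count 1) s.card 1 hc1
    have p2 := cnt_pow u (s.count 2) s.card 1 hc2
    have p3 := cnt_pow u (s.count 3) s.card 1 hc3
    have p11 := cnt_pow u ((s.count 1).choose 2) s.card 2 hc11
    have p111 := cnt_pow u ((s.count 1).choose 3) s.card 3 hc111
    have p12 := cnt_pow u (s.count 1 * s.count 2) s.card 2 hc12
    have q0 : s.card + 1 - 1 = s.card := by omega
    have q2 : s.card + 1 - 2 = s.card - 1 := by omega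
    have q3 : s.card + 1 - 3 = s.card - 2 := by omega
    rw [q0] at p1 p2 p3
    rw [q2] at p11 p12
    rw [q3] at p111
    rw [Nat.cast_mul] at p12
    rw [w.rcg_cons hR hK k hk, w.rcg_cons hR hK k hk, w.rcg_cons hR hK k hk,
      w.rcg_cons hR hK k hk, i0, i1, i2, i3, Multiset.card_cons, Multiset.count_cons,
      Multiset.count_cons, Multiset.count_cons, q0, q2, q3]
    by_cases k1 : k = 1
    · subst k1
      rw [if_neg (by omega), if_pos (by omega), if_pos rfl, if_pos (by omega),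
        if_neg (by omega), if_pos (by omega), if_neg (by omega), i0, i1, i2, add_zero, add_zero,
        Nat.choose_succ_succ' (s.count 1) 1, Nat.choose_succ_succ' (s.count 1) 2,
        Nat.choose_one_right]
      push_cast
      refine ⟨by ring, ?_, ?_, ?_⟩
      · linear_combination (-v) * p1
      · linear_combination (-v) * p2 - v ^ 2 * p11
      · linear_combination (-v) * p3 - v ^ 2 * p12 - v ^ 3 * p111
    · by_cases k2 : k = 2
      · subst k2
        rw [if_neg (by omega), if_neg (by omega), if_neg (by omega), if_pos (by omega),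
          if_pos rfl, if_pos (by omega), if_neg (by omega), i0, i1, add_zero, add_zero, add_zero,
          add_zero]
        push_cast
        refine ⟨by ring, ?_, ?_, ?_⟩
        · linear_combination (-v) * p1
        · linear_combination (-v) * p2 - v ^ 2 * p11
        · linear_combination (-v) * p3 - v ^ 2 * p12 - v ^ 3 * p111
      · by_cases k3 : k = 3
        · subst k3
          rw [if_neg (by omega), if_neg (by omega), if_neg (by omega), if_neg (by omega),
            if_neg (by omega), if_pos (by omega), if_pos rfl, i0, add_zero, add_zero, add_zero,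
            add_zero, add_zero]
          push_cast
          refine ⟨by ring, ?_, ?_, ?_⟩
          · linear_combination (-v) * p1
          · linear_combination (-v) * p2 - v ^ 2 * p11
          · linear_combination (-v) * p3 - v ^ 2 * p12 - v ^ 3 * p111
        · rw [if_neg (by omega), if_neg (by omega), if_neg (fun h => k1 h.symm),
            if_neg (by omega), if_neg (fun h => k2 h.symm), if_neg (by omega),
            if_neg (fun h => k3 h.symm), add_zero, add_zero, add_zero, add_zero, add_zero,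
            add_zero, add_zero]
          push_cast
          refine ⟨by ring, ?_, ?_, ?_⟩
          · linear_combination (-v) * p1
          · linear_combination (-v) * p2 - v ^ 2 * p11
          · linear_combination (-v) * p3 - v ^ 2 * p12 - v ^ 3 * p111

/-! ### Cones -/

/-- the cone of sequences -/
def PG {V : Type} [AddCommGroup V] (P : AddSubmonoid V) : AddSubmonoid (ℕ → V) where
  carrier := {z | ∀ j, z j ∈ P}
  add_mem' := fun ha hb j => P.add_mem (ha j) (hb j)
  zero_mem' := fun _ => P.zero_mem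

variable {PM : AddSubmonoid M} {PN : AddSubmonoid N} {PL : Subsemiring K}

theorem Ag_split (u v : K) (z : ℕ → M) :
    w.Ag u v z = u • w.x0.compLeft ℕ z + w.Ag 0 v z := by
  funext j
  rw [Pi.add_apply, Pi.smul_apply]
  change _ = u • w.x0 (z j) + _
  rcases j with _ | _ | j
  · rw [Ag_zero, Ag_zero, w.A0_split u]
  · rw [Ag_one, Ag_one, w.A0_split u, add_assoc]
  · rw [Ag_succ, Ag_succ, w.A0_split u, add_assoc]

theorem Ag_pol (hP : PosSt w PM PN PL) (hv : v ∈ PL) {g : K → (ℕ → M)}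
    (hg : PolP (PG PM) g) : PolP (PG PM) fun u => w.Ag u v (g u) := by
  refine ((hg.map (P' := PG PM) (w.x0.compLeft ℕ) fun z hz j => hP.x0 _ (hz j)).smul.add
    (hg.map (P' := PG PM) (w.Ag 0 v) ?_)).congr fun u => (w.Ag_split u v (g u)).symm
  intro z hz j
  have hA : ∀ x ∈ PM, w.A0 0 x ∈ PM := by
    intro x hx
    rw [A0_apply, zero_smul, zero_add]
    exact hP.x0 _ (hP.t0 _ hx)
  rcases j with _ | _ | j
  · rw [Ag_zero]
    exact hA _ (hz 0)
  · rw [Ag_one]
    exact add_mem (hA _ (hz _)) (hP.sM v hv _ (hP.x1 _ (hz 0)))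
  · rw [Ag_succ]
    exact add_mem (hA _ (hz _)) (hP.x1 _ (add_mem (hP.sM v hv _ (hz _)) (hP.t1 _ (hz _))))

theorem Ag_pow_pol (hP : PosSt w PM PN PL) (hv : v ∈ PL) (k : ℕ) {g : K → (ℕ → M)}
    (hg : PolP (PG PM) g) : PolP (PG PM) fun u => (w.Ag u v ^ k) (g u) := by
  induction k with
  | zero => exact hg
  | succ k ih =>
    refine (w.Ag_pol hP hv ih).congr fun u => ?_
    rw [pow_succ', Module.End.mul_apply]

theorem Kg_pol (hP : PosSt w PM PN PL) (hv : v ∈ PL) {Kc : K → Lam K →ₗ[K] (ℕ → N)}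
    (hK : ∀ u, w.Good al u v (Kc u)) (s : Multiset ℕ) (h0 : 0 ∉ s) :
    PolP (PG PN) fun u => Kc u (mon K s) := by
  induction s using Multiset.induction_on with
  | empty =>
    refine (PolP.const (K := K) (P := PG PN) (x := Pi.single 0 w.e) ?_).congr fun u => ?_
    · intro j
      rcases j with _ | j
      · rw [Pi.single_eq_same]
        exact hP.e
      · rw [Pi.single_eq_of_ne (Nat.succ_ne_zero j)]
        exact PN.zero_mem
    · rw [mon_zero, (hK u).one]
  | cons k s ih =>
    rw [Multiset.mem_cons, not_or] at h0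
    have h1 := (w.Ag_pow_pol hP hv k ((ih h0.2).map (P' := PG PM) w.ig
      fun z hz j => hP.i _ (hz j))).map (P' := PG PN) w.clg
      fun z hz j => hP.cl _ (hz j)
    refine h1.congr fun u => ?_
    rw [mon_cons, (hK u).mul k _ (fun h => h0.1 h.symm)]

theorem Cj_pol (hP : PosSt w PM PN PL) (hv : v ∈ PL) {Kc : K → Lam K →ₗ[K] (ℕ → N)}
    (hK : ∀ u, w.Good al u v (Kc u)) (j : ℕ) (s : Multiset ℕ) (h0 : 0 ∉ s) :
    PolP (CL PL) fun u => w.Cj (Kc u) j (mon K s) :=
  ((w.Kg_pol hP hv hK s h0).map (P' := PN) (LinearMap.proj j) fun _ hz => hz j).map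
    (P' := CL PL) w.Fc fun y hy m => hP.Fc y hy m

end

/-! ### The sums -/

variable {M N : Type} [AddCommGroup M] [Module QA M] [AddCommGroup N] [Module QA N]
  {w : WMod QA M N} {PL : Subsemiring QA}

/-- The sum of weight three for one value of `v`. -/
theorem rho_int (hF : ForgetSt RatFunc.X w)
    (hG : ∃ SM SN, GradSt w SM SN ∧ ∃ r r0 r1 rc, RowSt w SM SN r r0 r1 rc)
    (hP : ∃ PM PN, PosSt w PM PN PL) {v : QA} (hv : v ∈ PL)
    (hg : ∀ u, ∃ Kc, w.Good RatFunc.X u v Kc) {n : ℕ} {J : n.Partition → n.Partition → QA}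
    (hJ : IsJack RatFunc.X n J)
    (c : n.Partition → n.Partition → n.Partition → QA)
    (hc : ∀ l m v, ∑ p, J l p * c p m v = J l m * J l v) (p m : n.Partition) (l : ℕ) :
    v * (∑ x : n.Partition with x.parts.card = l + 1, (x.parts.count 3 : QA) * c p m x) +
    v ^ 2 * (∑ x : n.Partition with x.parts.card = l + 2,
      ((x.parts.count 1 : QA) * (x.parts.count 2 : QA)) * c p m x) +
    v ^ 3 * (∑ x : n.Partition with x.parts.card = l + 3,
      ((x.parts.count 1).choose 3 : QA) * c p m x) ∈ PL := by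
  classical
  obtain ⟨SM, SN, hG, r, r0, r1, rc, hR⟩ := hG
  obtain ⟨PM, PN, hP⟩ := hP
  choose Kc hK using hg
  let Nf : ℕ → n.Partition → QA := fun q x => match q with
    | 0 => 0
    | 1 => v * (x.parts.count 3 : QA)
    | 2 => v ^ 2 * ((x.parts.count 1 * x.parts.count 2 : ℕ) : QA)
    | 3 => v ^ 3 * ((x.parts.count 1).choose 3 : QA)
    | _ => 0
  have h := sum_mem_of_PolP' hJ c hc PL (fun u => w.Cj (Kc u) 3)
    (fun u r h hh => w.Cj_H hF (hK u) 3 r h hh)
    (fun u h hh => w.Cj_S hG (hK u) 3 hh)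
    (fun p => w.Cj_pol hP hv hK 3 p.parts (zero_notMem p)) Nf 4 ?_ ?_ p m l
  · rw [Finset.sum_range_succ, Finset.sum_range_succ, Finset.sum_range_succ,
      Finset.sum_range_succ, Finset.sum_range_zero, zero_add] at h
    have e0 : ∑ x : n.Partition with x.parts.card = l + 0, Nf 0 x * c p m x = 0 :=
      Finset.sum_eq_zero fun x _ => zero_mul _
    rw [e0, zero_add] at h
    rw [Finset.mul_sum, Finset.mul_sum, Finset.mul_sum]
    have e1 : ∀ x : n.Partition, v * ((x.parts.count 3 : QA) * c p m x) = Nf 1 x * c p m x :=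
      fun x => (mul_assoc _ _ _).symm
    have e2 : ∀ x : n.Partition, v ^ 2 * ((x.parts.count 1 : QA) * (x.parts.count 2 : QA) *
        c p m x) = Nf 2 x * c p m x := by
      intro x
      change _ = v ^ 2 * ((x.parts.count 1 * x.parts.count 2 : ℕ) : QA) * c p m x
      rw [Nat.cast_mul]
      ring
    have e3 : ∀ x : n.Partition, v ^ 3 * (((x.parts.count 1).choose 3 : QA) * c p m x) =
        Nf 3 x * c p m x := fun x => (mul_assoc _ _ _).symm
    simp only [e1, e2, e3]
    exact h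
  · intro q x hx
    have h1 := Multiset.count_le_card 1 x.parts
    have h3 := Multiset.count_le_card 3 x.parts
    match q with
    | 0 => rfl
    | 1 =>
      have e1 : x.parts.count 3 = 0 := by omega
      change v * (x.parts.count 3 : QA) = 0
      rw [e1, Nat.cast_zero, mul_zero]
    | 2 =>
      change v ^ 2 * ((x.parts.count 1 * x.parts.count 2 : ℕ) : QA) = 0
      have e1 : x.parts.count 1 * x.parts.count 2 = 0 := by
        by_contra h3
        rw [mul_eq_zero, not_or] at h3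
        obtain ⟨t, ht⟩ := Multiset.exists_cons_of_mem
          (Multiset.count_pos.mp (Nat.pos_of_ne_zero h3.1))
        have h4 : 2 ∈ x.parts := Multiset.count_pos.mp (Nat.pos_of_ne_zero h3.2)
        rw [ht, Multiset.mem_cons] at h4
        have h5 : 2 ∈ t := h4.resolve_left (by omega)
        have h6 : 0 < t.card := Multiset.card_pos_iff_exists_mem.mpr ⟨2, h5⟩
        rw [ht, Multiset.card_cons] at hx
        omega
      rw [e1, Nat.cast_zero, mul_zero]
    | 3 =>
      change v ^ 3 * ((x.parts.count 1).choose 3 : QA) = 0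
      rw [Nat.choose_eq_zero_of_lt (by omega), Nat.cast_zero, mul_zero]
    | (q + 4) => rfl
  · intro u x
    have h1 := (w.rcg hR (hK u) x.parts (zero_notMem x)).2.2.2
    have h2 := hR.Fc _ _ (w.Kg_grad hG (hK u) (mem_S (zero_notMem x) x.parts_sum) 3)
    have h3 : coeff (Finsupp.single 1 n) (w.Cj (Kc u) 3 (mon QA x.parts)) =
      rc (Kc u (mon QA x.parts) 3) := h2
    rw [h3, h1, Finset.sum_range_succ, Finset.sum_range_succ, Finset.sum_range_succ,
      Finset.sum_range_succ, Finset.sum_range_zero, zero_add]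
    change _ = 0 * _ + v * (x.parts.count 3 : QA) * _ +
      v ^ 2 * ((x.parts.count 1 * x.parts.count 2 : ℕ) : QA) * _ +
      v ^ 3 * ((x.parts.count 1).choose 3 : QA) * _
    ring

end WMod

/-! ### Arithmetic -/

theorem Zb_inj {P Q : Polynomial ℤ}
    (h : P.eval₂ (Int.castRingHom QA) ((RatFunc.X : QA) - 1) =
      Q.eval₂ (Int.castRingHom QA) ((RatFunc.X : QA) - 1)) : P = Q := by
  have key : ∀ P : Polynomial ℤ, P.eval₂ (Int.castRingHom QA) ((RatFunc.X : QA) - 1) =
      algebraMap (Polynomial ℚ) QA ((P.map (Int.castRingHom ℚ)).comp (Polynomial.X - 1)) := by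
    intro P
    rw [Polynomial.comp, Polynomial.hom_eval₂, Polynomial.eval₂_map, map_sub, map_one,
      RatFunc.algebraMap_X]
    congr 1
    exact RingHom.ext_int _ _
  rw [key, key] at h
  have h1 := RatFunc.algebraMap_injective ℚ h
  have h2 := congrArg (fun R => Polynomial.comp R (Polynomial.X + 1)) h1
  beta_reduce at h2
  have h3 : ∀ R : Polynomial ℚ, (R.comp (Polynomial.X - 1)).comp (Polynomial.X + 1) = R := by
    intro R
    rw [Polynomial.comp_assoc]
    have e1 : (Polynomial.X - 1 : Polynomial ℚ).comp (Polynomial.X + 1) = Polynomial.X := by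
      simp
    rw [e1, Polynomial.comp_X]
  rw [h3, h3] at h2
  exact Polynomial.map_injective _ (RingHom.injective_int _) h2

theorem mem_Zb {x : QA} : x ∈ Zb (RatFunc.X : QA) ↔
    ∃ P : Polynomial ℤ, P.eval₂ (Int.castRingHom QA) ((RatFunc.X : QA) - 1) = x := Iff.rfl

theorem Nb_le_Zb {x : QA} (h : x ∈ Nb (RatFunc.X : QA)) : x ∈ Zb (RatFunc.X : QA) := by
  obtain ⟨P, hP⟩ := h
  refine ⟨P.map (Nat.castRingHom ℤ), ?_⟩
  rw [← hP]
  change Polynomial.eval₂ _ _ _ = Polynomial.eval₂ _ _ _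
  rw [Polynomial.eval₂_map]
  congr 1

theorem Zb_neg {x : QA} (h : x ∈ Zb (RatFunc.X : QA)) : -x ∈ Zb (RatFunc.X : QA) := by
  obtain ⟨P, hP⟩ := h
  exact ⟨-P, by rw [map_neg, hP]⟩

/-- `3 x ∈ ℤ[b]` and `(al ^ 3 - al) x ∈ ℤ[b]` imply `x ∈ ℤ[b]`. -/
theorem Zb_div {x : QA} (h3 : 3 * x ∈ Zb (RatFunc.X : QA))
    (h : (RatFunc.X ^ 3 - RatFunc.X : QA) * x ∈ Zb (RatFunc.X : QA)) :
    x ∈ Zb (RatFunc.X : QA) := by
  obtain ⟨P, hP⟩ := mem_Zb.mp h3
  obtain ⟨R, hR⟩ := mem_Zb.mp h
  let D : Polynomial ℤ := (Polynomial.X + 1) ^ 3 - (Polynomial.X + 1)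
  have hD : D.eval₂ (Int.castRingHom QA) ((RatFunc.X : QA) - 1) = RatFunc.X ^ 3 - RatFunc.X := by
    change Polynomial.eval₂ _ _ ((Polynomial.X + 1) ^ 3 - (Polynomial.X + 1)) = _
    rw [Polynomial.eval₂_sub, Polynomial.eval₂_pow, Polynomial.eval₂_add, Polynomial.eval₂_X,
      Polynomial.eval₂_one, sub_add_cancel]
  have h4 : D * P = Polynomial.C 3 * R := by
    apply Zb_inj
    rw [Polynomial.eval₂_mul, Polynomial.eval₂_mul, hD, hP, hR, Polynomial.eval₂_C]
    have e1 : (Int.castRingHom QA) 3 = 3 := by simp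
    rw [e1]
    ring
  have hp : Prime (Polynomial.C (3 : ℤ)) := Polynomial.prime_C_iff.mpr Int.prime_three
  have h5 : Polynomial.C (3 : ℤ) ∣ D * P := ⟨R, h4⟩
  rcases hp.dvd_or_dvd h5 with h6 | h6
  · exfalso
    rw [Polynomial.C_dvd_iff_dvd_coeff] at h6
    have h7 := h6 3
    have h8 : D.coeff 3 = 1 := by
      have e1 : D = Polynomial.X ^ 3 + Polynomial.C 3 * Polynomial.X ^ 2 +
          Polynomial.C 2 * Polynomial.X := by
        have e2 : (Polynomial.C (3 : ℤ)) = 3 := by simp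
        have e3 : (Polynomial.C (2 : ℤ)) = 2 := by simp
        rw [e2, e3]
        change (Polynomial.X + 1) ^ 3 - (Polynomial.X + 1) = _
        ring
      rw [e1]
      simp [Polynomial.coeff_X, Polynomial.coeff_X_pow]
    rw [h8] at h7
    norm_num at h7
  · obtain ⟨P', rfl⟩ := h6
    refine ⟨P', ?_⟩
    rw [Polynomial.eval₂_mul, Polynomial.eval₂_C] at hP
    have e1 : (Int.castRingHom QA) 3 = 3 := by simp
    rw [e1] at hP
    exact mul_left_cancel₀ (by norm_num) hP

/-- `3 x ∈ ℕ[b]` and `x ∈ ℤ[b]` imply `x ∈ ℕ[b]`. -/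
theorem Nb_of_Zb {x : QA} (h3 : 3 * x ∈ Nb (RatFunc.X : QA)) (h : x ∈ Zb (RatFunc.X : QA)) :
    x ∈ Nb (RatFunc.X : QA) := by
  obtain ⟨Q, hQ⟩ := h3
  obtain ⟨P, hP⟩ := mem_Zb.mp h
  have h4 : Polynomial.C 3 * P = Q.map (Nat.castRingHom ℤ) := by
    apply Zb_inj
    rw [Polynomial.eval₂_mul, Polynomial.eval₂_C, hP, Polynomial.eval₂_map]
    have e1 : (Int.castRingHom QA) 3 = 3 := by simp
    rw [e1, ← hQ]
    change Polynomial.eval₂ _ _ _ = _
    congr 1
  have h5 : ∀ i, 0 ≤ P.coeff i := by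
    intro i
    have h6 := congrArg (fun R => Polynomial.coeff R i) h4
    beta_reduce at h6
    rw [Polynomial.coeff_C_mul, Polynomial.coeff_map] at h6
    have h7 : (0 : ℤ) ≤ (Nat.castRingHom ℤ) (Q.coeff i) := Int.natCast_nonneg _
    omega
  rw [← hP, Polynomial.eval₂_eq_sum_range]
  have hb : (RatFunc.X - 1 : QA) ∈ Nb (RatFunc.X : QA) := ⟨Polynomial.X, by simp⟩
  refine sum_mem fun i _ => mul_mem ?_ (pow_mem hb i)
  obtain ⟨k, hk⟩ := Int.eq_ofNat_of_zero_le (h5 i)
  rw [hk]
  have e1 : (Int.castRingHom QA) (k : ℤ) = (k : QA) := by simp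
  rw [e1]
  exact natCast_mem _ k

/-- The arithmetic of the last step. -/
theorem rho_arith {x y z : QA} (hy : y ∈ Nb (RatFunc.X : QA)) (hx : 3 * x ∈ Nb (RatFunc.X : QA))
    (hz : 3 * z ∈ Nb (RatFunc.X : QA))
    (h1 : (1 : QA) * x + (1 : QA) ^ 2 * y + (1 : QA) ^ 3 * z ∈ Zb (RatFunc.X : QA))
    (h2 : (-RatFunc.X) * x + (-RatFunc.X) ^ 2 * y + (-RatFunc.X : QA) ^ 3 * z ∈
      Zb (RatFunc.X : QA)) :
    x ∈ Nb (RatFunc.X : QA) ∧ z ∈ Nb (RatFunc.X : QA) := by
  have hX : (RatFunc.X : QA) ∈ Zb (RatFunc.X : QA) := ⟨Polynomial.X + 1, by simp⟩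
  have hy' := Nb_le_Zb hy
  have h3 : x + z ∈ Zb (RatFunc.X : QA) := by
    have e1 : x + z = ((1 : QA) * x + (1 : QA) ^ 2 * y + (1 : QA) ^ 3 * z) + -y := by ring
    rw [e1]
    exact add_mem h1 (Zb_neg hy')
  have h4 : (RatFunc.X ^ 3 - RatFunc.X : QA) * z ∈ Zb (RatFunc.X : QA) := by
    have e1 : (RatFunc.X ^ 3 - RatFunc.X : QA) * z =
        -((-RatFunc.X) * x + (-RatFunc.X) ^ 2 * y + (-RatFunc.X : QA) ^ 3 * z) +
          (RatFunc.X ^ 2 * y + -(RatFunc.X * (x + z))) := by ring
    rw [e1]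
    exact add_mem (Zb_neg h2) (add_mem (mul_mem (pow_mem hX 2) hy') (Zb_neg (mul_mem hX h3)))
  have h5 := Zb_div (Nb_le_Zb hz) h4
  have h6 : x ∈ Zb (RatFunc.X : QA) := by
    have e1 : x = (x + z) + -z := by ring
    rw [e1]
    exact add_mem h3 (Zb_neg h5)
  exact ⟨Nb_of_Zb hx h6, Nb_of_Zb hz h5⟩

end

end Pool.Agent.MJT
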