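import Pool.Agent.MJT.RhoDefs

/-!
The refined process: the grading by the number of inserted letters 1 is refined by the number of
stays, for at most two letters 1.
-/

namespace Pool.Agent.MJT

open MvPolynomial Pool.Agent.MJR Pool.Agent.MJR.GradeM

noncomputable section

variable {K : Type} [Field K] {M N : Type} [AddCommGroup M] [Module K M]
    [AddCommGroup N] [Module K N]

/-- The components: no letter 1, one letter 1, two letters 1 with one stay, two letters 1 with
two stays. -/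
abbrev Q4 (V : Type) := V × V × V × V

/-- The first three components of a graded vector. -/
def tr3 (K : Type) [Field K] (V : Type) [AddCommGroup V] [Module K V] :
    (ℕ → V) →ₗ[K] V × V × V where
  toFun z := (z 0, z 1, z 2)
  map_add' := by intro a b; rfl
  map_smul' := by intro c a; rfl

/-- The stays get the weight `v`. -/
def evV (v : K) (V : Type) [AddCommGroup V] [Module K V] : Q4 V →ₗ[K] V × V × V where
  toFun z := (z.1, v • z.2.1, v • z.2.2.1 + v ^ 2 • z.2.2.2)
  map_add' := by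
    intro a b
    simp only [Prod.fst_add, Prod.snd_add, Prod.mk_add_mk, smul_add]
    refine Prod.ext rfl (Prod.ext rfl ?_)
    abel
  map_smul' := by
    intro c a
    simp only [Prod.smul_fst, Prod.smul_snd, Prod.smul_mk, RingHom.id_apply, smul_add]
    rw [smul_comm v c, smul_comm v c, smul_comm (v ^ 2) c]

theorem evV_apply (v : K) (V : Type) [AddCommGroup V] [Module K V] (z : Q4 V) :
    evV v V z = (z.1, v • z.2.1, v • z.2.2.1 + v ^ 2 • z.2.2.2) := rfl

/-- The inverse of the two evaluations at `1` and `-al`. -/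
def recV (al : K) (V : Type) [AddCommGroup V] [Module K V] :
    ((V × V × V) × (V × V × V)) →ₗ[K] Q4 V where
  toFun y := (y.1.1, y.1.2.1, (al ^ 2 + al)⁻¹ • (al ^ 2 • y.1.2.2 - y.2.2.2),
    (al ^ 2 + al)⁻¹ • (al • y.1.2.2 + y.2.2.2))
  map_add' := by
    intro a b
    simp only [Prod.fst_add, Prod.snd_add, Prod.mk_add_mk, smul_add, smul_sub]
    refine Prod.ext rfl (Prod.ext rfl (Prod.ext ?_ ?_)) <;> abel
  map_smul' := by
    intro c a
    simp only [Prod.smul_fst, Prod.smul_snd, Prod.smul_mk, RingHom.id_apply]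
    refine Prod.ext rfl (Prod.ext rfl (Prod.ext ?_ ?_)) <;> module

theorem recV_evV (al : K) (h : al ^ 2 + al ≠ 0) (V : Type) [AddCommGroup V] [Module K V]
    (z : Q4 V) : recV al V (evV (1 : K) V z, evV (-al) V z) = z := by
  obtain ⟨z0, z1, z2, z3⟩ := z
  simp only [recV, evV_apply, LinearMap.coe_mk, AddHom.coe_mk]
  have e1 : al ^ 2 • ((1 : K) • z2 + (1 : K) ^ 2 • z3) - ((-al) • z2 + (-al) ^ 2 • z3) =
      (al ^ 2 + al) • z2 := by module
  have e2 : al • ((1 : K) • z2 + (1 : K) ^ 2 • z3) + ((-al) • z2 + (-al) ^ 2 • z3) =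
      (al ^ 2 + al) • z3 := by module
  rw [e1, e2, smul_smul, smul_smul, inv_mul_cancel₀ h, one_smul, one_smul, one_smul]

theorem evV_inj (al : K) (h : al ^ 2 + al ≠ 0) (V : Type) [AddCommGroup V] [Module K V]
    {z z' : Q4 V} (h1 : evV (1 : K) V z = evV (1 : K) V z') (h2 : evV (-al) V z = evV (-al) V z') :
    z = z' := by
  rw [← recV_evV al h V z, ← recV_evV al h V z', h1, h2]

/-- A linear map on all components. -/
def m4 {V W : Type} [AddCommGroup V] [Module K V] [AddCommGroup W] [Module K W]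
    (g : V →ₗ[K] W) : Q4 V →ₗ[K] Q4 W := g.prodMap (g.prodMap (g.prodMap g))

theorem m4_apply {V W : Type} [AddCommGroup V] [Module K V] [AddCommGroup W] [Module K W]
    (g : V →ₗ[K] W) (z : Q4 V) : m4 g z = (g z.1, g z.2.1, g z.2.2.1, g z.2.2.2) := rfl

theorem evV_m4 {V W : Type} [AddCommGroup V] [Module K V] [AddCommGroup W] [Module K W]
    (g : V →ₗ[K] W) (v : K) (z : Q4 V) :
    evV v W (m4 g z) = (g (evV v V z).1, g (evV v V z).2.1, g (evV v V z).2.2) := by
  simp only [evV_apply, m4_apply, map_add, map_smul]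

namespace WMod

variable (w : WMod K M N)

/-- The refined insertion. -/
def A4 (u : K) : Module.End K (Q4 M) where
  toFun z := (w.A0 u z.1, w.A0 u z.2.1 + w.x1 z.1, w.A0 u z.2.2.1 + w.x1 (w.T1 z.2.1),
    w.A0 u z.2.2.2 + w.x1 z.2.1)
  map_add' := by
    intro a b
    simp only [Prod.fst_add, Prod.snd_add, Prod.mk_add_mk, map_add]
    refine Prod.ext rfl (Prod.ext ?_ (Prod.ext ?_ ?_)) <;> abel
  map_smul' := by
    intro c a
    simp only [Prod.smul_fst, Prod.smul_snd, Prod.smul_mk, RingHom.id_apply, map_smul, smul_add]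

theorem A4_apply (u : K) (z : Q4 M) : w.A4 u z = (w.A0 u z.1, w.A0 u z.2.1 + w.x1 z.1,
    w.A0 u z.2.2.1 + w.x1 (w.T1 z.2.1), w.A0 u z.2.2.2 + w.x1 z.2.1) := rfl

/-- The evaluation intertwines the refined and the graded insertion. -/
theorem evV_A4 (u v : K) (z : Q4 M) (y : ℕ → M) (h : tr3 K M y = evV v M z) :
    tr3 K M (w.Ag u v y) = evV v M (w.A4 u z) := by
  obtain ⟨z0, z1, z2, z3⟩ := z
  have h0 : y 0 = z0 := congrArg Prod.fst h
  have h1 : y 1 = v • z1 := congrArg (fun p => p.2.1) h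
  have h2 : y 2 = v • z2 + v ^ 2 • z3 := congrArg (fun p => p.2.2) h
  change (w.Ag u v y 0, w.Ag u v y 1, w.Ag u v y 2) = _
  rw [w.Ag_zero, w.Ag_one, w.Ag_succ u v y 0, zero_add, zero_add, h0, h1, h2, evV_apply,
    A4_apply]
  refine Prod.ext rfl (Prod.ext ?_ ?_)
  · simp only [map_smul, smul_add]
  · simp only [map_smul, smul_add, map_add]
    rw [smul_smul, ← pow_two]
    abel

theorem evV_A4_pow (u v : K) (k : ℕ) (z : Q4 M) (y : ℕ → M) (h : tr3 K M y = evV v M z) :
    tr3 K M ((w.Ag u v ^ k) y) = evV v M ((w.A4 u ^ k) z) := by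
  induction k with
  | zero => exact h
  | succ k ih =>
    rw [pow_succ', pow_succ', Module.End.mul_apply, Module.End.mul_apply]
    exact w.evV_A4 u v _ _ ih

theorem tr3_cl (v : K) (z : Q4 M) (y : ℕ → M) (h : tr3 K M y = evV v M z) :
    tr3 K N (w.clg y) = evV v N (m4 w.cl z) := by
  rw [evV_m4, ← h]
  rfl

theorem tr3_i (v : K) (z : Q4 N) (y : ℕ → N) (h : tr3 K N y = evV v N z) :
    tr3 K M (w.ig y) = evV v M (m4 w.i z) := by
  rw [evV_m4, ← h]
  rfl

/-- The refined process. -/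
theorem exists_K4 (al u : K) (h : al ^ 2 + al ≠ 0) {K1 K2 : Lam K →ₗ[K] (ℕ → N)}
    (h1 : w.Good al u 1 K1) (h2 : w.Good al u (-al) K2) :
    ∃ Kc : Lam K →ₗ[K] Q4 N, Kc 1 = (w.e, 0, 0, 0) ∧
      (∀ k f, k ≠ 0 → Kc (X k * f) = m4 w.cl ((w.A4 u ^ k) (m4 w.i (Kc f)))) ∧
      (∀ f, Kc (X 0 * f) = 0) ∧ (∀ f, tr3 K N (K1 f) = evV (1 : K) N (Kc f)) ∧
      (∀ f, tr3 K N (K2 f) = evV (-al) N (Kc f)) := by
  have hex : ∀ f : Lam K, ∃ y : Q4 N, tr3 K N (K1 f) = evV (1 : K) N y ∧
      tr3 K N (K2 f) = evV (-al) N y := by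
    intro f
    induction f using MvPolynomial.induction_on with
    | C c =>
      have e1 : (C c : Lam K) = c • 1 := by rw [smul_eq_C_mul, mul_one]
      have e2 : ∀ v : K, tr3 K N (Pi.single 0 w.e) = evV v N (w.e, 0, 0, 0) := by
        intro v
        change (_, _, _) = (_, _, _)
        simp
      refine ⟨c • (w.e, 0, 0, 0), ?_, ?_⟩
      · rw [e1, map_smul, map_smul, map_smul, h1.one, e2]
      · rw [e1, map_smul, map_smul, map_smul, h2.one, e2]
    | add p q hp hq =>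
      obtain ⟨y, hy1, hy2⟩ := hp
      obtain ⟨y', hy1', hy2'⟩ := hq
      exact ⟨y + y', by rw [map_add, map_add, map_add, hy1, hy1'],
        by rw [map_add, map_add, map_add, hy2, hy2']⟩
    | mul_X p k hp =>
      obtain ⟨y, hy1, hy2⟩ := hp
      rcases eq_or_ne k 0 with rfl | hk
      · refine ⟨0, ?_, ?_⟩
        · rw [mul_comm, h1.zero, map_zero, map_zero]
        · rw [mul_comm, h2.zero, map_zero, map_zero]
      · refine ⟨m4 w.cl ((w.A4 u ^ k) (m4 w.i y)), ?_, ?_⟩
        · rw [mul_comm, h1.mul k p hk]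
          exact w.tr3_cl _ _ _ (w.evV_A4_pow _ _ _ _ _ (w.tr3_i _ _ _ hy1))
        · rw [mul_comm, h2.mul k p hk]
          exact w.tr3_cl _ _ _ (w.evV_A4_pow _ _ _ _ _ (w.tr3_i _ _ _ hy2))
  let Kc : Lam K →ₗ[K] Q4 N :=
    recV al N ∘ₗ ((tr3 K N ∘ₗ K1).prod (tr3 K N ∘ₗ K2))
  have hKc : ∀ (f : Lam K) (y : Q4 N), tr3 K N (K1 f) = evV (1 : K) N y →
      tr3 K N (K2 f) = evV (-al) N y → Kc f = y := by
    intro f y hy1 hy2
    change recV al N (tr3 K N (K1 f), tr3 K N (K2 f)) = y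
    rw [hy1, hy2, recV_evV al h]
  have hev : ∀ f, tr3 K N (K1 f) = evV (1 : K) N (Kc f) ∧ tr3 K N (K2 f) = evV (-al) N (Kc f) := by
    intro f
    obtain ⟨y, hy1, hy2⟩ := hex f
    rw [hKc f y hy1 hy2]
    exact ⟨hy1, hy2⟩
  refine ⟨Kc, ?_, ?_, ?_, fun f => (hev f).1, fun f => (hev f).2⟩
  · have e2 : ∀ v : K, tr3 K N (Pi.single 0 w.e) = evV v N (w.e, 0, 0, 0) := by
      intro v
      change (_, _, _) = (_, _, _)
      simp
    apply hKc
    · rw [h1.one, e2]
    · rw [h2.one, e2]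
  · intro k f hk
    apply hKc
    · rw [h1.mul k f hk]
      exact w.tr3_cl _ _ _ (w.evV_A4_pow _ _ _ _ _ (w.tr3_i _ _ _ (hev f).1))
    · rw [h2.mul k f hk]
      exact w.tr3_cl _ _ _ (w.evV_A4_pow _ _ _ _ _ (w.tr3_i _ _ _ (hev f).2))
  · intro f
    apply hKc
    · rw [h1.zero, map_zero, map_zero]
    · rw [h2.zero, map_zero, map_zero]

end WMod

end

end Pool.Agent.MJT
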