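import Pool.Agent.MJT.RhoK

/-!
The operators of the refined process commute with all `H al r`.
-/

namespace Pool.Agent.MJT

open MvPolynomial Pool.Agent.MJR Pool.Agent.MJR.GradeM

noncomputable section

variable {K : Type} [Field K] {M N : Type} [AddCommGroup M] [Module K M]
    [AddCommGroup N] [Module K N]

theorem H0_S (al : K) {n : ℕ} {f : Lam K} (hf : f ∈ S K n) : H al 0 f = (al * n) • f := by
  rw [H_zero]
  induction hf using Submodule.span_induction with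
  | mem f hf =>
    obtain ⟨s, h0, hs, rfl⟩ := hf
    have h := E_pp (K := K) (n := n)
      ⟨s, fun {i} hi => Nat.pos_of_ne_zero fun h => h0 (h ▸ hi), hs⟩
    have e1 : E K (mon K s) = C (n : K) * mon K s := h
    rw [LinearMap.smul_apply, e1, ← smul_eq_C_mul, smul_smul]
  | zero => rw [map_zero, smul_zero]
  | add a b _ _ ha hb => rw [map_add, ha, hb, smul_add]
  | smul c a _ ha => rw [map_smul, ha, smul_comm]

namespace WMod

variable (w : WMod K M N)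

/-- The refined process commutes with the Lax operator. -/
structure K4St (al u : K) (Kc : Lam K →ₗ[K] Q4 N) : Prop where
  one : Kc 1 = (w.e, 0, 0, 0)
  mul : ∀ k f, k ≠ 0 → Kc (X k * f) = m4 w.cl ((w.A4 u ^ k) (m4 w.i (Kc f)))
  zero : ∀ f, Kc (X 0 * f) = 0
  comm : ∀ G : LW K, m4 w.F (AbsM.Kh (w.A4 u) (m4 w.i) Kc (Zf al G)) =
    m4 (Zf al) (m4 w.F (AbsM.Kh (w.A4 u) (m4 w.i) Kc G))

theorem tr3_Kh (u v : K) {K1 : Lam K →ₗ[K] (ℕ → N)} {Kc : Lam K →ₗ[K] Q4 N}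
    (h : ∀ f, tr3 K N (K1 f) = evV v N (Kc f)) (G : LW K) :
    tr3 K M (AbsM.Kh (w.Ag u v) w.ig K1 G) =
      evV v M (AbsM.Kh (w.A4 u) (m4 w.i) Kc G) := by
  induction G using Polynomial.induction_on' with
  | add p q hp hq => rw [map_add, map_add, map_add, map_add, hp, hq]
  | monomial m f =>
    rw [AbsM.Kh_monomial, AbsM.Kh_monomial]
    exact w.evV_A4_pow _ _ _ _ _ (w.tr3_i _ _ _ (h f))

theorem exists_K4St (al u : K) (h : al ^ 2 + al ≠ 0) {K1 K2 : Lam K →ₗ[K] (ℕ → N)}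
    (h1 : w.Good al u 1 K1) (h2 : w.Good al u (-al) K2) :
    ∃ Kc : Lam K →ₗ[K] Q4 N, w.K4St al u Kc ∧ (∀ f, tr3 K N (K1 f) = evV (1 : K) N (Kc f)) ∧
      (∀ f, tr3 K N (K2 f) = evV (-al) N (Kc f)) := by
  obtain ⟨Kc, k1, k2, k3, k4, k5⟩ := w.exists_K4 al u h h1 h2
  refine ⟨Kc, ⟨k1, k2, k3, ?_⟩, k4, k5⟩
  have key : ∀ (v : K) (K1 : Lam K →ₗ[K] (ℕ → N)), w.Good al u v K1 →
      (∀ f, tr3 K N (K1 f) = evV v N (Kc f)) → ∀ G : LW K,
      evV v (LW K) (m4 w.F (AbsM.Kh (w.A4 u) (m4 w.i) Kc (Zf al G))) =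
      evV v (LW K) (m4 (Zf al) (m4 w.F (AbsM.Kh (w.A4 u) (m4 w.i) Kc G))) := by
    intro v K1 hg he G
    rw [evV_m4, evV_m4, evV_m4, ← w.tr3_Kh u v he, ← w.tr3_Kh u v he]
    change (w.F (AbsM.Kh (w.Ag u v) w.ig K1 (Zf al G) 0),
      w.F (AbsM.Kh (w.Ag u v) w.ig K1 (Zf al G) 1),
      w.F (AbsM.Kh (w.Ag u v) w.ig K1 (Zf al G) 2)) = _
    rw [hg.comm, hg.comm, hg.comm]
    rfl
  intro G
  exact evV_inj al h (LW K) (key 1 K1 h1 k4 G) (key (-al) K2 h2 k5 G)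

/-- The component `j` of a quadruple. -/
def pr (K : Type) [Field K] (V : Type) [AddCommGroup V] [Module K V] (j : Fin 4) :
    Q4 V →ₗ[K] V where
  toFun z := match j with
    | 0 => z.1
    | 1 => z.2.1
    | 2 => z.2.2.1
    | 3 => z.2.2.2
  map_add' := by
    intro a b
    fin_cases j <;> rfl
  map_smul' := by
    intro c a
    fin_cases j <;> rfl

theorem pr_m4 {V W : Type} [AddCommGroup V] [Module K V] [AddCommGroup W] [Module K W]
    (g : V →ₗ[K] W) (j : Fin 4) (z : Q4 V) : pr K W j (m4 g z) = g (pr K V j z) := by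
  fin_cases j <;> rfl

variable (al u : K) (Kc : Lam K →ₗ[K] Q4 N)

/-- the refined process with a root -/
def Z4 : LW K →ₗ[K] Q4 M := AbsM.Kh (w.A4 u) (m4 w.i) Kc

/-- the component `j` of the process with a root, colours forgotten -/
def Pj (j : Fin 4) : LW K →ₗ[K] LW K := w.F ∘ₗ pr K M j ∘ₗ w.Z4 u Kc

/-- the component `j` of the process, colours forgotten -/
def Qj (j : Fin 4) : Lam K →ₗ[K] Lam K := w.Fc ∘ₗ pr K N j ∘ₗ Kc

/-- one touch more -/
def Xi : LW K →ₗ[K] LW K := w.F ∘ₗ w.T1 ∘ₗ pr K M 2 ∘ₗ w.Z4 u Kc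

variable {al u Kc}

theorem Z4_monomial (m : ℕ) (f : Lam K) :
    w.Z4 u Kc (Polynomial.monomial m f) = (w.A4 u ^ m) (m4 w.i (Kc f)) :=
  AbsM.Kh_monomial Kc m f

theorem Z4_C (f : Lam K) : w.Z4 u Kc (Polynomial.C f) = m4 w.i (Kc f) := AbsM.Kh_C Kc f

theorem Z4_X_mul (G : LW K) : w.Z4 u Kc (Polynomial.X * G) = w.A4 u (w.Z4 u Kc G) :=
  AbsM.Kh_X_mul Kc G

theorem Pj_Zf (hK : w.K4St al u Kc) (j : Fin 4) (G : LW K) :
    w.Pj u Kc j (Zf al G) = Zf al (w.Pj u Kc j G) := by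
  have h := congrArg (pr K (LW K) j) (hK.comm G)
  rw [pr_m4, pr_m4, pr_m4] at h
  exact h

theorem Pj_C (hF : ForgetSt al w) (j : Fin 4) (f : Lam K) :
    w.Pj u Kc j (Polynomial.C f) = Polynomial.C (w.Qj Kc j f) := by
  change w.F (pr K M j (w.Z4 u Kc (Polynomial.C f))) = _
  rw [Z4_C, pr_m4, hF.i]
  rfl

theorem i0_F_A4 (hF : ForgetSt al w) (j : Fin 4) (z : Q4 M) :
    i0 K (w.F (pr K M j (w.A4 u z))) = 0 := by
  have h0 : ∀ x, i0 K (w.F (w.x0 x)) = 0 := fun x => by rw [hF.x0, i0_X_mul]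
  have h1 : ∀ x, i0 K (w.F (w.x1 x)) = 0 := fun x => by rw [hF.x1, i0_X_mul]
  rw [A4_apply]
  fin_cases j
  · exact h0 _
  · change i0 K (w.F (w.x0 _ + w.x1 _)) = 0
    rw [map_add, map_add, h0, h1, add_zero]
  · change i0 K (w.F (w.x0 _ + w.x1 _)) = 0
    rw [map_add, map_add, h0, h1, add_zero]
  · change i0 K (w.F (w.x0 _ + w.x1 _)) = 0
    rw [map_add, map_add, h0, h1, add_zero]

theorem i0_Pj (hF : ForgetSt al w) (j : Fin 4) (G : LW K) :
    i0 K (w.Pj u Kc j G) = w.Qj Kc j (i0 K G) := by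
  induction G using Polynomial.induction_on' with
  | add p q hp hq => rw [map_add, map_add, map_add, map_add, hp, hq]
  | monomial m f =>
    rcases m with _ | m
    · rw [Polynomial.monomial_zero_left, w.Pj_C hF, i0_apply, i0_apply, Polynomial.coeff_C_zero,
        Polynomial.coeff_C_zero]
    · rw [← Polynomial.X_mul_monomial, i0_X_mul, map_zero]
      change i0 K (w.F (pr K M j (w.Z4 u Kc (Polynomial.X * _)))) = 0
      rw [Z4_X_mul, w.i0_F_A4 hF]

theorem Pj_Zf_pow (hK : w.K4St al u Kc) (j : Fin 4) (k : ℕ) (G : LW K) :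
    w.Pj u Kc j ((Zf al ^ k) G) = (Zf al ^ k) (w.Pj u Kc j G) := by
  induction k with
  | zero => rfl
  | succ k ih =>
    rw [pow_succ', Module.End.mul_apply, Module.End.mul_apply, w.Pj_Zf hK, ih]

theorem Qj_Mo (hF : ForgetSt al w) (hK : w.K4St al u Kc) (j : Fin 4) (k : ℕ) (f : Lam K) :
    w.Qj Kc j (Mo al k f) = Mo al k (w.Qj Kc j f) := by
  rw [Mo_apply, Mo_apply, ← w.i0_Pj (u := u) hF, w.Pj_Zf_pow hK, w.Pj_C hF]

theorem Qj_H (hF : ForgetSt al w) (hK : w.K4St al u Kc) (j : Fin 4) {n : ℕ} (r : ℕ) :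
    ∀ f ∈ S K n, w.Qj Kc j (H al r f) = H al r (w.Qj Kc j f) :=
  comm_H_of_Mo al (w.Qj Kc j) (fun k f _ => w.Qj_Mo hF hK j k f) r

/-! ### The grading -/

theorem A4_grad {SM : ℕ → Submodule K M} {SN : ℕ → Submodule K N} (hG : GradSt w SM SN) {n : ℕ}
    {z : Q4 M} (hz : ∀ j, pr K M j z ∈ SM n) (j : Fin 4) : pr K M j (w.A4 u z) ∈ SM (n + 1) := by
  have h0 := hz 0
  have h1 := hz 1
  have h2 := hz 2
  have h3 := hz 3
  have hA : ∀ x ∈ SM n, w.A0 u x ∈ SM (n + 1) := by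
    intro x hx
    rw [A0_apply]
    exact hG.x0 n _ (Submodule.add_mem _ (Submodule.smul_mem _ _ hx) (hG.t0 n _ hx))
  rw [A4_apply]
  fin_cases j
  · exact hA _ h0
  · exact Submodule.add_mem _ (hA _ h1) (hG.x1 n _ h0)
  · exact Submodule.add_mem _ (hA _ h2) (hG.x1 n _ (hG.t1 n _ h1))
  · exact Submodule.add_mem _ (hA _ h3) (hG.x1 n _ h1)

theorem A4_pow_grad {SM : ℕ → Submodule K M} {SN : ℕ → Submodule K N} (hG : GradSt w SM SN)
    {n : ℕ} (k : ℕ) {z : Q4 M} (hz : ∀ j, pr K M j z ∈ SM n) (j : Fin 4) :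
    pr K M j ((w.A4 u ^ k) z) ∈ SM (k + n) := by
  induction k generalizing j with
  | zero => rw [pow_zero, zero_add]; exact hz j
  | succ k ih =>
    have e1 : k + 1 + n = (k + n) + 1 := by omega
    rw [pow_succ', Module.End.mul_apply, e1]
    exact w.A4_grad hG ih j

theorem m4i_grad {SM : ℕ → Submodule K M} {SN : ℕ → Submodule K N} (hG : GradSt w SM SN) {n : ℕ}
    {z : Q4 N} (hz : ∀ j, pr K N j z ∈ SN n) (j : Fin 4) : pr K M j (m4 w.i z) ∈ SM n := by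
  rw [pr_m4]
  exact hG.i n _ (hz j)

theorem Kc_grad {SM : ℕ → Submodule K M} {SN : ℕ → Submodule K N} (hG : GradSt w SM SN)
    (hK : w.K4St al u Kc) {n : ℕ} {f : Lam K} (hf : f ∈ S K n) (j : Fin 4) :
    pr K N j (Kc f) ∈ SN n := by
  have h : ∀ s : Multiset ℕ, 0 ∉ s → ∀ j, pr K N j (Kc (mon K s)) ∈ SN s.sum := by
    intro s
    induction s using Multiset.induction_on with
    | empty =>
      intro _ j
      rw [mon_zero, hK.one, Multiset.sum_zero]
      fin_cases j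
      · exact hG.e
      · exact Submodule.zero_mem _
      · exact Submodule.zero_mem _
      · exact Submodule.zero_mem _
    | cons k s ih =>
      intro h0 j
      rw [Multiset.mem_cons, not_or] at h0
      rw [mon_cons, hK.mul k _ (fun h => h0.1 h.symm), pr_m4, Multiset.sum_cons]
      exact hG.cl _ _ (w.A4_pow_grad hG k (w.m4i_grad hG (ih h0.2)) j)
  induction hf using Submodule.span_induction with
  | mem f hf =>
    obtain ⟨s, h0, hs, rfl⟩ := hf
    rw [← hs]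
    exact h s h0 j
  | zero => rw [map_zero, map_zero]; exact Submodule.zero_mem _
  | add a b _ _ ha hb => rw [map_add, map_add]; exact Submodule.add_mem _ ha hb
  | smul c a _ ha => rw [map_smul, map_smul]; exact Submodule.smul_mem _ _ ha

theorem Z4_grad {SM : ℕ → Submodule K M} {SN : ℕ → Submodule K N} (hG : GradSt w SM SN)
    (hK : w.K4St al u Kc) {n : ℕ} {G : LW K} (hf : G ∈ T K n) (j : Fin 4) :
    pr K M j (w.Z4 u Kc G) ∈ SM n := by
  induction hf using Submodule.span_induction with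
  | mem f hf =>
    obtain ⟨m, s, h0, hs, rfl⟩ := hf
    rw [Z4_monomial, ← hs]
    exact w.A4_pow_grad hG m (w.m4i_grad hG (w.Kc_grad hG hK (mem_S h0 rfl))) j
  | zero => rw [map_zero, map_zero]; exact Submodule.zero_mem _
  | add a b _ _ ha hb => rw [map_add, map_add]; exact Submodule.add_mem _ ha hb
  | smul c a _ ha => rw [map_smul, map_smul]; exact Submodule.smul_mem _ _ ha

theorem Qj_S {SM : ℕ → Submodule K M} {SN : ℕ → Submodule K N} (hG : GradSt w SM SN)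
    (hK : w.K4St al u Kc) (j : Fin 4) {n : ℕ} {f : Lam K} (hf : f ∈ S K n) :
    w.Qj Kc j f ∈ S K n := hG.Fc _ _ (w.Kc_grad hG hK hf j)

theorem Pj_T {SM : ℕ → Submodule K M} {SN : ℕ → Submodule K N} (hG : GradSt w SM SN)
    (hK : w.K4St al u Kc) (j : Fin 4) {n : ℕ} {G : LW K} (hf : G ∈ T K n) :
    w.Pj u Kc j G ∈ T K n := hG.F _ _ (w.Z4_grad hG hK hf j)

theorem Xi_T {SM : ℕ → Submodule K M} {SN : ℕ → Submodule K N} (hG : GradSt w SM SN)
    (hK : w.K4St al u Kc) {n : ℕ} {G : LW K} (hf : G ∈ T K n) :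
    w.Xi u Kc G ∈ T K n := hG.F _ _ (hG.t1 _ _ (w.Z4_grad hG hK hf 2))

/-! ### The operators with a root -/

/-- `Bx Pj Bs` -/
def Tj (al u : K) (Kc : Lam K →ₗ[K] Q4 N) (j : Fin 4) : Lam K →ₗ[K] Lam K :=
  Bx K ∘ₗ w.Pj u Kc j ∘ₗ Bs al

/-- `Bx Xi Bs` -/
def TXi (al u : K) (Kc : Lam K →ₗ[K] Q4 N) : Lam K →ₗ[K] Lam K :=
  Bx K ∘ₗ w.Xi u Kc ∘ₗ Bs al

theorem Bs_S_zero (al : K) {h : Lam K} (hh : h ∈ S K 0) : Bs al h = 0 := by
  induction hh using Submodule.span_induction with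
  | mem f hf =>
    obtain ⟨s, h0, hs, rfl⟩ := hf
    have h2 : s = 0 := by
      by_contra h3
      obtain ⟨x, hx⟩ := Multiset.exists_mem_of_ne_zero h3
      have h4 := CycM.le_sum s hx
      have h5 : x ≠ 0 := fun h => h0 (h ▸ hx)
      omega
    rw [h2, mon_zero, Bs_apply, U_one, Polynomial.divX_zero]
  | zero => rw [map_zero]
  | add a b _ _ ha hb => rw [map_add, ha, hb, add_zero]
  | smul c a _ ha => rw [map_smul, ha, smul_zero]

theorem Tq_H [CharZero K] (hal : al ≠ 0) {Dh : LW K →ₗ[K] LW K} (hD : DhatSt K al Dh)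
    (hF : ForgetSt al w) (hK : w.K4St al u Kc) (j : Fin 4) (q : Polynomial K) {n : ℕ} (r : ℕ) :
    ∀ h ∈ S K n, Bx K ((Polynomial.aeval (Zf al) q) (w.Pj u Kc j (Bs al (H al r h)))) =
      H al r (Bx K ((Polynomial.aeval (Zf al) q) (w.Pj u Kc j (Bs al h)))) := by
  intro h hh
  rcases n with _ | n
  · rw [Bs_S_zero al hh, Bs_S_zero al (H_S al r hh)]
    simp only [map_zero]
  · exact ext al hal hD (w.Pj u Kc j) (w.Qj Kc j) (fun G _ => w.Pj_Zf hK j G)
      (fun f _ => w.Pj_C hF j f) (fun k f _ => w.Qj_Mo hF hK j k f) q r h hh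

theorem Tj_H [CharZero K] (hal : al ≠ 0) {Dh : LW K →ₗ[K] LW K} (hD : DhatSt K al Dh)
    (hF : ForgetSt al w) (hK : w.K4St al u Kc) (j : Fin 4) {n : ℕ} (r : ℕ) :
    ∀ h ∈ S K n, w.Tj al u Kc j (H al r h) = H al r (w.Tj al u Kc j h) := by
  intro h hh
  have h1 := w.Tq_H hal hD hF hK j 1 r h hh
  rw [map_one, Module.End.one_apply, Module.End.one_apply] at h1
  exact h1

theorem X_mul_Bs (al : K) (h : Lam K) : Polynomial.X * Bs al h = Zf al (Polynomial.C h) := by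
  rw [Bs_apply, Zf_C]
  have h1 := Polynomial.divX_mul_X_add (U al h)
  have h2 : (U al h).coeff 0 = 0 := by
    rw [FormM.coeff_U]
    simp
  rw [h2, map_zero, add_zero, mul_comm] at h1
  exact h1

/-- The formula for the operator with one touch more. -/
theorem TXi_eq (hF : ForgetSt al w) (hK : w.K4St al u Kc) (h : Lam K) :
    w.TXi al u Kc h =
      Bx K ((Polynomial.aeval (Zf al) (Polynomial.C u + Polynomial.X))
        (w.Pj u Kc 2 (Bs al h))) +
      Bx K ((Polynomial.aeval (Zf al) (Polynomial.C u + Polynomial.X))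
        (w.Pj u Kc 1 (Bs al h))) +
      Bx K ((Polynomial.aeval (Zf al) (1 : Polynomial K)) (w.Pj u Kc 0 (Bs al h))) -
      H al 0 (w.Qj Kc 2 h) - H al 0 (w.Qj Kc 1 h) := by
  -- the action on `X * G`
  have hz : ∀ G : LW K, w.Pj u Kc 2 (Polynomial.X * G) + w.Pj u Kc 1 (Polynomial.X * G) =
      Polynomial.X * (u • w.Pj u Kc 2 G + Zf al (w.Pj u Kc 2 G) + (u • w.Pj u Kc 1 G +
        Zf al (w.Pj u Kc 1 G)) + w.Pj u Kc 0 G) - Polynomial.X * w.Xi u Kc G := by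
    intro G
    have e2 : w.Pj u Kc 2 (Polynomial.X * G) =
        w.F (w.A0 u (w.Z4 u Kc G).2.2.1 + w.x1 (w.T1 (w.Z4 u Kc G).2.1)) := by
      change w.F (pr K M 2 (w.Z4 u Kc (Polynomial.X * G))) = _
      rw [Z4_X_mul]
      rfl
    have e1 : w.Pj u Kc 1 (Polynomial.X * G) =
        w.F (w.A0 u (w.Z4 u Kc G).2.1 + w.x1 (w.Z4 u Kc G).1) := by
      change w.F (pr K M 1 (w.Z4 u Kc (Polynomial.X * G))) = _
      rw [Z4_X_mul]
      rfl
    have hA : ∀ x, w.F (w.A0 u x) = Polynomial.X * (u • w.F x + (Zf al (w.F x) -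
        w.F (w.T1 x))) := by
      intro x
      rw [A0_apply, hF.x0, map_add, map_smul, ← hF.t x]
      ring
    rw [e2, e1, map_add, map_add, hA, hA, hF.x1, hF.x1]
    change _ = Polynomial.X * (u • w.F (w.Z4 u Kc G).2.2.1 + Zf al (w.F (w.Z4 u Kc G).2.2.1) +
      (u • w.F (w.Z4 u Kc G).2.1 + Zf al (w.F (w.Z4 u Kc G).2.1)) + w.F (w.Z4 u Kc G).1) -
      Polynomial.X * w.F (w.T1 (w.Z4 u Kc G).2.2.1)
    ring
  have h1 := congrArg Tr (hz (Bs al h))
  rw [map_add, map_sub, X_mul_Bs, w.Pj_Zf hK, w.Pj_Zf hK, w.Pj_C hF, w.Pj_C hF, Zf_C, Zf_C,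
    ← H_zero_apply, ← H_zero_apply] at h1
  have h2 : ∀ x : LW K, (Polynomial.aeval (Zf al) (Polynomial.C u + Polynomial.X)) x =
      u • x + Zf al x := by
    intro x
    rw [map_add, Polynomial.aeval_C, Polynomial.aeval_X, LinearMap.add_apply,
      Module.algebraMap_end_apply]
  rw [h2, h2, map_one, Module.End.one_apply]
  change Tr (Polynomial.X * w.Xi u Kc (Bs al h)) = Tr (Polynomial.X * _) +
    Tr (Polynomial.X * _) + Tr (Polynomial.X * _) - _ - _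
  rw [← map_add, ← map_add, ← mul_add, ← mul_add]
  rw [eq_sub_iff_add_eq] at h1
  rw [sub_sub, ← h1]
  abel

theorem TXi_H [CharZero K] (hal : al ≠ 0) {Dh : LW K →ₗ[K] LW K} (hD : DhatSt K al Dh)
    (hF : ForgetSt al w) (hK : w.K4St al u Kc) {SM : ℕ → Submodule K M}
    {SN : ℕ → Submodule K N} (hG : GradSt w SM SN) {n : ℕ} (r : ℕ) :
    ∀ h ∈ S K n, w.TXi al u Kc (H al r h) = H al r (w.TXi al u Kc h) := by
  intro h hh
  have h0 : ∀ j : Fin 4, H al 0 (w.Qj Kc j (H al r h)) = H al r (H al 0 (w.Qj Kc j h)) := by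
    intro j
    rw [w.Qj_H hF hK j r h hh, H0_S al (H_S al r (w.Qj_S hG hK j hh)),
      H0_S al (w.Qj_S hG hK j hh), map_smul]
  rw [w.TXi_eq hF hK, w.TXi_eq hF hK, w.Tq_H hal hD hF hK 2 _ r h hh,
    w.Tq_H hal hD hF hK 1 _ r h hh, w.Tq_H hal hD hF hK 0 _ r h hh, h0, h0]
  simp only [map_add, map_sub]

end WMod

end

end Pool.Agent.MJT
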