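import Pool.Agent.MJT.RhoOp

/-!
Positivity of the refined process.
-/

namespace Pool.Agent.MJT

open MvPolynomial Pool.Agent.MJR Pool.Agent.MJR.GradeM

noncomputable section

variable {K : Type} [Field K] {V W : Type} [AddCommGroup V] [Module K V] [AddCommGroup W]
  [Module K W]

/-- `g u = ∑ u^l t_l` with `t_l ∈ P`. -/
def PolP (P : AddSubmonoid V) (g : K → V) : Prop :=
  ∃ (d : ℕ) (t : ℕ → V), (∀ l, t l ∈ P) ∧ ∀ u, g u = ∑ l ∈ Finset.range d, u ^ l • t l

theorem PolP.const {P : AddSubmonoid V} {x : V} (hx : x ∈ P) : PolP (K := K) P fun _ => x :=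
  ⟨1, fun _ => x, fun _ => hx, fun u => by simp⟩

theorem PolP.zero (P : AddSubmonoid V) : PolP (K := K) P fun _ => (0 : V) :=
  PolP.const P.zero_mem

theorem PolP.congr {P : AddSubmonoid V} {g g' : K → V} (h : PolP P g) (hg : ∀ u, g u = g' u) :
    PolP P g' := by
  obtain ⟨d, t, h1, h2⟩ := h
  exact ⟨d, t, h1, fun u => by rw [← hg, h2]⟩

theorem PolP.add {P : AddSubmonoid V} {g g' : K → V} (h : PolP P g) (h' : PolP P g') :
    PolP P fun u => g u + g' u := by
  obtain ⟨d, t, h1, h2⟩ := h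
  obtain ⟨d', t', h1', h2'⟩ := h'
  refine ⟨d + d', fun l => (if l < d then t l else 0) + (if l < d' then t' l else 0), ?_, ?_⟩
  · intro l
    refine P.add_mem ?_ ?_
    · split_ifs
      · exact h1 l
      · exact P.zero_mem
    · split_ifs
      · exact h1' l
      · exact P.zero_mem
  · intro u
    have e1 : ∀ (a c : ℕ) (s : ℕ → V), a ≤ c →
        ∑ l ∈ Finset.range a, u ^ l • s l =
          ∑ l ∈ Finset.range c, u ^ l • (if l < a then s l else 0) := by
      intro a c s hac
      rw [← Finset.sum_subset (Finset.range_mono hac)]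
      · refine Finset.sum_congr rfl fun l hl => ?_
        rw [if_pos (Finset.mem_range.mp hl)]
      · intro l _ hl
        rw [if_neg (fun h => hl (Finset.mem_range.mpr h)), smul_zero]
    beta_reduce
    rw [h2, h2', e1 d (d + d') t (by omega), e1 d' (d + d') t' (by omega),
      ← Finset.sum_add_distrib]
    refine Finset.sum_congr rfl fun l _ => ?_
    rw [smul_add]

theorem PolP.smul {P : AddSubmonoid V} {g : K → V} (h : PolP P g) :
    PolP P fun u => u • g u := by
  obtain ⟨d, t, h1, h2⟩ := h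
  refine ⟨d + 1, fun l => match l with
    | 0 => 0
    | l + 1 => t l, ?_, ?_⟩
  · intro l
    rcases l with _ | l
    · exact P.zero_mem
    · exact h1 l
  · intro u
    beta_reduce
    rw [h2, Finset.sum_range_succ', smul_zero, add_zero, Finset.smul_sum]
    refine Finset.sum_congr rfl fun l _ => ?_
    rw [smul_smul, ← pow_succ']

theorem PolP.map {P : AddSubmonoid V} {P' : AddSubmonoid W} {g : K → V} (h : PolP P g)
    (L : V →ₗ[K] W) (hL : ∀ x ∈ P, L x ∈ P') : PolP P' fun u => L (g u) := by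
  obtain ⟨d, t, h1, h2⟩ := h
  refine ⟨d, fun l => L (t l), fun l => hL _ (h1 l), fun u => ?_⟩
  beta_reduce
  rw [h2, map_sum]
  refine Finset.sum_congr rfl fun l _ => ?_
  rw [map_smul]

theorem PolP.msum {P : AddSubmonoid V} {ι : Type} (s : Multiset ι) {g : ι → K → V}
    (h : ∀ i ∈ s, PolP P (g i)) : PolP P fun u => (s.map fun i => g i u).sum := by
  induction s using Multiset.induction_on with
  | empty => exact PolP.zero P
  | cons i s ih =>
    refine ((h i (Multiset.mem_cons_self _ _)).add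
      (ih fun j hj => h j (Multiset.mem_cons_of_mem hj))).congr fun u => ?_
    rw [Multiset.map_cons, Multiset.sum_cons]

/-! ### Cones of polynomials -/

/-- polynomials in the power sums with coefficients in `PL` -/
def CL (PL : Subsemiring K) : AddSubmonoid (Lam K) where
  carrier := {f | ∀ m, coeff m f ∈ PL}
  add_mem' := by
    intro f g hf hg m
    rw [coeff_add]
    exact add_mem (hf m) (hg m)
  zero_mem' := by
    intro m
    rw [coeff_zero]
    exact zero_mem _

/-- the same with a root -/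
def CLW (PL : Subsemiring K) : AddSubmonoid (LW K) where
  carrier := {G | ∀ j m, coeff m (G.coeff j) ∈ PL}
  add_mem' := by
    intro f g hf hg j m
    rw [Polynomial.coeff_add, coeff_add]
    exact add_mem (hf j m) (hg j m)
  zero_mem' := by
    intro j m
    rw [Polynomial.coeff_zero, coeff_zero]
    exact zero_mem _

theorem CL_X_mul {PL : Subsemiring K} {f : Lam K} (hf : f ∈ CL PL) (k : ℕ) : X k * f ∈ CL PL := by
  classical
  intro m
  rw [coeff_X_mul']
  split_ifs
  · exact hf _
  · exact zero_mem _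

theorem Bx_CLW {PL : Subsemiring K} {G : LW K} (hG : G ∈ CLW PL) : Bx K G ∈ CL PL := by
  rw [← Polynomial.sum_monomial_eq G, Polynomial.sum_def, map_sum]
  refine AddSubmonoid.sum_mem _ fun j _ => ?_
  rw [Bx_monomial]
  exact CL_X_mul (fun m => hG j m) _

/-- `∑ over k in s of k • w^(k-1) p_(s - k)` -/
def bs (K : Type) [Field K] (s : Multiset ℕ) : LW K :=
  (s.map fun k : ℕ => (k : K) • (Polynomial.monomial (k - 1) (mon K (s.erase k)) : LW K)).sum

theorem Bs_mon (al : K) (s : Multiset ℕ) (h0 : 0 ∉ s) : Bs al (mon K s) = al • bs K s := by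
  classical
  induction s using Multiset.induction_on with
  | empty =>
    rw [mon_zero, Bs_apply, U_one, Polynomial.divX_zero]
    unfold bs
    simp
  | cons k s ih =>
    rw [Multiset.mem_cons, not_or] at h0
    have hk : k ≠ 0 := fun h => h0.1 h.symm
    have e1 : Bs al (mon K (k ::ₘ s)) = Polynomial.C (X k) * Bs al (mon K s) +
        (al * k) • Polynomial.monomial (k - 1) (mon K s) := by
      rw [mon_cons, Bs_apply, Bs_apply, U_mul, Polynomial.divX_add, Polynomial.divX_C_mul, U_X,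
        Polynomial.C_mul_monomial]
      congr 1
      apply Polynomial.ext
      intro j
      rw [Polynomial.coeff_divX, Polynomial.coeff_monomial, Polynomial.coeff_smul,
        Polynomial.coeff_monomial]
      by_cases hj : k = j + 1
      · rw [if_pos hj, if_pos (by omega), smul_eq_C_mul, mul_comm]
      · rw [if_neg hj, if_neg (by omega), smul_zero]
    have e2 : bs K (k ::ₘ s) = (k : K) • Polynomial.monomial (k - 1) (mon K s) +
        Polynomial.C (X k) * bs K s := by
      unfold bs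
      rw [Multiset.map_cons, Multiset.sum_cons, Multiset.erase_cons_head,
        ← Multiset.sum_map_mul_left]
      congr 2
      refine Multiset.map_congr rfl fun j hj => ?_
      have e3 : (k ::ₘ s).erase j = k ::ₘ s.erase j := by
        rcases eq_or_ne j k with rfl | hjk
        · rw [Multiset.erase_cons_head, Multiset.cons_erase hj]
        · rw [Multiset.erase_cons_tail _ hjk.symm]
      rw [e3, mon_cons, mul_smul_comm, Polynomial.C_mul_monomial]
    rw [e1, e2, ih h0.2, smul_add, smul_smul, mul_smul_comm, add_comm]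

/-! ### The process -/

variable {M N : Type} [AddCommGroup M] [Module K M] [AddCommGroup N] [Module K N]

/-- the cone of quadruples -/
def P4 (K : Type) [Field K] {V : Type} [AddCommGroup V] [Module K V] (P : AddSubmonoid V) :
    AddSubmonoid (Q4 V) := P.prod (P.prod (P.prod P))

theorem mem_P4 {V : Type} [AddCommGroup V] [Module K V] {P : AddSubmonoid V} {z : Q4 V} :
    z ∈ P4 K P ↔ z.1 ∈ P ∧ z.2.1 ∈ P ∧ z.2.2.1 ∈ P ∧ z.2.2.2 ∈ P := Iff.rfl

theorem m4_P4 {V W : Type} [AddCommGroup V] [Module K V] [AddCommGroup W] [Module K W]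
    {P : AddSubmonoid V} {P' : AddSubmonoid W} (g : V →ₗ[K] W) (hg : ∀ x ∈ P, g x ∈ P')
    {z : Q4 V} (hz : z ∈ P4 K P) : m4 g z ∈ P4 K P' :=
  ⟨hg _ hz.1, hg _ hz.2.1, hg _ hz.2.2.1, hg _ hz.2.2.2⟩

theorem pr_P4 {V : Type} [AddCommGroup V] [Module K V] {P : AddSubmonoid V} (j : Fin 4)
    {z : Q4 V} (hz : z ∈ P4 K P) : WMod.pr K V j z ∈ P := by
  obtain ⟨h0, h1, h2, h3⟩ := hz
  fin_cases j
  · exact h0
  · exact h1
  · exact h2
  · exact h3

namespace WMod

variable (w : WMod K M N)

theorem A0_split (u : K) (x : M) : w.A0 u x = u • w.x0 x + w.A0 0 x := by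
  rw [A0_apply, A0_apply, zero_smul, zero_add, map_add, map_smul]

theorem A4_split (u : K) (z : Q4 M) : w.A4 u z = u • m4 w.x0 z + w.A4 0 z := by
  rw [A4_apply, A4_apply, m4_apply, w.A0_split u, w.A0_split u, w.A0_split u, w.A0_split u]
  refine Prod.ext rfl (Prod.ext ?_ (Prod.ext ?_ ?_)) <;> exact add_assoc _ _ _

variable {PM : AddSubmonoid M} {PN : AddSubmonoid N} {PL : Subsemiring K}

theorem A4_pol (hP : PosSt w PM PN PL) {g : K → Q4 M} (hg : PolP (P4 K PM) g) :
    PolP (P4 K PM) fun u => w.A4 u (g u) := by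
  refine ((hg.map (P' := P4 K PM) (m4 w.x0) fun z hz => m4_P4 w.x0 hP.x0 hz).smul.add
    (hg.map (P' := P4 K PM) (w.A4 0) ?_)).congr fun u => (w.A4_split u (g u)).symm
  rintro z ⟨h0, h1, h2, h3⟩
  have hA : ∀ x ∈ PM, w.A0 0 x ∈ PM := by
    intro x hx
    rw [A0_apply, zero_smul, zero_add]
    exact hP.x0 _ (hP.t0 _ hx)
  rw [A4_apply]
  exact ⟨hA _ h0, add_mem (hA _ h1) (hP.x1 _ h0),
    add_mem (hA _ h2) (hP.x1 _ (hP.t1 _ h1)), add_mem (hA _ h3) (hP.x1 _ h1)⟩

theorem A4_pow_pol (hP : PosSt w PM PN PL) (k : ℕ) {g : K → Q4 M} (hg : PolP (P4 K PM) g) :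
    PolP (P4 K PM) fun u => (w.A4 u ^ k) (g u) := by
  induction k with
  | zero => exact hg
  | succ k ih =>
    refine (w.A4_pol hP ih).congr fun u => ?_
    rw [pow_succ', Module.End.mul_apply]

theorem Kc_pol (hP : PosSt w PM PN PL) {al : K} {Kc : K → Lam K →ₗ[K] Q4 N}
    (hK : ∀ u, w.K4St al u (Kc u)) (s : Multiset ℕ) (h0 : 0 ∉ s) :
    PolP (P4 K PN) fun u => Kc u (mon K s) := by
  induction s using Multiset.induction_on with
  | empty =>
    refine (PolP.const (K := K) (P := P4 K PN) (x := (w.e, 0, 0, 0))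
      ⟨hP.e, PN.zero_mem, PN.zero_mem, PN.zero_mem⟩).congr fun u => ?_
    rw [mon_zero, (hK u).one]
  | cons k s ih =>
    rw [Multiset.mem_cons, not_or] at h0
    have h1 := (w.A4_pow_pol hP k ((ih h0.2).map (P' := P4 K PM) (m4 w.i)
      fun z hz => m4_P4 w.i hP.i hz)).map (P' := P4 K PN) (m4 w.cl)
      fun z hz => m4_P4 w.cl hP.cl hz
    refine h1.congr fun u => ?_
    rw [mon_cons, (hK u).mul k _ (fun h => h0.1 h.symm)]

theorem Qj_pol (hP : PosSt w PM PN PL) {al : K} {Kc : K → Lam K →ₗ[K] Q4 N}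
    (hK : ∀ u, w.K4St al u (Kc u)) (j : Fin 4) (s : Multiset ℕ) (h0 : 0 ∉ s) :
    PolP (CL PL) fun u => w.Qj (Kc u) j (mon K s) :=
  ((w.Kc_pol hP hK s h0).map (P' := PN) (pr K N j) fun _ hz => pr_P4 j hz).map (P' := CL PL) w.Fc
    fun y hy m => hP.Fc y hy m

theorem natCast_smul_mem {P : AddSubmonoid V} (k : ℕ) {x : V} (hx : x ∈ P) :
    (k : K) • x ∈ P := by
  rw [Nat.cast_smul_eq_nsmul]
  exact nsmul_mem hx k

/-- `al⁻¹ Tj` is positive. -/
theorem Tj_pol (hP : PosSt w PM PN PL) {al : K} (hal : al ≠ 0) {Kc : K → Lam K →ₗ[K] Q4 N}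
    (hK : ∀ u, w.K4St al u (Kc u)) (j : Fin 4) (s : Multiset ℕ) (h0 : 0 ∉ s) :
    PolP (CL PL) fun u => al⁻¹ • w.Tj al u (Kc u) j (mon K s) := by
  have h1 : PolP (CL PL) fun u => (s.map fun k : ℕ => (k : K) • Bx K (w.Pj u (Kc u) j
      (Polynomial.monomial (k - 1) (mon K (s.erase k))))).sum := by
    refine PolP.msum s fun k hk => ?_
    have h2 := w.Kc_pol hP hK (s.erase k) fun h => h0 (Multiset.mem_of_mem_erase h)
    have h3 := w.A4_pow_pol hP (k - 1) (h2.map (P' := P4 K PM) (m4 w.i)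
      fun z hz => m4_P4 w.i hP.i hz)
    have h4 := (h3.map (P' := PM) (pr K M j) fun _ hz => pr_P4 j hz).map (P' := CLW PL) w.F
      fun x hx i m => hP.F x hx i m
    refine (h4.map (P' := CL PL) ((k : K) • Bx K) fun G hG => ?_).congr fun u => ?_
    · rw [LinearMap.smul_apply]
      exact natCast_smul_mem k (Bx_CLW hG)
    · rw [LinearMap.smul_apply]
      change _ = (k : K) • Bx K (w.F (pr K M j (w.Z4 u (Kc u) _)))
      rw [Z4_monomial]
  refine h1.congr fun u => ?_
  change _ = al⁻¹ • Bx K (w.Pj u (Kc u) j (Bs al (mon K s)))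
  rw [Bs_mon al s h0, map_smul, map_smul, smul_smul, inv_mul_cancel₀ hal, one_smul]
  unfold bs
  rw [map_multiset_sum, map_multiset_sum, Multiset.map_map, Multiset.map_map]
  congr 1
  refine Multiset.map_congr rfl fun k _ => ?_
  simp only [Function.comp_apply, map_smul]

/-- `al⁻¹ TXi` is positive. -/
theorem TXi_pol (hP : PosSt w PM PN PL) {al : K} (hal : al ≠ 0) {Kc : K → Lam K →ₗ[K] Q4 N}
    (hK : ∀ u, w.K4St al u (Kc u)) (s : Multiset ℕ) (h0 : 0 ∉ s) :
    PolP (CL PL) fun u => al⁻¹ • w.TXi al u (Kc u) (mon K s) := by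
  have h1 : PolP (CL PL) fun u => (s.map fun k : ℕ => (k : K) • Bx K (w.Xi u (Kc u)
      (Polynomial.monomial (k - 1) (mon K (s.erase k))))).sum := by
    refine PolP.msum s fun k hk => ?_
    have h2 := w.Kc_pol hP hK (s.erase k) fun h => h0 (Multiset.mem_of_mem_erase h)
    have h3 := w.A4_pow_pol hP (k - 1) (h2.map (P' := P4 K PM) (m4 w.i)
      fun z hz => m4_P4 w.i hP.i hz)
    have h4 := (((h3.map (P' := PM) (pr K M 2) fun _ hz => pr_P4 2 hz).map (P' := PM) w.T1
      hP.t1).map (P' := CLW PL) w.F fun x hx i m => hP.F x hx i m)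
    refine (h4.map (P' := CL PL) ((k : K) • Bx K) fun G hG => ?_).congr fun u => ?_
    · rw [LinearMap.smul_apply]
      exact natCast_smul_mem k (Bx_CLW hG)
    · rw [LinearMap.smul_apply]
      change _ = (k : K) • Bx K (w.F (w.T1 (pr K M 2 (w.Z4 u (Kc u) _))))
      rw [Z4_monomial]
  refine h1.congr fun u => ?_
  change _ = al⁻¹ • Bx K (w.Xi u (Kc u) (Bs al (mon K s)))
  rw [Bs_mon al s h0, map_smul, map_smul, smul_smul, inv_mul_cancel₀ hal, one_smul]
  unfold bs
  rw [map_multiset_sum, map_multiset_sum, Multiset.map_map, Multiset.map_map]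
  congr 1
  refine Multiset.map_congr rfl fun k _ => ?_
  simp only [Function.comp_apply, map_smul]

end WMod

end

end Pool.Agent.MJT
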