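import Pool.Agent.MJT.RhoPos

/-!
The `p_1^n` row of the operators of the refined process.
-/

namespace Pool.Agent.MJT

open MvPolynomial Pool.Agent.MJR Pool.Agent.MJR.GradeM

noncomputable section

variable {K : Type} [Field K] {M N : Type} [AddCommGroup M] [Module K M]
  [AddCommGroup N] [Module K N]

theorem coeff_Bx (n : ℕ) (G : LW K) :
    coeff (Finsupp.single 1 (n + 1)) (Bx K G) = coeff (Finsupp.single 1 n) (i0 K G) := by
  classical
  induction G using Polynomial.induction_on' with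
  | add p q hp hq => rw [map_add, map_add, coeff_add, coeff_add, hp, hq]
  | monomial j f =>
    rw [Bx_monomial, i0_apply, Polynomial.coeff_monomial, coeff_X_mul']
    by_cases hj : j = 0
    · subst hj
      rw [if_pos, if_pos rfl]
      · congr 1
        ext i
        rw [Finsupp.coe_tsub, Pi.sub_apply, Finsupp.single_apply, Finsupp.single_apply,
          Finsupp.single_apply]
        by_cases hi : 1 = i
        · rw [if_pos hi, if_pos (by omega), if_pos hi]
          omega
        · rw [if_neg hi, if_neg (by omega), if_neg hi, Nat.sub_zero]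
      · rw [Finsupp.mem_support_iff, Finsupp.single_apply]
        simp
    · rw [if_neg (c := j = 0) hj, coeff_zero, if_neg]
      rw [Finsupp.mem_support_iff, Finsupp.single_apply, if_neg (by omega)]
      simp

namespace WMod

variable (w : WMod K M N) {SM : ℕ → Submodule K M} {SN : ℕ → Submodule K N}
  {r r0 r1 : M →ₗ[K] K} {rc : N →ₗ[K] K} {al u : K} {Kc : Lam K →ₗ[K] Q4 N}

theorem r_A4 (hR : RowSt w SM SN r r0 r1 rc) (j : Fin 4) (z : Q4 M) :
    r (pr K M j (w.A4 u z)) = 0 := by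
  rw [A4_apply]
  fin_cases j
  · exact hR.rx0 _
  · change r (w.x0 _ + w.x1 _) = 0
    rw [map_add, hR.rx0, hR.rx1, add_zero]
  · change r (w.x0 _ + w.x1 _) = 0
    rw [map_add, hR.rx0, hR.rx1, add_zero]
  · change r (w.x0 _ + w.x1 _) = 0
    rw [map_add, hR.rx0, hR.rx1, add_zero]

theorem r0_A4 (hR : RowSt w SM SN r r0 r1 rc) (j : Fin 4) (z : Q4 M) :
    r0 (pr K M j (w.A4 u z)) = u * r (pr K M j z) + r0 (pr K M j z) := by
  have hA : ∀ x, r0 (w.A0 u x) = u * r x + r0 x := by
    intro x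
    rw [A0_apply, hR.r0x0, map_add, map_smul, hR.t0, smul_eq_mul]
  rw [A4_apply]
  fin_cases j
  · exact hA _
  · change r0 (w.A0 u z.2.1 + w.x1 _) = u * r z.2.1 + r0 z.2.1
    rw [map_add, hR.r0x1, add_zero, hA]
  · change r0 (w.A0 u z.2.2.1 + w.x1 _) = u * r z.2.2.1 + r0 z.2.2.1
    rw [map_add, hR.r0x1, add_zero, hA]
  · change r0 (w.A0 u z.2.2.2 + w.x1 _) = u * r z.2.2.2 + r0 z.2.2.2
    rw [map_add, hR.r0x1, add_zero, hA]

theorem r1_A4 (hR : RowSt w SM SN r r0 r1 rc) (z : Q4 M) :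
    r1 (pr K M 0 (w.A4 u z)) = 0 ∧ r1 (pr K M 1 (w.A4 u z)) = r (pr K M 0 z) ∧
      r1 (pr K M 2 (w.A4 u z)) = r1 (pr K M 1 z) ∧ r1 (pr K M 3 (w.A4 u z)) =
        r (pr K M 1 z) := by
  have hA : ∀ x, r1 (w.A0 u x) = 0 := fun x => by rw [A0_apply, hR.r1x0]
  rw [A4_apply]
  refine ⟨hA _, ?_, ?_, ?_⟩
  · change r1 (w.A0 u z.2.1 + w.x1 _) = r z.1
    rw [map_add, hR.r1x1, hA, zero_add]
  · change r1 (w.A0 u z.2.2.1 + w.x1 _) = r1 z.2.1
    rw [map_add, hR.r1x1, hA, zero_add, hR.t1]
  · change r1 (w.A0 u z.2.2.2 + w.x1 _) = r z.2.1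
    rw [map_add, hR.r1x1, hA, zero_add]

/-- the values of the four functionals on the closed state `y` -/
theorem r_pow (hR : RowSt w SM SN r r0 r1 rc) (j : Fin 4) (m : ℕ) (y : Q4 N) :
    r (pr K M j ((w.A4 u ^ m) (m4 w.i y))) = if m = 0 then rc (pr K N j y) else 0 := by
  rcases m with _ | m
  · rw [if_pos rfl, pow_zero, Module.End.one_apply, pr_m4, hR.ri]
  · rw [if_neg (Nat.succ_ne_zero m), pow_succ', Module.End.mul_apply, w.r_A4 hR]

theorem r0_pow (hR : RowSt w SM SN r r0 r1 rc) (j : Fin 4) (m : ℕ) (y : Q4 N) :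
    r0 (pr K M j ((w.A4 u ^ m) (m4 w.i y))) = if m = 0 then 0 else u * rc (pr K N j y) := by
  induction m with
  | zero => rw [if_pos rfl, pow_zero, Module.End.one_apply, pr_m4, hR.r0i]
  | succ m ih =>
    rw [if_neg (Nat.succ_ne_zero m), pow_succ', Module.End.mul_apply, w.r0_A4 hR, ih,
      w.r_pow hR]
    rcases m with _ | m
    · rw [if_pos rfl, if_pos rfl, add_zero]
    · rw [if_neg (Nat.succ_ne_zero m), if_neg (Nat.succ_ne_zero m), mul_zero, zero_add]

theorem r1_pow1 (hR : RowSt w SM SN r r0 r1 rc) (m : ℕ) (y : Q4 N) :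
    r1 (pr K M 1 ((w.A4 u ^ m) (m4 w.i y))) = if m = 1 then rc (pr K N 0 y) else 0 := by
  rcases m with _ | m
  · rw [if_neg (by omega), pow_zero, Module.End.one_apply, pr_m4, hR.r1i]
  · rw [pow_succ', Module.End.mul_apply, (w.r1_A4 hR _).2.1, w.r_pow hR]
    by_cases hm : m = 0
    · rw [if_pos hm, if_pos (by omega)]
    · rw [if_neg hm, if_neg (by omega)]

theorem r1_pow0 (hR : RowSt w SM SN r r0 r1 rc) (m : ℕ) (y : Q4 N) :
    r1 (pr K M 0 ((w.A4 u ^ m) (m4 w.i y))) = 0 := by
  rcases m with _ | m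
  · rw [pow_zero, Module.End.one_apply, pr_m4, hR.r1i]
  · rw [pow_succ', Module.End.mul_apply, (w.r1_A4 hR _).1]

theorem r1_pow2 (hR : RowSt w SM SN r r0 r1 rc) (m : ℕ) (y : Q4 N) :
    r1 (pr K M 2 ((w.A4 u ^ m) (m4 w.i y))) = if m = 2 then rc (pr K N 0 y) else 0 := by
  rcases m with _ | m
  · rw [if_neg (by omega), pow_zero, Module.End.one_apply, pr_m4, hR.r1i]
  · rw [pow_succ', Module.End.mul_apply, (w.r1_A4 hR _).2.2.1, w.r1_pow1 hR]
    by_cases hm : m = 1
    · rw [if_pos hm, if_pos (by omega)]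
    · rw [if_neg hm, if_neg (by omega)]

theorem r1_pow3 (hR : RowSt w SM SN r r0 r1 rc) (m : ℕ) (y : Q4 N) :
    r1 (pr K M 3 ((w.A4 u ^ m) (m4 w.i y))) = if m = 1 then rc (pr K N 1 y) else 0 := by
  rcases m with _ | m
  · rw [if_neg (by omega), pow_zero, Module.End.one_apply, pr_m4, hR.r1i]
  · rw [pow_succ', Module.End.mul_apply, (w.r1_A4 hR _).2.2.2, w.r_pow hR]
    by_cases hm : m = 0
    · rw [if_pos hm, if_pos (by omega)]
    · rw [if_neg hm, if_neg (by omega)]

/-- The rows of the closed process. -/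
def Rw (u : K) (j : Fin 4) (s : Multiset ℕ) : K := match j with
  | 0 => u ^ s.card
  | 1 => (s.count 1 : K) * u ^ (s.card - 1)
  | 2 => (s.count 2 : K) * u ^ (s.card - 1)
  | 3 => ((s.count 1).choose 2 : K) * u ^ (s.card - 2)

theorem cnt_pow (u : K) (c d q : ℕ) (h : d < q → c = 0) :
    (c : K) * u ^ (d + 1 - q) = u * ((c : K) * u ^ (d - q)) := by
  by_cases hq : d < q
  · rw [h hq, Nat.cast_zero, zero_mul, zero_mul, mul_zero]
  · have e1 : d + 1 - q = (d - q) + 1 := by omega
    rw [e1, pow_succ']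
    ring

theorem rc_Kc (hR : RowSt w SM SN r r0 r1 rc) (hK : w.K4St al u Kc) (s : Multiset ℕ)
    (h0 : 0 ∉ s) : ∀ j, rc (pr K N j (Kc (mon K s))) = Rw u j s := by
  induction s using Multiset.induction_on with
  | empty =>
    intro j
    rw [mon_zero, hK.one]
    fin_cases j
    · change rc w.e = u ^ 0
      rw [hR.e, pow_zero]
    · change rc 0 = (((0 : Multiset ℕ).count 1 : ℕ) : K) * _
      rw [map_zero, Multiset.count_zero, Nat.cast_zero, zero_mul]
    · change rc 0 = (((0 : Multiset ℕ).count 2 : ℕ) : K) * _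
      rw [map_zero, Multiset.count_zero, Nat.cast_zero, zero_mul]
    · change rc 0 = ((((0 : Multiset ℕ).count 1).choose 2 : ℕ) : K) * _
      rw [map_zero, Multiset.count_zero, Nat.choose_zero_succ, Nat.cast_zero, zero_mul]
  | cons k s ih =>
    rw [Multiset.mem_cons, not_or] at h0
    have hk : k ≠ 0 := fun h => h0.1 h.symm
    have ih := ih h0.2
    have hc1 : s.card < 1 → s.count 1 = 0 := by
      intro h
      have := Multiset.count_le_card 1 s
      omega
    have hc2 : s.card < 1 → s.count 2 = 0 := by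
      intro h
      have := Multiset.count_le_card 2 s
      omega
    have hc3 : s.card < 2 → (s.count 1).choose 2 = 0 := by
      intro h
      have := Multiset.count_le_card 1 s
      exact Nat.choose_eq_zero_of_lt (by omega)
    intro j
    rw [mon_cons, hK.mul k _ hk, pr_m4, hR.cl, w.r0_pow hR, if_neg hk, ih j]
    match j with
    | 0 =>
      rw [w.r1_pow0 hR]
      change u * u ^ s.card + 0 = u ^ (k ::ₘ s).card
      rw [Multiset.card_cons, pow_succ', add_zero]
    | 1 =>
      rw [w.r1_pow1 hR, ih 0]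
      change u * ((s.count 1 : K) * u ^ (s.card - 1)) + (if k = 1 then u ^ s.card else 0) =
        (((k ::ₘ s).count 1 : ℕ) : K) * u ^ ((k ::ₘ s).card - 1)
      rw [Multiset.card_cons, Multiset.count_cons, Nat.cast_add, add_mul,
        cnt_pow u (s.count 1) s.card 1 hc1]
      congr 1
      by_cases hk1 : k = 1
      · rw [if_pos hk1, if_pos hk1.symm, Nat.cast_one, one_mul, Nat.add_sub_cancel]
      · rw [if_neg hk1, if_neg (fun h => hk1 h.symm), Nat.cast_zero, zero_mul]
    | 2 =>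
      rw [w.r1_pow2 hR, ih 0]
      change u * ((s.count 2 : K) * u ^ (s.card - 1)) + (if k = 2 then u ^ s.card else 0) =
        (((k ::ₘ s).count 2 : ℕ) : K) * u ^ ((k ::ₘ s).card - 1)
      rw [Multiset.card_cons, Multiset.count_cons, Nat.cast_add, add_mul,
        cnt_pow u (s.count 2) s.card 1 hc2]
      congr 1
      by_cases hk1 : k = 2
      · rw [if_pos hk1, if_pos hk1.symm, Nat.cast_one, one_mul, Nat.add_sub_cancel]
      · rw [if_neg hk1, if_neg (fun h => hk1 h.symm), Nat.cast_zero, zero_mul]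
    | 3 =>
      rw [w.r1_pow3 hR, ih 1]
      change u * (((s.count 1).choose 2 : K) * u ^ (s.card - 2)) +
        (if k = 1 then (s.count 1 : K) * u ^ (s.card - 1) else 0) =
        ((((k ::ₘ s).count 1).choose 2 : ℕ) : K) * u ^ ((k ::ₘ s).card - 2)
      rw [Multiset.card_cons, Multiset.count_cons]
      by_cases hk1 : k = 1
      · rw [if_pos hk1, if_pos hk1.symm, Nat.choose_succ_succ' (s.count 1) 1,
          Nat.choose_one_right, Nat.cast_add, add_mul, cnt_pow u _ s.card 2 hc3, add_comm]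
        rfl
      · rw [if_neg hk1, if_neg (fun h => hk1 h.symm), add_zero, add_zero,
          cnt_pow u _ s.card 2 hc3]

theorem row_Qj (hR : RowSt w SM SN r r0 r1 rc) (hG : GradSt w SM SN) (hK : w.K4St al u Kc)
    (j : Fin 4) (s : Multiset ℕ) (h0 : 0 ∉ s) :
    coeff (Finsupp.single 1 s.sum) (w.Qj Kc j (mon K s)) = Rw u j s := by
  change coeff _ (w.Fc (pr K N j (Kc (mon K s)))) = _
  rw [hR.Fc s.sum _ (w.Kc_grad hG hK (mem_S h0 rfl) j), w.rc_Kc hR hK s h0]

/-- The row of `Bx P Bs` for an operator `P` whose constant coefficient is known. -/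
theorem row_BB (al : K) (P : LW K →ₗ[K] LW K) (g : ℕ → Multiset ℕ → K)
    (hP : ∀ m s, 0 ∉ s → coeff (Finsupp.single 1 (m + s.sum))
      (i0 K (P (Polynomial.monomial m (mon K s)))) = g m s)
    (s : Multiset ℕ) (h0 : 0 ∉ s) :
    coeff (Finsupp.single 1 s.sum) (Bx K (P (Bs al (mon K s)))) =
      al * (s.map fun k : ℕ => (k : K) * g (k - 1) (s.erase k)).sum := by
  rcases Multiset.empty_or_exists_mem s with rfl | ⟨x, hx⟩
  · rw [mon_zero, Bs_apply, U_one, Polynomial.divX_zero]
    simp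
  · have hx0 : x ≠ 0 := fun h => h0 (h ▸ hx)
    have hxs := CycM.le_sum s hx
    obtain ⟨n, hn⟩ : ∃ n, s.sum = n + 1 := ⟨s.sum - 1, by omega⟩
    rw [hn, coeff_Bx, Bs_mon al s h0, map_smul, map_smul, coeff_smul, smul_eq_mul]
    congr 1
    unfold bs
    rw [map_multiset_sum, map_multiset_sum, Multiset.map_map, Multiset.map_map]
    have e1 : ∀ t : Multiset (Lam K), coeff (Finsupp.single 1 n) t.sum =
        (t.map fun f => coeff (Finsupp.single 1 n) f).sum := by
      intro t
      induction t using Multiset.induction_on with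
      | empty => simp
      | cons a t ih => rw [Multiset.sum_cons, coeff_add, ih, Multiset.map_cons,
          Multiset.sum_cons]
    rw [e1, Multiset.map_map]
    congr 1
    refine Multiset.map_congr rfl fun k hk => ?_
    have hk0 : k ≠ 0 := fun h => h0 (h ▸ hk)
    have h2 : k + (s.erase k).sum = s.sum := by
      rw [← Multiset.sum_cons, Multiset.cons_erase hk]
    have h3 : n = (k - 1) + (s.erase k).sum := by omega
    simp only [Function.comp_apply, map_smul, coeff_smul, smul_eq_mul]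
    rw [h3, hP (k - 1) (s.erase k) fun h => h0 (Multiset.mem_of_mem_erase h)]

theorem sum_ite_eq (s : Multiset ℕ) (k0 : ℕ) (c : K) (h : Multiset ℕ → K) (f : ℕ → K)
    (hf : ∀ k ∈ s, f k = if k = k0 then c * h (s.erase k) else 0) :
    (s.map f).sum = (s.count k0 : K) * (c * h (s.erase k0)) := by
  have h1 : (s.map f).sum = (s.map fun k => if k = k0 then c * h (s.erase k0) else 0).sum := by
    congr 1
    refine Multiset.map_congr rfl fun k hk => ?_
    rw [hf k hk]
    by_cases hk0 : k = k0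
    · rw [if_pos hk0, if_pos hk0, hk0]
    · rw [if_neg hk0, if_neg hk0]
  rw [h1]
  generalize c * h (s.erase k0) = d
  clear h1 hf
  induction s using Multiset.induction_on with
  | empty => simp
  | cons a s ih =>
    rw [Multiset.map_cons, Multiset.sum_cons, ih, Multiset.count_cons]
    by_cases ha : a = k0
    · rw [if_pos ha, if_pos ha.symm]
      push_cast
      ring
    · rw [if_neg ha, if_neg (fun h => ha h.symm)]
      push_cast
      ring

theorem row_Tj (hR : RowSt w SM SN r r0 r1 rc) (hG : GradSt w SM SN)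
    (hK : w.K4St al u Kc) (j : Fin 4) (s : Multiset ℕ) (h0 : 0 ∉ s) :
    coeff (Finsupp.single 1 s.sum) (w.Tj al u Kc j (mon K s)) =
      al * ((s.count 1 : K) * Rw u j (s.erase 1)) := by
  change coeff _ (Bx K (w.Pj u Kc j (Bs al (mon K s)))) = _
  rw [row_BB al (w.Pj u Kc j) (fun m s => if m = 0 then Rw u j s else 0) ?_ s h0]
  · rw [sum_ite_eq s 1 1 (Rw u j)]
    · rw [one_mul]
    · intro k hk
      have hk0 : k ≠ 0 := fun h => h0 (h ▸ hk)
      by_cases hk1 : k = 1
      · rw [if_pos (by omega), if_pos hk1, hk1, Nat.cast_one]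
      · rw [if_neg (by omega), if_neg hk1, mul_zero]
  · intro m s hs
    have h1 : w.Pj u Kc j (Polynomial.monomial m (mon K s)) =
        w.F (pr K M j (w.Z4 u Kc (Polynomial.monomial m (mon K s)))) := rfl
    rw [h1, hR.F _ _ (w.Z4_grad hG hK (mem_T hs rfl) j), Z4_monomial, w.r_pow hR,
      w.rc_Kc hR hK s hs]

theorem row_TXi (hR : RowSt w SM SN r r0 r1 rc) (hG : GradSt w SM SN)
    (hK : w.K4St al u Kc) (s : Multiset ℕ) (h0 : 0 ∉ s) :
    coeff (Finsupp.single 1 s.sum) (w.TXi al u Kc (mon K s)) =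
      al * ((s.count 3 : K) * (3 * u ^ (s.erase 3).card)) := by
  change coeff _ (Bx K (w.Xi u Kc (Bs al (mon K s)))) = _
  rw [row_BB al (w.Xi u Kc) (fun m s => if m = 2 then u ^ s.card else 0) ?_ s h0]
  · rw [sum_ite_eq s 3 3 (fun s => u ^ s.card)]
    intro k hk
    have hk0 : k ≠ 0 := fun h => h0 (h ▸ hk)
    by_cases hk1 : k = 3
    · rw [if_pos (by omega), if_pos hk1, hk1]
      norm_num
    · rw [if_neg (by omega), if_neg hk1, mul_zero]
  · intro m s hs
    have h1 : w.Xi u Kc (Polynomial.monomial m (mon K s)) =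
        w.F (w.T1 (pr K M 2 (w.Z4 u Kc (Polynomial.monomial m (mon K s))))) := rfl
    rw [h1, hR.F _ _ (hG.t1 _ _ (w.Z4_grad hG hK (mem_T hs rfl) 2)), hR.t1, Z4_monomial,
      w.r1_pow2 hR, w.rc_Kc hR hK s hs 0]
    rfl

end WMod

end

end Pool.Agent.MJT
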