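import Pool.Agent.MJT.RhoInt

/-!
The graded process from the process with a parameter.
-/

namespace Pool.Agent.MJT

open MvPolynomial Pool.Agent.MJR Pool.Agent.MJR.GradeM

noncomputable section

variable {K : Type} [Field K]

/-! ### Coefficient sequences -/

section

variable {V W : Type} [AddCommGroup V] [Module K V] [AddCommGroup W] [Module K W]

/-- `g s = ∑ s^j z_j` -/
def Sp (g : K → V) (z : ℕ → V) : Prop :=
  ∃ d : ℕ, (∀ j, d ≤ j → z j = 0) ∧ ∀ s, g s = ∑ j ∈ Finset.range d, s ^ j • z j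

theorem Sp.up {g : K → V} {z : ℕ → V} (h : Sp g z) : ∃ d : ℕ, ∀ d', d ≤ d' →
    (∀ j, d' ≤ j → z j = 0) ∧ ∀ s, g s = ∑ j ∈ Finset.range d', s ^ j • z j := by
  obtain ⟨d, h1, h2⟩ := h
  refine ⟨d, fun d' hd => ⟨fun j hj => h1 j (by omega), fun s => ?_⟩⟩
  rw [h2]
  refine Finset.sum_subset (Finset.range_mono hd) fun j _ hj => ?_
  rw [h1 j (by rw [Finset.mem_range] at hj; omega), smul_zero]

theorem Sp.unique [Infinite K] {g g' : K → V} {z z' : ℕ → V} (h : Sp g z) (h' : Sp g' z')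
    (hg : ∀ s, g s = g' s) : z = z' := by
  obtain ⟨d, h1⟩ := h.up
  obtain ⟨d', h1'⟩ := h'.up
  obtain ⟨h2, h3⟩ := h1 (d + d') (by omega)
  obtain ⟨h2', h3'⟩ := h1' (d + d') (by omega)
  funext j
  by_cases hj : d + d' ≤ j
  · rw [h2 j hj, h2' j hj]
  · have h4 : ∀ φ : Module.Dual K V, φ (z j - z' j) = 0 := by
      intro φ
      let P : Polynomial K := ∑ j ∈ Finset.range (d + d'), Polynomial.monomial j (φ (z j))
      let P' : Polynomial K := ∑ j ∈ Finset.range (d + d'), Polynomial.monomial j (φ (z' j))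
      have hP : P = P' := by
        apply Polynomial.funext
        intro s
        rw [Polynomial.eval_finsetSum, Polynomial.eval_finsetSum]
        simp only [Polynomial.eval_monomial]
        have h5 := congrArg φ ((h3 s).symm.trans ((hg s).trans (h3' s)))
        rw [map_sum, map_sum] at h5
        simp only [map_smul, smul_eq_mul] at h5
        have e1 : ∀ y : ℕ → V, ∑ j ∈ Finset.range (d + d'), φ (y j) * s ^ j =
            ∑ j ∈ Finset.range (d + d'), s ^ j * φ (y j) := fun y =>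
          Finset.sum_congr rfl fun j _ => mul_comm _ _
        rw [e1, e1, h5]
      have h6 := congrArg (fun R => Polynomial.coeff R j) hP
      beta_reduce at h6
      rw [Polynomial.finsetSum_coeff, Polynomial.finsetSum_coeff] at h6
      simp only [Polynomial.coeff_monomial, Finset.sum_ite_eq', Finset.mem_range] at h6
      rw [if_pos (by omega), if_pos (by omega)] at h6
      rw [map_sub, h6, sub_self]
    exact sub_eq_zero.mp ((Module.forall_dual_apply_eq_zero_iff K _).mp h4)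

theorem Sp.map {g : K → V} {z : ℕ → V} (h : Sp g z) (L : V →ₗ[K] W) :
    Sp (fun s => L (g s)) fun j => L (z j) := by
  obtain ⟨d, h1, h2⟩ := h
  refine ⟨d, fun j hj => by beta_reduce; rw [h1 j hj, map_zero], fun s => ?_⟩
  beta_reduce
  rw [h2, map_sum]
  simp only [map_smul]

theorem Sp.add {g g' : K → V} {z z' : ℕ → V} (h : Sp g z) (h' : Sp g' z') :
    Sp (fun s => g s + g' s) fun j => z j + z' j := by
  obtain ⟨d, h1⟩ := h.up
  obtain ⟨d', h1'⟩ := h'.up
  obtain ⟨h2, h3⟩ := h1 (d + d') (by omega)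
  obtain ⟨h2', h3'⟩ := h1' (d + d') (by omega)
  refine ⟨d + d', fun j hj => by beta_reduce; rw [h2 j hj, h2' j hj, add_zero], fun s => ?_⟩
  beta_reduce
  rw [h3, h3', ← Finset.sum_add_distrib]
  simp only [smul_add]

theorem Sp.zero : Sp (K := K) (fun _ => (0 : V)) fun _ => 0 :=
  ⟨0, fun _ _ => rfl, fun s => by rw [Finset.sum_range_zero]⟩

theorem Sp.const (x : V) : Sp (K := K) (fun _ => x) (Pi.single 0 x) := by
  refine ⟨1, fun j hj => by
    rw [Pi.single_eq_of_ne (show j ≠ 0 by omega)], fun s => ?_⟩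
  rw [Finset.sum_range_one, pow_zero, one_smul, Pi.single_eq_same]

theorem Sp.shift {g : K → V} {z : ℕ → V} (h : Sp g z) :
    Sp (fun s => s • g s) fun j => match j with
      | 0 => 0
      | j + 1 => z j := by
  obtain ⟨d, h1, h2⟩ := h
  refine ⟨d + 1, fun j hj => ?_, fun s => ?_⟩
  · obtain ⟨j, rfl⟩ : ∃ i, j = i + 1 := ⟨j - 1, by omega⟩
    exact h1 j (by omega)
  · beta_reduce
    rw [h2, Finset.sum_range_succ', smul_zero, add_zero, Finset.smul_sum]
    refine Finset.sum_congr rfl fun j _ => ?_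
    rw [smul_smul, ← pow_succ']

theorem Sp.congr {g g' : K → V} {z z' : ℕ → V} (h : Sp g z) (hg : ∀ s, g s = g' s)
    (hz : ∀ j, z j = z' j) : Sp g' z' := by
  have e1 : g = g' := funext hg
  have e2 : z = z' := funext hz
  rw [← e1, ← e2]
  exact h

end

variable {M N : Type} [AddCommGroup M] [Module K M] [AddCommGroup N] [Module K N]

namespace WMod

/-- The states without a letter 1. -/
structure FreeSt (w : WMod K M N) (M0 : Submodule K M) (N0 : Submodule K N) : Prop where
  t1 : ∀ x ∈ M0, w.T1 x = 0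
  t0 : ∀ x ∈ M0, w.T0 x ∈ M0
  x0 : ∀ x ∈ M0, w.x0 x ∈ M0
  i : ∀ y ∈ N0, w.i y ∈ M0
  cl : ∀ x ∈ M0, w.cl x ∈ N0
  e : w.e ∈ N0

variable (w : WMod K M N)

/-- The insertion with a parameter. -/
def As (u v s : K) : Module.End K M :=
  w.A0 u + s • (w.x1 ∘ₗ (v • LinearMap.id + w.T1))

theorem As_apply (u v s : K) (x : M) :
    w.As u v s x = w.A0 u x + s • w.x1 (v • x + w.T1 x) := rfl

/-- The process with a parameter. -/
structure GoodS (al u v s : K) (Kc : Lam K →ₗ[K] N) : Prop where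
  one : Kc 1 = w.e
  mul : ∀ k f, k ≠ 0 → Kc (X k * f) = w.cl ((w.As u v s ^ k) (w.i (Kc f)))
  zero : ∀ f, Kc (X 0 * f) = 0
  comm : ∀ G : LW K, w.F (AbsM.Kh (w.As u v s) w.i Kc (Zf al G)) =
    Zf al (w.F (AbsM.Kh (w.As u v s) w.i Kc G))

variable {w} {M0 : Submodule K M} {N0 : Submodule K N}

theorem Sp_Ag (hF : w.FreeSt M0 N0) (u v : K) {g : K → M} {z : ℕ → M} (h : Sp g z)
    (h0 : z 0 ∈ M0) : Sp (fun s => w.As u v s (g s)) (w.Ag u v z) ∧ w.Ag u v z 0 ∈ M0 := by
  constructor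
  · refine ((h.map (w.A0 u)).add (h.map (w.x1 ∘ₗ (v • LinearMap.id + w.T1))).shift).congr
      (fun s => rfl) fun j => ?_
    rcases j with _ | _ | j
    · rw [Ag_zero]
      exact add_zero _
    · rw [Ag_one]
      change w.A0 u (z 1) + w.x1 (v • z 0 + w.T1 (z 0)) = _
      rw [hF.t1 _ h0, add_zero, map_smul]
    · rw [Ag_succ]
      rfl
  · rw [Ag_zero, A0_apply]
    exact hF.x0 _ (M0.add_mem (M0.smul_mem _ h0) (hF.t0 _ h0))

theorem Sp_Ag_pow (hF : w.FreeSt M0 N0) (u v : K) (k : ℕ) {g : K → M} {z : ℕ → M} (h : Sp g z)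
    (h0 : z 0 ∈ M0) :
    Sp (fun s => (w.As u v s ^ k) (g s)) ((w.Ag u v ^ k) z) ∧ (w.Ag u v ^ k) z 0 ∈ M0 := by
  induction k with
  | zero => exact ⟨h, h0⟩
  | succ k ih =>
    obtain ⟨h1, h2⟩ := Sp_Ag hF u v ih.1 ih.2
    refine ⟨h1.congr (fun s => ?_) fun j => ?_, ?_⟩
    · rw [pow_succ', Module.End.mul_apply]
    · rw [pow_succ', Module.End.mul_apply]
    · rw [pow_succ', Module.End.mul_apply]
      exact h2

/-- The graded process. -/
theorem good_of [Infinite K] (hF : w.FreeSt M0 N0) {al u v : K} {Ks : K → Lam K →ₗ[K] N}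
    (hK : ∀ s, w.GoodS al u v s (Ks s)) : ∃ Kc, w.Good al u v Kc := by
  have hex : ∀ f : Lam K, ∃ z : ℕ → N, Sp (fun s => Ks s f) z ∧ z 0 ∈ N0 := by
    intro f
    induction f using MvPolynomial.induction_on with
    | C c =>
      have e1 : (C c : Lam K) = c • 1 := by rw [smul_eq_C_mul, mul_one]
      refine ⟨Pi.single 0 (c • w.e), (Sp.const (c • w.e)).congr (fun s => ?_) fun _ => rfl, ?_⟩
      · rw [e1, map_smul, (hK s).one]
      · rw [Pi.single_eq_same]
        exact N0.smul_mem _ hF.e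
    | add p q hp hq =>
      obtain ⟨z, hz, hz0⟩ := hp
      obtain ⟨z', hz', hz0'⟩ := hq
      exact ⟨fun j => z j + z' j, (hz.add hz').congr (fun s => (map_add _ _ _).symm)
        fun _ => rfl, N0.add_mem hz0 hz0'⟩
    | mul_X p k hp =>
      obtain ⟨z, hz, hz0⟩ := hp
      rcases eq_or_ne k 0 with rfl | hk
      · refine ⟨fun _ => 0, Sp.zero.congr (fun s => ?_) fun _ => rfl, N0.zero_mem⟩
        rw [mul_comm, (hK s).zero]
      · obtain ⟨h1, h2⟩ := Sp_Ag_pow hF u v k (hz.map w.i) (hF.i _ hz0)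
        refine ⟨fun j => w.cl ((w.Ag u v ^ k) (fun j => w.i (z j)) j),
          (h1.map w.cl).congr (fun s => ?_) fun _ => rfl, hF.cl _ h2⟩
        rw [mul_comm, (hK s).mul k p hk]
  choose Kf hKf hKf0 using hex
  let Kc : Lam K →ₗ[K] (ℕ → N) :=
    { toFun := Kf
      map_add' := by
        intro a b
        exact (hKf (a + b)).unique ((hKf a).add (hKf b)) fun s => map_add _ _ _
      map_smul' := by
        intro c a
        exact (hKf (c • a)).unique ((hKf a).map (c • LinearMap.id)) fun s => map_smul _ _ _ }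
  have hKh : ∀ G : LW K, Sp (fun s => AbsM.Kh (w.As u v s) w.i (Ks s) G)
      (AbsM.Kh (w.Ag u v) w.ig Kc G) := by
    intro G
    induction G using Polynomial.induction_on' with
    | add p q hp hq =>
      exact (hp.add hq).congr (fun s => (map_add _ _ _).symm)
        fun j => by rw [map_add, Pi.add_apply]
    | monomial m f =>
      obtain ⟨h1, h2⟩ := Sp_Ag_pow hF u v m ((hKf f).map w.i) (hF.i _ (hKf0 f))
      refine h1.congr (fun s => ?_) fun j => ?_
      · rw [AbsM.Kh_monomial]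
      · rw [AbsM.Kh_monomial]
        rfl
  refine ⟨Kc, ?_, ?_, ?_, ?_⟩
  · exact (hKf 1).unique (Sp.const w.e) fun s => (hK s).one
  · intro k f hk
    obtain ⟨h1, h2⟩ := Sp_Ag_pow hF u v k ((hKf f).map w.i) (hF.i _ (hKf0 f))
    exact (hKf (X k * f)).unique (h1.map w.cl) fun s => (hK s).mul k f hk
  · intro f
    exact (hKf (X 0 * f)).unique Sp.zero fun s => (hK s).zero f
  · intro G k
    have h1 := (hKh (Zf al G)).map w.F
    have h2 := ((hKh G).map w.F).map (Zf al)
    exact congrFun (h1.unique h2 fun s => (hK s).comm G) k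

end WMod

end

end Pool.Agent.MJT
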