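import Pool.Agent.MJT.RhoV

/-!
The word instance: rows.
-/

namespace Pool.Agent.MJT

open MvPolynomial Pool.Agent.MJR Pool.Agent.MJR.GradeM Pool.Agent.MJF

noncomputable section

variable {K : Type} [Field K]

namespace WordM

/-- all cycles have length one -/
def ep (K : Type) [Field K] : CW K →ₐ[K] K := aeval fun z => if z.length = 1 then 1 else 0

/-- the root word is `L` and all cycles have length one -/
def rL (K : Type) [Field K] (L : List Bool) : RW K →ₗ[K] K :=
  (ep K).toLinearMap ∘ₗ Finsupp.lapply L

theorem rL_apply (L : List Bool) (x : RW K) : rL K L x = ep K (x L) := rfl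

theorem rL_single (L L' : List Bool) (f : CW K) :
    rL K L (Finsupp.single L' f) = if L' = L then ep K f else 0 := by
  rw [rL_apply, Finsupp.single_apply]
  split_ifs
  · rfl
  · rw [map_zero]

theorem rL_add (L : List Bool) (x y : RW K) : rL K L (x + y) = rL K L x + rL K L y :=
  map_add _ _ _

theorem rL_smul (L : List Bool) (f : CW K) (x : RW K) :
    rL K L (f • x) = ep K f * rL K L x := by
  rw [rL_apply, rL_apply, Finsupp.smul_apply, smul_eq_mul, map_mul]

theorem rL_rw1 (L L' : List Bool) : rL K L (rw1 K L') = if L' = L then 1 else 0 := by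
  unfold rw1
  rw [rL_single, map_one]

theorem ep_cy (L : List Bool) : ep K (cy K L) = if L.length = 1 then 1 else 0 := by
  unfold ep cy
  rw [aeval_X, Cycle.length_coe]

theorem spl_zero' {α V : Type} [AddCommMonoid V] (φ : List α → α → List α → V) (L : List α)
    (h : ∀ X x Y, L = X ++ x :: Y → φ X x Y = 0) : spl φ L = 0 :=
  (spl_congr' h).trans (spl_zero L)

theorem rL_tch (al : K) (t : Bool) (L : List Bool) :
    rL K [] (tch al t L) = if L = [t] then 1 else 0 := by
  unfold tch
  have h2 : rL K [] (spl (fun X x Y => if x = t then cy K (X ++ [t]) • rw1 K Y +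
      (C (al - 1) : CW K) • rw1 K (X.reverse ++ t :: Y) else 0) L) = _ :=
    spl_hom (rL K [] : RW K →ₗ[K] K).toAddMonoidHom (fun X x Y => if x = t then
      cy K (X ++ [t]) • rw1 K Y + (C (al - 1) : CW K) • rw1 K (X.reverse ++ t :: Y) else 0) L
  rw [h2]
  have h3 : ∀ X x Y, rL K [] (if x = t then cy K (X ++ [t]) • rw1 K Y +
      (C (al - 1) : CW K) • rw1 K (X.reverse ++ t :: Y) else 0) =
      if x = t ∧ X = [] ∧ Y = [] then 1 else 0 := by
    intro X x Y
    by_cases hx : x = t
    · rw [if_pos hx, rL_add, rL_smul, rL_smul, rL_rw1, rL_rw1, ep_cy, List.length_append,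
        List.length_singleton]
      have e0 : (if X.reverse ++ t :: Y = [] then (1 : K) else 0) = 0 := if_neg (by simp)
      rw [e0, mul_zero, add_zero]
      by_cases hX : X = []
      · by_cases hY : Y = []
        · rw [hX, hY, hx]
          simp
        · rw [if_neg (c := Y = []) hY, mul_zero, if_neg (fun h => hY h.2.2)]
      · have hX2 : X.length ≠ 0 := fun h => hX (List.length_eq_zero_iff.mp h)
        rw [if_neg (c := X.length + 1 = 1) (by omega), zero_mul, if_neg (fun h => hX h.2.1)]
    · rw [if_neg hx, if_neg (fun h => hx h.1), map_zero]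
  have h4 : spl (fun X x Y => rL K [] (if x = t then cy K (X ++ [t]) • rw1 K Y +
      (C (al - 1) : CW K) • rw1 K (X.reverse ++ t :: Y) else 0)) L =
      spl (fun X x Y => if x = t ∧ X = [] ∧ Y = [] then (1 : K) else 0) L := spl_congr h3 L
  refine h4.trans ?_
  rcases L with _ | ⟨l, L⟩
  · rw [spl_nil, if_neg (by simp)]
  · rw [spl_cons]
    have h5 : spl (fun X x Y => if x = t ∧ l :: X = [] ∧ Y = [] then (1 : K) else 0) L = 0 := by
      refine spl_zero' _ L fun X x Y _ => ?_
      rw [if_neg (by simp)]
    rw [h5, add_zero]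
    by_cases h6 : l = t ∧ L = []
    · obtain ⟨rfl, rfl⟩ := h6
      rw [if_pos ⟨rfl, rfl, rfl⟩, if_pos rfl]
    · rw [if_neg (fun h => h6 ⟨h.1, h.2.2⟩), if_neg (fun h => h6 (by
        rw [List.cons.injEq] at h
        exact h))]

theorem rL_opn (al : K) (t : Bool) (L : List Bool) : rL K [] (opn al t L) = 0 := by
  unfold opn
  have h2 : rL K [] (spl (fun X x Y => if x = t then rw1 K (Y ++ X ++ [t]) +
      (C (al - 1) : CW K) • rw1 K ((Y ++ X).reverse ++ [t]) else 0) L) = _ :=
    spl_hom (rL K [] : RW K →ₗ[K] K).toAddMonoidHom (fun X x Y => if x = t then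
      rw1 K (Y ++ X ++ [t]) + (C (al - 1) : CW K) • rw1 K ((Y ++ X).reverse ++ [t]) else 0) L
  rw [h2]
  refine spl_zero' _ L fun X x Y _ => ?_
  change rL K [] (if x = t then _ else 0) = 0
  by_cases hx : x = t
  · rw [if_pos hx, rL_add, rL_smul, rL_rw1, rL_rw1, if_neg (by simp), if_neg (by simp)]
    simp
  · rw [if_neg hx, map_zero]

theorem rL_J (al : K) (t : Bool) (f : CW K) : rL K [] (MJF.J al t f) = 0 := by
  induction f using cw_induction with
  | hC c => rw [derivation_C, map_zero]
  | hadd f g hf hg => rw [map_add, map_add, hf, hg, add_zero]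
  | hX f L hf =>
    rw [Derivation.leibniz, rL_add, rL_smul, rL_smul, hf, J_cy, rL_opn, mul_zero, mul_zero,
      add_zero]

theorem rL_app (L : List Bool) (x : RW K) : rL K [] (app L x) =
    if L = [] then rL K [] x else 0 := by
  induction x using Finsupp.induction_linear with
  | zero =>
    rw [map_zero, map_zero]
    split_ifs <;> rfl
  | add p q hp hq =>
    rw [map_add, rL_add, hp, hq, rL_add]
    split_ifs
    · rfl
    · rw [add_zero]
  | single X f =>
    rw [app_single, rL_single, rL_single]
    by_cases hL : L = []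
    · rw [if_pos hL, hL, List.append_nil]
    · rw [if_neg hL, if_neg (by
        rw [List.append_eq_nil_iff]
        exact fun h => hL h.2)]

theorem rL_T (al : K) (t : Bool) (x : RW K) : rL K [] (MJF.T al t x) = rL K [t] x := by
  induction x using Finsupp.induction_linear with
  | zero => simp
  | add p q hp hq => rw [map_add, map_add, hp, hq, map_add]
  | single L f =>
    rw [T_single, rL_add, rL_smul, rL_tch, rL_app, rL_J, rL_single]
    split_ifs <;> simp

theorem rL_pre_nil (t : Bool) (x : RW K) : rL K [] (pre [t] x) = 0 := by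
  induction x using Finsupp.induction_linear with
  | zero => simp
  | add p q hp hq => rw [map_add, map_add, hp, hq, add_zero]
  | single L f =>
    rw [pre_single, rL_single, if_neg (by simp)]

theorem rL_pre_ne {t t' : Bool} (h : t ≠ t') (x : RW K) : rL K [t'] (pre [t] x) = 0 := by
  induction x using Finsupp.induction_linear with
  | zero => simp
  | add p q hp hq => rw [map_add, map_add, hp, hq, add_zero]
  | single L f =>
    rw [pre_single, rL_single, if_neg]
    intro h1
    rw [List.singleton_append, List.cons.injEq] at h1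
    exact h h1.1

theorem rL_pre_eq (t : Bool) (x : RW K) : rL K [t] (pre [t] x) = rL K [] x := by
  induction x using Finsupp.induction_linear with
  | zero => simp
  | add p q hp hq => rw [map_add, map_add, hp, hq, map_add]
  | single L f =>
    rw [pre_single, rL_single, rL_single]
    by_cases hL : L = []
    · rw [if_pos hL, hL, if_pos (by simp)]
    · rw [if_neg hL, if_neg]
      intro h1
      rw [List.singleton_append, List.cons.injEq] at h1
      exact hL h1.2

theorem ep_cm (s : Multiset (Cycle Bool)) : ep K (cm K s) =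
    ((s.map Cycle.length).map fun k => if k = 1 then (1 : K) else 0).prod := by
  unfold cm ep
  rw [map_multiset_prod, Multiset.map_map, Multiset.map_map]
  congr 1
  refine Multiset.map_congr rfl fun z _ => ?_
  simp only [Function.comp_apply, aeval_X]

theorem coeff_mon (t : Multiset ℕ) : coeff (Finsupp.single 1 t.sum) (mon K t) =
    (t.map fun k => if k = 1 then (1 : K) else 0).prod := by
  classical
  induction t using Multiset.induction_on with
  | empty =>
    rw [mon_zero, Multiset.sum_zero, Finsupp.single_zero, Multiset.map_zero,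
      Multiset.prod_zero]
    exact coeff_zero_one
  | cons k t ih =>
    rw [mon_cons, coeff_X_mul', Multiset.map_cons, Multiset.prod_cons, Multiset.sum_cons]
    by_cases hk : k = 1
    · subst hk
      rw [if_pos rfl, one_mul, if_pos, ← ih]
      · congr 1
        ext i
        rw [Finsupp.coe_tsub, Pi.sub_apply, Finsupp.single_apply, Finsupp.single_apply,
          Finsupp.single_apply]
        by_cases hi : 1 = i
        · rw [if_pos hi, if_pos hi, if_pos hi]
          omega
        · rw [if_neg hi, if_neg hi, if_neg hi, Nat.sub_zero]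
      · rw [Finsupp.mem_support_iff, Finsupp.single_apply, if_pos rfl]
        omega
    · rw [if_neg hk, zero_mul, if_neg]
      rw [Finsupp.mem_support_iff, Finsupp.single_apply, if_neg (fun h => hk h.symm)]
      simp

theorem row (al : K) : RowSt (wm al) (fun n => BS K (Wn n)) (fun n => CS K (Wcn n))
    (rL K []) (rL K [false]) (rL K [true]) (ep K).toLinearMap where
  rx0 x := rL_pre_nil false x
  rx1 x := rL_pre_nil true x
  r0x0 x := rL_pre_eq false x
  r0x1 x := rL_pre_ne (by simp) x
  r1x0 x := rL_pre_ne (by simp) x
  r1x1 x := rL_pre_eq true x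
  t0 x := rL_T al false x
  t1 x := rL_T al true x
  cl := by
    intro x
    change ep K (cl0 K x) = rL K [false] x + rL K [true] x
    induction x using Finsupp.induction_linear with
    | zero => simp
    | add p q hp hq =>
      rw [map_add, map_add, hp, hq, map_add, map_add]
      abel
    | single L f =>
      rw [cl0_single, map_mul, rL_single, rL_single]
      rcases L with _ | ⟨l, _ | ⟨l', L⟩⟩
      · rw [if_pos rfl, map_zero, mul_zero, if_neg (by simp), if_neg (by simp), add_zero]
      · rw [if_neg (by simp), ep_cy, if_pos (by simp), mul_one]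
        cases l
        · rw [if_pos rfl, if_neg (by simp), add_zero]
        · rw [if_neg (by simp), if_pos rfl, zero_add]
      · rw [if_neg (by simp), ep_cy, if_neg (by simp), mul_zero, if_neg (by simp),
          if_neg (by simp), add_zero]
  ri := by
    intro y
    change rL K [] (iw K y) = ep K y
    rw [iw_apply, rL_single, if_pos rfl]
  r0i := by
    intro y
    change rL K [false] (iw K y) = 0
    rw [iw_apply, rL_single, if_neg (by simp)]
  r1i := by
    intro y
    change rL K [true] (iw K y) = 0
    rw [iw_apply, rL_single, if_neg (by simp)]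
  e := map_one (ep K)
  F := by
    intro n x hx
    let D : RW K →ₗ[K] K := (lcoeff K (Finsupp.single 1 n)) ∘ₗ i0 K ∘ₗ fgR K - rL K []
    have h : D x ∈ (⊥ : Submodule K K) := by
      refine BS_map D ⊥ (fun L s hL => ?_) x hx
      rw [Submodule.mem_bot]
      change coeff (Finsupp.single 1 n) (i0 K (fgR K (Finsupp.single L (cm K s)))) -
        rL K [] (Finsupp.single L (cm K s)) = 0
      rw [fgR_single, fgt_cm, rL_single, ep_cm, i0_apply, Polynomial.coeff_monomial]
      have h2 := hL.2
      by_cases h0 : L = []
      · rw [h0, List.length_nil, zero_add] at h2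
        rw [h0, if_pos List.length_nil, if_pos rfl, ← h2, coeff_mon, sub_self]
      · rw [if_neg (fun h => h0 (List.length_eq_zero_iff.mp h)), if_neg h0, coeff_zero, sub_self]
    exact sub_eq_zero.mp ((Submodule.mem_bot K).mp h)
  Fc := by
    intro n x hx
    let D : CW K →ₗ[K] K :=
      (lcoeff K (Finsupp.single 1 n)) ∘ₗ (fgt K).toLinearMap - (ep K).toLinearMap
    have h : D x ∈ (⊥ : Submodule K K) := by
      refine CS_map D ⊥ (fun s hs => ?_) x hx
      rw [Submodule.mem_bot]
      change coeff (Finsupp.single 1 n) (fgt K (cm K s)) - ep K (cm K s) = 0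
      rw [fgt_cm, ep_cm, ← hs.2, coeff_mon, sub_self]
    exact sub_eq_zero.mp ((Submodule.mem_bot K).mp h)

end WordM

/-- The hypothesis on the word process. -/
def WordSt (v : QA) : Prop :=
  ∀ u s : QA, ∃ Ks : Lam QA →ₗ[QA] CW QA, (WordM.wm (RatFunc.X : QA)).GoodS RatFunc.X u v s Ks

open WordM in
theorem allSt (h1 : WordSt 1) (h2 : WordSt (-RatFunc.X)) :
    (wm (RatFunc.X : QA)).AllSt (Nb RatFunc.X) := by
  have : Infinite QA := CharZero.infinite QA
  refine ⟨forget _, ⟨_, _, grad _, _, _, _, _, row _⟩, ⟨_, _, pos _ (b_mem_Nb _)⟩, ?_, ?_⟩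
  · intro u
    choose Ks hKs using h1 u
    exact WMod.good_of (free _) hKs
  · intro u
    choose Ks hKs using h2 u
    exact WMod.good_of (free _) hKs

end

end Pool.Agent.MJT
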