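import Pool.Agent.MJT.RhoW

/-!
The word instance: grading, rows, positivity.
-/

namespace Pool.Agent.MJT

open MvPolynomial Pool.Agent.MJR Pool.Agent.MJR.GradeM Pool.Agent.MJF

noncomputable section

variable {K : Type} [Field K]

namespace WordM

/-- a product of cyclic words -/
def cm (K : Type) [Field K] (s : Multiset (Cycle Bool)) : CW K :=
  (s.map fun z => (X z : CW K)).prod

theorem cm_zero : cm K 0 = 1 := by
  unfold cm
  rw [Multiset.map_zero, Multiset.prod_zero]

theorem cm_cons (z : Cycle Bool) (s : Multiset (Cycle Bool)) :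
    cm K (z ::ₘ s) = X z * cm K s := by
  unfold cm
  rw [Multiset.map_cons, Multiset.prod_cons]

theorem cy_mul_cm (L : List Bool) (s : Multiset (Cycle Bool)) :
    cy K L * cm K s = cm K ((L : Cycle Bool) ::ₘ s) := (cm_cons _ _).symm

theorem fgt_cm (s : Multiset (Cycle Bool)) : fgt K (cm K s) = mon K (s.map Cycle.length) := by
  unfold cm mon fgt
  rw [map_multiset_prod, Multiset.map_map, Multiset.map_map]
  congr 1
  refine Multiset.map_congr rfl fun z _ => ?_
  simp only [Function.comp_apply, aeval_X]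

theorem spl_mem {α V : Type} [AddCommMonoid V] (P : AddSubmonoid V)
    (φ : List α → α → List α → V) (L : List α)
    (h : ∀ X x Y, L = X ++ x :: Y → φ X x Y ∈ P) : spl φ L ∈ P := by
  induction L generalizing φ with
  | nil => exact P.zero_mem
  | cons l L ih =>
    rw [spl_cons]
    refine P.add_mem (h [] l L rfl) (ih _ fun X x Y hL => h _ _ _ ?_)
    rw [hL]
    rfl

theorem smul_single_cm (c : CW K) (L : List Bool) (f : CW K) :
    c • (Finsupp.single L f : RW K) = Finsupp.single L (c * f) := by
  rw [Finsupp.smul_single, smul_eq_mul]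

theorem J_cm (al : K) (t : Bool) (s : Multiset (Cycle Bool)) : MJF.J al t (cm K s) =
    (s.map fun z => cm K (s.erase z) • opn al t (Quotient.out z)).sum := by
  induction s using Multiset.induction_on with
  | empty =>
    rw [cm_zero, Derivation.map_one_eq_zero, Multiset.map_zero, Multiset.sum_zero]
  | cons z s ih =>
    rw [cm_cons, Derivation.leibniz, ih, Multiset.map_cons, Multiset.sum_cons,
      Multiset.erase_cons_head]
    have e1 : MJF.J al t (X z) = opn al t (Quotient.out z) := by
      unfold MJF.J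
      rw [mkDerivation_X]
    rw [e1, add_comm]
    congr 1
    have e2 : (X z : CW K) • (s.map fun z => cm K (s.erase z) • opn al t (Quotient.out z)).sum =
        ((s.map fun z => cm K (s.erase z) • opn al t (Quotient.out z)).map
          fun x => (X z : CW K) • x).sum := by
      have h := map_multiset_sum (LinearMap.lsmul (CW K) (RW K) (X z : CW K))
        (s.map fun z => cm K (s.erase z) • opn al t (Quotient.out z))
      exact h
    rw [e2, Multiset.map_map]
    congr 1
    refine Multiset.map_congr rfl fun y hy => ?_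
    have e3 : (z ::ₘ s).erase y = z ::ₘ s.erase y := by
      rcases eq_or_ne y z with rfl | hyz
      · rw [Multiset.erase_cons_head, Multiset.cons_erase hy]
      · rw [Multiset.erase_cons_tail _ hyz.symm]
    rw [e3, cm_cons]
    simp only [Function.comp_apply, smul_smul]

/-- The touches of a basic state. -/
theorem T_mem (al : K) (t : Bool) (P : AddSubmonoid (RW K))
    (hP : ∀ x ∈ P, (al - 1) • x ∈ P) (L : List Bool) (s : Multiset (Cycle Bool))
    (h1 : ∀ X Y, L = X ++ t :: Y →
      Finsupp.single Y (cm K (((X ++ [t] : List Bool) : Cycle Bool) ::ₘ s)) ∈ P ∧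
      Finsupp.single (X.reverse ++ t :: Y) (cm K s) ∈ P)
    (h2 : ∀ z ∈ s, ∀ X Y, Quotient.out z = X ++ t :: Y →
      Finsupp.single (Y ++ X ++ [t] ++ L) (cm K (s.erase z)) ∈ P ∧
      Finsupp.single ((Y ++ X).reverse ++ [t] ++ L) (cm K (s.erase z)) ∈ P) :
    MJF.T al t (Finsupp.single L (cm K s)) ∈ P := by
  classical
  have hC : ∀ (c : K) (x : RW K), (C c : CW K) • x = c • x := by
    intro c x
    have e1 : (C c : CW K) = algebraMap K (CW K) c := rfl
    rw [e1, algebraMap_smul]
  rw [T_single]
  refine P.add_mem ?_ ?_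
  · unfold tch
    have e1 := spl_hom ((LinearMap.lsmul (CW K) (RW K) (cm K s)).toAddMonoidHom)
      (fun X x Y => if x = t then cy K (X ++ [t]) • rw1 K Y +
        (C (al - 1) : CW K) • rw1 K (X.reverse ++ t :: Y) else 0) L
    have e2 : cm K s • spl (fun X x Y => if x = t then cy K (X ++ [t]) • rw1 K Y +
        (C (al - 1) : CW K) • rw1 K (X.reverse ++ t :: Y) else 0) L = _ := e1
    rw [e2]
    refine spl_mem P _ L fun X x Y hL => ?_
    change cm K s • (if x = t then _ else 0) ∈ P
    by_cases hx : x = t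
    · subst hx
      obtain ⟨h3, h4⟩ := h1 X Y hL
      rw [if_pos rfl, smul_add, hC, smul_comm (cm K s) (al - 1)]
      refine P.add_mem ?_ (hP _ ?_)
      · rw [smul_smul, ← single_eq, mul_comm, cy_mul_cm]
        exact h3
      · rw [← single_eq]
        exact h4
    · rw [if_neg hx, smul_zero]
      exact P.zero_mem
  · rw [J_cm, map_multiset_sum, Multiset.map_map]
    refine P.multiset_sum_mem _ fun x hx => ?_
    obtain ⟨z, hz, rfl⟩ := Multiset.mem_map.mp hx
    simp only [Function.comp_apply]
    rw [map_smul]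
    unfold opn
    have e1 := spl_hom (((LinearMap.lsmul (CW K) (RW K) (cm K (s.erase z))) ∘ₗ
      app L).toAddMonoidHom)
      (fun X x Y => if x = t then rw1 K (Y ++ X ++ [t]) +
        (C (al - 1) : CW K) • rw1 K ((Y ++ X).reverse ++ [t]) else 0) (Quotient.out z)
    have e2 : cm K (s.erase z) • app L (spl (fun X x Y => if x = t then rw1 K (Y ++ X ++ [t]) +
        (C (al - 1) : CW K) • rw1 K ((Y ++ X).reverse ++ [t]) else 0) (Quotient.out z)) = _ := e1
    rw [e2]
    refine spl_mem P _ _ fun X x Y hL => ?_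
    change cm K (s.erase z) • app L (if x = t then _ else 0) ∈ P
    by_cases hx : x = t
    · subst hx
      obtain ⟨h3, h4⟩ := h2 z hz X Y hL
      rw [if_pos rfl, map_add, map_smul, app_rw1, app_rw1, smul_add, hC,
        smul_comm (cm K (s.erase z)) (al - 1), ← single_eq, ← single_eq]
      exact P.add_mem h3 (hP _ h4)
    · rw [if_neg hx, map_zero, smul_zero]
      exact P.zero_mem

/-! ### Spans of basic states -/

/-- span of basic states with a root -/
def BS (K : Type) [Field K] (W : List Bool → Multiset (Cycle Bool) → Prop) :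
    Submodule K (RW K) :=
  Submodule.span K {x | ∃ L s, W L s ∧ x = Finsupp.single L (cm K s)}

/-- span of basic closed states -/
def CS (K : Type) [Field K] (W : Multiset (Cycle Bool) → Prop) : Submodule K (CW K) :=
  Submodule.span K {f | ∃ s, W s ∧ f = cm K s}

variable {W : List Bool → Multiset (Cycle Bool) → Prop} {Wc : Multiset (Cycle Bool) → Prop}

theorem mem_BS {L : List Bool} {s : Multiset (Cycle Bool)} (h : W L s) :
    Finsupp.single L (cm K s) ∈ BS K W := Submodule.subset_span ⟨L, s, h, rfl⟩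

theorem mem_CS {s : Multiset (Cycle Bool)} (h : Wc s) : cm K s ∈ CS K Wc :=
  Submodule.subset_span ⟨s, h, rfl⟩

theorem BS_map {V : Type} [AddCommGroup V] [Module K V] (f : RW K →ₗ[K] V) (P : Submodule K V)
    (h : ∀ L s, W L s → f (Finsupp.single L (cm K s)) ∈ P) : ∀ x ∈ BS K W, f x ∈ P := by
  intro x hx
  have h1 : BS K W ≤ P.comap f := Submodule.span_le.mpr (by
    rintro _ ⟨L, s, hL, rfl⟩
    exact h L s hL)
  exact h1 hx

theorem CS_map {V : Type} [AddCommGroup V] [Module K V] (f : CW K →ₗ[K] V) (P : Submodule K V)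
    (h : ∀ s, Wc s → f (cm K s) ∈ P) : ∀ x ∈ CS K Wc, f x ∈ P := by
  intro x hx
  have h1 : CS K Wc ≤ P.comap f := Submodule.span_le.mpr (by
    rintro _ ⟨s, hs, rfl⟩
    exact h s hs)
  exact h1 hx

theorem iw_cm (s : Multiset (Cycle Bool)) : iw K (cm K s) = Finsupp.single [] (cm K s) := rfl

theorem cl0_cm (L : List Bool) (s : Multiset (Cycle Bool)) :
    cl0 K (Finsupp.single L (cm K s)) =
      if L = [] then 0 else cm K ((L : Cycle Bool) ::ₘ s) := by
  rw [cl0_single]
  split_ifs
  · rw [mul_zero]
  · rw [mul_comm, cy_mul_cm]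

/-- length of a state -/
def Wn (n : ℕ) (L : List Bool) (s : Multiset (Cycle Bool)) : Prop :=
  Cycle.nil ∉ s ∧ L.length + (s.map Cycle.length).sum = n

def Wcn (n : ℕ) (s : Multiset (Cycle Bool)) : Prop :=
  Cycle.nil ∉ s ∧ (s.map Cycle.length).sum = n

theorem coe_ne_nil {L : List Bool} (hL : L ≠ []) : (L : Cycle Bool) ≠ Cycle.nil := by
  intro h
  exact hL ((Cycle.coe_eq_nil L).mp h)

theorem out_length (z : Cycle Bool) : (Quotient.out z).length = z.length := by
  have h : ((Quotient.out z : List Bool) : Cycle Bool) = z := Quotient.out_eq z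
  rw [← Cycle.length_coe, h]

theorem sum_erase {s : Multiset (Cycle Bool)} {z : Cycle Bool} (hz : z ∈ s) :
    z.length + ((s.erase z).map Cycle.length).sum = (s.map Cycle.length).sum := by
  rw [← Multiset.sum_cons, ← Multiset.map_cons, Multiset.cons_erase hz]

theorem T_Wn (al : K) (t : Bool) (n : ℕ) :
    ∀ x ∈ BS K (Wn n), MJF.T al t x ∈ BS K (Wn n) := by
  classical
  refine BS_map _ _ fun L s hL => ?_
  refine T_mem al t (BS K (Wn n)).toAddSubmonoid (fun x hx => Submodule.smul_mem _ _ hx) L s
    ?_ ?_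
  · rintro X Y rfl
    refine ⟨mem_BS ⟨?_, ?_⟩, mem_BS ⟨hL.1, ?_⟩⟩
    · rw [Multiset.mem_cons, not_or]
      exact ⟨fun h => coe_ne_nil (by simp) h.symm, hL.1⟩
    · have h := hL.2
      rw [List.length_append, List.length_cons] at h
      rw [Multiset.map_cons, Multiset.sum_cons, Cycle.length_coe, List.length_append,
        List.length_singleton]
      omega
    · have h := hL.2
      rw [List.length_append, List.length_cons] at h
      rw [List.length_append, List.length_reverse, List.length_cons]
      omega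
  · intro z hz X Y hX
    have h := hL.2
    have h1 := out_length z
    rw [hX, List.length_append, List.length_cons] at h1
    have h2 := sum_erase hz
    refine ⟨mem_BS ⟨fun h => hL.1 (Multiset.mem_of_mem_erase h), ?_⟩,
      mem_BS ⟨fun h => hL.1 (Multiset.mem_of_mem_erase h), ?_⟩⟩
    · rw [List.length_append, List.length_append, List.length_append, List.length_singleton]
      omega
    · rw [List.length_append, List.length_append, List.length_reverse, List.length_append,
        List.length_singleton]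
      omega

theorem pre_Wn (t : Bool) (n : ℕ) : ∀ x ∈ BS K (Wn n),
    ((pre [t] : RW K →ₗ[CW K] RW K).restrictScalars K) x ∈ BS K (Wn (n + 1)) := by
  refine BS_map _ _ fun L s hL => ?_
  change pre [t] _ ∈ _
  rw [pre_single]
  refine mem_BS ⟨hL.1, ?_⟩
  have h := hL.2
  rw [List.length_append, List.length_singleton]
  omega

theorem length_ne_zero {z : Cycle Bool} (hz : z ≠ Cycle.nil) : z.length ≠ 0 := by
  induction z using Quotient.inductionOn with
  | h L =>
    intro h
    have h1 : L.length = 0 := h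
    rw [List.length_eq_zero_iff] at h1
    exact hz (by rw [h1]; rfl)

theorem grad (al : K) : GradSt (wm al) (fun n => BS K (Wn n)) (fun n => CS K (Wcn n)) where
  t0 := T_Wn al false
  t1 := T_Wn al true
  x0 := pre_Wn false
  x1 := pre_Wn true
  cl := by
    intro n
    refine BS_map ((cl0 K).restrictScalars K) _ fun L s hL => ?_
    change cl0 K _ ∈ _
    rw [cl0_cm]
    split_ifs with h0
    · exact Submodule.zero_mem _
    · refine mem_CS ⟨?_, ?_⟩
      · rw [Multiset.mem_cons, not_or]
        exact ⟨fun h => coe_ne_nil h0 h.symm, hL.1⟩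
      · rw [Multiset.map_cons, Multiset.sum_cons, Cycle.length_coe]
        exact hL.2
  i := by
    intro n
    refine CS_map (iw K) _ fun s hs => ?_
    rw [iw_cm]
    refine mem_BS ⟨hs.1, ?_⟩
    rw [List.length_nil, zero_add]
    exact hs.2
  F := by
    intro n
    refine BS_map (fgR K) _ fun L s hL => ?_
    rw [fgR_single, fgt_cm]
    refine mem_T ?_ hL.2
    intro h
    obtain ⟨z, hz, h0⟩ := Multiset.mem_map.mp h
    exact length_ne_zero (fun h => hL.1 (h ▸ hz)) h0
  Fc := by
    intro n
    refine CS_map (fgt K).toLinearMap _ fun s hs => ?_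
    change fgt K (cm K s) ∈ _
    rw [fgt_cm]
    refine mem_S ?_ hs.2
    intro h
    obtain ⟨z, hz, h0⟩ := Multiset.mem_map.mp h
    exact length_ne_zero (fun h => hs.1 (h ▸ hz)) h0
  e := by
    change (1 : CW K) ∈ _
    rw [← cm_zero]
    exact mem_CS ⟨Multiset.notMem_zero _, rfl⟩

/-! ### States without marks -/

def Wf (L : List Bool) (s : Multiset (Cycle Bool)) : Prop := true ∉ L ∧ ∀ z ∈ s, true ∉ z

def Wcf (s : Multiset (Cycle Bool)) : Prop := ∀ z ∈ s, true ∉ z

theorem mem_out {z : Cycle Bool} {t : Bool} : t ∈ Quotient.out z ↔ t ∈ z := by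
  have h : ((Quotient.out z : List Bool) : Cycle Bool) = z := Quotient.out_eq z
  rw [← Cycle.mem_coe_iff, h]

theorem free (al : K) : (wm al).FreeSt (BS K Wf) (CS K Wcf) where
  t1 := by
    have h : ∀ x ∈ BS K Wf, MJF.T al true x ∈ (⊥ : Submodule K (RW K)) := by
      refine BS_map _ _ fun L s hL => ?_
      refine T_mem al true (⊥ : Submodule K (RW K)).toAddSubmonoid
        (fun x hx => Submodule.smul_mem _ _ hx) L s ?_ ?_
      · rintro X Y rfl
        exact absurd (by simp) hL.1
      · intro z hz X Y hX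
        exact absurd (mem_out.mp (by rw [hX]; simp)) (hL.2 z hz)
    exact fun x hx => (Submodule.mem_bot K).mp (h x hx)
  t0 := by
    refine BS_map (MJF.T al false) _ fun L s hL => ?_
    refine T_mem al false (BS K Wf).toAddSubmonoid (fun x hx => Submodule.smul_mem _ _ hx) L s
      ?_ ?_
    · rintro X Y rfl
      have h := hL.1
      rw [List.mem_append, List.mem_cons, not_or, not_or] at h
      refine ⟨mem_BS ⟨h.2.2, ?_⟩, mem_BS ⟨?_, hL.2⟩⟩
      · intro z hz
        rw [Multiset.mem_cons] at hz
        rcases hz with rfl | hz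
        · rw [Cycle.mem_coe_iff, List.mem_append, not_or]
          exact ⟨h.1, by simp⟩
        · exact hL.2 z hz
      · rw [List.mem_append, List.mem_cons, List.mem_reverse, not_or, not_or]
        exact h
    · intro z hz X Y hX
      have h := hL.2 z hz
      rw [← mem_out, hX, List.mem_append, List.mem_cons, not_or, not_or] at h
      refine ⟨mem_BS ⟨?_, fun y hy => hL.2 y (Multiset.mem_of_mem_erase hy)⟩,
        mem_BS ⟨?_, fun y hy => hL.2 y (Multiset.mem_of_mem_erase hy)⟩⟩
      · simp only [List.mem_append, not_or]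
        exact ⟨⟨⟨h.2.2, h.1⟩, by simp⟩, hL.1⟩
      · simp only [List.mem_append, List.mem_reverse, not_or]
        exact ⟨⟨⟨h.2.2, h.1⟩, by simp⟩, hL.1⟩
  x0 := by
    refine BS_map ((pre [false] : RW K →ₗ[CW K] RW K).restrictScalars K) _ fun L s hL => ?_
    change pre [false] _ ∈ _
    rw [pre_single]
    refine mem_BS ⟨?_, hL.2⟩
    rw [List.mem_append, not_or]
    exact ⟨by simp, hL.1⟩
  i := by
    refine CS_map (iw K) _ fun s hs => ?_
    rw [iw_cm]
    exact mem_BS ⟨by simp, hs⟩
  cl := by
    refine BS_map ((cl0 K).restrictScalars K) _ fun L s hL => ?_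
    change cl0 K _ ∈ _
    rw [cl0_cm]
    split_ifs with h0
    · exact Submodule.zero_mem _
    · refine mem_CS ?_
      intro z hz
      rw [Multiset.mem_cons] at hz
      rcases hz with rfl | hz
      · rw [Cycle.mem_coe_iff]
        exact hL.1
      · exact hL.2 z hz
  e := by
    change (1 : CW K) ∈ _
    rw [← cm_zero]
    exact mem_CS fun z hz => absurd hz (Multiset.notMem_zero _)

/-! ### Cones -/

/-- cone of states with a root -/
def PMc (PL : Subsemiring K) : AddSubmonoid (RW K) :=
  AddSubmonoid.closure {x | ∃ c ∈ PL, ∃ L s, x = c • (Finsupp.single L (cm K s) : RW K)}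

/-- cone of closed states -/
def PNc (PL : Subsemiring K) : AddSubmonoid (CW K) :=
  AddSubmonoid.closure {x | ∃ c ∈ PL, ∃ s, x = c • cm K s}

variable {PL : Subsemiring K}

theorem PMc_map {V : Type} [AddCommGroup V] [Module K V] (f : RW K →ₗ[K] V)
    (P : AddSubmonoid V) (hP : ∀ c ∈ PL, ∀ x ∈ P, c • x ∈ P)
    (h : ∀ L s, f (Finsupp.single L (cm K s)) ∈ P) : ∀ x ∈ PMc PL, f x ∈ P := by
  intro x hx
  have h1 : PMc PL ≤ P.comap f.toAddMonoidHom := AddSubmonoid.closure_le.mpr (by
    rintro _ ⟨c, hc, L, s, rfl⟩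
    change f _ ∈ P
    rw [map_smul]
    exact hP c hc _ (h L s))
  exact h1 hx

theorem PNc_map {V : Type} [AddCommGroup V] [Module K V] (f : CW K →ₗ[K] V)
    (P : AddSubmonoid V) (hP : ∀ c ∈ PL, ∀ x ∈ P, c • x ∈ P)
    (h : ∀ s, f (cm K s) ∈ P) : ∀ x ∈ PNc PL, f x ∈ P := by
  intro x hx
  have h1 : PNc PL ≤ P.comap f.toAddMonoidHom := AddSubmonoid.closure_le.mpr (by
    rintro _ ⟨c, hc, s, rfl⟩
    change f _ ∈ P
    rw [map_smul]
    exact hP c hc _ (h s))
  exact h1 hx

theorem mem_PMc (L : List Bool) (s : Multiset (Cycle Bool)) :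
    Finsupp.single L (cm K s) ∈ PMc PL :=
  AddSubmonoid.subset_closure ⟨1, one_mem _, L, s, (one_smul _ _).symm⟩

theorem mem_PNc (s : Multiset (Cycle Bool)) : cm K s ∈ PNc PL :=
  AddSubmonoid.subset_closure ⟨1, one_mem _, s, (one_smul _ _).symm⟩

theorem PMc_smul : ∀ c ∈ PL, ∀ x ∈ PMc PL, c • x ∈ PMc PL := by
  intro c hc x hx
  have h1 : PMc PL ≤ (PMc PL).comap (c • (LinearMap.id : RW K →ₗ[K] RW K)).toAddMonoidHom :=
    AddSubmonoid.closure_le.mpr (by
      rintro _ ⟨d, hd, L, s, rfl⟩
      change c • (d • (Finsupp.single L (cm K s) : RW K)) ∈ PMc PL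
      rw [smul_smul]
      exact AddSubmonoid.subset_closure ⟨c * d, mul_mem hc hd, L, s, rfl⟩)
  exact h1 hx

theorem PNc_smul : ∀ c ∈ PL, ∀ x ∈ PNc PL, c • x ∈ PNc PL := by
  intro c hc x hx
  have h1 : PNc PL ≤ (PNc PL).comap (c • (LinearMap.id : CW K →ₗ[K] CW K)).toAddMonoidHom :=
    AddSubmonoid.closure_le.mpr (by
      rintro _ ⟨d, hd, s, rfl⟩
      change c • (d • cm K s) ∈ PNc PL
      rw [smul_smul]
      exact AddSubmonoid.subset_closure ⟨c * d, mul_mem hc hd, s, rfl⟩)
  exact h1 hx

theorem mon_CL (s : Multiset ℕ) : mon K s ∈ CL PL := by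
  induction s using Multiset.induction_on with
  | empty =>
    classical
    rw [mon_zero]
    intro m
    rw [coeff_one]
    split_ifs
    · exact one_mem _
    · exact zero_mem _
  | cons k s ih =>
    rw [mon_cons]
    exact CL_X_mul ih k

theorem pos (al : K) (hal : al - 1 ∈ PL) : PosSt (wm al) (PMc PL) (PNc PL) PL where
  t0 := PMc_map (MJF.T al false) _ PMc_smul fun L s =>
    T_mem al false (PMc PL) (PMc_smul _ hal) L s (fun _ _ _ => ⟨mem_PMc _ _, mem_PMc _ _⟩)
      fun _ _ _ _ _ => ⟨mem_PMc _ _, mem_PMc _ _⟩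
  t1 := PMc_map (MJF.T al true) _ PMc_smul fun L s =>
    T_mem al true (PMc PL) (PMc_smul _ hal) L s (fun _ _ _ => ⟨mem_PMc _ _, mem_PMc _ _⟩)
      fun _ _ _ _ _ => ⟨mem_PMc _ _, mem_PMc _ _⟩
  x0 := PMc_map ((pre [false] : RW K →ₗ[CW K] RW K).restrictScalars K) _ PMc_smul fun L s => by
    change pre [false] _ ∈ _
    rw [pre_single]
    exact mem_PMc _ _
  x1 := PMc_map ((pre [true] : RW K →ₗ[CW K] RW K).restrictScalars K) _ PMc_smul fun L s => by
    change pre [true] _ ∈ _
    rw [pre_single]
    exact mem_PMc _ _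
  cl := PMc_map ((cl0 K).restrictScalars K) _ PNc_smul fun L s => by
    change cl0 K _ ∈ _
    rw [cl0_cm]
    split_ifs
    · exact zero_mem _
    · exact mem_PNc _
  i := PNc_map (iw K) _ PMc_smul fun s => mem_PMc _ _
  sM := PMc_smul
  F := by
    have h : ∀ x ∈ PMc PL, fgR K x ∈ CLW PL := by
      refine PMc_map (fgR K) _ ?_ fun L s => ?_
      · intro c hc x hx j m
        rw [Polynomial.coeff_smul, coeff_smul, smul_eq_mul]
        exact mul_mem hc (hx j m)
      · rw [fgR_single, fgt_cm]
        intro j m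
        rw [Polynomial.coeff_monomial]
        split_ifs
        · exact mon_CL _ m
        · rw [coeff_zero]
          exact zero_mem _
    exact fun x hx j m => h x hx j m
  Fc := by
    have h : ∀ x ∈ PNc PL, fgt K x ∈ CL PL := by
      refine PNc_map (fgt K).toLinearMap _ ?_ fun s => ?_
      · intro c hc x hx m
        rw [coeff_smul, smul_eq_mul]
        exact mul_mem hc (hx m)
      · change fgt K (cm K s) ∈ _
        rw [fgt_cm]
        exact mon_CL _
    exact fun x hx m => h x hx m
  e := by
    change (1 : CW K) ∈ _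
    rw [← cm_zero]
    exact mem_PNc _

end WordM

end

end Pool.Agent.MJT
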