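import Pool.Agent.MJT.RhoS
import Pool.Agent.MJF.Spl

/-!
The word instance of the two coloured insertion process.
-/

namespace Pool.Agent.MJT

open MvPolynomial Pool.Agent.MJR Pool.Agent.MJR.GradeM Pool.Agent.MJF

noncomputable section

variable {K : Type} [Field K]

namespace WordM

/-- forgetting the colours, with a root -/
def fgR (K : Type) [Field K] : RW K →ₗ[K] LW K :=
  Finsupp.lsum K fun L =>
    ((Polynomial.monomial (R := Lam K) L.length).restrictScalars K) ∘ₗ (fgt K).toLinearMap

theorem fgR_single (L : List Bool) (f : CW K) :
    fgR K (Finsupp.single L f) = Polynomial.monomial L.length (fgt K f) := by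
  unfold fgR
  rw [Finsupp.lsum_single]
  rfl

theorem fgR_rw1 (L : List Bool) : fgR K (rw1 K L) = Polynomial.X ^ L.length := by
  unfold rw1
  rw [fgR_single, map_one, Polynomial.monomial_one_right_eq_X_pow]

theorem fgR_smul (f : CW K) (x : RW K) :
    fgR K (f • x) = Polynomial.C (fgt K f) * fgR K x := by
  induction x using Finsupp.induction_linear with
  | zero => simp
  | add p q hp hq => rw [smul_add, map_add, map_add, hp, hq, mul_add]
  | single L h =>
    rw [Finsupp.smul_single, fgR_single, fgR_single, smul_eq_mul, map_mul,
      Polynomial.C_mul_monomial]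

theorem fgR_app (L : List Bool) (x : RW K) :
    fgR K (app L x) = Polynomial.X ^ L.length * fgR K x := by
  induction x using Finsupp.induction_linear with
  | zero => simp
  | add p q hp hq => rw [map_add, map_add, map_add, hp, hq, mul_add]
  | single X h =>
    rw [app_single, fgR_single, fgR_single, Polynomial.X_pow_mul_monomial, List.length_append]

theorem fgR_pre (L : List Bool) (x : RW K) :
    fgR K (pre L x) = Polynomial.X ^ L.length * fgR K x := by
  induction x using Finsupp.induction_linear with
  | zero => simp
  | add p q hp hq => rw [map_add, map_add, map_add, hp, hq, mul_add]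
  | single X h =>
    rw [pre_single, fgR_single, fgR_single, Polynomial.X_pow_mul_monomial, List.length_append,
      add_comm]

theorem fgt_cy (L : List Bool) : fgt K (cy K L) = X L.length := by
  unfold fgt cy
  rw [aeval_X, Cycle.length_coe]

theorem fgt_C (c : K) : fgt K (C c) = C c := by
  unfold fgt
  rw [aeval_C]
  rfl

/-- A sum over the splits which depends only on the lengths. -/
theorem spl_len {α V : Type} [AddCommMonoid V] (h : ℕ → ℕ → V) (L : List α) :
    spl (fun X _ Y => h X.length Y.length) L =
      ∑ i ∈ Finset.range L.length, h i (L.length - 1 - i) := by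
  induction L generalizing h with
  | nil => rfl
  | cons l L ih =>
    rw [spl_cons, List.length_cons, Finset.sum_range_succ', add_comm]
    have h1 := ih fun a b => h (a + 1) b
    have h2 : spl (fun X _ Y => h (l :: X).length Y.length) L =
        ∑ i ∈ Finset.range L.length, h (i + 1) (L.length - 1 - i) := h1
    rw [h2]
    congr 1
    refine Finset.sum_congr rfl fun i _ => ?_
    have e1 : L.length + 1 - 1 - (i + 1) = L.length - 1 - i := by omega
    rw [e1]

theorem fgR_tch (al : K) (L : List Bool) : fgR K (tch al false L) + fgR K (tch al true L) =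
    ∑ i ∈ Finset.range L.length, (Polynomial.C (X (i + 1)) * Polynomial.X ^ (L.length - 1 - i) +
      Polynomial.C (C (al - 1)) * Polynomial.X ^ L.length) := by
  rw [← spl_len (fun a c => (Polynomial.C (X (a + 1)) * Polynomial.X ^ c +
      Polynomial.C (C (al - 1)) * Polynomial.X ^ L.length : LW K)) L]
  unfold tch
  have h := fun t => spl_hom (fgR K : RW K →ₗ[K] LW K).toAddMonoidHom
    (fun X x Y => if x = t then cy K (X ++ [t]) • rw1 K Y +
      (C (al - 1) : CW K) • rw1 K (X.reverse ++ t :: Y) else 0) L
  have h2 : ∀ t, fgR K (spl (fun X x Y => if x = t then cy K (X ++ [t]) • rw1 K Y +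
      (C (al - 1) : CW K) • rw1 K (X.reverse ++ t :: Y) else 0) L) = _ := h
  rw [h2, h2, ← spl_add]
  apply spl_congr'
  intro X x Y hL
  have e1 : ∀ t, fgR K (cy K (X ++ [t]) • rw1 K Y +
      (C (al - 1) : CW K) • rw1 K (X.reverse ++ t :: Y)) =
      Polynomial.C (MvPolynomial.X (X.length + 1)) * Polynomial.X ^ Y.length +
      Polynomial.C (C (al - 1)) * Polynomial.X ^ L.length := by
    intro t
    rw [map_add, fgR_smul, fgR_smul, fgR_rw1, fgR_rw1, fgt_cy, fgt_C, hL]
    simp
  change fgR K (if x = false then _ else 0) + fgR K (if x = true then _ else 0) = _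
  cases x
  · rw [if_pos rfl, if_neg (by simp), map_zero, add_zero, e1]
  · rw [if_pos rfl, if_neg (by simp), map_zero, zero_add, e1]

theorem fgR_opn (al : K) (L : List Bool) : fgR K (opn al false L) + fgR K (opn al true L) =
    Polynomial.monomial L.length (C (al * L.length)) := by
  have e0 : Polynomial.monomial L.length (C (al * L.length)) =
      ∑ i ∈ Finset.range L.length, (Polynomial.X ^ (i + (L.length - 1 - i) + 1) +
        Polynomial.C (C (al - 1)) * Polynomial.X ^ (i + (L.length - 1 - i) + 1) : LW K) := by
    have e1 : ∀ i ∈ Finset.range L.length,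
        (Polynomial.X ^ (i + (L.length - 1 - i) + 1) +
        Polynomial.C (C (al - 1)) * Polynomial.X ^ (i + (L.length - 1 - i) + 1) : LW K) =
        Polynomial.C (C al) * Polynomial.X ^ L.length := by
      intro i hi
      rw [Finset.mem_range] at hi
      have e2 : i + (L.length - 1 - i) + 1 = L.length := by omega
      rw [e2, map_sub, map_sub, map_one, map_one]
      ring
    rw [Finset.sum_congr rfl e1, Finset.sum_const, Finset.card_range,
      ← Polynomial.C_mul_X_pow_eq_monomial, nsmul_eq_mul, map_mul, map_mul, map_natCast,
      map_natCast]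
    ring
  rw [e0, ← spl_len (fun a c => (Polynomial.X ^ (a + c + 1) +
      Polynomial.C (C (al - 1)) * Polynomial.X ^ (a + c + 1) : LW K)) L]
  unfold opn
  have h2 : ∀ t, fgR K (spl (fun X x Y => if x = t then rw1 K (Y ++ X ++ [t]) +
      (C (al - 1) : CW K) • rw1 K ((Y ++ X).reverse ++ [t]) else 0) L) = _ := fun t =>
    spl_hom (fgR K : RW K →ₗ[K] LW K).toAddMonoidHom
      (fun X x Y => if x = t then rw1 K (Y ++ X ++ [t]) +
      (C (al - 1) : CW K) • rw1 K ((Y ++ X).reverse ++ [t]) else 0) L
  rw [h2, h2, ← spl_add]
  apply spl_congr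
  intro X x Y
  have e1 : ∀ t, fgR K (rw1 K (Y ++ X ++ [t]) +
      (C (al - 1) : CW K) • rw1 K ((Y ++ X).reverse ++ [t])) =
      Polynomial.X ^ (X.length + Y.length + 1) +
        Polynomial.C (C (al - 1)) * Polynomial.X ^ (X.length + Y.length + 1) := by
    intro t
    rw [map_add, fgR_smul, fgR_rw1, fgR_rw1, fgt_C]
    have e2 : (Y ++ X ++ [t]).length = X.length + Y.length + 1 := by
      rw [List.length_append, List.length_append, List.length_singleton]
      omega
    have e3 : ((Y ++ X).reverse ++ [t]).length = X.length + Y.length + 1 := by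
      rw [List.length_append, List.length_reverse, List.length_append, List.length_singleton]
      omega
    rw [e2, e3]
  change fgR K (if x = false then _ else 0) + fgR K (if x = true then _ else 0) = _
  cases x
  · rw [if_pos rfl, if_neg (by simp), map_zero, add_zero, e1]
  · rw [if_pos rfl, if_neg (by simp), map_zero, zero_add, e1]

theorem fgR_J (al : K) (f : CW K) : fgR K (J al false f) + fgR K (J al true f) =
    U al (fgt K f) := by
  induction f using cw_induction with
  | hC c =>
    rw [derivation_C, derivation_C, map_zero, fgt_C, U_C, add_zero]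
  | hadd f g hf hg =>
    rw [map_add, map_add, map_add, map_add, map_add, map_add, ← hf, ← hg]
    abel
  | hX f L hf =>
    rw [Derivation.leibniz, Derivation.leibniz, map_add, map_add, fgR_smul, fgR_smul, fgR_smul,
      fgR_smul, map_mul, U_mul, ← hf, fgt_cy, J_cy, J_cy, U_X, ← fgR_opn]
    ring

theorem Zf_monomial (al : K) (n : ℕ) (f : Lam K) : Zf al (Polynomial.monomial n f) =
    Polynomial.C f * ∑ i ∈ Finset.range n, (Polynomial.C (X (i + 1)) *
      Polynomial.X ^ (n - 1 - i) + Polynomial.C (C (al - 1)) * Polynomial.X ^ n) +
      Polynomial.X ^ n * U al f := by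
  induction n with
  | zero =>
    rw [Polynomial.monomial_zero_left, Zf_C, Finset.sum_range_zero, mul_zero, zero_add, pow_zero,
      one_mul]
  | succ n ih =>
    rw [← Polynomial.X_mul_monomial, AbsM.Zf_X_mul, ih, Polynomial.X_mul_monomial,
      Tr_monomial _ (Nat.succ_ne_zero n)]
    have e1 : ∑ i ∈ Finset.range (n + 1), (Polynomial.C (X (i + 1)) *
        Polynomial.X ^ (n + 1 - 1 - i) + Polynomial.C (C (al - 1)) * Polynomial.X ^ (n + 1)) =
        Polynomial.X * ∑ i ∈ Finset.range n, (Polynomial.C (X (i + 1)) *
        Polynomial.X ^ (n - 1 - i) + Polynomial.C (C (al - 1)) * Polynomial.X ^ n) +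
        (Polynomial.C (X (n + 1)) + Polynomial.C (C (al - 1)) * Polynomial.X ^ (n + 1) : LW K) := by
      rw [Finset.sum_range_succ, Finset.mul_sum]
      congr 1
      · refine Finset.sum_congr rfl fun i hi => ?_
        rw [Finset.mem_range] at hi
        have e2 : n + 1 - 1 - i = (n - 1 - i) + 1 := by omega
        rw [e2]
        ring
      · have e2 : n + 1 - 1 - n = 0 := by omega
        rw [e2, pow_zero, mul_one]
    rw [e1, ← Polynomial.C_mul_X_pow_eq_monomial]
    have e3 : (al - 1) • (Polynomial.C f * Polynomial.X ^ (n + 1) : LW K) =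
        Polynomial.C (C (al - 1)) * (Polynomial.C f * Polynomial.X ^ (n + 1)) := by
      rw [Algebra.smul_def]
      rfl
    rw [e3, map_mul]
    ring

/-- closing; the empty root word goes to zero -/
def cl0 (K : Type) [Field K] : RW K →ₗ[CW K] CW K :=
  Finsupp.linearCombination (CW K) fun L => if L = [] then 0 else cy K L

theorem cl0_single (L : List Bool) (f : CW K) :
    cl0 K (Finsupp.single L f) = f * (if L = [] then 0 else cy K L) := by
  unfold cl0
  rw [Finsupp.linearCombination_single, smul_eq_mul]

theorem cl0_pre (t : Bool) (L : List Bool) (x : RW K) :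
    cl0 K (pre (t :: L) x) = clw K (pre (t :: L) x) := by
  induction x using Finsupp.induction_linear with
  | zero => simp
  | add p q hp hq => rw [map_add, map_add, map_add, hp, hq]
  | single X h =>
    rw [pre_single, cl0_single, if_neg (by simp)]
    unfold clw
    rw [Finsupp.linearCombination_single, smul_eq_mul]

/-- The word instance. -/
def wm (al : K) : WMod K (RW K) (CW K) where
  T0 := Pool.Agent.MJF.T al false
  T1 := Pool.Agent.MJF.T al true
  x0 := (pre [false] : RW K →ₗ[CW K] RW K).restrictScalars K
  x1 := (pre [true] : RW K →ₗ[CW K] RW K).restrictScalars K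
  cl := (cl0 K).restrictScalars K
  i := iw K
  F := fgR K
  Fc := (fgt K).toLinearMap
  e := 1

theorem iw_apply (f : CW K) : iw K f = Finsupp.single [] f := rfl

theorem T_single (al : K) (t : Bool) (L : List Bool) (f : CW K) :
    Pool.Agent.MJF.T al t (Finsupp.single L f) = f • tch al t L + app L (MJF.J al t f) :=
  opr_single _ _ _ _

theorem forget (al : K) : ForgetSt al (wm al) where
  x0 := by
    intro x
    change fgR K (pre [false] x) = _
    rw [fgR_pre, List.length_singleton, pow_one]
    rfl
  x1 := by
    intro x
    change fgR K (pre [true] x) = _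
    rw [fgR_pre, List.length_singleton, pow_one]
    rfl
  t := by
    intro x
    change fgR K (MJF.T al false x) + fgR K (MJF.T al true x) = Zf al (fgR K x)
    induction x using Finsupp.induction_linear with
    | zero => simp
    | add p q hp hq =>
      rw [map_add, map_add, map_add, map_add, map_add, map_add, ← hp, ← hq]
      abel
    | single L f =>
      rw [T_single, T_single, map_add, map_add, fgR_smul, fgR_smul, fgR_app, fgR_app,
        fgR_single, Zf_monomial, ← fgR_tch, ← fgR_J]
      ring
  cl := by
    intro x
    change fgt K (cl0 K x) = Tr (fgR K x)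
    induction x using Finsupp.induction_linear with
    | zero => simp
    | add p q hp hq => rw [map_add, map_add, map_add, map_add, hp, hq]
    | single L f =>
      rw [cl0_single, fgR_single, map_mul]
      by_cases hL : L = []
      · rw [if_pos hL, map_zero, mul_zero, hL, List.length_nil, Polynomial.monomial_zero_left,
          Tr_C]
      · rw [if_neg hL, fgt_cy, Tr_monomial _ (fun h => hL (List.length_eq_zero_iff.mp h)),
          mul_comm]
  i := by
    intro y
    change fgR K (iw K y) = _
    rw [iw_apply, fgR_single, List.length_nil, Polynomial.monomial_zero_left]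
    rfl

end WordM

end

end Pool.Agent.MJT
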